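import Pool.Agent.W2helper4.TS.Om

/-!
# The torsor of all isomorphisms which respect the de Rham–Betti classes
-/

set_option autoImplicit false
set_option linter.unusedSectionVars false
set_option maxHeartbeats 1000000

open Matrix Module

noncomputable section

namespace Pool.Agent.W2helper4.TS

open Pool.Agent.TH127.PT Pool.Agent.Y123.ST Pool.Agent.W2helper33.OQ Pool.Agent.W2helper33.BD Pool.Agent.Y113.MT

section drb

variable {B : Type} [Fintype B] [DecidableEq B]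

/-- the tensor power of a matrix, for a finite index type -/
def kr (ι : Type) [Fintype ι] (X : Matrix B B ℂ) : Matrix (ι → B) (ι → B) ℂ := Matrix.of fun i j => ∏ a, X (i a) (j a)

theorem kr_mul (ι : Type) [Fintype ι] [DecidableEq ι] (X Y : Matrix B B ℂ) : kr ι (X * Y) = kr ι X * kr ι Y := by
  ext i j
  rw [Matrix.mul_apply]
  simp only [kr, Matrix.of_apply, Matrix.mul_apply]
  rw [Finset.prod_univ_sum, Fintype.piFinset_univ]
  refine Finset.sum_congr rfl fun k _ => ?_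
  rw [Finset.prod_mul_distrib]

theorem kr_one (ι : Type) [Fintype ι] [DecidableEq ι] : kr ι (1 : Matrix B B ℂ) = 1 := by
  ext i j
  by_cases h : i = j
  · subst h
    simp [kr]
  · obtain ⟨a, ha⟩ := Function.ne_iff.1 h
    rw [Matrix.one_apply_ne h]
    exact Finset.prod_eq_zero (Finset.mem_univ a) (Matrix.one_apply_ne ha)

theorem kr_transpose (ι : Type) [Fintype ι] (X : Matrix B B ℂ) : (kr ι X)ᵀ = kr ι Xᵀ := rfl

/-- a rational matrix as a complex matrix -/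
def cQ {α β : Type} (M : Matrix α β ℚ) : Matrix α β ℂ := M.map fun q : ℚ => (q : ℂ)

/-- a matrix over a subfield as a complex matrix -/
def cK {K : Subfield ℂ} {α β : Type} (M : Matrix α β K) : Matrix α β ℂ := M.map fun q : K => (q : ℂ)

/-- all isomorphisms which respect all de Rham–Betti classes -/
def DR (K : Subfield ℂ) (c : Matrix B B ℂ) : Set (Matrix B B ℂ) :=
  {X | IsUnit X ∧ ∀ (k l : ℕ) (tR : Matrix (Fin k → B) (Fin l → B) K) (tB : Matrix (Fin k → B) (Fin l → B) ℚ),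
    kr (Fin k) c * cQ tB = cK tR * kr (Fin l) c → kr (Fin k) X * cQ tB = cK tR * kr (Fin l) X}

theorem DR_self {K : Subfield ℂ} {c : Matrix B B ℂ} (hc : IsUnit c) : c ∈ DR K c := ⟨hc, fun _ _ _ _ h => h⟩

theorem DR_torsor {K : Subfield ℂ} {c : Matrix B B ℂ} : ∀ x ∈ DR K c, ∀ y ∈ DR K c, ∀ z ∈ DR K c, x * y⁻¹ * z ∈ DR K c := by
  rintro x ⟨hx, hx'⟩ y ⟨hy, hy'⟩ z ⟨hz, hz'⟩
  have hyd : IsUnit y.det := (Matrix.isUnit_iff_isUnit_det _).1 hy
  refine ⟨(hx.mul ((Matrix.isUnit_nonsing_inv_iff).2 hy)).mul hz, fun k l tR tB h => ?_⟩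
  have h1 := hx' k l tR tB h
  have h2 := hy' k l tR tB h
  have h3 := hz' k l tR tB h
  have h4 : kr (Fin k) y⁻¹ * cK tR = cQ tB * kr (Fin l) y⁻¹ := by
    have e1 : kr (Fin l) y * kr (Fin l) y⁻¹ = 1 := by
      rw [← kr_mul, Matrix.mul_nonsing_inv _ hyd, kr_one]
    have e2 : kr (Fin k) y⁻¹ * kr (Fin k) y = 1 := by
      rw [← kr_mul, Matrix.nonsing_inv_mul _ hyd, kr_one]
    calc kr (Fin k) y⁻¹ * cK tR = kr (Fin k) y⁻¹ * (cK tR * kr (Fin l) y) * kr (Fin l) y⁻¹ := by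
          rw [Matrix.mul_assoc, Matrix.mul_assoc, e1, Matrix.mul_one]
      _ = cQ tB * kr (Fin l) y⁻¹ := by
          rw [← h2, ← Matrix.mul_assoc, e2, Matrix.one_mul]
  rw [kr_mul, kr_mul, kr_mul, kr_mul, Matrix.mul_assoc, h3]
  calc kr (Fin k) x * kr (Fin k) y⁻¹ * (cK tR * kr (Fin l) z) = kr (Fin k) x * (kr (Fin k) y⁻¹ * cK tR) * kr (Fin l) z := by
        simp only [Matrix.mul_assoc]
    _ = (kr (Fin k) x * cQ tB) * kr (Fin l) y⁻¹ * kr (Fin l) z := by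
        rw [h4]
        simp only [Matrix.mul_assoc]
    _ = _ := by
        rw [h1]
        simp only [Matrix.mul_assoc]

theorem DR_eqs (K : Subfield ℂ) (c : Matrix B B ℂ) : ∃ I : Set (MvPolynomial (B × B) K), ∀ x : Matrix B B ℂ, x ∈ DR K c ↔
      IsUnit x ∧ ∀ p ∈ I, MvPolynomial.eval (fun b => x b.1 b.2) (MvPolynomial.map (algebraMap K ℂ) p) = 0 := by
  refine ⟨{p | ∃ (k l : ℕ) (tR : Matrix (Fin k → B) (Fin l → B) K) (tB : Matrix (Fin k → B) (Fin l → B) ℚ),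
    kr (Fin k) c * cQ tB = cK tR * kr (Fin l) c ∧ ∃ (i : Fin k → B) (j : Fin l → B),
      p = ∑ u : Fin k → B, (∏ a, MvPolynomial.X (i a, u a)) * MvPolynomial.C ((tB u j : ℚ) : K) -
        ∑ v : Fin l → B, MvPolynomial.C (tR i v) * ∏ a, MvPolynomial.X (v a, j a)}, fun x => and_congr_right fun hx => ?_⟩
  have hev : ∀ (k l : ℕ) (tR : Matrix (Fin k → B) (Fin l → B) K) (tB : Matrix (Fin k → B) (Fin l → B) ℚ)
      (i : Fin k → B) (j : Fin l → B), MvPolynomial.eval (fun b : B × B => x b.1 b.2) (MvPolynomial.map (algebraMap K ℂ)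
        (∑ u : Fin k → B, (∏ a, MvPolynomial.X (i a, u a)) * MvPolynomial.C ((tB u j : ℚ) : K) -
        ∑ v : Fin l → B, MvPolynomial.C (tR i v) * ∏ a, MvPolynomial.X (v a, j a))) =
        (kr (Fin k) x * cQ tB) i j - (cK tR * kr (Fin l) x) i j := by
    intro k l tR tB i j
    simp only [map_sub, map_sum, map_mul, map_prod, MvPolynomial.map_X, MvPolynomial.map_C, MvPolynomial.eval_X,
      MvPolynomial.eval_C]
    rw [Matrix.mul_apply, Matrix.mul_apply]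
    congr 1
  constructor
  · rintro h _ ⟨k, l, tR, tB, h1, i, j, rfl⟩
    rw [hev, h k l tR tB h1, sub_self]
  · intro h k l tR tB h1
    ext i j
    have h2 := h _ ⟨k, l, tR, tB, h1, i, j, rfl⟩
    rw [hev, sub_eq_zero] at h2
    exact h2

theorem kr_reindex {κ : Type} [Fintype κ] (X : Matrix B B ℂ) :
    kr (Fin (Fintype.card κ)) X = (kr κ X).submatrix (Equiv.arrowCongr (Fintype.equivFin κ).symm (Equiv.refl B))
      (Equiv.arrowCongr (Fintype.equivFin κ).symm (Equiv.refl B)) := by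
  ext i j
  exact (Equiv.prod_comp (Fintype.equivFin κ) (fun a => X (i a) (j a))).symm

/-- classes with arbitrary index types -/
theorem DR_gen {K : Subfield ℂ} {c X : Matrix B B ℂ} (hX : X ∈ DR K c) {κ₁ κ₂ : Type} [Fintype κ₁] [Fintype κ₂]
    [DecidableEq κ₁] [DecidableEq κ₂]
    (tR : Matrix (κ₁ → B) (κ₂ → B) K) (tB : Matrix (κ₁ → B) (κ₂ → B) ℚ)
    (h : kr κ₁ c * cQ tB = cK tR * kr κ₂ c) : kr κ₁ X * cQ tB = cK tR * kr κ₂ X := by
  set e₁ : (Fin (Fintype.card κ₁) → B) ≃ (κ₁ → B) := Equiv.arrowCongr (Fintype.equivFin κ₁).symm (Equiv.refl B) with he₁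
  set e₂ : (Fin (Fintype.card κ₂) → B) ≃ (κ₂ → B) := Equiv.arrowCongr (Fintype.equivFin κ₂).symm (Equiv.refl B) with he₂
  have h1 : ∀ Y : Matrix B B ℂ, kr (Fin (Fintype.card κ₁)) Y * cQ (tB.submatrix e₁ e₂) =
      (kr κ₁ Y * cQ tB).submatrix e₁ e₂ := by
    intro Y
    rw [kr_reindex, ← he₁]
    exact Matrix.submatrix_mul_equiv (kr κ₁ Y) (cQ tB) e₁ e₁ e₂
  have h2 : ∀ Y : Matrix B B ℂ, cK (tR.submatrix e₁ e₂) * kr (Fin (Fintype.card κ₂)) Y =
      (cK tR * kr κ₂ Y).submatrix e₁ e₂ := by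
    intro Y
    rw [kr_reindex, ← he₂]
    exact Matrix.submatrix_mul_equiv (cK tR) (kr κ₂ Y) e₁ e₂ e₂
  have h3 := hX.2 _ _ (tR.submatrix e₁ e₂) (tB.submatrix e₁ e₂) (by rw [h1, h2, h])
  rw [h1, h2] at h3
  ext i j
  have h4 := congrFun (congrFun h3 (e₁.symm i)) (e₂.symm j)
  rw [Matrix.submatrix_apply, Matrix.submatrix_apply, Equiv.apply_symm_apply, Equiv.apply_symm_apply] at h4
  exact h4

/-- products of bilinear forms -/
def Tn {F : Type} [CommSemiring F] {ι : Type} [Fintype ι] (f : ι → Matrix B B F) (i : ι ⊕ ι → B) : F :=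
  ∏ y, f y (i (Sum.inl y)) (i (Sum.inr y))

/-- pairs of functions -/
def pe (ι : Type) : (ι → B × B) ≃ (ι ⊕ ι → B) where
  toFun f := Sum.elim (fun y => (f y).1) fun y => (f y).2
  invFun g := fun y => (g (Sum.inl y), g (Sum.inr y))
  left_inv f := by
    funext y
    rfl
  right_inv g := by
    funext y
    rcases y with y | y <;> rfl

theorem kr_Tn {ι : Type} [Fintype ι] [DecidableEq ι] (X : Matrix B B ℂ) (f : ι → Matrix B B ℂ) (i : ι ⊕ ι → B) :
    ∑ u, kr (ι ⊕ ι) X i u * Tn f u = Tn (fun y => X * f y * Xᵀ) i := by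
  unfold Tn
  have h1 : ∀ y, (X * f y * Xᵀ) (i (Sum.inl y)) (i (Sum.inr y)) =
      ∑ p : B × B, X (i (Sum.inl y)) p.1 * X (i (Sum.inr y)) p.2 * f y p.1 p.2 := by
    intro y
    rw [Matrix.mul_apply, Fintype.sum_prod_type_right]
    refine Finset.sum_congr rfl fun q _ => ?_
    rw [Matrix.mul_apply, Finset.sum_mul]
    refine Finset.sum_congr rfl fun p _ => ?_
    rw [Matrix.transpose_apply]
    ring
  simp only [h1]
  rw [Finset.prod_univ_sum, Fintype.piFinset_univ]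
  refine (Fintype.sum_equiv (pe (B := B) ι) _ _ fun g => ?_).symm
  rw [Finset.prod_mul_distrib, Finset.prod_mul_distrib]
  congr 1
  exact (Fintype.prod_sum_type (fun a : ι ⊕ ι => X (i a) (pe ι g a))).symm

theorem Tn_kr {ι : Type} [Fintype ι] [DecidableEq ι] (X : Matrix B B ℂ) (f : ι → Matrix B B ℂ) (j : ι ⊕ ι → B) :
    ∑ u, Tn f u * kr (ι ⊕ ι) X u j = Tn (fun y => Xᵀ * f y * X) j := by
  have h1 := kr_Tn Xᵀ f j
  rw [Matrix.transpose_transpose] at h1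
  rw [← h1]
  exact Finset.sum_congr rfl fun u _ => mul_comm _ _

theorem Tn_smul {ι : Type} [Fintype ι] (φ : ι → ℂ) (f : ι → Matrix B B ℂ) (i : ι ⊕ ι → B) :
    Tn (fun y => φ y • f y) i = (∏ y, φ y) * Tn f i := by
  unfold Tn
  rw [← Finset.prod_mul_distrib]
  rfl

theorem Tn_cQ {ι : Type} [Fintype ι] (f : ι → Matrix B B ℚ) (i : ι ⊕ ι → B) :
    ((Tn f i : ℚ) : ℂ) = Tn (fun y => cQ (f y)) i := by
  unfold Tn
  push_cast
  rfl

/-- **The classes which are products of bilinear forms.** -/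
theorem DR_prod {K : Subfield ℂ} {c X : Matrix B B ℂ} (hX : X ∈ DR K c) {ι₁ ι₂ : Type} [Fintype ι₁] [Fintype ι₂]
    [DecidableEq ι₁] [DecidableEq ι₂] (F F' : ι₁ → Matrix B B ℚ) (G G' : ι₂ → Matrix B B ℚ) (φ : ι₁ → ℂ) (ψ : ι₂ → ℂ)
    (hF : ∀ y, c * cQ (F y) * cᵀ = φ y • cQ (F' y)) (hG : ∀ y, cᵀ * cQ (G' y) * c = ψ y • cQ (G y))
    (h : ∏ y, φ y = ∏ y, ψ y) (i : ι₁ ⊕ ι₁ → B) (j : ι₂ ⊕ ι₂ → B) :
    Tn (fun y => X * cQ (F y) * Xᵀ) i * Tn (fun y => cQ (G y)) j =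
      Tn (fun y => cQ (F' y)) i * Tn (fun y => Xᵀ * cQ (G' y) * X) j := by
  let tB : Matrix (ι₁ ⊕ ι₁ → B) (ι₂ ⊕ ι₂ → B) ℚ := Matrix.of fun i j => Tn F i * Tn G j
  let tR : Matrix (ι₁ ⊕ ι₁ → B) (ι₂ ⊕ ι₂ → B) K := Matrix.of fun i j => ((Tn F' i * Tn G' j : ℚ) : K)
  have h1 : ∀ (Y : Matrix B B ℂ) (i : ι₁ ⊕ ι₁ → B) (j : ι₂ ⊕ ι₂ → B), (kr (ι₁ ⊕ ι₁) Y * cQ tB) i j =
      Tn (fun y => Y * cQ (F y) * Yᵀ) i * Tn (fun y => cQ (G y)) j := by
    intro Y i j
    rw [Matrix.mul_apply, ← kr_Tn, Finset.sum_mul]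
    refine Finset.sum_congr rfl fun u _ => ?_
    have e1 : cQ tB u j = Tn (fun y => cQ (F y)) u * Tn (fun y => cQ (G y)) j := by
      rw [← Tn_cQ, ← Tn_cQ]
      change ((Tn F u * Tn G j : ℚ) : ℂ) = _
      push_cast
      rfl
    rw [e1, mul_assoc]
  have h2 : ∀ (Y : Matrix B B ℂ) (i : ι₁ ⊕ ι₁ → B) (j : ι₂ ⊕ ι₂ → B), (cK tR * kr (ι₂ ⊕ ι₂) Y) i j =
      Tn (fun y => cQ (F' y)) i * Tn (fun y => Yᵀ * cQ (G' y) * Y) j := by
    intro Y i j
    rw [Matrix.mul_apply, ← Tn_kr, Finset.mul_sum]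
    refine Finset.sum_congr rfl fun u _ => ?_
    have e1 : cK tR i u = Tn (fun y => cQ (F' y)) i * Tn (fun y => cQ (G' y)) u := by
      rw [← Tn_cQ, ← Tn_cQ]
      change ((((Tn F' i * Tn G' u : ℚ) : K)) : ℂ) = _
      push_cast
      rfl
    rw [e1, mul_assoc]
  have h3 : kr (ι₁ ⊕ ι₁) c * cQ tB = cK tR * kr (ι₂ ⊕ ι₂) c := by
    ext i j
    rw [h1, h2]
    simp only [hF, hG]
    rw [Tn_smul, Tn_smul, h]
    ring
  have h4 := DR_gen hX tR tB h3
  rw [← h1, ← h2, h4]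

end drb

section main

variable {s : ℕ} {m : Fin s → ℕ}

/-- a form on one block -/
def sg (m : Fin s → ℕ) (a : Fin s) (M : Matrix (Fin (2 * m a)) (Fin (2 * m a)) ℚ) : Matrix (BI m) (BI m) ℚ :=
  Matrix.blockDiagonal' (Pi.single a M : ∀ b, Matrix (Fin (2 * m b)) (Fin (2 * m b)) ℚ)

theorem cQ_sg (a : Fin s) (M : Matrix (Fin (2 * m a)) (Fin (2 * m a)) ℚ) : cQ (sg m a M) = bd (Pi.single a (cq M) : Bk m) := by
  unfold cQ sg bd
  rw [Matrix.blockDiagonal'_map _ _ (by simp)]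
  congr 1
  funext b
  rcases eq_or_ne b a with rfl | hb
  · rw [Pi.single_eq_same, Pi.single_eq_same]
    rfl
  · rw [Pi.single_eq_of_ne hb, Pi.single_eq_of_ne hb]
    ext i j
    simp

theorem bd_tr (X : Bk m) : (bd X)ᵀ = bd fun b => (X b)ᵀ := Matrix.blockDiagonal'_transpose X

theorem bd_conj (X Y : Bk m) (a : Fin s) (M : Matrix (Fin (2 * m a)) (Fin (2 * m a)) ℂ) :
    bd X * bd (Pi.single a M : Bk m) * bd Y = bd (Pi.single a (X a * M * Y a) : Bk m) := by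
  rw [← bd_mul, ← bd_mul]
  congr 1
  funext b
  rcases eq_or_ne b a with rfl | hb
  · rw [Pi.single_eq_same, Pi.single_eq_same]
  · rw [Pi.single_eq_of_ne hb, Pi.single_eq_of_ne hb, Matrix.mul_zero, Matrix.zero_mul]

theorem single_smul' (a : Fin s) (t : ℂ) (X : Matrix (Fin (2 * m a)) (Fin (2 * m a)) ℂ) :
    bd (Pi.single a (t • X) : Bk m) = t • bd (Pi.single a X : Bk m) := bd_single_smul a t X

variable {A : ∀ b, Matrix (Fin (2 * m b)) (Fin (2 * m b)) ℚ} {w : Fin s → ℕ} {K : Subfield ℂ} {c : Bk m} {κ : ℂ}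

/-- the matrix is block diagonal -/
theorem DR_block {X : Matrix (BI m) (BI m) ℂ} (hX : X ∈ DR K (bd c)) : X = bd (bl X) := by
  ext ⟨a, i⟩ ⟨b, j⟩
  by_cases hab : a = b
  · subst hab
    rw [bd_eq]
    rfl
  · rw [bd_ne _ hab]
    let tB : Matrix (Unit → BI m) (Unit → BI m) ℚ := Matrix.of fun u v => if u = v ∧ (u ()).1 = a then 1 else 0
    let tR : Matrix (Unit → BI m) (Unit → BI m) K := Matrix.of fun u v => if u = v ∧ (u ()).1 = a then 1 else 0
    have h1 : ∀ (Y : Matrix (BI m) (BI m) ℂ) (u v : Unit → BI m), (kr Unit Y * cQ tB) u v =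
        if (v ()).1 = a then Y (u ()) (v ()) else 0 := by
      intro Y u v
      rw [Matrix.mul_apply, Finset.sum_eq_single v]
      · simp only [kr, cQ, tB, Matrix.of_apply, Matrix.map_apply, true_and]
        split_ifs <;> simp
      · intro x _ hx
        simp only [cQ, tB, Matrix.of_apply, Matrix.map_apply]
        rw [if_neg (fun h => hx h.1)]
        simp
      · intro h
        exact absurd (Finset.mem_univ v) h
    have h2 : ∀ (Y : Matrix (BI m) (BI m) ℂ) (u v : Unit → BI m), (cK tR * kr Unit Y) u v =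
        if (u ()).1 = a then Y (u ()) (v ()) else 0 := by
      intro Y u v
      rw [Matrix.mul_apply, Finset.sum_eq_single u]
      · simp only [kr, cK, tR, Matrix.of_apply, Matrix.map_apply, true_and]
        split_ifs <;> simp
      · intro x _ hx
        simp only [cK, tR, Matrix.of_apply, Matrix.map_apply]
        rw [if_neg (fun h => hx h.1.symm)]
        simp
      · intro h
        exact absurd (Finset.mem_univ u) h
    have h3 := DR_gen hX tR tB (by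
      ext u v
      rw [h1, h2]
      by_cases huv : (u ()).1 = (v ()).1
      · rw [huv]
      · have h4 : bd c (u ()) (v ()) = 0 := bd_ne c huv _ _
        rw [h4, ite_self, ite_self])
    have h4 := congrFun (congrFun h3 fun _ => ⟨a, i⟩) fun _ => ⟨b, j⟩
    rw [h1, h2] at h4
    simp only [if_true] at h4
    rw [if_neg (fun h => hab h.symm)] at h4
    exact h4.symm

theorem DR_le (hm : ∀ a, 1 ≤ m a) (hw : ∀ a, 1 ≤ w a) (hκ : κ ≠ 0)
    (hc : ∀ a, c a * cq (A a) * (c a)ᵀ = κ ^ w a • SS ℂ (2 * m a)) : DR K (bd c) ⊆ EE m A w := by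
  classical
  intro X hX
  have hm0 : ∀ a, 0 < 2 * m a := fun a => by have := hm a; omega
  have hcu : ∀ a, IsUnit (c a).det := fun a => sim_unit (pow_ne_zero _ hκ) (hc a)
  have hXb := DR_block hX
  -- the determinant of the form
  have hAd : ∀ a, IsUnit (A a).det := by
    intro a
    rw [isUnit_iff_ne_zero]
    intro h0
    have h1 := congrArg Matrix.det (hc a)
    have h2 : (cq (A a)).det = 0 := by
      have h3 : (cq (A a)).det = (((A a).det : ℚ) : ℂ) := by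
        have := (RingHom.map_det (algebraMap ℚ ℂ) (A a)).symm
        exact this
      rw [h3, h0, Rat.cast_zero]
    rw [Matrix.det_mul, Matrix.det_mul, h2, mul_zero, zero_mul, Matrix.det_smul] at h1
    rcases mul_eq_zero.1 h1.symm with h3 | h3
    · exact pow_ne_zero _ (pow_ne_zero _ hκ) h3
    · exact SS_det (F := ℂ) _ h3
  have hAi : ∀ a, cq (A a) * cq (A a)⁻¹ = 1 := by
    intro a
    have h1 : (A a) * (A a)⁻¹ = 1 := Matrix.mul_nonsing_inv _ (hAd a)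
    have h2 : cq (A a) * cq (A a)⁻¹ = cq (A a * (A a)⁻¹) := (Matrix.map_mul (f := algebraMap ℚ ℂ)).symm
    rw [h2, h1]
    ext i j
    rw [Matrix.one_apply]
    change (((1 : Matrix (Fin (2 * m a)) (Fin (2 * m a)) ℚ) i j : ℚ) : ℂ) = _
    rw [Matrix.one_apply]
    split_ifs <;> simp
  -- the inverse form
  have hinv : ∀ (a : Fin s) (Y : Matrix (Fin (2 * m a)) (Fin (2 * m a)) ℂ) (f : ℂ), f ≠ 0 →
      Y * cq (A a) * Yᵀ = f • SS ℂ (2 * m a) → Yᵀ * cq (-SS ℚ (2 * m a)) * Y = f • cq (A a)⁻¹ := by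
    intro a Y f hf hY
    have hYu : IsUnit Y.det := sim_unit hf hY
    have e1 : cq (-SS ℚ (2 * m a)) = -SS ℂ (2 * m a) := by
      have h1 := W2helper4.CY.cq_SS (2 * m a)
      ext i j
      have h2 := congrFun (congrFun h1 i) j
      change (((-SS ℚ (2 * m a)) i j : ℚ) : ℂ) = _
      rw [Matrix.neg_apply, Matrix.neg_apply, ← h2]
      push_cast
      rfl
    have e2 : SS ℂ (2 * m a) * SS ℂ (2 * m a) = -1 := SS_sq (m a)
    have e3 : Y * (cq (A a) * (Yᵀ * cq (-SS ℚ (2 * m a)) * Y)) = Y * (f • (1 : Matrix (Fin (2 * m a)) (Fin (2 * m a)) ℂ)) := by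
      calc Y * (cq (A a) * (Yᵀ * cq (-SS ℚ (2 * m a)) * Y)) = (Y * cq (A a) * Yᵀ) * cq (-SS ℚ (2 * m a)) * Y := by
            simp only [Matrix.mul_assoc]
        _ = Y * (f • (1 : Matrix (Fin (2 * m a)) (Fin (2 * m a)) ℂ)) := by
            rw [hY, e1, Matrix.smul_mul, Matrix.mul_neg, e2, neg_neg, Matrix.smul_mul, Matrix.one_mul, Matrix.mul_smul,
              Matrix.mul_one]
    have e4 : cq (A a) * (Yᵀ * cq (-SS ℚ (2 * m a)) * Y) = f • (1 : Matrix (Fin (2 * m a)) (Fin (2 * m a)) ℂ) := by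
      have h1 := congrArg (fun M => Y⁻¹ * M) e3
      simp only [← Matrix.mul_assoc, Matrix.nonsing_inv_mul _ hYu, Matrix.one_mul] at h1
      simp only [← Matrix.mul_assoc]
      exact h1
    have hAi' : cq (A a)⁻¹ * cq (A a) = 1 := mul_eq_one_comm.1 (hAi a)
    calc Yᵀ * cq (-SS ℚ (2 * m a)) * Y = (cq (A a)⁻¹ * cq (A a)) * (Yᵀ * cq (-SS ℚ (2 * m a)) * Y) := by
          rw [hAi', Matrix.one_mul]
      _ = f • cq (A a)⁻¹ := by
          rw [Matrix.mul_assoc, e4, Matrix.mul_smul, Matrix.mul_one]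
  -- an entry of the inverse form
  have hpq : ∀ a, ∃ p q : Fin (2 * m a), (A a)⁻¹ p q ≠ 0 := by
    intro a
    by_contra hcon
    push Not at hcon
    have h1 : (A a)⁻¹ = 0 := by
      ext i j
      exact hcon i j
    have h2 : (A a) * (A a)⁻¹ = 1 := Matrix.mul_nonsing_inv _ (hAd a)
    rw [h1, Matrix.mul_zero] at h2
    have h3 := congrFun (congrFun h2 ⟨0, hm0 a⟩) ⟨0, hm0 a⟩
    rw [Matrix.one_apply_eq] at h3
    exact zero_ne_one h3
  choose p q hpq using hpq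
  -- conjugates
  have hL : ∀ (Y : Bk m) (a : Fin s), bd Y * cQ (sg m a (A a)) * (bd Y)ᵀ = bd (Pi.single a (Y a * cq (A a) * (Y a)ᵀ) : Bk m) := by
    intro Y a
    rw [cQ_sg, bd_tr, bd_conj]
  have hR : ∀ (Y : Bk m) (a : Fin s), (bd Y)ᵀ * cQ (sg m a (-SS ℚ (2 * m a))) * bd Y =
      bd (Pi.single a ((Y a)ᵀ * cq (-SS ℚ (2 * m a)) * Y a) : Bk m) := by
    intro Y a
    rw [cQ_sg, bd_tr, bd_conj]
  have hSS : ∀ a, cq (SS ℚ (2 * m a)) = SS ℂ (2 * m a) := fun a => W2helper4.CY.cq_SS (2 * m a)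
  have hcL : ∀ a, bd c * cQ (sg m a (A a)) * (bd c)ᵀ = κ ^ w a • cQ (sg m a (SS ℚ (2 * m a))) := by
    intro a
    rw [hL, hc a, single_smul', cQ_sg, hSS]
  have hcR : ∀ a, (bd c)ᵀ * cQ (sg m a (-SS ℚ (2 * m a))) * bd c = κ ^ w a • cQ (sg m a (A a)⁻¹) := by
    intro a
    rw [hR, hinv a (c a) _ (pow_ne_zero _ hκ) (hc a), single_smul', cQ_sg]
  -- similitudes
  have hXu : ∀ a, IsUnit (bl X a).det := by
    intro a
    have h1 := hX.1
    rw [hXb] at h1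
    exact unit_bd h1 a
  have hsim : ∀ a, ∃ f : ℂ, f ≠ 0 ∧ bl X a * cq (A a) * (bl X a)ᵀ = f • SS ℂ (2 * m a) := by
    intro a
    have h1 := fun (i j : Unit ⊕ Unit → BI m) => DR_prod hX (fun _ : Unit => sg m a (A a)) (fun _ => sg m a (SS ℚ (2 * m a)))
      (fun _ : Unit => sg m a (A a)⁻¹) (fun _ => sg m a (-SS ℚ (2 * m a))) (fun _ => κ ^ w a) (fun _ => κ ^ w a)
      (fun _ => hcL a) (fun _ => hcR a) rfl i j
    have h2 : ∀ i0 i1 j0 j1 : Fin (2 * m a), (bl X a * cq (A a) * (bl X a)ᵀ) i0 i1 * cq (A a)⁻¹ j0 j1 =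
        SS ℂ (2 * m a) i0 i1 * ((bl X a)ᵀ * cq (-SS ℚ (2 * m a)) * bl X a) j0 j1 := by
      intro i0 i1 j0 j1
      have h3 := h1 (Sum.elim (fun _ => ⟨a, i0⟩) fun _ => ⟨a, i1⟩) (Sum.elim (fun _ => ⟨a, j0⟩) fun _ => ⟨a, j1⟩)
      unfold Tn at h3
      simp only [Finset.univ_unique, Finset.prod_singleton, Sum.elim_inl, Sum.elim_inr] at h3
      rw [hXb, hL, hR, cQ_sg, cQ_sg, bd_eq, bd_eq, bd_eq, bd_eq, Pi.single_eq_same, Pi.single_eq_same, Pi.single_eq_same,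
        Pi.single_eq_same, hSS] at h3
      rw [hXb]
      simp only [bl_bd] at h3 ⊢
      exact h3
    have h4 : cq (A a)⁻¹ (p a) (q a) ≠ 0 := by
      intro h0
      have h0' : (((A a)⁻¹ (p a) (q a) : ℚ) : ℂ) = 0 := h0
      exact hpq a (by exact_mod_cast h0')
    have h5 : bl X a * cq (A a) * (bl X a)ᵀ =
        (((bl X a)ᵀ * cq (-SS ℚ (2 * m a)) * bl X a) (p a) (q a) / cq (A a)⁻¹ (p a) (q a)) • SS ℂ (2 * m a) := by
      ext i j
      rw [Matrix.smul_apply, smul_eq_mul, div_mul_eq_mul_div, eq_div_iff h4, h2 i j (p a) (q a)]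
      ring
    refine ⟨_, fun h0 => ?_, h5⟩
    rw [h0, zero_smul] at h5
    have h6 := congrArg Matrix.det h5
    have h7 : (cq (A a)).det ≠ 0 := by
      have h8 := congrArg Matrix.det (hAi a)
      rw [Matrix.det_mul, Matrix.det_one] at h8
      exact left_ne_zero_of_mul_eq_one h8
    have : Nonempty (Fin (2 * m a)) := ⟨⟨0, hm0 a⟩⟩
    rw [Matrix.det_mul, Matrix.det_mul, Matrix.det_transpose, Matrix.det_zero] at h6
    exact mul_ne_zero (mul_ne_zero (hXu a).ne_zero h7) (hXu a).ne_zero h6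
  choose f hf0 hf using hsim
  obtain ⟨μ, hμ, hμf⟩ := exists_root hw hf0 (fun n n' hn => by
    have h1 := DR_prod hX (ι₁ := Σ a, Fin (n a)) (ι₂ := Σ a, Fin (n' a)) (fun y => sg m y.1 (A y.1))
      (fun y => sg m y.1 (SS ℚ (2 * m y.1)))
      (fun y => sg m y.1 (A y.1)⁻¹) (fun y => sg m y.1 (-SS ℚ (2 * m y.1))) (fun y => κ ^ w y.1) (fun y => κ ^ w y.1)
      (fun y => hcL y.1) (fun y => hcR y.1) (by
        have e1 : ∀ n : Fin s → ℕ, ∏ y : Σ a, Fin (n a), κ ^ w y.1 = κ ^ ∑ a, n a * w a := by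
          intro n
          rw [Fintype.prod_sigma, ← Finset.prod_pow_eq_pow_sum]
          refine Finset.prod_congr rfl fun a _ => ?_
          change ∏ _y : Fin (n a), κ ^ w a = _
          rw [Finset.prod_const, Finset.card_univ, Fintype.card_fin, ← pow_mul, mul_comm]
        rw [e1, e1, hn])
      (Sum.elim (fun y => ⟨y.1, ⟨0, hm0 y.1⟩⟩) fun y => ⟨y.1, Fin.rev ⟨0, hm0 y.1⟩⟩)
      (Sum.elim (fun y => ⟨y.1, p y.1⟩) fun y => ⟨y.1, q y.1⟩)
    have e2 : (fun y : Σ a, Fin (n a) => X * cQ (sg m y.1 (A y.1)) * Xᵀ) =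
        fun y => f y.1 • cQ (sg m y.1 (SS ℚ (2 * m y.1))) := by
      funext y
      rw [hXb, hL, hf, single_smul', cQ_sg, hSS]
    have e3 : (fun y : Σ a, Fin (n' a) => Xᵀ * cQ (sg m y.1 (-SS ℚ (2 * m y.1))) * X) =
        fun y => f y.1 • cQ (sg m y.1 (A y.1)⁻¹) := by
      funext y
      rw [hXb, hR, hinv y.1 _ _ (hf0 y.1) (hf y.1), single_smul', cQ_sg]
    rw [e2, e3, Tn_smul, Tn_smul] at h1
    have e4 : ∀ n : Fin s → ℕ, ∏ y : Σ a, Fin (n a), f y.1 = ∏ a, f a ^ n a := by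
      intro n
      rw [Fintype.prod_sigma]
      refine Finset.prod_congr rfl fun a _ => ?_
      change ∏ _y : Fin (n a), f a = _
      rw [Finset.prod_const, Finset.card_univ, Fintype.card_fin]
    rw [e4, e4] at h1
    have e5 : Tn (fun y : Σ a, Fin (n a) => cQ (sg m y.1 (SS ℚ (2 * m y.1))))
        (Sum.elim (fun y => (⟨y.1, ⟨0, hm0 y.1⟩⟩ : BI m)) fun y => ⟨y.1, Fin.rev ⟨0, hm0 y.1⟩⟩) = 1 := by
      unfold Tn
      refine Finset.prod_eq_one fun y _ => ?_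
      simp only [Sum.elim_inl, Sum.elim_inr]
      rw [cQ_sg, bd_eq, Pi.single_eq_same, hSS, SS_0]
    have e6 : Tn (fun y : Σ a, Fin (n' a) => cQ (sg m y.1 (A y.1)⁻¹))
        (Sum.elim (fun y => (⟨y.1, p y.1⟩ : BI m)) fun y => ⟨y.1, q y.1⟩) ≠ 0 := by
      unfold Tn
      refine Finset.prod_ne_zero_iff.2 fun y _ => ?_
      simp only [Sum.elim_inl, Sum.elim_inr]
      rw [cQ_sg, bd_eq, Pi.single_eq_same]
      intro h0
      have h0' : (((A y.1)⁻¹ (p y.1) (q y.1) : ℚ) : ℂ) = 0 := h0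
      exact hpq y.1 (by exact_mod_cast h0')
    rw [e5, mul_one, one_mul] at h1
    exact mul_right_cancel₀ e6 h1)
  refine ⟨μ, bl X, hμ, hXb, fun a => by rw [hf a, hμf a]⟩

end main

end Pool.Agent.W2helper4.TS
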