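import Pool.Agent.W2helper4.TS.Main3

/-!
# The number of independent periods
-/

set_option autoImplicit false
set_option linter.unusedSectionVars false
set_option maxHeartbeats 1000000

open Matrix Module

noncomputable section

namespace Pool.Agent.W2helper4.TS

open Pool.Agent.TH127.PT Pool.Agent.Y123.ST Pool.Agent.W2helper33.OQ Pool.Agent.W2helper33.BD Pool.Agent.Y113.MT

section coords
variable {ι : Type} [Fintype ι]

/-- **Coordinates of a subspace.** -/
theorem exists_crd (T : Submodule ℂ (ι → ℂ)) : ∃ (k : ℕ) (e : Fin k → ι), Function.Injective e ∧ finrank ℂ T ≤ k ∧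
    ∀ j, ∃ v ∈ T, ∀ j', v (e j') = if j' = j then 1 else 0 := by
  classical
  let w : ι → Module.Dual ℂ T := fun i => (LinearMap.proj i).comp T.subtype
  obtain ⟨b, hb1, hb2, hb3⟩ := exists_linearIndependent ℂ (Set.range w)
  have hfin : b.Finite := (Set.finite_range w).subset hb1
  have := hfin.to_subtype
  have := Fintype.ofFinite b
  let eq := Fintype.equivFin b
  choose a ha using fun x : b => hb1 x.2
  let L : T →ₗ[ℂ] (Fin (Fintype.card b) → ℂ) := LinearMap.pi fun j => w (a (eq.symm j))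
  have hL : ∀ v j, L v j = (v : ι → ℂ) (a (eq.symm j)) := fun v j => rfl
  have hinj : Function.Injective L := by
    rw [injective_iff_map_eq_zero]
    intro v hv
    have h1 : ∀ φ ∈ Submodule.span ℂ b, φ v = 0 := by
      intro φ hφ
      induction hφ using Submodule.span_induction with
      | mem φ hφ =>
        have h2 := congrFun hv (eq ⟨φ, hφ⟩)
        have h3 : w (a (eq.symm (eq ⟨φ, hφ⟩))) v = 0 := h2
        rw [Equiv.symm_apply_apply, ha] at h3
        exact h3
      | zero => rfl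
      | add x y _ _ hx hy => rw [LinearMap.add_apply, hx, hy, add_zero]
      | smul t x _ hx => rw [LinearMap.smul_apply, hx, smul_zero]
    ext i
    have h2 : w i ∈ Submodule.span ℂ b := by
      rw [hb2]
      exact Submodule.subset_span ⟨i, rfl⟩
    exact h1 _ h2
  have hc1 : finrank ℂ T ≤ Fintype.card b := by
    have h1 := LinearMap.finrank_le_finrank_of_injective hinj
    rwa [finrank_fintype_fun_eq_card, Fintype.card_fin] at h1
  have hc2 : Fintype.card b ≤ finrank ℂ T := by
    have h1 := hb3.fintype_card_le_finrank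
    rwa [Subspace.dual_finrank_eq] at h1
  have hsurj : Function.Surjective L := by
    refine (LinearMap.injective_iff_surjective_of_finrank_eq_finrank ?_).1 hinj
    rw [finrank_fintype_fun_eq_card, Fintype.card_fin]
    exact le_antisymm hc1 hc2
  refine ⟨Fintype.card b, fun j => a (eq.symm j), ?_, hc1, fun j => ?_⟩
  · intro j j' hjj
    have h1 : (eq.symm j : Module.Dual ℂ T) = eq.symm j' := by
      rw [← ha, ← ha (eq.symm j')]
      exact congrArg w hjj
    exact eq.symm.injective (Subtype.ext h1)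
  · obtain ⟨v, hv⟩ := hsurj (Pi.single j 1)
    refine ⟨v, v.2, fun j' => ?_⟩
    have h1 := congrFun hv j'
    rw [hL, Pi.single_apply] at h1
    exact h1

end coords

section poly
open MvPolynomial

/-- a polynomial without derivatives is constant -/
theorem C_of_pderiv {σ : Type} {P : MvPolynomial σ ℂ} (h : ∀ i, pderiv i P = 0) : P = C (P.coeff 0) := by
  classical
  ext μ
  rw [coeff_C]
  split_ifs with h0
  · rw [← h0]
  · obtain ⟨i, hi⟩ : ∃ i, μ i ≠ 0 := by
      by_contra hcon
      push Not at hcon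
      exact h0 (Finsupp.ext fun i => (hcon i).symm)
    have h1 := congrArg (coeff (μ - Finsupp.single i 1)) (h i)
    rw [coeff_pderiv, coeff_zero] at h1
    have h2 : μ - Finsupp.single i 1 + Finsupp.single i 1 = μ := by
      refine tsub_add_cancel_of_le ?_
      rw [Finsupp.single_le_iff]
      exact Nat.one_le_iff_ne_zero.2 hi
    rw [h2] at h1
    rcases mul_eq_zero.1 h1 with h3 | h3
    · exact h3
    · exact absurd h3 (Nat.cast_add_one_ne_zero _)

/-- the degree of a derivative -/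
theorem deg_pderiv {σ : Type} {P : MvPolynomial σ ℂ} {n : ℕ} (h : P.totalDegree ≤ n + 1) (i : σ) :
    (pderiv i P).totalDegree ≤ n := by
  classical
  unfold totalDegree at h ⊢
  rw [Finset.sup_le_iff] at h ⊢
  intro μ hμ
  have h1 : coeff (μ + Finsupp.single i 1) P ≠ 0 := by
    intro h0
    rw [MvPolynomial.mem_support_iff, coeff_pderiv, h0, zero_mul] at hμ
    exact hμ rfl
  have h2 := h _ (MvPolynomial.mem_support_iff.2 h1)
  rw [Finsupp.sum_add_index' (fun _ => rfl) (fun _ _ _ => rfl), Finsupp.sum_single_index rfl] at h2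
  omega

/-- **Relations and derivatives.** -/
theorem indep_of {k d : ℕ} {y : Fin k → ℂ} {K : Subfield ℂ} (h : ∀ Q : MvPolynomial (Fin k) ℂ, (∀ μ, Q.coeff μ ∈ K) →
    Q.totalDegree ≤ d → eval y Q = 0 → ∀ j, eval y (pderiv j Q) = 0) : ∀ n, n ≤ d → ∀ Q : MvPolynomial (Fin k) ℂ,
    (∀ μ, Q.coeff μ ∈ K) → Q.totalDegree ≤ n → eval y Q = 0 → Q = 0 := by
  classical
  have hC : ∀ Q : MvPolynomial (Fin k) ℂ, Q = C (Q.coeff 0) → eval y Q = 0 → Q = 0 := by
    intro Q h1 h2
    rw [h1, eval_C] at h2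
    rw [h1, h2, C_0]
  intro n
  induction n with
  | zero =>
    intro _ Q _ h1 h2
    exact hC Q (totalDegree_eq_zero_iff_eq_C.1 (Nat.le_zero.1 h1)) h2
  | succ n ih =>
    intro hn Q hQ h1 h2
    refine hC Q (C_of_pderiv fun i => ih (by omega) _ (fun μ => ?_) (deg_pderiv h1 i) (h Q hQ (h1.trans hn) h2 i)) h2
    rw [coeff_pderiv]
    exact K.mul_mem (hQ _) (K.add_mem (natCast_mem K _) K.one_mem)

theorem dd_rename {B ι : Type} [Fintype B] [Fintype ι] (e : ι → B) (Q : MvPolynomial ι ℂ) (x v : B → ℂ) :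
    dd (rename e Q) x v = dd Q (x ∘ e) (v ∘ e) := by
  induction Q using MvPolynomial.induction_on with
  | C a => rw [rename_C, dd_C, dd_C]
  | add p q hp hq => rw [map_add, dd_add, dd_add, hp, hq]
  | mul_X p i hp =>
    rw [map_mul, rename_X, dd_mul, dd_mul, hp, dd_X, dd_X, eval_X, eval_X, eval_rename]
    rfl

end poly

section tan
variable {s : ℕ} {m : Fin s → ℕ} {K : Subfield ℂ} {d : ℕ} {p c : Bk m}

/-- symmetric matrices times the form, and scalars, in all blocks -/
def big (m : Fin s → ℕ) : ((Σ a, Option (Sym2 (Fin (2 * m a)))) → ℂ) →ₗ[ℂ] Matrix (BI m) (BI m) ℂ where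
  toFun f := bd fun a => (Matrix.of fun i j => f ⟨a, some s(i, j)⟩) * SS ℂ (2 * m a) + f ⟨a, none⟩ • 1
  map_add' f g := by
    rw [← bd_add]
    congr 1
    funext a
    have h1 : (Matrix.of fun i j => (f + g) ⟨a, some s(i, j)⟩ : Matrix (Fin (2 * m a)) (Fin (2 * m a)) ℂ) =
        (Matrix.of fun i j => f ⟨a, some s(i, j)⟩) + Matrix.of fun i j => g ⟨a, some s(i, j)⟩ := rfl
    rw [h1, Matrix.add_mul, Pi.add_apply, add_smul]
    abel
  map_smul' t f := by
    rw [RingHom.id_apply, ← bd_smul]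
    congr 1
    funext a
    have h1 : (Matrix.of fun i j => (t • f) ⟨a, some s(i, j)⟩ : Matrix (Fin (2 * m a)) (Fin (2 * m a)) ℂ) =
        t • (Matrix.of fun i j => f ⟨a, some s(i, j)⟩) := rfl
    rw [h1, Matrix.smul_mul, Pi.smul_apply, smul_add, smul_assoc]

theorem big_inj (hm : ∀ a, 1 ≤ m a) : Function.Injective (big m) := by
  rw [injective_iff_map_eq_zero]
  intro f hf
  have h1 : bd (fun a => (Matrix.of fun i j => f ⟨a, some s(i, j)⟩) * SS ℂ (2 * m a) + f ⟨a, none⟩ • 1) =
      bd (fun _ => 0 : Bk m) := by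
    refine Eq.trans hf ?_
    exact (Matrix.blockDiagonal'_zero).symm
  have h2 := Matrix.blockDiagonal'_injective h1
  funext x
  obtain ⟨a, x⟩ := x
  have h3 := congrFun h2 a
  set S : Matrix (Fin (2 * m a)) (Fin (2 * m a)) ℂ := Matrix.of fun i j => f ⟨a, some s(i, j)⟩ with hS
  have hSt : Sᵀ = S := by
    ext i j
    rw [Matrix.transpose_apply, hS, Matrix.of_apply, Matrix.of_apply, Sym2.eq_swap]
  have h4 : S = f ⟨a, none⟩ • SS ℂ (2 * m a) := by
    have h5 := congrArg (fun X => X * SS ℂ (2 * m a)) h3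
    simp only [Matrix.add_mul, Matrix.zero_mul, Matrix.mul_assoc, SS_sq, Matrix.smul_mul, Matrix.one_mul] at h5
    rw [Matrix.mul_neg, Matrix.mul_one, neg_add_eq_zero] at h5
    exact h5
  have h5 : S = 0 := by
    have h6 := congrArg Matrix.transpose h4
    rw [hSt, Matrix.transpose_smul, SS_tr, smul_neg, ← h4] at h6
    ext i j
    have h7 := congrFun (congrFun h6 i) j
    rw [Matrix.neg_apply] at h7
    exact self_eq_neg.1 h7
  have h6 : f ⟨a, none⟩ = 0 := by
    rw [h5] at h4
    have h7 := congrFun (congrFun h4 ⟨0, by have := hm a; omega⟩) (Fin.rev ⟨0, by have := hm a; omega⟩)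
    rw [Matrix.smul_apply, SS_0, smul_eq_mul, mul_one] at h7
    exact h7.symm
  cases x with
  | none => exact h6
  | some z =>
    induction z using Sym2.ind with
    | _ i j => exact congrFun (congrFun h5 i) j

/-- normalisers of the line of `N` in the similitudes, with a common eigenvalue -/
def small (p : Bk m) : (ℂ × (Fin s → ℂ) × (∀ b, E00 (m b))) →ₗ[ℂ] Matrix (BI m) (BI m) ℂ where
  toFun x := bd fun b => p b * (x.1 • hh (m b) + x.2.1 b • 1 + (x.2.2 b : Matrix (Fin (2 * m b)) (Fin (2 * m b)) ℂ)) * (p b)⁻¹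
  map_add' x y := by
    rw [← bd_add]
    congr 1
    funext b
    rw [← Matrix.add_mul, ← Matrix.mul_add]
    congr 2
    change (x.1 + y.1) • hh (m b) + (x.2.1 b + y.2.1 b) • (1 : Matrix (Fin (2 * m b)) (Fin (2 * m b)) ℂ) +
      ((x.2.2 b : Matrix (Fin (2 * m b)) (Fin (2 * m b)) ℂ) + (y.2.2 b : Matrix (Fin (2 * m b)) (Fin (2 * m b)) ℂ)) = _
    rw [add_smul, add_smul]
    abel
  map_smul' t x := by
    rw [RingHom.id_apply, ← bd_smul]
    congr 1
    funext b
    rw [← Matrix.smul_mul, ← Matrix.mul_smul]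
    congr 2
    change (t * x.1) • hh (m b) + (t * x.2.1 b) • (1 : Matrix (Fin (2 * m b)) (Fin (2 * m b)) ℂ) +
      t • (x.2.2 b : Matrix (Fin (2 * m b)) (Fin (2 * m b)) ℂ) = _
    rw [smul_add, smul_add, smul_smul, smul_smul]

theorem small_range {Y : Bk m} {α : ℂ} (h : ∀ b, EA α (Y b)) : bd (fun b => p b * Y b * (p b)⁻¹) ∈ LinearMap.range (small p) := by
  choose β hβ using fun b => (h b).2
  have hmem : ∀ b, Y b - α • hh (m b) - (β b / 2) • 1 ∈ E00 (m b) := by
    intro b
    constructor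
    · have h1 : (Y b - α • hh (m b) - (β b / 2) • 1) * NN ℂ (2 * m b) - NN ℂ (2 * m b) * (Y b - α • hh (m b) - (β b / 2) • 1) =
          (Y b * NN ℂ (2 * m b) - NN ℂ (2 * m b) * Y b) - α • (hh (m b) * NN ℂ (2 * m b) - NN ℂ (2 * m b) * hh (m b)) := by
        simp only [Matrix.sub_mul, Matrix.mul_sub, Matrix.smul_mul, Matrix.mul_smul, Matrix.one_mul, Matrix.mul_one, smul_sub]
        abel
      rw [h1, (h b).1, hh_N, one_smul, sub_self]
    · have h1 : (Y b - α • hh (m b) - (β b / 2) • 1) * SS ℂ (2 * m b) + SS ℂ (2 * m b) * (Y b - α • hh (m b) - (β b / 2) • 1)ᵀ =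
          (Y b * SS ℂ (2 * m b) + SS ℂ (2 * m b) * (Y b)ᵀ) - α • (hh (m b) * SS ℂ (2 * m b) + SS ℂ (2 * m b) * (hh (m b))ᵀ) -
          (β b / 2 + β b / 2) • SS ℂ (2 * m b) := by
        simp only [Matrix.sub_mul, Matrix.mul_sub, Matrix.smul_mul, Matrix.mul_smul, Matrix.one_mul, Matrix.mul_one,
          transpose_sub, transpose_smul, transpose_one, smul_add, add_smul]
        abel
      rw [h1, hβ, hh_S, smul_zero, sub_zero, add_halves, sub_self]
  refine ⟨(α, (fun b => β b / 2), fun b => ⟨_, hmem b⟩), ?_⟩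
  change bd (fun b => p b * (α • hh (m b) + (β b / 2) • 1 + (Y b - α • hh (m b) - (β b / 2) • 1)) * (p b)⁻¹) = _
  congr 1
  funext b
  congr 2
  abel

theorem smul_one_EA (b : Fin s) : ∀ b', EA 0 ((Pi.single b 1 : Bk m) b') := by
  intro b'
  rcases eq_or_ne b' b with rfl | hb
  · rw [Pi.single_eq_same]
    refine ⟨by rw [Matrix.one_mul, Matrix.mul_one, sub_self, zero_smul], 2, ?_⟩
    rw [Matrix.one_mul, transpose_one, Matrix.mul_one, two_smul]
  · rw [Pi.single_eq_of_ne hb]
    refine ⟨by rw [Matrix.zero_mul, Matrix.mul_zero, sub_self, zero_smul], 0, ?_⟩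
    rw [Matrix.zero_mul, transpose_zero, Matrix.mul_zero, add_zero, zero_smul]

/-- **The dimension of the space of tangent vectors.** -/
theorem finrank_Tan (hm : ∀ a, 1 ≤ m a) (hp : ∀ b, p b * (p b)⁻¹ = 1) (h : HT2 m K d (bd c) p) :
    2 * ∑ a, m a ^ 2 ≤ finrank ℂ (Tan K d (bd c)) + 1 := by
  classical
  have h1 : gS m ≤ Tan K d (bd c) ⊔ LinearMap.range (small p) := by
    refine Submodule.span_le.2 ?_
    rintro _ ⟨a, v, rfl⟩
    obtain ⟨Y, α, hY, hT⟩ := h a v
    have h2 : bd (Pi.single a (vecMulVec v v * SS ℂ (2 * m a)) : Bk m) =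
        bd (fun b => p b * Y b * (p b)⁻¹ + (Pi.single a (vecMulVec v v * SS ℂ (2 * m a)) : Bk m) b) -
        bd (fun b => p b * Y b * (p b)⁻¹) := by
      rw [bd_add, add_sub_cancel_left]
    change bd (Pi.single a (vecMulVec v v * SS ℂ (2 * m a)) : Bk m) ∈ _
    rw [h2]
    exact Submodule.sub_mem _ (Submodule.mem_sup_left hT) (Submodule.mem_sup_right (small_range hY))
  have h2 : LinearMap.range (big m) ≤ Tan K d (bd c) ⊔ LinearMap.range (small p) := by
    rintro _ ⟨f, rfl⟩
    change bd (fun a => (Matrix.of fun i j => f ⟨a, some s(i, j)⟩) * SS ℂ (2 * m a) + f ⟨a, none⟩ • 1) ∈ _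
    rw [bd_add]
    refine Submodule.add_mem _ (h1 (bd_sp fun a => ?_)) ?_
    · have hSt : (Matrix.of fun i j => f ⟨a, some s(i, j)⟩ : Matrix (Fin (2 * m a)) (Fin (2 * m a)) ℂ)ᵀ =
          Matrix.of fun i j => f ⟨a, some s(i, j)⟩ := by
        ext i j
        rw [Matrix.transpose_apply, Matrix.of_apply, Matrix.of_apply, Sym2.eq_swap]
      rw [transpose_mul, hSt, SS_tr, Matrix.mul_assoc, SS_sq, Matrix.neg_mul, Matrix.mul_neg, Matrix.mul_neg,
        ← Matrix.mul_assoc, SS_sq, Matrix.neg_mul, Matrix.one_mul, neg_neg, Matrix.mul_one, neg_add_cancel]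
    · have h3 : (fun a => f ⟨a, none⟩ • (1 : Matrix (Fin (2 * m a)) (Fin (2 * m a)) ℂ)) =
          fun a => p a * (∑ b, f ⟨b, none⟩ • (Pi.single b 1 : Bk m)) a * (p a)⁻¹ := by
        funext a
        have h4 : (∑ b, f ⟨b, none⟩ • (Pi.single b 1 : Bk m)) a = f ⟨a, none⟩ • 1 := by
          rw [Finset.sum_apply, Finset.sum_eq_single a]
          · rw [Pi.smul_apply, Pi.single_eq_same]
          · intro b _ hb
            rw [Pi.smul_apply, Pi.single_eq_of_ne hb.symm, smul_zero]
          · intro hh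
            exact absurd (Finset.mem_univ a) hh
        rw [h4, Matrix.mul_smul, Matrix.mul_one, Matrix.smul_mul, hp]
      rw [h3]
      refine Submodule.mem_sup_right (small_range (α := 0) fun b => ?_)
      have h4 : (∑ b', f ⟨b', none⟩ • (Pi.single b' 1 : Bk m)) b = f ⟨b, none⟩ • 1 := by
        rw [Finset.sum_apply, Finset.sum_eq_single b]
        · rw [Pi.smul_apply, Pi.single_eq_same]
        · intro b' _ hb
          rw [Pi.smul_apply, Pi.single_eq_of_ne hb.symm, smul_zero]
        · intro hh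
          exact absurd (Finset.mem_univ b) hh
      rw [h4]
      refine ⟨?_, f ⟨b, none⟩ + f ⟨b, none⟩, ?_⟩
      · rw [Matrix.smul_mul, Matrix.mul_smul, Matrix.one_mul, Matrix.mul_one, sub_self, zero_smul]
      · rw [Matrix.smul_mul, transpose_smul, transpose_one, Matrix.mul_smul, Matrix.one_mul, Matrix.mul_one, add_smul]
  have h3 := Submodule.finrank_mono h2
  have h4 := Submodule.finrank_add_le_finrank_add_finrank (Tan K d (bd c)) (LinearMap.range (small p))
  rw [LinearMap.finrank_range_of_inj (big_inj hm), finrank_fintype_fun_eq_card, Fintype.card_sigma] at h3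
  have h5 := LinearMap.finrank_range_le (small p)
  rw [finrank_prod, finrank_prod, finrank_fintype_fun_eq_card, Fintype.card_fin, finrank_pi_fintype, finrank_self] at h5
  have h6 : ∑ b, finrank ℂ (E00 (m b)) ≤ ∑ b, m b := Finset.sum_le_sum fun b _ => finrank_E00 (hm b)
  have h7 : ∑ a, Fintype.card (Option (Sym2 (Fin (2 * m a)))) = 2 * ∑ a, m a ^ 2 + ∑ a, m a + s := by
    have h8 : ∀ a, Fintype.card (Option (Sym2 (Fin (2 * m a)))) = 2 * m a ^ 2 + m a + 1 := by
      intro a
      rw [Fintype.card_option, Sym2.card, Fintype.card_fin, Nat.choose_two_right, Nat.add_sub_cancel]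
      have h9 : (2 * m a + 1) * (2 * m a) = (2 * m a ^ 2 + m a) * 2 := by ring
      rw [h9, Nat.mul_div_cancel _ two_pos]
    simp only [h8]
    rw [Finset.sum_add_distrib, Finset.sum_add_distrib, ← Finset.mul_sum, Finset.sum_const, Finset.card_univ,
      Fintype.card_fin, smul_eq_mul, mul_one]
  omega

/-- there are many periods without relations of degree at most `d` over `K` -/
def Ind {s : ℕ} (m : Fin s → ℕ) (K : Subfield ℂ) (d : ℕ) (c : Bk m) : Prop :=
  ∃ (k : ℕ) (e : Fin k → Σ b, Fin (2 * m b) × Fin (2 * m b)), Function.Injective e ∧ 2 * ∑ a, m a ^ 2 ≤ k + 1 ∧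
    ∀ Q : MvPolynomial (Fin k) ℂ, (∀ μ, Q.coeff μ ∈ K) → Q.totalDegree ≤ d →
      MvPolynomial.eval (fun j => c (e j).1 (e j).2.1 (e j).2.2) Q = 0 → Q = 0

theorem ind_of (hm : ∀ a, 1 ≤ m a) (hd : 1 ≤ d) (hp : ∀ b, p b * (p b)⁻¹ = 1) (hc : ∀ b, IsUnit (c b).det)
    (h : HT2 m K d (bd c) p) : Ind m K d c := by
  classical
  let L : Tan K d (bd c) →ₗ[ℂ] ((Σ b, Fin (2 * m b) × Fin (2 * m b)) → ℂ) :=
    { toFun := fun V x => ((V : Matrix (BI m) (BI m) ℂ) * bd c) ⟨x.1, x.2.1⟩ ⟨x.1, x.2.2⟩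
      map_add' := fun V W => by
        funext x
        change (((V : Matrix (BI m) (BI m) ℂ) + W) * bd c) _ _ = _
        rw [Matrix.add_mul]
        rfl
      map_smul' := fun t V => by
        funext x
        change ((t • (V : Matrix (BI m) (BI m) ℂ)) * bd c) _ _ = _
        rw [Matrix.smul_mul]
        rfl }
  have hu : IsUnit (bd c).det := by
    rw [← Matrix.isUnit_iff_isUnit_det]
    exact bd_unit hc
  have hinj : Function.Injective L := by
    rw [injective_iff_map_eq_zero]
    intro V hV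
    have h1 : (V : Matrix (BI m) (BI m) ℂ) * bd c = 0 := by
      ext ⟨b, i⟩ ⟨b', j⟩
      rcases eq_or_ne b b' with rfl | hb
      · exact congrFun hV ⟨b, (i, j)⟩
      · have h2 := V.2 (MvPolynomial.X (⟨b, i⟩, ⟨b', j⟩)) (fun μ => by
          rw [MvPolynomial.coeff_X]
          split_ifs
          · exact K.one_mem
          · exact K.zero_mem) (by
          rw [MvPolynomial.totalDegree_X]
          exact hd) (by
          rw [MvPolynomial.eval_X]
          exact bd_ne c hb i j)
        rw [dd_X] at h2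
        exact h2
    have h2 := congrArg (fun X => X * (bd c)⁻¹) h1
    simp only [Matrix.mul_assoc, Matrix.mul_nonsing_inv _ hu, Matrix.mul_one, Matrix.zero_mul] at h2
    exact Subtype.ext h2
  obtain ⟨k, e, he, hk, hv⟩ := exists_crd (LinearMap.range L)
  rw [LinearMap.finrank_range_of_inj hinj] at hk
  have h1 := finrank_Tan hm hp h
  refine ⟨k, e, he, by omega, fun Q hQ hQd hQ0 => ?_⟩
  let e' : Fin k → BI m × BI m := fun j => (⟨(e j).1, (e j).2.1⟩, ⟨(e j).1, (e j).2.2⟩)
  have hfl : ∀ x : Matrix (BI m) (BI m) ℂ, (fl x ∘ e') = fun j => x ⟨(e j).1, (e j).2.1⟩ ⟨(e j).1, (e j).2.2⟩ := fun x => rfl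
  have hy : (fun j => c (e j).1 (e j).2.1 (e j).2.2) = fl (bd c) ∘ e' := by
    rw [hfl]
    funext j
    exact (bd_eq c _ _ _).symm
  rw [hy] at hQ0
  refine indep_of (y := fl (bd c) ∘ e') (K := K) (d := d) (fun Q hQ hQd hQ0 j => ?_) d le_rfl Q hQ hQd hQ0
  obtain ⟨v, ⟨V, rfl⟩, hV⟩ := hv j
  have h2 := V.2 (MvPolynomial.rename e' Q) (fun μ => by
    by_cases hμ : MvPolynomial.coeff μ (MvPolynomial.rename e' Q) = 0
    · rw [hμ]
      exact K.zero_mem
    · obtain ⟨u, hu1, hu2⟩ := MvPolynomial.coeff_rename_ne_zero e' Q μ hμ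
      have hi : Function.Injective (fun x : (Σ b, Fin (2 * m b) × Fin (2 * m b)) =>
          ((⟨x.1, x.2.1⟩ : BI m), (⟨x.1, x.2.2⟩ : BI m))) := by
        rintro ⟨b, i1, i2⟩ ⟨b', i1', i2'⟩ h
        have h3 := congrArg Prod.fst h
        have h4 := congrArg Prod.snd h
        obtain ⟨h5, h6⟩ := Sigma.mk.inj_iff.1 h3
        have h5' : b = b' := h5
        subst h5'
        obtain ⟨-, h7⟩ := Sigma.mk.inj_iff.1 h4
        have h8 : i1 = i1' := eq_of_heq h6
        have h9 : i2 = i2' := eq_of_heq h7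
        rw [h8, h9]
      have he' : Function.Injective e' := fun j j' hjj => he (hi hjj)
      rw [← hu1, MvPolynomial.coeff_rename_mapDomain e' he']
      exact hQ u) ((MvPolynomial.totalDegree_rename_le e' Q).trans hQd) (by
      rw [MvPolynomial.eval_rename]
      exact hQ0)
  rw [dd_rename] at h2
  have h3 : (fl ((V : Matrix (BI m) (BI m) ℂ) * bd c) ∘ e') = Pi.single j 1 := by
    rw [hfl]
    funext j'
    rw [Pi.single_apply]
    exact hV j'
  rw [h3] at h2
  unfold dd at h2
  rw [Finset.sum_eq_single j, Pi.single_eq_same, mul_one] at h2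
  · exact h2
  · intro b _ hb
    rw [Pi.single_eq_of_ne hb, mul_zero]
  · intro hh
    exact absurd (Finset.mem_univ j) hh

end tan

end Pool.Agent.W2helper4.TS

end
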