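import Pool.Agent.W2helper4.TS.Main3

/-!
# Composita of number fields, and the density of exceptional fibres
-/

set_option autoImplicit false
set_option linter.unusedSectionVars false
set_option maxHeartbeats 1000000

open Matrix Module

noncomputable section

namespace Pool.Agent.W2helper4.TS

open Pool.Agent.TH119.DR (DefOver)

theorem def_mono {K K' : Subfield ℂ} (h : K ≤ K') {n : ℕ} {V : Submodule ℂ (Fin n → ℂ)} (hV : DefOver K V) :
    DefOver K' V :=
  hV.trans (Submodule.span_mono fun _ hv => ⟨hv.1, fun i => h (hv.2 i)⟩)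

theorem irr_mono {K K' : Subfield ℂ} (h : K ≤ K') {n : ℕ} {c : Matrix (Fin n) (Fin n) ℂ} (hI : Irr K' c) : Irr K c :=
  fun V W hV hW hc => hI V W (def_mono h hV) (def_mono h hW) hc

/-- **The compositum of two number fields.** -/
theorem exists_comp {D : ℕ} (K K' : Subfield ℂ) [FiniteDimensional ℚ K] [FiniteDimensional ℚ K'] (h : finrank ℚ K ≤ D)
    (h' : finrank ℚ K' ≤ D) : ∃ L : Subfield ℂ, K ≤ L ∧ K' ≤ L ∧ Bdd (D * D) L := by
  have hmem : ∀ (F : Subfield ℂ) (x : ℚ), algebraMap ℚ ℂ x ∈ F := fun F x => by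
    rw [eq_ratCast]
    exact SubfieldClass.ratCast_mem F x
  let E : IntermediateField ℚ ℂ := ⟨⟨K.toSubsemiring, hmem K⟩, fun x hx => K.inv_mem hx⟩
  let E' : IntermediateField ℚ ℂ := ⟨⟨K'.toSubsemiring, hmem K'⟩, fun x hx => K'.inv_mem hx⟩
  let f : K →+ E := ⟨⟨fun x => ⟨x.1, x.2⟩, rfl⟩, fun _ _ => rfl⟩
  let f' : K' →+ E' := ⟨⟨fun x => ⟨x.1, x.2⟩, rfl⟩, fun _ _ => rfl⟩
  let e : K ≃ₗ[ℚ] E := ⟨⟨⟨f, fun _ _ => rfl⟩, fun q x => map_rat_smul f q x⟩, fun x => ⟨x.1, x.2⟩, fun _ => rfl, fun _ => rfl⟩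
  let e' : K' ≃ₗ[ℚ] E' :=
    ⟨⟨⟨f', fun _ _ => rfl⟩, fun q x => map_rat_smul f' q x⟩, fun x => ⟨x.1, x.2⟩, fun _ => rfl, fun _ => rfl⟩
  have : FiniteDimensional ℚ E := Module.Finite.equiv e
  have : FiniteDimensional ℚ E' := Module.Finite.equiv e'
  have h1 : finrank ℚ E ≤ D := by rw [← e.finrank_eq]; exact h
  have h2 : finrank ℚ E' ≤ D := by rw [← e'.finrank_eq]; exact h'
  have h3 : finrank ℚ ↥(E ⊔ E') ≤ D * D := (IntermediateField.finrank_sup_le E E').trans (Nat.mul_le_mul h1 h2)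
  refine ⟨(E ⊔ E').toSubfield, ?_, ?_, ?_⟩
  · intro x hx
    have : x ∈ E := hx
    exact (le_sup_left : E ≤ E ⊔ E') this
  · intro x hx
    have : x ∈ E' := hx
    exact (le_sup_right : E' ≤ E ⊔ E') this
  · intro x hx
    let y : ↥(E ⊔ E') := ⟨x, hx⟩
    have hy : IsIntegral ℚ y := Algebra.IsIntegral.isIntegral y
    refine ⟨minpoly ℚ y, minpoly.ne_zero hy, (minpoly.natDegree_le y).trans h3, ?_⟩
    have h4 := minpoly.aeval ℚ y
    have h5 := congrArg (algebraMap ↥(E ⊔ E') ℂ) h4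
    rw [map_zero, ← Polynomial.aeval_algebraMap_apply] at h5
    exact h5

/-- **Sparse sets.** -/
theorem count_le {p : ℕ → Prop} {G E : ℕ} (hG : 1 ≤ G) (h : ∀ B N u : ℕ, (B + 2) ^ E ≤ N → 1 ≤ u → u ≤ B → G * u ≤ N → p N →
    ¬ p (N - G * u)) (B X : ℕ) (hX : (B + 2) ^ (E + G + 1) ≤ X) : (B + 1) * {N : ℕ | N < X ∧ p N}.ncard ≤ 2 * X := by
  classical
  set q := G * (B + 1) with hq
  have hq0 : 0 < q := Nat.mul_pos hG (Nat.succ_pos B)
  set N0 := (B + 2) ^ E with hN0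
  have hsub : {N : ℕ | N < X ∧ p N} ⊆ {N : ℕ | N < N0} ∪ {N : ℕ | N0 ≤ N ∧ N < X ∧ p N} := by
    rintro N ⟨h1, h2⟩
    rcases lt_or_ge N N0 with h3 | h3
    · exact Or.inl h3
    · exact Or.inr ⟨h3, h1, h2⟩
  have hfin1 : {N : ℕ | N < N0}.Finite := Set.finite_lt_nat N0
  have hfin2 : {N : ℕ | N0 ≤ N ∧ N < X ∧ p N}.Finite := (Set.finite_lt_nat X).subset fun N hN => hN.2.1
  have hc1 : {N : ℕ | N < N0}.ncard = N0 := by
    have h1 : {N : ℕ | N < N0} = ↑(Finset.range N0) := by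
      ext N
      simp
    rw [h1, Set.ncard_coe_finset, Finset.card_range]
  have hc2 : {N : ℕ | N0 ≤ N ∧ N < X ∧ p N}.ncard ≤ (X / q + 1) * G := by
    have h1 : Set.MapsTo (fun N => (N / q, N % G)) {N : ℕ | N0 ≤ N ∧ N < X ∧ p N}
        ↑((Finset.range (X / q + 1)) ×ˢ (Finset.range G)) := by
      rintro N ⟨-, h2, -⟩
      rw [Finset.mem_coe, Finset.mem_product, Finset.mem_range, Finset.mem_range]
      exact ⟨Nat.lt_succ_of_le (Nat.div_le_div_right h2.le), Nat.mod_lt _ hG⟩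
    have h2 : Set.InjOn (fun N => (N / q, N % G)) {N : ℕ | N0 ≤ N ∧ N < X ∧ p N} := by
      have key : ∀ N N' : ℕ, N0 ≤ N' → p N → p N' → N < N' → N / q = N' / q → N % G = N' % G → False := by
        intro N N' h3 h4 h5 h6 h7 h8
        have h9 : G ∣ N' - N := (Nat.modEq_iff_dvd' h6.le).1 h8
        obtain ⟨u, hu⟩ := h9
        have h10 : N' - N < q := by
          have h11 := Nat.div_add_mod N q
          have h12 := Nat.div_add_mod N' q
          rw [← h7] at h12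
          have h13 := Nat.mod_lt N' hq0
          omega
        have hu1 : 1 ≤ u := by
          rcases Nat.eq_zero_or_pos u with h0 | h0
          · rw [h0, Nat.mul_zero] at hu
            omega
          · exact h0
        have hu2 : u ≤ B := by
          rw [hu, hq] at h10
          have := Nat.lt_of_mul_lt_mul_left h10
          omega
        have h14 : G * u ≤ N' := by omega
        refine h B N' u h3 hu1 hu2 h14 h5 ?_
        have h15 : N' - G * u = N := by omega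
        rw [h15]
        exact h4
      rintro N ⟨a1, a2, a3⟩ N' ⟨b1, b2, b3⟩ hNN
      have h3 : N / q = N' / q := congrArg Prod.fst hNN
      have h4 : N % G = N' % G := congrArg Prod.snd hNN
      rcases lt_trichotomy N N' with h5 | h5 | h5
      · exact absurd (key N N' b1 a3 b3 h5 h3 h4) id
      · exact h5
      · exact absurd (key N' N a1 b3 a3 h5 h3.symm h4.symm) id
    have h3 := Set.ncard_le_ncard_of_injOn _ h1 h2 (Finset.finite_toSet _)
    rwa [Set.ncard_coe_finset, Finset.card_product, Finset.card_range, Finset.card_range] at h3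
  have hle : {N : ℕ | N < X ∧ p N}.ncard ≤ N0 + (X / q + 1) * G := by
    refine (Set.ncard_le_ncard hsub (hfin1.union hfin2)).trans ((Set.ncard_union_le _ _).trans ?_)
    rw [hc1]
    exact Nat.add_le_add_left hc2 _
  have h1 : (B + 1) * ((X / q) * G) ≤ X := by
    have h2 : (B + 1) * ((X / q) * G) = (X / q) * q := by
      rw [hq]
      ring
    rw [h2]
    exact Nat.div_mul_le_self X q
  have h2 : (B + 1) * (N0 + G) ≤ X := by
    refine le_trans ?_ hX
    have h3 : 1 + G ≤ (B + 2) ^ G := by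
      calc 1 + G ≤ 2 ^ G := by
            have := Nat.lt_two_pow_self (n := G)
            omega
        _ ≤ (B + 2) ^ G := Nat.pow_le_pow_left (by omega) _
    have h4 : 1 ≤ N0 := Nat.one_le_pow _ _ (by omega)
    calc (B + 1) * (N0 + G) ≤ (B + 2) * (N0 * (1 + G)) := by
          refine Nat.mul_le_mul (by omega) ?_
          rw [Nat.mul_add, Nat.mul_one]
          exact Nat.add_le_add_left (Nat.le_mul_of_pos_left _ h4) _
      _ ≤ (B + 2) * (N0 * (B + 2) ^ G) := Nat.mul_le_mul_left _ (Nat.mul_le_mul_left _ h3)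
      _ = (B + 2) ^ (E + G + 1) := by rw [hN0]; ring
  calc (B + 1) * {N : ℕ | N < X ∧ p N}.ncard ≤ (B + 1) * (N0 + (X / q + 1) * G) := Nat.mul_le_mul_left _ hle
    _ = (B + 1) * (N0 + G) + (B + 1) * ((X / q) * G) := by ring
    _ ≤ X + X := Nat.add_le_add h2 h1
    _ = 2 * X := by ring

/-- **Sparse sets**, with real powers. -/
theorem count_rpow {A : ℕ → ℕ} (hA : ∀ X, A X ≤ X) {E : ℕ} (hE : 1 ≤ E)
    (h : ∀ B X : ℕ, (B + 2) ^ E ≤ X → (B + 1) * A X ≤ 2 * X) (X : ℕ) (hX : 1 ≤ X) :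
    (A X : ℝ) ≤ 4 * (X : ℝ) ^ (1 - 1 / (E : ℝ)) := by
  have hX0 : (0 : ℝ) < X := by exact_mod_cast hX
  have hE0 : (0 : ℝ) < E := by exact_mod_cast hE
  rw [Real.rpow_sub hX0, Real.rpow_one]
  set t := (X : ℝ) ^ (1 / (E : ℝ)) with ht
  have ht0 : 0 < t := Real.rpow_pos_of_pos hX0 _
  have htE : t ^ E = X := by
    rw [ht, ← Real.rpow_natCast, ← Real.rpow_mul hX0.le, one_div, inv_mul_cancel₀ hE0.ne', Real.rpow_one]
  have hAX : (A X : ℝ) ≤ X := by exact_mod_cast hA X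
  rw [mul_div_assoc', le_div_iff₀ ht0]
  rcases lt_or_ge t 4 with h4 | h4
  · nlinarith [(Nat.cast_nonneg (A X) : (0 : ℝ) ≤ A X)]
  · set n := ⌊t⌋₊ with hn
    have hn1 : (n : ℝ) ≤ t := Nat.floor_le ht0.le
    have hn2 : t < n + 1 := Nat.lt_floor_add_one t
    have hn4 : 4 ≤ n := Nat.le_floor (by exact_mod_cast h4)
    obtain ⟨B, hB⟩ : ∃ B, n = B + 2 := ⟨n - 2, by omega⟩
    have h5 : (B + 2) ^ E ≤ X := by
      have h6 : (((B + 2 : ℕ) : ℝ)) ^ E ≤ (X : ℝ) := by
        rw [← hB, ← htE]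
        exact pow_le_pow_left₀ (Nat.cast_nonneg n) hn1 E
      exact_mod_cast h6
    have h6 := h B X h5
    have h7 : ((B : ℝ) + 1) * A X ≤ 2 * X := by exact_mod_cast h6
    have h8 : t / 2 ≤ (B : ℝ) + 1 := by
      have h9 : (n : ℝ) = B + 2 := by exact_mod_cast hB
      linarith
    have h9 : t / 2 * A X ≤ ((B : ℝ) + 1) * A X := mul_le_mul_of_nonneg_right h8 (Nat.cast_nonneg _)
    nlinarith

end Pool.Agent.W2helper4.TS

end
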