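import Pool.Agent.Y113.MT.Tr2
import Pool.Agent.Y123.ST.Dd

/-!
# Derivations of the ultraproduct and relations of bounded degree over number fields of bounded degree
-/

set_option autoImplicit false
set_option linter.unusedSectionVars false
set_option maxHeartbeats 1000000

open Matrix Filter

noncomputable section

namespace Pool.Agent.W2helper4.TS

open Pool.Agent.Y113.MT Pool.Agent.Y123.ST

/-- derivations kill algebraic elements -/
theorem der_kill {F : Type} [Field F] [CharZero F] (K : Subfield F) (D : Derivation ℤ F F) (h : ∀ c ∈ K, D c = 0) {x : F}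
    (hx : IsAlgebraic K x) : D x = 0 := by
  let D' : Derivation K F F := Derivation.mk'
    { toFun := fun y => D y
      map_add' := fun a b => map_add D a b
      map_smul' := fun c y => by
        change D ((c : F) * y) = (c : F) * D y
        rw [Derivation.leibniz, h c c.2, smul_eq_mul, smul_zero, add_zero] } (fun a b => by
        change D (a * b) = a • D b + b • D a
        exact D.leibniz a b)
  have h1 := D'.map_aeval (minpoly K x) x
  rw [minpoly.aeval, map_zero] at h1
  have h2 : Polynomial.aeval x (Polynomial.derivative (minpoly K x)) ≠ 0 :=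
    (minpoly.irreducible hx.isIntegral).separable.aeval_derivative_ne_zero (minpoly.aeval K x)
  exact (smul_eq_zero.1 h1.symm).resolve_left h2

/-- the chain rule -/
theorem der_chain {F : Type} [Field F] (D : Derivation ℤ F F) {Z : Type} [Fintype Z] [DecidableEq Z] (x : Z → F)
    (Q : MvPolynomial Z ℤ) : D (MvPolynomial.aeval x Q) = ∑ z, MvPolynomial.aeval x (MvPolynomial.pderiv z Q) * D (x z) := by
  induction Q using MvPolynomial.induction_on with
  | C c =>
    simp only [MvPolynomial.pderiv_C, map_zero, zero_mul, Finset.sum_const_zero]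
    rw [MvPolynomial.aeval_C]
    exact D.map_algebraMap c
  | add P Q h1 h2 =>
    rw [map_add, map_add, h1, h2, ← Finset.sum_add_distrib]
    refine Finset.sum_congr rfl fun z _ => ?_
    rw [map_add, map_add, add_mul]
  | mul_X P i h1 =>
    rw [map_mul, Derivation.leibniz, h1, MvPolynomial.aeval_X, smul_eq_mul, smul_eq_mul]
    have h2 : ∀ z, MvPolynomial.aeval x (MvPolynomial.pderiv z (P * MvPolynomial.X i)) * D (x z) =
        x i * (MvPolynomial.aeval x (MvPolynomial.pderiv z P) * D (x z)) +
        (if i = z then MvPolynomial.aeval x P * D (x z) else 0) := by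
      intro z
      rw [Derivation.leibniz, MvPolynomial.pderiv_X, smul_eq_mul, smul_eq_mul, map_add, map_mul, map_mul,
        MvPolynomial.aeval_X, Pi.single_apply]
      by_cases hz : i = z
      · subst hz
        rw [if_pos rfl, if_pos rfl, map_one]
        ring
      · rw [if_neg hz, if_neg hz, map_zero]
        ring
    rw [Finset.sum_congr rfl fun z _ => h2 z, Finset.sum_add_distrib, ← Finset.mul_sum, Finset.sum_ite_eq]
    simp only [Finset.mem_univ, if_true]
    ring

theorem rh_aeval {Z : Type} (x : ℕ → Z → ℂ) (Q : MvPolynomial Z ℤ) :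
    MvPolynomial.aeval (fun z => rh fun k => x k z) Q = rh fun k => MvPolynomial.aeval (x k) Q := by
  induction Q using MvPolynomial.induction_on with
  | C a =>
    simp only [MvPolynomial.aeval_C]
    rw [eq_intCast, ← map_intCast rh]
    rfl
  | add P Q h1 h2 =>
    rw [map_add, h1, h2, ← map_add]
    congr 1
    funext k
    rw [map_add]
    rfl
  | mul_X P i h1 =>
    rw [map_mul, h1, MvPolynomial.aeval_X, ← map_mul]
    congr 1
    funext k
    rw [map_mul, MvPolynomial.aeval_X]
    rfl

/-- the coefficients -/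
theorem kill_seq {D : ℕ} {K : ℕ → Subfield ℂ}
    (hK : ∀ k, ∀ x ∈ K k, ∃ f : Polynomial ℚ, f ≠ 0 ∧ f.natDegree ≤ D ∧ Polynomial.aeval x f = 0)
    (Dr : Derivation ℤ UF UF) (hD : ∀ c ∈ UK, Dr c = 0) {z : ℕ → ℂ} (hz : ∀ k, z k ∈ K k) : Dr (rh z) = 0 := by
  refine der_kill UK Dr hD ?_
  choose f hf0 hfd hf using fun k => hK k (z k) (hz k)
  let F : ℕ → Polynomial ℚ := fun k => Polynomial.C (f k).leadingCoeff⁻¹ * f k * Polynomial.X ^ (D - (f k).natDegree)
  have hF1 : ∀ k, (F k).coeff D = 1 := by
    intro k
    have h1 : (F k).coeff (f k).natDegree.succ.pred = (F k).coeff (f k).natDegree := rfl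
    have h2 : D = (f k).natDegree + (D - (f k).natDegree) := by have := hfd k; omega
    conv_lhs => rw [h2]
    simp only [F]
    rw [Polynomial.coeff_mul_X_pow, Polynomial.coeff_C_mul, Polynomial.coeff_natDegree,
      inv_mul_cancel₀ (Polynomial.leadingCoeff_ne_zero.2 (hf0 k))]
  have hFd : ∀ k, (F k).natDegree < D + 1 := by
    intro k
    refine Nat.lt_succ_of_le ?_
    refine (Polynomial.natDegree_mul_le).trans ?_
    rw [Polynomial.natDegree_X_pow]
    have h1 := Polynomial.natDegree_C_mul_le (f k).leadingCoeff⁻¹ (f k)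
    have h2 := hfd k
    omega
  have hFz : ∀ k, ∑ i ∈ Finset.range (D + 1), (((F k).coeff i : ℚ) : ℂ) * z k ^ i = 0 := by
    intro k
    have h1 : Polynomial.aeval (z k) (F k) = 0 := by
      simp only [F]
      rw [map_mul, map_mul, hf k, mul_zero, zero_mul]
    rw [Polynomial.aeval_eq_sum_range' (hFd k)] at h1
    rw [← h1]
    refine Finset.sum_congr rfl fun i _ => ?_
    rw [Algebra.smul_def]
    rfl
  let G : Polynomial UK := ∑ i ∈ Finset.range (D + 1), Polynomial.monomial i (rq fun k => (F k).coeff i)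
  refine ⟨G, ?_, ?_⟩
  · intro h0
    have h1 : G.coeff D = 1 := by
      simp only [G]
      rw [Polynomial.finsetSum_coeff, Finset.sum_eq_single D]
      · rw [Polynomial.coeff_monomial, if_pos rfl]
        have h2 : (fun k => (F k).coeff D) = (1 : ℕ → ℚ) := funext hF1
        rw [h2, map_one]
      · intro i _ hi
        rw [Polynomial.coeff_monomial, if_neg hi]
      · intro h
        exact absurd (Finset.mem_range.2 (Nat.lt_succ_self D)) h
    rw [h0, Polynomial.coeff_zero] at h1
    exact zero_ne_one h1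
  · simp only [G]
    rw [map_sum]
    have h1 : ∀ i, Polynomial.aeval (rh z) (Polynomial.monomial i (rq fun k => (F k).coeff i)) =
        rh fun k => (((F k).coeff i : ℚ) : ℂ) * z k ^ i := by
      intro i
      rw [Polynomial.aeval_monomial]
      change ((rq fun k => (F k).coeff i : UK) : UF) * _ = _
      rw [rq_coe, ← map_pow, ← map_mul]
      rfl
    rw [Finset.sum_congr rfl fun i _ => h1 i, ← map_sum, ← map_zero rh]
    congr 1
    funext k
    rw [Finset.sum_apply]
    exact hFz k

section mono
variable {Z : Type} [Fintype Z] [DecidableEq Z]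

/-- the monomials of bounded degree -/
def mu {d : ℕ} (f : Z → Fin (d + 1)) : Z →₀ ℕ := Finsupp.equivFunOnFinite.symm fun z => (f z : ℕ)

theorem mu_inj {d : ℕ} : Function.Injective (mu : (Z → Fin (d + 1)) → (Z →₀ ℕ)) := by
  intro f g h
  funext z
  exact Fin.ext (DFunLike.congr_fun h z)

theorem sum_mu {d : ℕ} {P : MvPolynomial Z ℂ} (hP : P.totalDegree ≤ d) :
    P = ∑ f : Z → Fin (d + 1), MvPolynomial.C (P.coeff (mu f)) *
      MvPolynomial.map (Int.castRingHom ℂ) (MvPolynomial.monomial (mu f) (1 : ℤ)) := by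
  classical
  have h1 : ∀ f : Z → Fin (d + 1), MvPolynomial.C (P.coeff (mu f)) *
      MvPolynomial.map (Int.castRingHom ℂ) (MvPolynomial.monomial (mu f) (1 : ℤ)) =
      MvPolynomial.monomial (mu f) (P.coeff (mu f)) := by
    intro f
    rw [MvPolynomial.map_monomial, MvPolynomial.C_mul_monomial, map_one, mul_one]
  rw [Finset.sum_congr rfl fun f _ => h1 f]
  ext ν
  rw [MvPolynomial.coeff_sum]
  simp only [MvPolynomial.coeff_monomial]
  by_cases hν : ∀ z, ν z < d + 1
  · let f : Z → Fin (d + 1) := fun z => ⟨ν z, hν z⟩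
    have hf : mu f = ν := Finsupp.ext fun z => rfl
    rw [Finset.sum_eq_single f]
    · rw [if_pos hf, hf]
    · intro g _ hg
      rw [if_neg]
      intro h
      exact hg (mu_inj (h.trans hf.symm))
    · intro h
      exact absurd (Finset.mem_univ f) h
  · push Not at hν
    obtain ⟨z, hz⟩ := hν
    rw [Finset.sum_eq_zero]
    · by_contra hne
      have h2 := MvPolynomial.le_totalDegree (MvPolynomial.mem_support_iff.2 hne)
      have h3 : ν z ≤ ν.sum fun _ e => e := by
        by_cases h0 : ν z = 0
        · rw [h0]; exact Nat.zero_le _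
        · exact Finset.single_le_sum (f := fun z => ν z) (fun _ _ => Nat.zero_le _) (Finsupp.mem_support_iff.2 h0)
      omega
    · intro f _
      rw [if_neg]
      intro h
      have h4 := DFunLike.congr_fun h z
      have h5 : (mu f) z = (f z : ℕ) := rfl
      have h6 := (f z).2
      omega

end mono

/-- **Transfer of relations of bounded degree.** -/
theorem der_transfer {Z : Type} [Fintype Z] [DecidableEq Z] {d D : ℕ} {K : ℕ → Subfield ℂ}
    (hK : ∀ k, ∀ x ∈ K k, ∃ f : Polynomial ℚ, f ≠ 0 ∧ f.natDegree ≤ D ∧ Polynomial.aeval x f = 0)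
    (Dr : Derivation ℤ UF UF) (hD : ∀ c ∈ UK, Dr c = 0) (x y : ℕ → Z → ℂ)
    (hxy : ∀ z, Dr (rh fun k => x k z) = rh fun k => y k z) (P : ℕ → MvPolynomial Z ℂ)
    (hPK : ∀ k μ, (P k).coeff μ ∈ K k) (hPd : ∀ k, (P k).totalDegree ≤ d)
    (hP0 : ∀ k, MvPolynomial.eval (x k) (P k) = 0) :
    ∀ᶠ k in ((hyperfilter ℕ : Ultrafilter ℕ) : Filter ℕ), dd (P k) (x k) (y k) = 0 := by
  classical
  let Q : (Z → Fin (d + 1)) → MvPolynomial Z ℤ := fun f => MvPolynomial.monomial (mu f) 1
  let co : (Z → Fin (d + 1)) → ℕ → ℂ := fun f k => (P k).coeff (mu f)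
  have hmap : ∀ (R : MvPolynomial Z ℤ) (w : Z → ℂ), MvPolynomial.eval w (MvPolynomial.map (Int.castRingHom ℂ) R) =
      MvPolynomial.aeval w R := by
    intro R w
    rw [MvPolynomial.eval_map, MvPolynomial.aeval_def]
    rfl
  have h1 : ∀ k, ∑ f, co f k * MvPolynomial.aeval (x k) (Q f) = 0 := by
    intro k
    have h2 := hP0 k
    rw [sum_mu (hPd k), map_sum] at h2
    rw [← h2]
    refine Finset.sum_congr rfl fun f _ => ?_
    rw [map_mul, MvPolynomial.eval_C, hmap]
  have h2 : ∑ f, rh (co f) * MvPolynomial.aeval (fun z => rh fun k => x k z) (Q f) = 0 := by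
    rw [← map_zero rh]
    simp only [rh_aeval, ← map_mul, ← map_sum]
    congr 1
    funext k
    rw [Finset.sum_apply]
    exact h1 k
  have h3 := congrArg Dr h2
  rw [map_zero, map_sum] at h3
  have h4 : ∀ f, Dr (rh (co f) * MvPolynomial.aeval (fun z => rh fun k => x k z) (Q f)) =
      rh fun k => co f k * ∑ z, MvPolynomial.aeval (x k) (MvPolynomial.pderiv z (Q f)) * y k z := by
    intro f
    have h5 : Dr (rh (co f)) = 0 := kill_seq hK Dr hD fun k => hPK k _
    rw [Derivation.leibniz, h5, smul_zero, add_zero, smul_eq_mul, der_chain]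
    simp only [hxy, rh_aeval, ← map_mul, ← map_sum]
    congr 1
    funext k
    change co f k * (∑ z, (fun k => MvPolynomial.aeval (x k) (MvPolynomial.pderiv z (Q f))) * fun k => y k z) k = _
    rw [Finset.sum_apply]
    rfl
  rw [Finset.sum_congr rfl fun f _ => h4 f, ← map_sum, rh_zero] at h3
  filter_upwards [h3] with k hk
  rw [Finset.sum_apply] at hk
  rw [sum_mu (hPd k), dd_sum, ← hk]
  refine Finset.sum_congr rfl fun f _ => ?_
  rw [dd_mul, dd_C, zero_mul, zero_add, MvPolynomial.eval_C]
  congr 1
  unfold dd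
  refine Finset.sum_congr rfl fun z _ => ?_
  rw [MvPolynomial.pderiv_map, hmap]

end Pool.Agent.W2helper4.TS

end
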