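import Pool.Agent.W2helper4.TS.Two

/-!
# The subtorsor of a reducible block
-/

set_option autoImplicit false
set_option linter.unusedSectionVars false
set_option maxHeartbeats 1000000

open Matrix Module

noncomputable section

namespace Pool.Agent.W2helper4.TS

open Pool.Agent.TH127.PT Pool.Agent.Y123.ST Pool.Agent.W2helper33.OQ Pool.Agent.W2helper33.BD Pool.Agent.Y113.MT
open Pool.Agent.TH119.DR (DefOver)
open Pool.Agent.TH119.MX (defOver_of_aut)

section rat
variable {n : ℕ} {K : Subfield ℂ}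

/-- spaces over `K` are stable under automorphisms over `K` -/
theorem def_aut {W : Submodule ℂ (Fin n → ℂ)} (h : DefOver K W) {σ : ℂ ≃+* ℂ} (hσ : ∀ x ∈ K, σ x = x) {v : Fin n → ℂ}
    (hv : v ∈ W) : (fun i => σ (v i)) ∈ W := by
  have h1 := h hv
  clear hv
  induction h1 using Submodule.span_induction with
  | mem w hw =>
    have h2 : (fun i => σ (w i)) = w := funext fun i => hσ _ (hw.2 i)
    rw [h2]
    exact hw.1
  | zero =>
    have h2 : (fun i => σ ((0 : Fin n → ℂ) i)) = 0 := funext fun i => map_zero σ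
    rw [h2]
    exact W.zero_mem
  | add x y _ _ hx hy =>
    have h2 : (fun i => σ ((x + y) i)) = (fun i => σ (x i)) + fun i => σ (y i) := funext fun i => map_add σ _ _
    rw [h2]
    exact W.add_mem hx hy
  | smul t x _ hx =>
    have h2 : (fun i => σ ((t • x) i)) = σ t • fun i => σ (x i) := funext fun i => map_mul σ _ _
    rw [h2]
    exact W.smul_mem _ hx

/-- the annihilator -/
def ann (W : Submodule ℂ (Fin n → ℂ)) : Submodule ℂ (Fin n → ℂ) where
  carrier := {φ | ∀ w ∈ W, φ ⬝ᵥ w = 0}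
  zero_mem' := fun w _ => zero_dotProduct w
  add_mem' := fun {x y} hx hy w hw => by rw [add_dotProduct, hx w hw, hy w hw, add_zero]
  smul_mem' := fun t x hx w hw => by rw [smul_dotProduct, hx w hw, smul_zero]

theorem ann_def {W : Submodule ℂ (Fin n → ℂ)} (h : DefOver K W) : DefOver K (ann W) := by
  refine defOver_of_aut _ fun σ hσ φ hφ w hw => ?_
  have h1 := hφ _ (def_aut h (symm_fix hσ) hw)
  have h2 := congrArg σ h1
  rw [map_zero] at h2
  rw [← h2]
  unfold dotProduct
  rw [map_sum]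
  refine Finset.sum_congr rfl fun i _ => ?_
  rw [map_mul]
  simp

theorem mem_of_ann {W : Submodule ℂ (Fin n → ℂ)} {x : Fin n → ℂ} (h : ∀ φ ∈ ann W, φ ⬝ᵥ x = 0) : x ∈ W := by
  by_contra hcon
  obtain ⟨f, hf1, hf2⟩ := Submodule.exists_le_ker_of_notMem hcon
  apply hf1
  let φ : Fin n → ℂ := fun i => f (Pi.single i 1)
  have h1 : ∀ y, f y = φ ⬝ᵥ y := by
    intro y
    conv_lhs => rw [LinearMap.pi_apply_eq_sum_univ f y]
    unfold dotProduct
    refine Finset.sum_congr rfl fun i _ => ?_
    rw [smul_eq_mul, mul_comm]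
    congr 2
    funext j
    rw [Pi.single_apply]
    simp only [eq_comm]
  rw [h1]
  refine h φ fun w hw => ?_
  rw [← h1]
  exact hf2 hw

end rat

variable {s : ℕ} {m : Fin s → ℕ} {K : Subfield ℂ} {V W : ∀ b : Fin s, Submodule ℂ (Fin (2 * m b) → ℂ)} {c : Bk m}

/-- the block diagonal matrices which map `V b` to `W b` -/
def FL (V W : ∀ b : Fin s, Submodule ℂ (Fin (2 * m b) → ℂ)) : Set (Matrix (BI m) (BI m) ℂ) :=
  {x | ∃ X : Bk m, x = bd X ∧ (∀ b, IsUnit (X b).det) ∧ ∀ b v, v ∈ V b ↔ X b *ᵥ v ∈ W b}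

/-- **It is a subtorsor.** -/
theorem FL_sub (hV : ∀ b, DefOver K (V b)) (hW : ∀ b, DefOver K (W b)) (hc : bd c ∈ FL V W) :
    IsSubtorsor K (FL V W) := by
  classical
  obtain ⟨C0, -, hC0u, hC0⟩ := hc
  let I : Set (MvPolynomial (BI m × BI m) ℂ) :=
    {P | (∀ μ, P.coeff μ ∈ K) ∧ ∀ x ∈ FL V W, MvPolynomial.eval (fl x) P = 0}
  refine ⟨?_, ?_, I, fun P hP => hP.1, fun x => ⟨fun hx => ⟨?_, fun P hP => hP.2 x hx⟩, ?_⟩⟩
  · rintro _ ⟨X, rfl, hX, -⟩
    exact bd_unit hX
  · rintro _ ⟨X, rfl, hX, hX'⟩ _ ⟨Y, rfl, hY, hY'⟩ _ ⟨Z, rfl, hZ, hZ'⟩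
    refine ⟨fun b => X b * (Y b)⁻¹ * Z b, ?_, fun b => ?_, fun b v => ?_⟩
    · rw [bd_inv hY, ← bd_mul, ← bd_mul]
    · rw [Matrix.det_mul, Matrix.det_mul]
      exact ((hX b).mul (by rw [Matrix.isUnit_nonsing_inv_det_iff]; exact hY b)).mul (hZ b)
    · have e1 : (X b * (Y b)⁻¹ * Z b) *ᵥ v = X b *ᵥ ((Y b)⁻¹ *ᵥ (Z b *ᵥ v)) := by
        rw [mulVec_mulVec, mulVec_mulVec, Matrix.mul_assoc]
      have e2 : Y b *ᵥ ((Y b)⁻¹ *ᵥ (Z b *ᵥ v)) = Z b *ᵥ v := by
        rw [mulVec_mulVec, mul_nonsing_inv _ (hY b), one_mulVec]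
      have e3 := hY' b ((Y b)⁻¹ *ᵥ (Z b *ᵥ v))
      rw [e2] at e3
      rw [e1]
      exact (hZ' b v).trans (e3.symm.trans (hX' b _))
  · obtain ⟨X, rfl, hX, -⟩ := hx
    exact bd_unit hX
  · rintro ⟨hxu, hx⟩
    have h1 : x = bd (bl x) := by
      ext ⟨a, i⟩ ⟨b, j⟩
      by_cases hab : a = b
      · subst hab
        rw [bd_eq]
        rfl
      · rw [bd_ne _ hab]
        have h2 := hx (MvPolynomial.X (⟨a, i⟩, ⟨b, j⟩)) ⟨fun μ => by
          rw [MvPolynomial.coeff_X']
          split_ifs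
          · exact K.one_mem
          · exact K.zero_mem, by
          rintro _ ⟨X, rfl, -, -⟩
          rw [MvPolynomial.eval_X]
          exact bd_ne X hab i j⟩
        rw [MvPolynomial.eval_X] at h2
        exact h2
    have hxu' : ∀ a, IsUnit (bl x a).det := fun a => by
      rw [h1] at hxu
      exact unit_bd hxu a
    have h2 : ∀ b, ∀ v ∈ V b, bl x b *ᵥ v ∈ W b := by
      intro b v hv
      have h3 := hV b hv
      clear hv
      induction h3 using Submodule.span_induction with
      | mem v hv =>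
        refine mem_of_ann fun φ hφ => ?_
        have h4 := ann_def (hW b) hφ
        clear hφ
        induction h4 using Submodule.span_induction with
        | mem φ hφ =>
          have key : ∀ y : Matrix (BI m) (BI m) ℂ, MvPolynomial.eval (fl y) (∑ i, ∑ j, MvPolynomial.C (φ i * v j) *
              MvPolynomial.X ((⟨b, i⟩, ⟨b, j⟩) : BI m × BI m)) = φ ⬝ᵥ (bl y b *ᵥ v) := by
            intro y
            rw [map_sum]
            unfold dotProduct
            refine Finset.sum_congr rfl fun i _ => ?_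
            rw [map_sum]
            unfold mulVec dotProduct
            rw [Finset.mul_sum]
            refine Finset.sum_congr rfl fun j _ => ?_
            rw [map_mul, MvPolynomial.eval_C, MvPolynomial.eval_X]
            change φ i * v j * y ⟨b, i⟩ ⟨b, j⟩ = φ i * (y ⟨b, i⟩ ⟨b, j⟩ * v j)
            ring
          have h5 := hx (∑ i, ∑ j, MvPolynomial.C (φ i * v j) * MvPolynomial.X ((⟨b, i⟩, ⟨b, j⟩) : BI m × BI m))
            ⟨fun μ => by
              rw [MvPolynomial.coeff_sum]
              refine K.sum_mem fun i _ => ?_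
              rw [MvPolynomial.coeff_sum]
              refine K.sum_mem fun j _ => ?_
              rw [MvPolynomial.coeff_C_mul, MvPolynomial.coeff_X']
              split_ifs
              · exact K.mul_mem (K.mul_mem (hφ.2 i) (hv.2 j)) K.one_mem
              · rw [mul_zero]
                exact K.zero_mem, by
              rintro _ ⟨X, rfl, -, hX⟩
              rw [key, bl_bd]
              exact hφ.1 _ ((hX b v).1 hv.1)⟩
          exact (key x).symm.trans h5
        | zero => exact zero_dotProduct _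
        | add φ ψ _ _ h5 h6 => rw [add_dotProduct, h5, h6, add_zero]
        | smul t φ _ h5 => rw [smul_dotProduct, h5, smul_zero]
      | zero =>
        rw [mulVec_zero]
        exact Submodule.zero_mem _
      | add v w _ _ h5 h6 =>
        rw [mulVec_add]
        exact Submodule.add_mem _ h5 h6
      | smul t v _ h5 =>
        rw [mulVec_smul]
        exact Submodule.smul_mem _ _ h5
    refine ⟨bl x, h1, hxu', fun b v => ⟨h2 b v, fun hv => ?_⟩⟩
    -- dimensions
    let f : V b →ₗ[ℂ] W b := LinearMap.codRestrict _ ((Matrix.mulVecLin (bl x b)).comp (V b).subtype) fun v => h2 b v v.2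
    let g : W b →ₗ[ℂ] V b := LinearMap.codRestrict _ ((Matrix.mulVecLin (C0 b)⁻¹).comp (W b).subtype) fun w => by
      rw [hC0 b]
      change C0 b *ᵥ ((C0 b)⁻¹ *ᵥ (w : Fin (2 * m b) → ℂ)) ∈ W b
      rw [mulVec_mulVec, mul_nonsing_inv _ (hC0u b), one_mulVec]
      exact w.2
    have hinj : ∀ (M : Matrix (Fin (2 * m b)) (Fin (2 * m b)) ℂ), IsUnit M.det → ∀ x y, M *ᵥ x = M *ᵥ y → x = y := by
      intro M hM x y hxy
      have h3 := congrArg (fun z => M⁻¹ *ᵥ z) hxy
      simp only [mulVec_mulVec, nonsing_inv_mul _ hM, one_mulVec] at h3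
      exact h3
    have hf : Function.Injective f := fun x y hxy => Subtype.ext (hinj _ (hxu' b) _ _ (congrArg Subtype.val hxy))
    have hg : Function.Injective g := fun x y hxy => Subtype.ext (hinj _ (by
      rw [Matrix.isUnit_nonsing_inv_det_iff]
      exact hC0u b) _ _ (congrArg Subtype.val hxy))
    have hfs : Function.Surjective f := by
      have h3 := LinearMap.finrank_le_finrank_of_injective hf
      have h4 := LinearMap.finrank_le_finrank_of_injective hg
      exact (LinearMap.injective_iff_surjective_of_finrank_eq_finrank (le_antisymm h3 h4)).1 hf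
    obtain ⟨v', hv'⟩ := hfs ⟨_, hv⟩
    have h3 : (v' : Fin (2 * m b) → ℂ) = v := hinj _ (hxu' b) _ _ (congrArg Subtype.val hv')
    rw [← h3]
    exact v'.2

/-- **A block on which the symplectic Lie algebra acts is trivial.** -/
theorem FL_good (hm : ∀ a, 1 ≤ m a) (hT : IsSubtorsor K (FL V W)) (hcu : ∀ b, IsUnit (c b).det) (hc : bd c ∈ FL V W)
    {b : Fin s} (h : ∀ w, bd (Pi.single b (vecMulVec w w * SS ℂ (2 * m b)) : Bk m) ∈ LM (FL V W)) :
    V b = ⊥ ∨ V b = ⊤ := by
  classical
  have hb := hm b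
  have hcW : ∀ b v, v ∈ V b ↔ c b *ᵥ v ∈ W b := by
    obtain ⟨X, hX1, -, hX2⟩ := hc
    have h1 : c = X := Matrix.blockDiagonal'_injective hX1
    rw [h1]
    exact hX2
  have hact : ∀ w, ∀ u ∈ W b, (w ⬝ᵥ (SS ℂ (2 * m b) *ᵥ u)) • w ∈ W b := by
    intro w u hu
    have h1 := exp_act hT (h w) hc
    rw [exp_bd', ← bd_mul] at h1
    obtain ⟨X, hX1, -, hX2⟩ := h1
    have h2 := Matrix.blockDiagonal'_injective hX1
    have h3 : X b = (1 + vecMulVec w w * SS ℂ (2 * m b)) * c b := by
      rw [← h2]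
      simp only [Pi.single_eq_same]
      have h4 := exp_sq (n := 2 * m b) (by omega) (sq_zero (SS_tr (m b)) w) 1
      rw [one_smul] at h4
      rw [h4]
    have h4 : (c b)⁻¹ *ᵥ u ∈ V b := by
      rw [hcW, mulVec_mulVec, mul_nonsing_inv _ (hcu b), one_mulVec]
      exact hu
    have h5 := (hX2 b _).1 h4
    rw [h3, mulVec_mulVec, Matrix.mul_assoc, mul_nonsing_inv _ (hcu b), Matrix.mul_one, add_mulVec, one_mulVec] at h5
    have h6 := (W b).sub_mem h5 hu
    rw [add_sub_cancel_left] at h6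
    have h7 : (vecMulVec w w * SS ℂ (2 * m b)) *ᵥ u = (w ⬝ᵥ (SS ℂ (2 * m b) *ᵥ u)) • w := by
      rw [← mulVec_mulVec, Matrix.vecMulVec_mulVec, op_smul_eq_smul]
    rwa [h7] at h6
  by_cases hW0 : W b = ⊥
  · left
    rw [eq_bot_iff]
    intro v hv
    have h1 := (hcW b v).1 hv
    rw [hW0, Submodule.mem_bot] at h1
    have h2 := congrArg (fun z => (c b)⁻¹ *ᵥ z) h1
    simp only [mulVec_mulVec, nonsing_inv_mul _ (hcu b), one_mulVec, mulVec_zero] at h2
    rw [h2]
    exact Submodule.zero_mem _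
  · right
    obtain ⟨u, hu, hu0⟩ := (Submodule.ne_bot_iff _).1 hW0
    obtain ⟨y, hy⟩ := exists_pair (SS_sq (m b)) hu0
    have hmem : ∀ w, w ⬝ᵥ (SS ℂ (2 * m b) *ᵥ u) ≠ 0 → w ∈ W b := by
      intro w hw
      have h1 := (W b).smul_mem (w ⬝ᵥ (SS ℂ (2 * m b) *ᵥ u))⁻¹ (hact w u hu)
      rwa [smul_smul, inv_mul_cancel₀ hw, one_smul] at h1
    rw [eq_top_iff]
    intro v _
    rw [hcW]
    set x := c b *ᵥ v
    by_cases hx : x ⬝ᵥ (SS ℂ (2 * m b) *ᵥ u) = 0
    · have h1 := hmem (x + y) (by rw [add_dotProduct, hx, zero_add]; exact hy)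
      have h2 := (W b).sub_mem h1 (hmem y hy)
      rwa [add_sub_cancel_right] at h2
    · exact hmem x hx

/-- there are no proper nonzero subspaces over `K` which are mapped to each other -/
def Irr (K : Subfield ℂ) {n : ℕ} (c : Matrix (Fin n) (Fin n) ℂ) : Prop :=
  ∀ V W : Submodule ℂ (Fin n → ℂ), DefOver K V → DefOver K W → (∀ v, v ∈ V ↔ c *ᵥ v ∈ W) → V = ⊥ ∨ V = ⊤

theorem def_top (n : ℕ) : DefOver K (⊤ : Submodule ℂ (Fin n → ℂ)) :=
  defOver_of_aut _ fun _ _ _ _ => Submodule.mem_top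

section concl
variable {d : ℕ} {p : Bk m}

/-- the symplectic Lie algebra of the block `a` acts -/
def Good (T : Set (Matrix (BI m) (BI m) ℂ)) (a : Fin s) : Prop :=
  ∀ w, bd (Pi.single a (vecMulVec w w * SS ℂ (2 * m a)) : Bk m) ∈ LM T

/-- **All conclusions.** -/
theorem concl (hm : ∀ a, 2 ≤ m a) (hK : ∀ x ∈ K, IsAlgebraic ℚ x)
    (hd : JJ (Fintype.card (BI m) * Fintype.card (BI m)) * (1 + D0 (BI m)) ≤ d)
    (hc : ∀ b, IsUnit (c b).det) (hps : ∀ b, p b * SS ℂ (2 * m b) * (p b)ᵀ = SS ℂ (2 * m b)) (hHT : HT2 m K d (bd c) p)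
    {A : ∀ b, Matrix (Fin (2 * m b)) (Fin (2 * m b)) ℚ} {κ : Fin s → ℂ} (hκ : ∀ b, κ b ≠ 0)
    (hA : ∀ b, c b * cq (A b) * (c b)ᵀ = κ b • SS ℂ (2 * m b)) :
    (∀ T, IsSubtorsor K T → bd c ∈ T → ∀ a, Irr K (c a) → Good T a) ∧
    (∀ a b, a ≠ b → Irr K (c a) ∨ Irr K (c b)) ∧ ∀ a, 3 ≤ m a → Irr K (c a) := by
  classical
  have hdich : ∀ T, IsSubtorsor K T → bd c ∈ T → Dich m K T c := fun T hT hcT a =>
    block_dich hm hK hT hd hcT hc hps hHT.ht a (hκ a) (hA a)
  have hor : ∀ T, IsSubtorsor K T → bd c ∈ T → ∀ a b, a ≠ b → Good T a ∨ Good T b := by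
    intro T hT hcT a b hab
    by_cases hall : ∀ w, RR (SS ℂ (2 * m b)) w w ∈ nn (SS ℂ (2 * m b)) (tt (LM T) b)
    · right
      have hp : ∀ b, (p b)⁻¹ * p b = 1 := by
        intro b
        refine Matrix.nonsing_inv_mul _ ?_
        have h1 := congrArg Matrix.det (hps b)
        rw [Matrix.det_mul, Matrix.det_mul] at h1
        rw [isUnit_iff_ne_zero]
        intro h0
        rw [h0, zero_mul, zero_mul] at h1
        exact SS_det (F := ℂ) (m b) h1.symm
      obtain ⟨v, hv, hvv⟩ := exists_vv hm hK hT hd hcT hp hps hHT.ht b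
      intro w
      have h1 := simple (SS_sq (m b)) (SS_tr (m b)) (fun w => (hall w).2) hv hvv w
      rw [RR_two] at h1
      have h2 := Submodule.smul_mem _ (2⁻¹ : ℂ) h1
      rw [smul_smul, inv_mul_cancel₀ two_ne_zero, one_smul] at h2
      exact h2
    · left
      push Not at hall
      obtain ⟨w, hw⟩ := hall
      exact block_two hm hK hT hd hcT hps hHT hab.symm hw
  refine ⟨fun T hT hcT a hI => ?_, fun a b hab => ?_, fun a ha => ?_⟩
  · rcases hdich T hT hcT a with h1 | ⟨h1, V, W, h2, h3, h4, h5, h6⟩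
    · exact h1
    · rcases hI V W h2 h3 h4 with h7 | h7
      · exact absurd h7 h5
      · exact absurd h7 h6
  · by_contra hcon
    unfold Irr at hcon
    push Not at hcon
    obtain ⟨⟨Va, Wa, h1, h2, h3, h4, h5⟩, Vb, Wb, h1', h2', h3', h4', h5'⟩ := hcon
    let V : ∀ b : Fin s, Submodule ℂ (Fin (2 * m b) → ℂ) := Function.update (Function.update (fun _ => ⊤) a Va) b Vb
    let W : ∀ b : Fin s, Submodule ℂ (Fin (2 * m b) → ℂ) := Function.update (Function.update (fun _ => ⊤) a Wa) b Wb
    have hVb : V b = Vb := Function.update_self _ _ _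
    have hWb : W b = Wb := Function.update_self _ _ _
    have hVa : V a = Va := (Function.update_of_ne hab _ _).trans (Function.update_self _ _ _)
    have hWa : W a = Wa := (Function.update_of_ne hab _ _).trans (Function.update_self _ _ _)
    have hV0 : ∀ x, x ≠ a → x ≠ b → V x = ⊤ := fun x hxa hxb =>
      (Function.update_of_ne hxb _ _).trans (Function.update_of_ne hxa _ _)
    have hW0 : ∀ x, x ≠ a → x ≠ b → W x = ⊤ := fun x hxa hxb =>
      (Function.update_of_ne hxb _ _).trans (Function.update_of_ne hxa _ _)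
    have hDV : ∀ x, DefOver K (V x) := by
      intro x
      by_cases hxb : x = b
      · subst hxb
        rw [hVb]; exact h1'
      · by_cases hxa : x = a
        · subst hxa
          rw [hVa]; exact h1
        · rw [hV0 x hxa hxb]; exact def_top _
    have hDW : ∀ x, DefOver K (W x) := by
      intro x
      by_cases hxb : x = b
      · subst hxb
        rw [hWb]; exact h2'
      · by_cases hxa : x = a
        · subst hxa
          rw [hWa]; exact h2
        · rw [hW0 x hxa hxb]; exact def_top _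
    have hcF : bd c ∈ FL V W := by
      refine ⟨c, rfl, hc, fun x v => ?_⟩
      by_cases hxb : x = b
      · subst hxb
        rw [hVb, hWb]; exact h3' v
      · by_cases hxa : x = a
        · subst hxa
          rw [hVa, hWa]; exact h3 v
        · rw [hV0 x hxa hxb, hW0 x hxa hxb]
          exact ⟨fun _ => Submodule.mem_top, fun _ => Submodule.mem_top⟩
    have hT := FL_sub hDV hDW hcF
    rcases hor _ hT hcF a b hab with hg | hg
    · have h6 := FL_good (fun a => by have := hm a; omega) hT hc hcF hg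
      rw [hVa] at h6
      rcases h6 with h6 | h6
      · exact h4 h6
      · exact h5 h6
    · have h6 := FL_good (fun a => by have := hm a; omega) hT hc hcF hg
      rw [hVb] at h6
      rcases h6 with h6 | h6
      · exact h4' h6
      · exact h5' h6
  · intro Va Wa h1 h2 h3
    let V : ∀ b : Fin s, Submodule ℂ (Fin (2 * m b) → ℂ) := Function.update (fun _ => ⊤) a Va
    let W : ∀ b : Fin s, Submodule ℂ (Fin (2 * m b) → ℂ) := Function.update (fun _ => ⊤) a Wa
    have hVa : V a = Va := Function.update_self _ _ _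
    have hWa : W a = Wa := Function.update_self _ _ _
    have hV0 : ∀ x, x ≠ a → V x = ⊤ := fun x hxa => Function.update_of_ne hxa _ _
    have hW0 : ∀ x, x ≠ a → W x = ⊤ := fun x hxa => Function.update_of_ne hxa _ _
    have hDV : ∀ x, DefOver K (V x) := by
      intro x
      by_cases hxa : x = a
      · subst hxa
        rw [hVa]; exact h1
      · rw [hV0 x hxa]; exact def_top _
    have hDW : ∀ x, DefOver K (W x) := by
      intro x
      by_cases hxa : x = a
      · subst hxa
        rw [hWa]; exact h2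
      · rw [hW0 x hxa]; exact def_top _
    have hcF : bd c ∈ FL V W := by
      refine ⟨c, rfl, hc, fun x v => ?_⟩
      by_cases hxa : x = a
      · subst hxa
        rw [hVa, hWa]; exact h3 v
      · rw [hV0 x hxa, hW0 x hxa]
        exact ⟨fun _ => Submodule.mem_top, fun _ => Submodule.mem_top⟩
    have hT := FL_sub hDV hDW hcF
    have hg : Good (FL V W) a := by
      rcases hdich _ hT hcF a with hg | ⟨h6, -⟩
      · exact hg
      · omega
    have h6 := FL_good (fun a => by have := hm a; omega) hT hc hcF hg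
    rwa [hVa] at h6

end concl

end Pool.Agent.W2helper4.TS

end
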