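import Pool.Agent.W2helper4.TS.Lie

/-!
# Subalgebras of the symplectic Lie algebra of small codimension
-/

set_option autoImplicit false
set_option linter.unusedSectionVars false
set_option maxHeartbeats 1000000

open Matrix Module

namespace Pool.Agent.W2helper4.TS

variable {n : ℕ} {J : Matrix (Fin n) (Fin n) ℂ} {𝔨 : Submodule ℂ (Matrix (Fin n) (Fin n) ℂ)}

/-- symmetric matrices -/
theorem sym_dot {β : Matrix (Fin n) (Fin n) ℂ} (hβ : βᵀ = β) (v w : Fin n → ℂ) : (β *ᵥ v) ⬝ᵥ w = (β *ᵥ w) ⬝ᵥ v := by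
  rw [dotProduct_comm, dotProduct_mulVec, ← mulVec_transpose, hβ]

theorem J_dot (hJt : Jᵀ = -J) (v w : Fin n → ℂ) : (J *ᵥ v) ⬝ᵥ w = -((J *ᵥ w) ⬝ᵥ v) := by
  rw [dotProduct_comm, dotProduct_mulVec, ← mulVec_transpose, hJt, neg_mulVec, neg_dotProduct]

theorem J_self (hJt : Jᵀ = -J) (v : Fin n → ℂ) : (J *ᵥ v) ⬝ᵥ v = 0 := by
  have h1 := J_dot hJt v v
  linear_combination h1 / 2

/-- evaluation at a vector -/
def evw (J : Matrix (Fin n) (Fin n) ℂ) (𝔨 : Submodule ℂ (Matrix (Fin n) (Fin n) ℂ)) (w : Fin n → ℂ) :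
    PP J 𝔨 →ₗ[ℂ] (Fin n → ℂ) where
  toFun := fun β => (β : Matrix (Fin n) (Fin n) ℂ) *ᵥ w
  map_add' := fun a b => by
    change ((a : Matrix (Fin n) (Fin n) ℂ) + (b : Matrix (Fin n) (Fin n) ℂ)) *ᵥ w = _
    rw [add_mulVec]
  map_smul' := fun t a => by
    change (t • (a : Matrix (Fin n) (Fin n) ℂ)) *ᵥ w = _
    rw [smul_mulVec]
    rfl

/-- the vectors `v` such that `RR v w` is in the subalgebra -/
noncomputable def Iw (J : Matrix (Fin n) (Fin n) ℂ) (𝔨 : Submodule ℂ (Matrix (Fin n) (Fin n) ℂ)) (w : Fin n → ℂ) :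
    Submodule ℂ (Fin n → ℂ) := (BB n).orthogonal (LinearMap.range (evw J 𝔨 w))

theorem mem_Iw (hJ : J * J = -1) (hk : ∀ x ∈ 𝔨, x * J + J * xᵀ = 0) (hJt : Jᵀ = -J) {w v : Fin n → ℂ} :
    v ∈ Iw J 𝔨 w ↔ RR J v w ∈ 𝔨 := by
  constructor
  · intro hv
    refine RR_mem hJ hk hJt fun β hβ => ?_
    have h1 := hv (evw J 𝔨 w ⟨β, hβ⟩) ⟨_, rfl⟩
    rw [BB_apply] at h1
    rw [dotProduct_comm]
    exact h1
  · rintro h _ ⟨β, rfl⟩
    rw [BB_apply, dotProduct_comm]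
    exact RR_orth hJ h β.2

theorem Iw_dot {w v : Fin n → ℂ} (hv : v ∈ Iw J 𝔨 w) {β : Matrix (Fin n) (Fin n) ℂ} (hβ : β ∈ PP J 𝔨) :
    (β *ᵥ w) ⬝ᵥ v = 0 := by
  have h1 := hv (evw J 𝔨 w ⟨β, hβ⟩) ⟨_, rfl⟩
  rw [BB_apply] at h1
  exact h1

theorem Iw_iso (hJ : J * J = -1) (hk : ∀ x ∈ 𝔨, x * J + J * xᵀ = 0) (hJt : Jᵀ = -J)
    (hbr : ∀ x ∈ 𝔨, ∀ y ∈ 𝔨, x * y - y * x ∈ 𝔨) {w : Fin n → ℂ} (hww : RR J w w ∉ 𝔨) {v v' : Fin n → ℂ}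
    (hv : v ∈ Iw J 𝔨 w) (hv' : v' ∈ Iw J 𝔨 w) : v ⬝ᵥ (J *ᵥ v') = 0 := by
  by_contra hne
  apply hww
  have h1 := (mem_Iw hJ hk hJt).1 hv
  have h2 := (mem_Iw hJ hk hJt).1 hv'
  have h3 := hbr _ h1 _ h2
  rw [RR_br hJt] at h3
  have h4 : (v ⬝ᵥ (J *ᵥ v')) • RR J w w ∈ 𝔨 := by
    have h5 := 𝔨.sub_mem h3 (𝔨.add_mem (𝔨.smul_mem (w ⬝ᵥ (J *ᵥ v')) h1) (𝔨.smul_mem (v ⬝ᵥ (J *ᵥ w)) h2))
    rwa [add_sub_cancel_left] at h5
  have h5 := 𝔨.smul_mem (v ⬝ᵥ (J *ᵥ v'))⁻¹ h4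
  rwa [smul_smul, inv_mul_cancel₀ hne, one_smul] at h5

theorem finrank_Iw (w : Fin n → ℂ) : finrank ℂ (Iw J 𝔨 w) = n - finrank ℂ (LinearMap.range (evw J 𝔨 w)) :=
  finrank_perp _

theorem Iw_le (hJ : J * J = -1) (hk : ∀ x ∈ 𝔨, x * J + J * xᵀ = 0) (hJt : Jᵀ = -J)
    (hbr : ∀ x ∈ 𝔨, ∀ y ∈ 𝔨, x * y - y * x ∈ 𝔨) {w : Fin n → ℂ} (hww : RR J w w ∉ 𝔨) :
    finrank ℂ (Iw J 𝔨 w) ≤ n - finrank ℂ (Iw J 𝔨 w) := by
  rw [← finrank_perp (Iw J 𝔨 w)]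
  let f : Iw J 𝔨 w →ₗ[ℂ] (BB n).orthogonal (Iw J 𝔨 w) :=
    LinearMap.codRestrict _ ((Matrix.mulVecLin J).comp (Iw J 𝔨 w).subtype) (by
      rintro ⟨v', hv'⟩ v hv
      change BB n v (J *ᵥ v') = 0
      rw [BB_apply]
      exact Iw_iso hJ hk hJt hbr hww hv hv')
  refine LinearMap.finrank_le_finrank_of_injective (f := f) fun a b hab => ?_
  have h1 : J *ᵥ (a : Fin n → ℂ) = J *ᵥ (b : Fin n → ℂ) := congrArg Subtype.val hab
  exact Subtype.ext (J_inj hJ h1)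

/-- the functional `v ↦ (J v) ⬝ w` -/
noncomputable def psi (J : Matrix (Fin n) (Fin n) ℂ) (w : Fin n → ℂ) : (Fin n → ℂ) →ₗ[ℂ] ℂ :=
  ((BB n) w).comp (Matrix.mulVecLin J)

theorem psi_apply (w v : Fin n → ℂ) : psi J w v = (J *ᵥ v) ⬝ᵥ w := by
  change BB n w (J *ᵥ v) = _
  rw [BB_apply, dotProduct_comm]

/-- the elements of `I` which are orthogonal to `w` -/
noncomputable def I0 (J : Matrix (Fin n) (Fin n) ℂ) (𝔨 : Submodule ℂ (Matrix (Fin n) (Fin n) ℂ)) (w : Fin n → ℂ) :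
    Submodule ℂ (Fin n → ℂ) := Iw J 𝔨 w ⊓ LinearMap.ker (psi J w)

theorem I0_ge (w : Fin n → ℂ) : finrank ℂ (Iw J 𝔨 w) ≤ finrank ℂ (I0 J 𝔨 w) + 1 := by
  have h1 := Submodule.finrank_sup_add_finrank_inf_eq (Iw J 𝔨 w) (LinearMap.ker (psi J w))
  have h2 := LinearMap.finrank_range_add_finrank_ker (psi J w)
  have h3 : finrank ℂ (LinearMap.range (psi J w)) ≤ 1 := by
    have h4 := Submodule.finrank_le (LinearMap.range (psi J w))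
    rwa [Module.finrank_self] at h4
  have h5 := Submodule.finrank_le (Iw J 𝔨 w ⊔ LinearMap.ker (psi J w))
  unfold I0
  omega

/-- the action of `RR v w` -/
theorem act_mem (hk : ∀ x ∈ 𝔨, x * J + J * xᵀ = 0) (hbr : ∀ x ∈ 𝔨, ∀ y ∈ 𝔨, x * y - y * x ∈ 𝔨)
    {v w : Fin n → ℂ} (hv : RR J v w ∈ 𝔨) {β : Matrix (Fin n) (Fin n) ℂ} (hβ : β ∈ PP J 𝔨) :
    β * RR J v w + (RR J v w)ᵀ * β ∈ PP J 𝔨 := PP_act hk hbr hv hβ

/-- **The kernel of the evaluation is large.** -/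
theorem ker_large (hJ : J * J = -1) (hJt : Jᵀ = -J) (hk : ∀ x ∈ 𝔨, x * J + J * xᵀ = 0)
    (hbr : ∀ x ∈ 𝔨, ∀ y ∈ 𝔨, x * y - y * x ∈ 𝔨) {w : Fin n → ℂ} (hww : RR J w w ∉ 𝔨) :
    finrank ℂ (Iw J 𝔨 w) ≤ finrank ℂ (LinearMap.ker (evw J 𝔨 w)) + 1 := by
  classical
  obtain ⟨β, hβ, hb⟩ : ∃ β ∈ PP J 𝔨, (β *ᵥ w) ⬝ᵥ w ≠ 0 := by
    by_contra hcon
    push Not at hcon
    exact hww (RR_mem hJ hk hJt fun β hβ => by
      rw [dotProduct_comm]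
      exact hcon β hβ)
  set b := (β *ᵥ w) ⬝ᵥ w with hbdef
  obtain ⟨k, hk0, v, hvI, hv0, hli⟩ : ∃ k, finrank ℂ (I0 J 𝔨 w) = k ∧ ∃ v : Fin k → (Fin n → ℂ),
      (∀ i, v i ∈ Iw J 𝔨 w) ∧ (∀ i, (J *ᵥ v i) ⬝ᵥ w = 0) ∧ LinearIndependent ℂ v := by
    let bs := Module.finBasis ℂ (I0 J 𝔨 w)
    refine ⟨_, rfl, fun i => (bs i : Fin n → ℂ), fun i => (bs i).2.1, fun i => ?_,
      bs.linearIndependent.map' (I0 J 𝔨 w).subtype (Submodule.ker_subtype _)⟩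
    have h1 : psi J w (bs i : Fin n → ℂ) = 0 := (bs i).2.2
    rwa [psi_apply] at h1
  have hw : w ∉ Iw J 𝔨 w := fun h => hww ((mem_Iw hJ hk hJt).1 h)
  have hu : LinearIndependent ℂ (Fin.cons w v : Fin (k + 1) → (Fin n → ℂ)) := by
    rw [linearIndependent_finCons]
    exact ⟨hli, fun h => hw ((Submodule.span_le.2 (by rintro _ ⟨i, rfl⟩; exact hvI i)) h)⟩
  have hJu : LinearIndependent ℂ (fun i => J *ᵥ (Fin.cons w v : Fin (k + 1) → (Fin n → ℂ)) i) := by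
    refine hu.map' (Matrix.mulVecLin J) ?_
    rw [LinearMap.ker_eq_bot]
    exact fun a b hab => J_inj hJ hab
  obtain ⟨φ, hφ⟩ := exists_dual hJu
  have hw1 : ∀ j : Fin k, (J *ᵥ w) ⬝ᵥ φ j.succ = 0 := fun j => by
    have h1 := hφ 0 j.succ
    rwa [if_neg (Fin.succ_ne_zero j).symm] at h1
  have hvv : ∀ i j : Fin k, (J *ᵥ v i) ⬝ᵥ φ j.succ = if i = j then 1 else 0 := fun i j => by
    have h1 := hφ i.succ j.succ
    simp only [Fin.succ_inj] at h1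
    exact h1
  -- the elements of the kernel
  have hR : ∀ i, RR J (v i) w ∈ 𝔨 := fun i => (mem_Iw hJ hk hJt).1 (hvI i)
  let γ : Fin k → Matrix (Fin n) (Fin n) ℂ := fun i => β * RR J (v i) w + (RR J (v i) w)ᵀ * β
  have hγ : ∀ i, γ i ∈ PP J 𝔨 := fun i => PP_act hk hbr (hR i) hβ
  let δ : Fin k → Matrix (Fin n) (Fin n) ℂ := fun i => γ i * RR J (v i) w + (RR J (v i) w)ᵀ * γ i
  have hδ : ∀ i, δ i ∈ PP J 𝔨 := fun i => PP_act hk hbr (hR i) (hγ i)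
  have hγw : ∀ i, γ i *ᵥ w = -(b • (J *ᵥ v i)) := by
    intro i
    have h1 : (β *ᵥ v i) ⬝ᵥ w = 0 := by
      rw [sym_dot hβ.1]
      exact Iw_dot (hvI i) hβ
    rw [act_RR hJt hβ.1, J_self hJt, h1, hv0 i]
    simp only [zero_smul, zero_add]
    rw [← hbdef]
  have hγv : ∀ i, γ i *ᵥ v i = -(((β *ᵥ v i) ⬝ᵥ v i) • (J *ᵥ w)) := by
    intro i
    have h1 : (J *ᵥ w) ⬝ᵥ v i = 0 := by
      rw [J_dot hJt, hv0 i, neg_zero]
    rw [act_RR hJt hβ.1, h1, J_self hJt, Iw_dot (hvI i) hβ]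
    simp only [zero_smul, zero_add, add_zero]
  have hδu : ∀ i (u : Fin n → ℂ), δ i *ᵥ u = (2 * ((β *ᵥ v i) ⬝ᵥ v i) * ((J *ᵥ w) ⬝ᵥ u)) • (J *ᵥ w) +
      (2 * b * ((J *ᵥ v i) ⬝ᵥ u)) • (J *ᵥ v i) := by
    intro i u
    rw [act_RR hJt (hγ i).1, hγw, hγv, neg_dotProduct, neg_dotProduct, smul_dotProduct, smul_dotProduct, smul_eq_mul,
      smul_eq_mul]
    module
  have hδw : ∀ i, δ i *ᵥ w = 0 := by
    intro i
    rw [hδu, J_self hJt, hv0 i, mul_zero, mul_zero, zero_smul, zero_smul, add_zero]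
  let Δ : Fin k → LinearMap.ker (evw J 𝔨 w) := fun i => ⟨⟨δ i, hδ i⟩, hδw i⟩
  have hΔ : Function.Injective (Fintype.linearCombination ℂ Δ) := by
    rw [injective_iff_map_eq_zero]
    intro g hg
    funext j
    rw [Fintype.linearCombination_apply] at hg
    have h1 : ∑ i, g i • δ i = 0 := by
      have h2 := congrArg (fun x : LinearMap.ker (evw J 𝔨 w) => ((x : PP J 𝔨) : Matrix (Fin n) (Fin n) ℂ)) hg
      have h3 : ∀ f : Fin k → LinearMap.ker (evw J 𝔨 w), (((∑ i, f i : LinearMap.ker (evw J 𝔨 w)) : PP J 𝔨) :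
          Matrix (Fin n) (Fin n) ℂ) = ∑ i, ((f i : PP J 𝔨) : Matrix (Fin n) (Fin n) ℂ) := fun f =>
        map_sum ((PP J 𝔨).subtype.comp (LinearMap.ker (evw J 𝔨 w)).subtype) f Finset.univ
      simp only [h3] at h2
      exact h2
    have h2 : (∑ i, g i • δ i) *ᵥ φ j.succ = 0 := by rw [h1, zero_mulVec]
    rw [Matrix.sum_mulVec] at h2
    have h3 : ∀ i, (g i • δ i) *ᵥ φ j.succ = if i = j then (g j * (2 * b)) • (J *ᵥ v j) else 0 := by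
      intro i
      rw [smul_mulVec, hδu, hw1 j, hvv i j, mul_zero, zero_smul, zero_add]
      by_cases hij : i = j
      · subst hij
        rw [if_pos rfl, if_pos rfl, mul_one, smul_smul]
      · rw [if_neg hij, if_neg hij, mul_zero, zero_smul, smul_zero]
    rw [Finset.sum_congr rfl fun i _ => h3 i, Finset.sum_ite_eq' Finset.univ j, if_pos (Finset.mem_univ j)] at h2
    have h4 := congrArg (fun x => x ⬝ᵥ φ j.succ) h2
    change _ = 0 ⬝ᵥ φ j.succ at h4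
    rw [smul_dotProduct, hvv, if_pos rfl, zero_dotProduct, smul_eq_mul, mul_one] at h4
    exact (mul_eq_zero.1 h4).resolve_right (mul_ne_zero two_ne_zero hb)
  have h1 : k ≤ finrank ℂ (LinearMap.ker (evw J 𝔨 w)) := by
    have h2 := LinearMap.finrank_le_finrank_of_injective hΔ
    rwa [Module.finrank_fin_fun] at h2
  have h2 := I0_ge (J := J) (𝔨 := 𝔨) w
  omega

/-- **Subalgebras of the symplectic Lie algebra of codimension at most `m + 1`.** -/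
theorem lie_lemma3 {m : ℕ} (hm : 3 ≤ m) {J : Matrix (Fin (2 * m)) (Fin (2 * m)) ℂ} (hJ : J * J = -1) (hJt : Jᵀ = -J)
    {𝔨 : Submodule ℂ (Matrix (Fin (2 * m)) (Fin (2 * m)) ℂ)}
    (hk : ∀ x ∈ 𝔨, x * J + J * xᵀ = 0) (hbr : ∀ x ∈ 𝔨, ∀ y ∈ 𝔨, x * y - y * x ∈ 𝔨)
    {E : Submodule ℂ (Matrix (Fin (2 * m)) (Fin (2 * m)) ℂ)} (hE : finrank ℂ E ≤ m + 1)
    (hsum : ∀ v, ∃ k ∈ 𝔨, ∃ e ∈ E, vecMulVec v v * J = k + e) (w : Fin (2 * m) → ℂ) : vecMulVec w w * J ∈ 𝔨 := by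
  by_contra hcon
  have hww : RR J w w ∉ 𝔨 := by
    intro h
    apply hcon
    have h1 : vecMulVec w w * J = (2⁻¹ : ℂ) • RR J w w := by
      unfold RR
      rw [← two_smul ℂ (vecMulVec w w), Matrix.smul_mul, smul_smul, inv_mul_cancel₀ two_ne_zero, one_smul]
    rw [h1]
    exact 𝔨.smul_mem _ h
  have h1 := ker_large hJ hJt hk hbr hww
  have h2 := LinearMap.finrank_range_add_finrank_ker (evw J 𝔨 w)
  have h3 : finrank ℂ (PP J 𝔨) ≤ m + 1 := (finrank_PP hJ hsum).trans hE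
  have h4 := Iw_le hJ hk hJt hbr hww
  have h5 := finrank_Iw (J := J) (𝔨 := 𝔨) w
  have h6 : finrank ℂ (LinearMap.range (evw J 𝔨 w)) ≤ 2 * m := by
    have h7 := Submodule.finrank_le (LinearMap.range (evw J 𝔨 w))
    rwa [Module.finrank_fin_fun] at h7
  omega

end Pool.Agent.W2helper4.TS
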