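import Pool.Agent.W2helper4.CY.Nat

/-!
# The normaliser of the line of the regular nilpotent matrix
-/

set_option autoImplicit false
set_option linter.unusedSectionVars false

open Matrix Module

namespace Pool.Agent.W2helper4.TS

open Pool.Agent.Y113.MT

section
variable {F : Type} [Field F] {m : ℕ}

/-- the similitudes which normalise the line of `N` -/
def Ep (F : Type) [Field F] (m : ℕ) : Submodule F (Matrix (Fin (2 * m)) (Fin (2 * m)) F) where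
  carrier := {Y | (∃ a : F, Y * NN F (2 * m) - NN F (2 * m) * Y = a • NN F (2 * m)) ∧
    ∃ b : F, Y * SS F (2 * m) + SS F (2 * m) * Yᵀ = b • SS F (2 * m)}
  zero_mem' := ⟨⟨0, by simp⟩, 0, by simp⟩
  add_mem' := by
    rintro X Y ⟨⟨a, ha⟩, b, hb⟩ ⟨⟨a', ha'⟩, b', hb'⟩
    refine ⟨⟨a + a', ?_⟩, b + b', ?_⟩
    · rw [add_smul, ← ha, ← ha', add_mul, mul_add]
      abel
    · rw [add_smul, ← hb, ← hb', Matrix.transpose_add, add_mul, mul_add]
      abel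
  smul_mem' := by
    rintro s X ⟨⟨a, ha⟩, b, hb⟩
    refine ⟨⟨s * a, ?_⟩, s * b, ?_⟩
    · rw [mul_smul, ← ha, Matrix.smul_mul, Matrix.mul_smul, smul_sub]
    · rw [mul_smul, ← hb, Matrix.transpose_smul, Matrix.smul_mul, Matrix.mul_smul, smul_add]

theorem one_Ep : (1 : Matrix (Fin (2 * m)) (Fin (2 * m)) F) ∈ Ep F m := by
  refine ⟨⟨0, by rw [Matrix.one_mul, Matrix.mul_one, sub_self, zero_smul]⟩, 2, ?_⟩
  rw [Matrix.transpose_one, Matrix.one_mul, Matrix.mul_one, two_smul]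

/-- matrices which commute with `N` commute -/
theorem comm_NN {n : ℕ} {A B : Matrix (Fin n) (Fin n) F} (hA : A * NN F n = NN F n * A) (hB : B * NN F n = NN F n * B) :
    A * B = B * A := by
  rcases Nat.eq_zero_or_pos n with h0 | hpos
  · subst h0
    exact Subsingleton.elim _ _
  have h1 : A = ∑ k : Fin n, A ⟨0, hpos⟩ k • NN F n ^ (k : ℕ) := by
    have h2 : (∑ k : Fin n, A ⟨0, hpos⟩ k • NN F n ^ (k : ℕ)) * NN F n = NN F n * ∑ k : Fin n, A ⟨0, hpos⟩ k • NN F n ^ (k : ℕ) := by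
      rw [Finset.sum_mul, Finset.mul_sum]
      refine Finset.sum_congr rfl fun i _ => ?_
      rw [Matrix.smul_mul, Matrix.mul_smul, ← pow_succ, ← pow_succ']
    rw [← sub_eq_zero]
    refine Pool.Agent.Y155.MT.eq_zero_of_row (A := A - ∑ k : Fin n, A ⟨0, hpos⟩ k • NN F n ^ (k : ℕ)) ?_ ?_
    · rw [Matrix.sub_mul, Matrix.mul_sub, hA, h2]
    · intro _ j
      rw [Matrix.sub_apply, sub_eq_zero, Matrix.sum_apply, Finset.sum_eq_single j]
      · rw [Matrix.smul_apply, Pool.Agent.Y155.MT.pow_row hpos j j.2, if_pos rfl, smul_eq_mul, mul_one]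
      · intro k _ hk
        rw [Matrix.smul_apply, Pool.Agent.Y155.MT.pow_row hpos k k.2, if_neg (fun h => hk (Fin.ext h.symm)), smul_zero]
      · intro h
        exact absurd (Finset.mem_univ j) h
  have hBk : ∀ k : ℕ, NN F n ^ k * B = B * NN F n ^ k := fun k => ((Commute.pow_right (show Commute B (NN F n) from hB) k).eq).symm
  rw [h1, Finset.sum_mul, Finset.mul_sum]
  refine Finset.sum_congr rfl fun k _ => ?_
  rw [Matrix.smul_mul, Matrix.mul_smul, hBk]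

/-- brackets commute with `N` -/
theorem br_NN {X Y N : Matrix (Fin (2 * m)) (Fin (2 * m)) F} {a a' : F} (hX : X * N - N * X = a • N)
    (hY : Y * N - N * Y = a' • N) : (X * Y - Y * X) * N = N * (X * Y - Y * X) := by
  have h1 : X * N = a • N + N * X := by rw [← hX]; abel
  have h2 : Y * N = a' • N + N * Y := by rw [← hY]; abel
  have h3 : X * Y * N = a' • (a • N + N * X) + (a • (N * Y) + N * (X * Y)) := by
    rw [Matrix.mul_assoc, h2, Matrix.mul_add, Matrix.mul_smul, h1, ← Matrix.mul_assoc, h1, Matrix.add_mul,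
      Matrix.smul_mul, Matrix.mul_assoc]
  have h4 : Y * X * N = a • (a' • N + N * Y) + (a' • (N * X) + N * (Y * X)) := by
    rw [Matrix.mul_assoc, h1, Matrix.mul_add, Matrix.mul_smul, h2, ← Matrix.mul_assoc, h2, Matrix.add_mul,
      Matrix.smul_mul, Matrix.mul_assoc]
  rw [Matrix.sub_mul, h3, h4, Matrix.mul_sub, smul_add, smul_add, smul_comm a' a]
  abel

theorem br_SS {X Y S : Matrix (Fin (2 * m)) (Fin (2 * m)) F} {b b' : F} (hX : X * S + S * Xᵀ = b • S)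
    (hY : Y * S + S * Yᵀ = b' • S) : (X * Y - Y * X) * S + S * (X * Y - Y * X)ᵀ = 0 := by
  have h1 : X * S = b • S - S * Xᵀ := by rw [← hX]; abel
  have h2 : Y * S = b' • S - S * Yᵀ := by rw [← hY]; abel
  have h3 : X * Y * S = b' • (b • S - S * Xᵀ) - (b • (S * Yᵀ) - S * (Xᵀ * Yᵀ)) := by
    rw [Matrix.mul_assoc, h2, Matrix.mul_sub, Matrix.mul_smul, h1, ← Matrix.mul_assoc, h1, Matrix.sub_mul,
      Matrix.smul_mul, Matrix.mul_assoc]
  have h4 : Y * X * S = b • (b' • S - S * Yᵀ) - (b' • (S * Xᵀ) - S * (Yᵀ * Xᵀ)) := by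
    rw [Matrix.mul_assoc, h1, Matrix.mul_sub, Matrix.mul_smul, h2, ← Matrix.mul_assoc, h2, Matrix.sub_mul,
      Matrix.smul_mul, Matrix.mul_assoc]
  rw [Matrix.sub_mul, h3, h4, Matrix.transpose_sub, Matrix.transpose_mul, Matrix.transpose_mul, Matrix.mul_sub,
    smul_sub, smul_sub, smul_comm b' b]
  abel

theorem br_Ep {X Y : Matrix (Fin (2 * m)) (Fin (2 * m)) F} (hX : X ∈ Ep F m) (hY : Y ∈ Ep F m) :
    X * Y - Y * X ∈ Ep F m := by
  obtain ⟨⟨a, ha⟩, b, hb⟩ := hX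
  obtain ⟨⟨a', ha'⟩, b', hb'⟩ := hY
  refine ⟨⟨0, ?_⟩, 0, ?_⟩
  · rw [br_NN ha ha', sub_self, zero_smul]
  · rw [br_SS hb hb', zero_smul]

/-- second brackets are zero -/
theorem br2_Ep {X Y X' Y' : Matrix (Fin (2 * m)) (Fin (2 * m)) F} (hX : X ∈ Ep F m) (hY : Y ∈ Ep F m)
    (hX' : X' ∈ Ep F m) (hY' : Y' ∈ Ep F m) :
    (X * Y - Y * X) * (X' * Y' - Y' * X') - (X' * Y' - Y' * X') * (X * Y - Y * X) = 0 := by
  obtain ⟨⟨a, ha⟩, -⟩ := hX
  obtain ⟨⟨b, hb⟩, -⟩ := hY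
  obtain ⟨⟨a', ha'⟩, -⟩ := hX'
  obtain ⟨⟨b', hb'⟩, -⟩ := hY'
  rw [sub_eq_zero]
  exact comm_NN (br_NN ha hb) (br_NN ha' hb')

/-- the symplectic part -/
def E0 (F : Type) [Field F] (m : ℕ) : Submodule F (Matrix (Fin (2 * m)) (Fin (2 * m)) F) where
  carrier := {Y | (∃ a : F, Y * NN F (2 * m) - NN F (2 * m) * Y = a • NN F (2 * m)) ∧
    Y * SS F (2 * m) + SS F (2 * m) * Yᵀ = 0}
  zero_mem' := ⟨⟨0, by simp⟩, by simp⟩
  add_mem' := by
    rintro X Y ⟨⟨a, ha⟩, hb⟩ ⟨⟨a', ha'⟩, hb'⟩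
    refine ⟨⟨a + a', ?_⟩, ?_⟩
    · rw [add_smul, ← ha, ← ha', add_mul, mul_add]
      abel
    · rw [Matrix.transpose_add, add_mul, mul_add]
      have h1 : X * SS F (2 * m) + Y * SS F (2 * m) + (SS F (2 * m) * Xᵀ + SS F (2 * m) * Yᵀ) =
        (X * SS F (2 * m) + SS F (2 * m) * Xᵀ) + (Y * SS F (2 * m) + SS F (2 * m) * Yᵀ) := by abel
      rw [h1, hb, hb', add_zero]
  smul_mem' := by
    rintro s X ⟨⟨a, ha⟩, hb⟩
    refine ⟨⟨s * a, ?_⟩, ?_⟩
    · rw [mul_smul, ← ha, Matrix.smul_mul, Matrix.mul_smul, smul_sub]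
    · rw [Matrix.transpose_smul, Matrix.smul_mul, Matrix.mul_smul, ← smul_add, hb, smul_zero]

theorem finrank_E0 (hm : 1 ≤ m) : finrank ℂ (E0 ℂ m) ≤ m + 1 := by
  have h1 : E0 ℂ m ≤ Ep ℂ m := fun Y hY => ⟨hY.1, 0, by rw [hY.2, zero_smul]⟩
  have h2 : E0 ℂ m < Ep ℂ m := by
    refine lt_of_le_of_ne h1 fun h => ?_
    have h3 : (1 : Matrix (Fin (2 * m)) (Fin (2 * m)) ℂ) ∈ E0 ℂ m := by rw [h]; exact one_Ep
    have h4 := h3.2
    rw [Matrix.transpose_one, Matrix.one_mul, Matrix.mul_one, ← two_smul ℂ] at h4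
    have h5 := (smul_eq_zero.1 h4).resolve_left two_ne_zero
    have h6 := SS_det (F := ℂ) m
    have : Nonempty (Fin (2 * m)) := ⟨⟨0, by omega⟩⟩
    rw [h5, Matrix.det_zero] at h6
    exact h6 rfl
  have h3 := Submodule.finrank_lt_finrank_of_lt h2
  have h4 : finrank ℂ (Ep ℂ m) ≤ m + 2 := by
    refine Pool.Agent.Y155.MT.eb ℂ m hm (SS ℂ (2 * m)) (SS_det m) ?_ (Ep ℂ m) fun W hW => ⟨hW.1, ?_⟩
    · have h5 := W2helper4.CY.NN_SS m
      rwa [W2helper4.CY.cq_SS] at h5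
    · obtain ⟨b, hb⟩ := hW.2
      refine ⟨b, ?_⟩
      have h5 := congrArg (fun X => SS ℂ (2 * m) * X * SS ℂ (2 * m)) hb
      simp only [Matrix.mul_add, Matrix.add_mul, Matrix.mul_smul, Matrix.smul_mul] at h5
      have h6 : SS ℂ (2 * m) * (W * SS ℂ (2 * m)) * SS ℂ (2 * m) = -(SS ℂ (2 * m) * W) := by
        rw [Matrix.mul_assoc, Matrix.mul_assoc, SS_sq, Matrix.mul_neg, Matrix.mul_neg, Matrix.mul_one]
      have h7 : SS ℂ (2 * m) * (SS ℂ (2 * m) * Wᵀ) * SS ℂ (2 * m) = -(Wᵀ * SS ℂ (2 * m)) := by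
        rw [← Matrix.mul_assoc, SS_sq, Matrix.neg_mul, Matrix.neg_mul, Matrix.one_mul]
      have h8 : SS ℂ (2 * m) * SS ℂ (2 * m) * SS ℂ (2 * m) = -SS ℂ (2 * m) := by
        rw [SS_sq, Matrix.neg_mul, Matrix.one_mul]
      rw [h6, h7, h8, smul_neg] at h5
      have h9 : Wᵀ * SS ℂ (2 * m) + SS ℂ (2 * m) * W = -(-(SS ℂ (2 * m) * W) + -(Wᵀ * SS ℂ (2 * m))) := by abel
      rw [h9, h5, neg_neg]
  omega

end

end Pool.Agent.W2helper4.TS
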