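import Pool.Agent.W2helper4.TS.Tan
import Pool.Agent.W2helper4.TS.Lie3
import Pool.Agent.W2helper4.TS.Nrm

/-!
# The Lie algebra of a subtorsor through a block diagonal matrix
-/

set_option autoImplicit false
set_option linter.unusedSectionVars false
set_option maxHeartbeats 1000000

open Matrix Module

noncomputable section

namespace Pool.Agent.W2helper4.TS

open Pool.Agent.TH127.PT Pool.Agent.Y123.ST Pool.Agent.W2helper33.OQ Pool.Agent.W2helper33.BD Pool.Agent.Y113.MT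

variable {s : ℕ} {m : Fin s → ℕ}

/-- the index set of the sum -/
abbrev BI (m : Fin s → ℕ) : Type := Σ b, Fin (2 * m b)

/-- tuples of blocks -/
abbrev Bk (m : Fin s → ℕ) : Type := ∀ b, Matrix (Fin (2 * m b)) (Fin (2 * m b)) ℂ

/-- block diagonal matrices -/
def bd (X : Bk m) : Matrix (BI m) (BI m) ℂ := Matrix.blockDiagonal' X

theorem bd_mul (X Y : Bk m) : bd (fun b => X b * Y b) = bd X * bd Y := Matrix.blockDiagonal'_mul X Y

theorem bd_sub (X Y : Bk m) : bd (fun b => X b - Y b) = bd X - bd Y := Matrix.blockDiagonal'_sub X Y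

theorem bd_add (X Y : Bk m) : bd (fun b => X b + Y b) = bd X + bd Y := Matrix.blockDiagonal'_add X Y

theorem bd_smul (t : ℂ) (X : Bk m) : bd (fun b => t • X b) = t • bd X := Matrix.blockDiagonal'_smul t X

theorem bd_br (X Y : Bk m) : bd (fun b => X b * Y b - Y b * X b) = bd X * bd Y - bd Y * bd X := by
  rw [bd_sub, bd_mul, bd_mul]

/-- **The hypothesis on the tangent vectors.** -/
def HT (m : Fin s → ℕ) (K : Subfield ℂ) (d : ℕ) (c : Matrix (BI m) (BI m) ℂ) (p : Bk m) : Prop :=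
  ∀ (a : Fin s) (v : Fin (2 * m a) → ℂ), ∃ Y : Bk m, (∀ b, Y b ∈ Ep ℂ (m b)) ∧
    bd (fun b => p b * Y b * (p b)⁻¹ + (Pi.single a (vecMulVec v v * SS ℂ (2 * m a)) : Bk m) b) ∈ Tan K d c

section zz
variable {N : Type} [Fintype N] [DecidableEq N] {T : Set (Matrix N N ℂ)}

/-- the elements which act trivially on the normaliser modulo the Lie algebra -/
def Zz (T : Set (Matrix N N ℂ)) : Submodule ℂ (Matrix N N ℂ) where
  carrier := {Z | Z ∈ Nr (LM T) ∧ ∀ W ∈ Nr (LM T), Z * W - W * Z ∈ LM T}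
  zero_mem' := ⟨Submodule.zero_mem _, fun W _ => by
    rw [Matrix.zero_mul, Matrix.mul_zero, sub_zero]
    exact Submodule.zero_mem _⟩
  add_mem' := by
    rintro x y ⟨hx, hx'⟩ ⟨hy, hy'⟩
    refine ⟨Submodule.add_mem _ hx hy, fun W hW => ?_⟩
    have h1 := Submodule.add_mem _ (hx' W hW) (hy' W hW)
    have h2 : (x + y) * W - W * (x + y) = x * W - W * x + (y * W - W * y) := by
      rw [Matrix.add_mul, Matrix.mul_add]
      abel
    rwa [h2]
  smul_mem' := by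
    rintro t x ⟨hx, hx'⟩
    refine ⟨Submodule.smul_mem _ t hx, fun W hW => ?_⟩
    have h1 := Submodule.smul_mem _ t (hx' W hW)
    have h2 : (t • x) * W - W * (t • x) = t • (x * W - W * x) := by
      rw [Matrix.smul_mul, Matrix.mul_smul, smul_sub]
    rwa [h2]

variable {L : Submodule ℂ (Matrix N N ℂ)}

theorem nr_br {A B : Matrix N N ℂ} (hA : A ∈ Nr L) (hB : B ∈ Nr L) : A * B - B * A ∈ Nr L := by
  intro w hw
  have h3 := Submodule.sub_mem _ (hA _ (hB w hw)) (hB _ (hA w hw))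
  have h4 : A * (B * w - w * B) - (B * w - w * B) * A - (B * (A * w - w * A) - (A * w - w * A) * B) =
      (A * B - B * A) * w - w * (A * B - B * A) := by
    simp only [Matrix.mul_sub, Matrix.sub_mul, Matrix.mul_assoc]
    abel
  rwa [h4] at h3

/-- the Lie algebra of the tangent vectors -/
def H1 (K : Subfield ℂ) (d : ℕ) (c : Matrix N N ℂ) (T : Set (Matrix N N ℂ)) : Submodule ℂ (Matrix N N ℂ) :=
  Tan K d c ⊔ Zz T

variable {K : Subfield ℂ}

theorem LM_le_Zz : LM T ≤ Zz T := by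
  intro X hX
  refine ⟨LM_le_Nr hX, fun W hW => ?_⟩
  have h1 := Submodule.neg_mem _ (hW X hX)
  rwa [neg_sub] at h1

/-- brackets of tangent vectors -/
theorem H1_br (hK : ∀ x ∈ K, IsAlgebraic ℚ x) (hT : IsSubtorsor K T) {d : ℕ}
    (hd : JJ (Fintype.card N * Fintype.card N) * (1 + D0 N) ≤ d) {c V V' : Matrix N N ℂ} (hc : c ∈ T)
    (hV : V ∈ H1 K d c T) (hV' : V' ∈ H1 K d c T) : V * V' - V' * V ∈ Zz T := by
  have hd1 : 1 + D0 N ≤ d := le_trans (by nlinarith [JJ_pos (Fintype.card N * Fintype.card N)]) hd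
  obtain ⟨v, hv, z, hz, rfl⟩ := Submodule.mem_sup.1 hV
  obtain ⟨v', hv', z', hz', rfl⟩ := Submodule.mem_sup.1 hV'
  have nv := tan_nr hT hd1 hc hv
  have nv' := tan_nr hT hd1 hc hv'
  have h1 : v * v' - v' * v ∈ Zz T := ⟨nr_br nv nv', fun W hW => tan_br hK hT hd hc hv hv' hW⟩
  have h2 : v * z' - z' * v ∈ Zz T := by
    have h3 := Submodule.neg_mem _ (hz'.2 v nv)
    rw [neg_sub] at h3
    exact LM_le_Zz h3
  have h3 : z * v' - v' * z ∈ Zz T := LM_le_Zz (hz.2 v' nv')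
  have h4 : z * z' - z' * z ∈ Zz T := LM_le_Zz (hz.2 z' hz'.1)
  have h5 : (v + z) * (v' + z') - (v' + z') * (v + z) =
      (v * v' - v' * v) + (v * z' - z' * v) + (z * v' - v' * z) + (z * z' - z' * z) := by
    rw [Matrix.add_mul, Matrix.mul_add, Matrix.mul_add, Matrix.add_mul, Matrix.mul_add, Matrix.mul_add]
    abel
  rw [h5]
  exact Submodule.add_mem _ (Submodule.add_mem _ (Submodule.add_mem _ h1 h2) h3) h4

end zz

section main
variable {K : Subfield ℂ} {d : ℕ} {T : Set (Matrix (BI m) (BI m) ℂ)} {c : Matrix (BI m) (BI m) ℂ} {p : Bk m}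

/-- conjugates of the normaliser of the line of `N` -/
def Cj {k : ℕ} (p : Matrix (Fin (2 * k)) (Fin (2 * k)) ℂ) (X : Matrix (Fin (2 * k)) (Fin (2 * k)) ℂ) : Prop :=
  ∃ Y ∈ Ep ℂ k, X = p * Y * p⁻¹

theorem Cj.br {k : ℕ} {p X X' : Matrix (Fin (2 * k)) (Fin (2 * k)) ℂ} (hp : p⁻¹ * p = 1) (h : Cj p X) (h' : Cj p X') :
    Cj p (X * X' - X' * X) := by
  obtain ⟨Y, hY, rfl⟩ := h
  obtain ⟨Y', hY', rfl⟩ := h'
  refine ⟨_, br_Ep hY hY', ?_⟩
  have h1 : ∀ A B : Matrix (Fin (2 * k)) (Fin (2 * k)) ℂ, p * A * p⁻¹ * (p * B * p⁻¹) = p * (A * B) * p⁻¹ := by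
    intro A B
    have h2 : p * A * p⁻¹ * (p * B * p⁻¹) = p * A * (p⁻¹ * p) * B * p⁻¹ := by simp only [Matrix.mul_assoc]
    rw [h2, hp, Matrix.mul_one]
    simp only [Matrix.mul_assoc]
  rw [h1, h1, ← Matrix.sub_mul, ← Matrix.mul_sub]

theorem Cj.br2 {k : ℕ} {p X1 X2 X3 X4 : Matrix (Fin (2 * k)) (Fin (2 * k)) ℂ} (hp : p⁻¹ * p = 1) (h1 : Cj p X1)
    (h2 : Cj p X2) (h3 : Cj p X3) (h4 : Cj p X4) :
    (X1 * X2 - X2 * X1) * (X3 * X4 - X4 * X3) - (X3 * X4 - X4 * X3) * (X1 * X2 - X2 * X1) = 0 := by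
  obtain ⟨Y1, hY1, rfl⟩ := h1
  obtain ⟨Y2, hY2, rfl⟩ := h2
  obtain ⟨Y3, hY3, rfl⟩ := h3
  obtain ⟨Y4, hY4, rfl⟩ := h4
  have h1 : ∀ A B : Matrix (Fin (2 * k)) (Fin (2 * k)) ℂ, p * A * p⁻¹ * (p * B * p⁻¹) = p * (A * B) * p⁻¹ := by
    intro A B
    have h2 : p * A * p⁻¹ * (p * B * p⁻¹) = p * A * (p⁻¹ * p) * B * p⁻¹ := by simp only [Matrix.mul_assoc]
    rw [h2, hp, Matrix.mul_one]
    simp only [Matrix.mul_assoc]
  rw [h1, h1, h1, h1, ← Matrix.sub_mul, ← Matrix.mul_sub, ← Matrix.sub_mul, ← Matrix.mul_sub, h1, h1, ← Matrix.sub_mul,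
    ← Matrix.mul_sub, br2_Ep hY1 hY2 hY3 hY4, Matrix.mul_zero, Matrix.zero_mul]

/-- the projections to the block `a` of the elements whose other blocks are small -/
def Kk (K : Subfield ℂ) (d : ℕ) (c : Matrix (BI m) (BI m) ℂ) (T : Set (Matrix (BI m) (BI m) ℂ)) (p : Bk m) (a : Fin s) :
    Submodule ℂ (Matrix (Fin (2 * m a)) (Fin (2 * m a)) ℂ) where
  carrier := {X | X * SS ℂ (2 * m a) + SS ℂ (2 * m a) * Xᵀ = 0 ∧ ∃ (t : ℂ) (V : Bk m), V a = X + t • 1 ∧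
    (∀ b, b ≠ a → Cj (p b) (V b)) ∧ bd V ∈ H1 K d c T}
  zero_mem' := by
    refine ⟨by rw [transpose_zero, Matrix.zero_mul, Matrix.mul_zero, add_zero], 0, 0, ?_, fun b _ => ⟨0, Submodule.zero_mem _, ?_⟩, ?_⟩
    · rw [zero_smul, add_zero]
      rfl
    · rw [Matrix.mul_zero, Matrix.zero_mul]
      rfl
    · have h1 : bd (0 : Bk m) = 0 := Matrix.blockDiagonal'_zero
      rw [h1]
      exact Submodule.zero_mem _
  add_mem' := by
    rintro X X' ⟨h1, t, V, h2, h3, h4⟩ ⟨h1', t', V', h2', h3', h4'⟩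
    refine ⟨?_, t + t', fun b => V b + V' b, ?_, fun b hb => ?_, ?_⟩
    · have h5 : (X + X') * SS ℂ (2 * m a) + SS ℂ (2 * m a) * (X + X')ᵀ =
        (X * SS ℂ (2 * m a) + SS ℂ (2 * m a) * Xᵀ) + (X' * SS ℂ (2 * m a) + SS ℂ (2 * m a) * X'ᵀ) := by
        rw [Matrix.transpose_add, Matrix.add_mul, Matrix.mul_add]
        abel
      rw [h5, h1, h1', add_zero]
    · change V a + V' a = _
      rw [h2, h2', add_smul]
      abel
    · obtain ⟨Y, hY, e⟩ := h3 b hb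
      obtain ⟨Y', hY', e'⟩ := h3' b hb
      exact ⟨Y + Y', Submodule.add_mem _ hY hY', by
        change V b + V' b = _
        rw [e, e', Matrix.mul_add, Matrix.add_mul]⟩
    · rw [bd_add]
      exact Submodule.add_mem _ h4 h4'
  smul_mem' := by
    rintro u X ⟨h1, t, V, h2, h3, h4⟩
    refine ⟨?_, u * t, fun b => u • V b, ?_, fun b hb => ?_, ?_⟩
    · rw [Matrix.transpose_smul, Matrix.smul_mul, Matrix.mul_smul, ← smul_add, h1, smul_zero]
    · change u • V a = _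
      rw [h2, smul_add, smul_smul]
    · obtain ⟨Y, hY, e⟩ := h3 b hb
      exact ⟨u • Y, Submodule.smul_mem _ u hY, by
        change u • V b = _
        rw [e, Matrix.mul_smul, Matrix.smul_mul]⟩
    · rw [bd_smul]
      exact Submodule.smul_mem _ u h4

theorem Zz_le_H1 {N : Type} [Fintype N] [DecidableEq N] {T : Set (Matrix N N ℂ)} {c : Matrix N N ℂ} :
    Zz T ≤ H1 K d c T := le_sup_right

theorem comp_br {n : ℕ} (X X' : Matrix (Fin n) (Fin n) ℂ) (t t' : ℂ) :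
    (X + t • 1) * (X' + t' • 1) - (X' + t' • 1) * (X + t • 1) = X * X' - X' * X := by
  simp only [Matrix.add_mul, Matrix.mul_add, Matrix.smul_mul, Matrix.mul_smul, Matrix.one_mul, Matrix.mul_one, smul_add,
    smul_smul, mul_comm t t']
  abel

theorem Kk_br (hK : ∀ x ∈ K, IsAlgebraic ℚ x) (hT : IsSubtorsor K T)
    (hd : JJ (Fintype.card (BI m) * Fintype.card (BI m)) * (1 + D0 (BI m)) ≤ d) (hc : c ∈ T)
    (hp : ∀ b, (p b)⁻¹ * p b = 1) (a : Fin s) :
    ∀ x ∈ Kk K d c T p a, ∀ y ∈ Kk K d c T p a, x * y - y * x ∈ Kk K d c T p a := by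
  rintro X ⟨h1, t, V, h2, h3, h4⟩ X' ⟨h1', t', V', h2', h3', h4'⟩
  refine ⟨?_, 0, fun b => V b * V' b - V' b * V b, ?_, fun b hb => (h3 b hb).br (hp b) (h3' b hb), ?_⟩
  · exact br_SS (b := 0) (b' := 0) (by rw [h1, zero_smul]) (by rw [h1', zero_smul])
  · change V a * V' a - V' a * V a = _
    rw [h2, h2', comp_br, zero_smul, add_zero]
  · rw [bd_br]
    exact Zz_le_H1 (H1_br hK hT hd hc h4 h4')

theorem Kk_sum (hT : HT m K d c p) (hp : ∀ b, (p b)⁻¹ * p b = 1) (hps : ∀ b, p b * SS ℂ (2 * m b) * (p b)ᵀ = SS ℂ (2 * m b))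
    (a : Fin s) (v : Fin (2 * m a) → ℂ) : ∃ k ∈ Kk K d c T p a,
      ∃ e ∈ (E0 ℂ (m a)).map ((LinearMap.mulLeft ℂ (p a)).comp (LinearMap.mulRight ℂ (p a)⁻¹)),
      vecMulVec v v * SS ℂ (2 * m a) = k + e := by
  obtain ⟨Y, hY, hV⟩ := hT a v
  obtain ⟨⟨a', ha'⟩, b, hb⟩ := hY a
  set S := SS ℂ (2 * m a) with hS
  -- the symplectic part
  let Y0 := Y a - (b / 2) • 1
  have hY0 : Y0 ∈ E0 ℂ (m a) := by
    refine ⟨⟨a', ?_⟩, ?_⟩
    · rw [← ha']
      simp only [Y0, Matrix.sub_mul, Matrix.mul_sub, Matrix.smul_mul, Matrix.mul_smul, Matrix.one_mul, Matrix.mul_one]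
      abel
    · have h1 : Y0 * S + S * Y0ᵀ = (Y a * S + S * (Y a)ᵀ) - (b / 2 + b / 2) • S := by
        simp only [Y0, Matrix.sub_mul, Matrix.mul_sub, Matrix.transpose_sub, Matrix.transpose_smul, Matrix.transpose_one,
          Matrix.smul_mul, Matrix.mul_smul, Matrix.one_mul, Matrix.mul_one, add_smul]
        abel
      rw [h1, hb, add_halves, sub_self]
  let e := p a * Y0 * (p a)⁻¹
  have hpi : p a * (p a)⁻¹ = 1 := mul_eq_one_comm.1 (hp a)
  have hpt : (p a)⁻¹ * S * ((p a)⁻¹)ᵀ = S := by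
    have h1 := hps a
    calc (p a)⁻¹ * S * ((p a)⁻¹)ᵀ = (p a)⁻¹ * (p a * S * (p a)ᵀ) * ((p a)⁻¹)ᵀ := by rw [← hS] at h1; rw [h1]
      _ = ((p a)⁻¹ * p a) * S * ((p a)⁻¹ * p a)ᵀ := by rw [Matrix.transpose_mul]; simp only [Matrix.mul_assoc]
      _ = S := by rw [hp a, Matrix.transpose_one, Matrix.one_mul, Matrix.mul_one]
  have he : e * S + S * eᵀ = 0 := by
    have h1 : e * S = p a * (Y0 * S) * (p a)ᵀ := by
      have h2 : S = p a * S * (p a)ᵀ := (hps a).symm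
      have h3 : (p a)⁻¹ * S = S * (p a)ᵀ := by
        conv_lhs => rw [h2]
        rw [← Matrix.mul_assoc, ← Matrix.mul_assoc, hp a, Matrix.one_mul]
      simp only [e]
      rw [Matrix.mul_assoc, h3]
      simp only [Matrix.mul_assoc]
    have h2 : S * eᵀ = p a * (S * Y0ᵀ) * (p a)ᵀ := by
      have h3 : S * ((p a)⁻¹)ᵀ = p a * S := by
        have h4 : p a * S = p a * ((p a)⁻¹ * S * ((p a)⁻¹)ᵀ) := by rw [hpt]
        rw [h4, ← Matrix.mul_assoc, ← Matrix.mul_assoc, hpi, Matrix.one_mul]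
      simp only [e]
      rw [Matrix.transpose_mul, Matrix.transpose_mul, ← Matrix.mul_assoc, h3]
      simp only [Matrix.mul_assoc]
    rw [h1, h2, ← Matrix.add_mul, ← Matrix.mul_add, hY0.2, Matrix.mul_zero, Matrix.zero_mul]
  have hvv : vecMulVec v v * S * S + S * (vecMulVec v v * S)ᵀ = 0 := by
    rw [Matrix.transpose_mul, Matrix.transpose_vecMulVec, hS, SS_tr, Matrix.mul_assoc, SS_sq, ← Matrix.mul_assoc,
      Matrix.mul_neg, Matrix.mul_neg, SS_sq, Matrix.mul_one, neg_neg, Matrix.one_mul, neg_add_cancel]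
  refine ⟨vecMulVec v v * S + e, ⟨?_, b / 2, _, ?_, ?_, Submodule.mem_sup_left hV⟩, -e, Submodule.neg_mem _ ⟨Y0, hY0, ?_⟩, ?_⟩
  · rw [Matrix.add_mul, Matrix.transpose_add, Matrix.mul_add]
    have h1 : vecMulVec v v * S * S + e * S + (S * (vecMulVec v v * S)ᵀ + S * eᵀ) =
      (vecMulVec v v * S * S + S * (vecMulVec v v * S)ᵀ) + (e * S + S * eᵀ) := by abel
    rw [← hS, h1, hvv, he, add_zero]
  · rw [Pi.single_eq_same]
    have h1 : p a * Y a * (p a)⁻¹ = e + (b / 2) • 1 := by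
      simp only [e, Y0, Matrix.mul_sub, Matrix.sub_mul, Matrix.mul_smul, Matrix.smul_mul, Matrix.mul_one, hpi]
      abel
    rw [h1]
    abel
  · intro b' hb'
    refine ⟨Y b', hY b', ?_⟩
    rw [Pi.single_eq_of_ne hb', add_zero]
  · change p a * (Y0 * (p a)⁻¹) = e
    simp only [e, Matrix.mul_assoc]
  · abel

end main

end Pool.Agent.W2helper4.TS

end
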