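import Pool.Agent.W2helper4.TS.Grp
import Pool.Agent.W2helper33.BD.Out

/-!
# The product of the symplectic groups acts on the subtorsor
-/

set_option autoImplicit false
set_option linter.unusedSectionVars false
set_option maxHeartbeats 1000000

open Matrix Module

noncomputable section

namespace Pool.Agent.W2helper4.TS

open Pool.Agent.TH127.PT Pool.Agent.Y123.ST Pool.Agent.W2helper33.OQ Pool.Agent.W2helper33.BD Pool.Agent.Y113.MT
  Pool.Agent.Y119.HY

section tvs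
variable {n : ℕ} {J : Matrix (Fin n) (Fin n) ℂ}

/-- **The symplectic group is generated by transvections.** -/
theorem tv_gen (hJ : J.transpose = -J) (hdet : J.det ≠ 0) (S : Submonoid (Matrix (Fin n) (Fin n) ℂ))
    (htv : ∀ x s, tv J x s ∈ S) (g : Matrix (Fin n) (Fin n) ℂ) (hg : g.transpose * J * g = J) : g ∈ S := by
  set ω : (Fin n → ℂ) →ₗ[ℂ] (Fin n → ℂ) →ₗ[ℂ] ℂ := Matrix.toLinearMap₂' ℂ J with hω
  have hωa : ∀ u v, ω u v = om J u v := by
    intro u v
    rw [hω, Matrix.toLinearMap₂'_apply']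
    rfl
  have h0 : ∀ v, ω v v = 0 := fun v => by rw [hωa, om_self hJ]
  have hnd : ∀ u, (∀ v, ω u v = 0) → u = 0 := by
    intro u hu
    have h1 : ∀ w : Fin n → ℂ, u ⬝ᵥ w = 0 := by
      intro w
      have h2 := hu (J⁻¹ *ᵥ w)
      rw [hωa] at h2
      unfold om at h2
      rw [mulVec_mulVec, mul_nonsing_inv _ (Ne.isUnit hdet), one_mulVec] at h2
      exact h2
    funext i
    have := h1 (Pi.single i 1)
    rwa [dotProduct_single_one] at this
  have hpres : ∀ u v, ω (Matrix.toLin' g u) (Matrix.toLin' g v) = ω u v := by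
    intro u v
    rw [hωa, hωa, toLin'_apply, toLin'_apply]
    unfold om
    rw [mulVec_mulVec, ← vecMul_transpose, ← dotProduct_mulVec, mulVec_mulVec, ← Matrix.mul_assoc, hg]
  have hmem := Pool.Agent.W948.ZC.TR.aux ℂ _ (Fin n → ℂ) ω rfl h0 hnd (Matrix.toLin' g) hpres
  have key : ∀ T ∈ Pool.Agent.W948.ZC.TR.G ω, LinearMap.toMatrix' T ∈ S := by
    intro T hT
    unfold Pool.Agent.W948.ZC.TR.G at hT
    induction hT using Submonoid.closure_induction with
    | mem T h =>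
      obtain ⟨c, u, rfl⟩ := h
      have h1 : LinearMap.toMatrix' (1 + c • (ω u).smulRight u) = tv J u c := by
        apply (Matrix.toLin'.injective)
        rw [toLin'_toMatrix']
        ext x i
        have h2 : (Matrix.toLin' (tv J u c)) (Pi.single x 1) = tv J u c *ᵥ (Pi.single x 1) := rfl
        rw [LinearMap.comp_apply, LinearMap.comp_apply, LinearMap.single_apply, h2, tv_mulVec, ← hωa]
        simp [LinearMap.add_apply, mul_assoc]
      rw [h1]
      exact htv _ c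
    | one =>
      have : LinearMap.toMatrix' (1 : Module.End ℂ (Fin n → ℂ)) = 1 := LinearMap.toMatrix'_id
      rw [this]
      exact one_mem _
    | mul A B _ _ hA hB =>
      have : LinearMap.toMatrix' (A * B) = LinearMap.toMatrix' A * LinearMap.toMatrix' B :=
        LinearMap.toMatrix'_mul A B
      rw [this]
      exact mul_mem hA hB
  have := key _ hmem
  rwa [LinearMap.toMatrix'_toLin'] at this

theorem sq_zero (hJ : J.transpose = -J) (w : Fin n → ℂ) : vecMulVec w w * J * (vecMulVec w w * J) = 0 := by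
  have h1 : w ⬝ᵥ (J *ᵥ w) = 0 := om_self hJ w
  have h2 : vecMulVec w w * J * vecMulVec w w = 0 := by
    rw [Matrix.mul_assoc, Matrix.mul_vecMulVec, Matrix.vecMulVec_mul_vecMulVec, h1, zero_smul, Matrix.vecMulVec_zero]
  rw [← Matrix.mul_assoc, h2, Matrix.zero_mul]

theorem exp_sq (hn : 2 ≤ n) {X : Matrix (Fin n) (Fin n) ℂ} (hX : X * X = 0) (s : ℂ) :
    NormedSpace.exp (s • X) = 1 + s • X := by
  have hN : X ^ n = 0 := by
    obtain ⟨k, rfl⟩ : ∃ k, n = k + 2 := ⟨n - 2, by omega⟩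
    rw [pow_add, pow_two, hX, mul_zero]
  rw [← E_exp hN]
  obtain ⟨k, hk⟩ : ∃ k, n = k + 2 := ⟨n - 2, by omega⟩
  unfold E
  have h1 : ∀ N : ℕ, N = k + 2 → ∑ i ∈ Finset.range N, (s ^ i / (i.factorial : ℂ)) • X ^ i = 1 + s • X := by
    intro N hN
    subst hN
    rw [Finset.sum_range_succ', Finset.sum_range_succ', Finset.sum_eq_zero]
    · simp only [zero_add, pow_one, pow_zero, Nat.factorial, Nat.cast_one, div_one, one_smul, mul_one]
      rw [add_comm]
    · intro i _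
      rw [show i + 1 + 1 = i + 2 from rfl, pow_add X, pow_two, hX, mul_zero, smul_zero]
  exact h1 n hk

theorem exp_tv (hn : 2 ≤ n) (hJ : J.transpose = -J) (w : Fin n → ℂ) (s : ℂ) :
    NormedSpace.exp (s • (vecMulVec w w * J)) = tv J w s := by
  rw [exp_sq hn (sq_zero hJ w)]
  unfold tv
  rw [Matrix.vecMulVec_mul]

end tvs

variable {s : ℕ} {m : Fin s → ℕ}

section exp

attribute [local instance] Matrix.linftyOpNormedRing Matrix.linftyOpNormedAlgebra

theorem pi_exp' (Y : Bk m) (l : Fin s) : NormedSpace.exp Y l = NormedSpace.exp (Y l) := by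
  let _ : ∀ l, NormedAlgebra ℚ (Matrix (Fin (2 * m l)) (Fin (2 * m l)) ℂ) := fun l => Matrix.linftyOpNormedAlgebra
  have h : ∀ l, CompleteSpace (Matrix (Fin (2 * m l)) (Fin (2 * m l)) ℂ) := fun l => inferInstance
  exact @Pi.coe_exp (Fin s) (fun l => Matrix (Fin (2 * m l)) (Fin (2 * m l)) ℂ) _ _ _ h Y l

end exp

theorem exp_bd' (Y : Bk m) : NormedSpace.exp (bd Y) = bd fun l => NormedSpace.exp (Y l) := by
  unfold bd
  rw [Matrix.exp_blockDiagonal']
  congr 1
  funext l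
  exact pi_exp' Y l

/-- the product of the symplectic Lie algebras -/
def gS (m : Fin s → ℕ) : Submodule ℂ (Matrix (BI m) (BI m) ℂ) :=
  Submodule.span ℂ {W | ∃ (a : Fin s) (w : Fin (2 * m a) → ℂ), W = bd (Pi.single a (vecMulVec w w * SS ℂ (2 * m a)))}

theorem bd_single_br (a : Fin s) (X Y : Matrix (Fin (2 * m a)) (Fin (2 * m a)) ℂ) :
    bd (Pi.single a (X * Y - Y * X)) = bd (Pi.single a X : Bk m) * bd (Pi.single a Y) -
      bd (Pi.single a Y : Bk m) * bd (Pi.single a X) := by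
  rw [← bd_br]
  congr 1
  funext b
  rcases eq_or_ne b a with rfl | hb
  · simp only [Pi.single_eq_same]
  · simp only [Pi.single_eq_of_ne hb, Matrix.mul_zero, sub_zero]

theorem bd_single_smul (a : Fin s) (t : ℂ) (X : Matrix (Fin (2 * m a)) (Fin (2 * m a)) ℂ) :
    bd (Pi.single a (t • X)) = t • bd (Pi.single a X : Bk m) := by
  rw [← bd_smul]
  congr 1
  funext b
  rcases eq_or_ne b a with rfl | hb
  · simp only [Pi.single_eq_same]
  · simp only [Pi.single_eq_of_ne hb, smul_zero]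

theorem bd_single_sub (a : Fin s) (X Y : Matrix (Fin (2 * m a)) (Fin (2 * m a)) ℂ) :
    bd (Pi.single a (X - Y)) = bd (Pi.single a X : Bk m) - bd (Pi.single a Y) := by
  rw [← bd_sub]
  congr 1
  funext b
  rcases eq_or_ne b a with rfl | hb
  · simp only [Pi.single_eq_same]
  · simp only [Pi.single_eq_of_ne hb, sub_zero]

section brs
variable {k : ℕ}

theorem RR_eq (v w : Fin (2 * k) → ℂ) : RR (SS ℂ (2 * k)) v w = vecMulVec (v + w) (v + w) * SS ℂ (2 * k) -
    vecMulVec v v * SS ℂ (2 * k) - vecMulVec w w * SS ℂ (2 * k) := by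
  unfold RR
  rw [← Matrix.sub_mul, ← Matrix.sub_mul]
  congr 1
  rw [Matrix.vecMulVec_add, Matrix.add_vecMulVec, Matrix.add_vecMulVec]
  abel

/-- two brackets -/
theorem br_a (v w : Fin (2 * k) → ℂ) :
    vecMulVec v v * SS ℂ (2 * k) * (vecMulVec w w * SS ℂ (2 * k)) - vecMulVec w w * SS ℂ (2 * k) * (vecMulVec v v * SS ℂ (2 * k)) =
      (v ⬝ᵥ (SS ℂ (2 * k) *ᵥ w)) • RR (SS ℂ (2 * k)) v w := by
  have h1 : ∀ a b : Fin (2 * k) → ℂ, vecMulVec a a * SS ℂ (2 * k) * (vecMulVec b b * SS ℂ (2 * k)) =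
      (a ⬝ᵥ (SS ℂ (2 * k) *ᵥ b)) • (vecMulVec a b * SS ℂ (2 * k)) := by
    intro a b
    rw [← Matrix.mul_assoc, Matrix.mul_assoc (vecMulVec a a), Matrix.mul_vecMulVec, Matrix.vecMulVec_mul_vecMulVec,
      Matrix.vecMulVec_smul, Matrix.smul_mul]
  have h2 : w ⬝ᵥ (SS ℂ (2 * k) *ᵥ v) = -(v ⬝ᵥ (SS ℂ (2 * k) *ᵥ w)) := om_skew (SS_tr k) v w
  rw [h1, h1, h2]
  unfold RR
  rw [neg_smul, sub_neg_eq_add, ← smul_add, ← Matrix.add_mul]

theorem br_b (v w : Fin (2 * k) → ℂ) :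
    RR (SS ℂ (2 * k)) v w * (vecMulVec w w * SS ℂ (2 * k)) - vecMulVec w w * SS ℂ (2 * k) * RR (SS ℂ (2 * k)) v w =
      (2 * (v ⬝ᵥ (SS ℂ (2 * k) *ᵥ w))) • (vecMulVec w w * SS ℂ (2 * k)) := by
  have h1 := RR_br (J := SS ℂ (2 * k)) (SS_tr k) v w w
  have h2 : RR (SS ℂ (2 * k)) w w = (2 : ℂ) • (vecMulVec w w * SS ℂ (2 * k)) := by
    unfold RR
    rw [← two_smul ℂ, Matrix.smul_mul]
  have h3 : w ⬝ᵥ (SS ℂ (2 * k) *ᵥ w) = 0 := om_self (SS_tr k) w
  rw [h3, zero_smul, zero_add, h2, Matrix.mul_smul, Matrix.smul_mul, ← smul_sub, ← two_smul ℂ] at h1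
  have h4 := smul_right_injective (Matrix (Fin (2 * k)) (Fin (2 * k)) ℂ) (two_ne_zero (α := ℂ)) h1
  rw [h4, smul_smul]
  congr 1
  ring

end brs

theorem X_mem (a : Fin s) (w : Fin (2 * m a) → ℂ) : bd (Pi.single a (vecMulVec w w * SS ℂ (2 * m a)) : Bk m) ∈ gS m :=
  Submodule.subset_span ⟨a, w, rfl⟩

theorem RR_gS (a : Fin s) (v w : Fin (2 * m a) → ℂ) : bd (Pi.single a (RR (SS ℂ (2 * m a)) v w) : Bk m) ∈ gS m := by
  rw [RR_eq, bd_single_sub, bd_single_sub]
  exact Submodule.sub_mem _ (Submodule.sub_mem _ (X_mem a _) (X_mem a _)) (X_mem a _)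

theorem gS_perf : Perf (gS m) := by
  intro Z hZ
  refine (Submodule.span_le.2 ?_) hZ
  rintro _ ⟨a, w, rfl⟩
  by_cases hw : w = 0
  · subst hw
    have h1 : bd (Pi.single a (vecMulVec (0 : Fin (2 * m a) → ℂ) 0 * SS ℂ (2 * m a)) : Bk m) = 0 := by
      rw [Matrix.vecMulVec_zero, Matrix.zero_mul, Pi.single_zero]
      exact Matrix.blockDiagonal'_zero
    rw [h1]
    exact Submodule.zero_mem _
  · obtain ⟨v, hv⟩ := W2helper4.MJ.SS_nd hw
    have hv' : v ⬝ᵥ (SS ℂ (2 * m a) *ᵥ w) ≠ 0 := by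
      intro h
      apply hv
      have h2 : w ⬝ᵥ (SS ℂ (2 * m a) *ᵥ v) = -(v ⬝ᵥ (SS ℂ (2 * m a) *ᵥ w)) := om_skew (SS_tr (m a)) v w
      rw [h2, h, neg_zero]
    have h1 := br_b v w
    have h2 : vecMulVec w w * SS ℂ (2 * m a) = (2 * (v ⬝ᵥ (SS ℂ (2 * m a) *ᵥ w)))⁻¹ •
        (RR (SS ℂ (2 * m a)) v w * (vecMulVec w w * SS ℂ (2 * m a)) - vecMulVec w w * SS ℂ (2 * m a) * RR (SS ℂ (2 * m a)) v w) := by
      rw [h1, smul_smul, inv_mul_cancel₀ (mul_ne_zero two_ne_zero hv'), one_smul]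
    rw [h2, bd_single_smul, bd_single_br]
    exact Submodule.smul_mem _ _ (Submodule.subset_span ⟨_, RR_gS a v w, _, X_mem a w, rfl⟩)

/-- **Block diagonal symplectic matrices.** -/
theorem bd_Gp (hm : ∀ a, 1 ≤ m a) {g : Bk m} (hg : ∀ b, (g b)ᵀ * SS ℂ (2 * m b) * g b = SS ℂ (2 * m b)) :
    bd g ∈ Gp (gS m) := by
  classical
  have h1 : ∀ (a : Fin s) (x : Matrix (Fin (2 * m a)) (Fin (2 * m a)) ℂ), xᵀ * SS ℂ (2 * m a) * x = SS ℂ (2 * m a) →
      bd (Pi.mulSingle a x : Bk m) ∈ Gp (gS m) := by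
    intro a x hx
    let S : Submonoid (Matrix (Fin (2 * m a)) (Fin (2 * m a)) ℂ) :=
      { carrier := {x | bd (Pi.mulSingle a x : Bk m) ∈ Gp (gS m)}
        one_mem' := by
          change bd (Pi.mulSingle a 1 : Bk m) ∈ Gp (gS m)
          rw [Pi.mulSingle_one]
          have h2 : bd (1 : Bk m) = 1 := Matrix.blockDiagonal'_one
          rw [h2]
          exact Submonoid.one_mem _
        mul_mem' := by
          intro x y hx hy
          change bd (Pi.mulSingle a (x * y) : Bk m) ∈ Gp (gS m)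
          have h2 : (Pi.mulSingle a (x * y) : Bk m) = fun b => (Pi.mulSingle a x : Bk m) b * (Pi.mulSingle a y : Bk m) b := by
            rw [Pi.mulSingle_mul]
            rfl
          rw [h2, bd_mul]
          exact Submonoid.mul_mem _ hx hy }
    refine tv_gen (SS_tr (m a)) (SS_det (m a)) S (fun w t => ?_) x hx
    refine Submonoid.subset_closure ⟨t • bd (Pi.single a (vecMulVec w w * SS ℂ (2 * m a))),
      Submodule.smul_mem _ t (X_mem a w), ?_⟩
    rw [← bd_single_smul, exp_bd']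
    congr 1
    funext b
    rcases eq_or_ne b a with rfl | hb
    · rw [Pi.single_eq_same, Pi.mulSingle_eq_same, exp_tv (by have := hm b; omega) (SS_tr (m b))]
    · rw [Pi.single_eq_of_ne hb, Pi.mulSingle_eq_of_ne hb, NormedSpace.exp_zero]
  have key : ∀ (J : Finset (Fin s)) (g : Bk m), (∀ b, (g b)ᵀ * SS ℂ (2 * m b) * g b = SS ℂ (2 * m b)) →
      (∀ l, l ∉ J → g l = 1) → bd g ∈ Gp (gS m) := by
    intro J
    induction J using Finset.induction_on with
    | empty =>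
      intro g _ hg
      have h2 : g = 1 := funext fun l => hg l (Finset.notMem_empty l)
      have h3 : bd (1 : Bk m) = 1 := Matrix.blockDiagonal'_one
      rw [h2, h3]
      exact Submonoid.one_mem _
    | insert a J ha ih =>
      intro g hg1 hg2
      have h2 : g = fun l => (Pi.mulSingle a (g a) : Bk m) l * Function.update g a 1 l := by
        funext l
        rcases eq_or_ne l a with rfl | hl
        · rw [Pi.mulSingle_eq_same, Function.update_self, mul_one]
        · rw [Pi.mulSingle_eq_of_ne hl, Function.update_of_ne hl, one_mul]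
      have h3 := ih (Function.update g a 1) (fun l => by
        rcases eq_or_ne l a with rfl | hl
        · rw [Function.update_self, Matrix.transpose_one, Matrix.one_mul, Matrix.mul_one]
        · rw [Function.update_of_ne hl]; exact hg1 l) (fun l hl => by
        rcases eq_or_ne l a with rfl | hl'
        · rw [Function.update_self]
        · rw [Function.update_of_ne hl']
          exact hg2 l fun h => (Finset.mem_insert.1 h).elim hl' hl)
      rw [h2, bd_mul]
      exact Submonoid.mul_mem _ (h1 a _ (hg1 a)) h3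
  exact key Finset.univ g hg fun l hl => absurd (Finset.mem_univ l) hl

section main
variable {K : Subfield ℂ} {d : ℕ} {T : Set (Matrix (BI m) (BI m) ℂ)} {c : Matrix (BI m) (BI m) ℂ} {p : Bk m}

/-- double brackets are in the Lie algebra -/
theorem Kk_br2 (hK : ∀ x ∈ K, IsAlgebraic ℚ x) (hT : IsSubtorsor K T)
    (hd : JJ (Fintype.card (BI m) * Fintype.card (BI m)) * (1 + D0 (BI m)) ≤ d) (hc : c ∈ T)
    (hp : ∀ b, (p b)⁻¹ * p b = 1) (a : Fin s) {X1 X2 X3 X4 : Matrix (Fin (2 * m a)) (Fin (2 * m a)) ℂ}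
    (h1 : X1 ∈ Kk K d c T p a) (h2 : X2 ∈ Kk K d c T p a) (h3 : X3 ∈ Kk K d c T p a) (h4 : X4 ∈ Kk K d c T p a) :
    bd (Pi.single a ((X1 * X2 - X2 * X1) * (X3 * X4 - X4 * X3) - (X3 * X4 - X4 * X3) * (X1 * X2 - X2 * X1)) : Bk m) ∈
      LM T := by
  obtain ⟨-, t1, V1, e1, c1, m1⟩ := h1
  obtain ⟨-, t2, V2, e2, c2, m2⟩ := h2
  obtain ⟨-, t3, V3, e3, c3, m3⟩ := h3
  obtain ⟨-, t4, V4, e4, c4, m4⟩ := h4
  have h12 := H1_br hK hT hd hc m1 m2
  have h34 := H1_br hK hT hd hc m3 m4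
  have h5 := h12.2 _ h34.1
  rw [← bd_br, ← bd_br, ← bd_br] at h5
  convert h5 using 2
  funext b
  rcases eq_or_ne b a with rfl | hb
  · rw [Pi.single_eq_same, e1, e2, e3, e4, comp_br, comp_br]
  · rw [Pi.single_eq_of_ne hb]
    exact ((c1 b hb).br2 (hp b) (c2 b hb) (c3 b hb) (c4 b hb)).symm

/-- **The Lie algebra of the subtorsor contains the product of the symplectic Lie algebras.** -/
theorem gS_le (hm : ∀ a, 3 ≤ m a) (hK : ∀ x ∈ K, IsAlgebraic ℚ x) (hT : IsSubtorsor K T)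
    (hd : JJ (Fintype.card (BI m) * Fintype.card (BI m)) * (1 + D0 (BI m)) ≤ d) (hc : c ∈ T)
    (hps : ∀ b, p b * SS ℂ (2 * m b) * (p b)ᵀ = SS ℂ (2 * m b)) (hHT : HT m K d c p) : gS m ≤ LM T := by
  have hp : ∀ b, (p b)⁻¹ * p b = 1 := by
    intro b
    refine Matrix.nonsing_inv_mul _ ?_
    have h1 := congrArg Matrix.det (hps b)
    rw [Matrix.det_mul, Matrix.det_mul] at h1
    rw [isUnit_iff_ne_zero]
    intro h0
    rw [h0, zero_mul, zero_mul] at h1
    exact SS_det (F := ℂ) (m b) h1.symm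
  have hX : ∀ (a : Fin s) (w : Fin (2 * m a) → ℂ), vecMulVec w w * SS ℂ (2 * m a) ∈ Kk K d c T p a := by
    intro a w
    have hsp : ∀ x ∈ Kk K d c T p a, x * SS ℂ (2 * m a) + SS ℂ (2 * m a) * xᵀ = 0 := fun x hx => hx.1
    refine lie_lemma3 (hm a) (SS_sq (m a)) (SS_tr (m a)) hsp (Kk_br hK hT hd hc hp a)
      (E := (E0 ℂ (m a)).map ((LinearMap.mulLeft ℂ (p a)).comp (LinearMap.mulRight ℂ (p a)⁻¹)))
      ((Submodule.finrank_map_le _ _).trans (finrank_E0 (by have := hm a; omega))) (Kk_sum hHT hp hps a) w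
  have hR : ∀ (a : Fin s) (v w : Fin (2 * m a) → ℂ), RR (SS ℂ (2 * m a)) v w ∈ Kk K d c T p a := by
    intro a v w
    rw [RR_eq]
    exact Submodule.sub_mem _ (Submodule.sub_mem _ (hX a _) (hX a _)) (hX a _)
  refine Submodule.span_le.2 ?_
  rintro _ ⟨a, w, rfl⟩
  by_cases hw : w = 0
  · subst hw
    have h1 : bd (Pi.single a (vecMulVec (0 : Fin (2 * m a) → ℂ) 0 * SS ℂ (2 * m a)) : Bk m) = 0 := by
      rw [Matrix.vecMulVec_zero, Matrix.zero_mul, Pi.single_zero]
      exact Matrix.blockDiagonal'_zero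
    rw [h1]
    exact Submodule.zero_mem _
  · obtain ⟨v, hv⟩ := W2helper4.MJ.SS_nd hw
    set ω := v ⬝ᵥ (SS ℂ (2 * m a) *ᵥ w) with hω
    have hv' : ω ≠ 0 := by
      intro h
      apply hv
      have h2 : w ⬝ᵥ (SS ℂ (2 * m a) *ᵥ v) = -(v ⬝ᵥ (SS ℂ (2 * m a) *ᵥ w)) := om_skew (SS_tr (m a)) v w
      rw [h2, ← hω, h, neg_zero]
    have h1 := Kk_br2 hK hT hd hc hp a (hX a v) (hX a w) (hR a v w) (hX a w)
    rw [br_a, br_b, ← hω] at h1
    have h2 : ω • RR (SS ℂ (2 * m a)) v w * ((2 * ω) • (vecMulVec w w * SS ℂ (2 * m a))) -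
        (2 * ω) • (vecMulVec w w * SS ℂ (2 * m a)) * (ω • RR (SS ℂ (2 * m a)) v w) =
        (ω * (2 * ω) * (2 * ω)) • (vecMulVec w w * SS ℂ (2 * m a)) := by
      rw [Matrix.smul_mul, Matrix.mul_smul, Matrix.smul_mul, Matrix.mul_smul, smul_comm ω (2 * ω), ← smul_sub, ← smul_sub,
        br_b, ← hω, smul_smul, smul_smul]
      congr 1
      ring
    rw [h2, bd_single_smul] at h1
    have h3 := Submodule.smul_mem _ (ω * (2 * ω) * (2 * ω))⁻¹ h1
    rw [smul_smul, inv_mul_cancel₀ (mul_ne_zero (mul_ne_zero hv' (mul_ne_zero two_ne_zero hv')) (mul_ne_zero two_ne_zero hv')),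
      one_smul] at h3
    exact h3

end main

end Pool.Agent.W2helper4.TS

end
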