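import Pool.Agent.W2helper4.TS.Main

/-!
# The smallest subtorsor
-/

set_option autoImplicit false
set_option linter.unusedSectionVars false
set_option maxHeartbeats 1000000

open Matrix Module

noncomputable section

namespace Pool.Agent.W2helper4.TS

open Pool.Agent.TH127.PT Pool.Agent.Y123.ST Pool.Agent.W2helper33.OQ Pool.Agent.W2helper33.BD Pool.Agent.Y113.MT

variable {s : ℕ} {m : Fin s → ℕ}

/-- the torsor of the similitudes -/
def EE (m : Fin s → ℕ) (A : ∀ b, Matrix (Fin (2 * m b)) (Fin (2 * m b)) ℚ) (w : Fin s → ℕ) : Set (Matrix (BI m) (BI m) ℂ) :=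
  {x | ∃ (μ : ℂ) (X : Bk m), μ ≠ 0 ∧ x = bd X ∧ ∀ a, X a * cq (A a) * (X a)ᵀ = μ ^ w a • SS ℂ (2 * m a)}

section bez

/-- characters of the multiplicative group -/
theorem exists_root {w : Fin s → ℕ} (hw : ∀ a, 1 ≤ w a) {f : Fin s → ℂ} (hf : ∀ a, f a ≠ 0)
    (h : ∀ n n' : Fin s → ℕ, ∑ a, n a * w a = ∑ a, n' a * w a → ∏ a, f a ^ n a = ∏ a, f a ^ n' a) :
    ∃ μ : ℂ, μ ≠ 0 ∧ ∀ a, f a = μ ^ w a := by
  rcases Nat.eq_zero_or_pos s with h0 | hpos
  · subst h0
    exact ⟨1, one_ne_zero, fun a => a.elim0⟩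
  -- relations with integral exponents
  have hz : ∀ n : Fin s → ℤ, ∑ a, n a * (w a : ℤ) = 0 → ∏ a, f a ^ n a = 1 := by
    intro n hn
    have h1 : ∑ a, (n a).toNat * w a = ∑ a, (-n a).toNat * w a := by
      have h2 : ((∑ a, (n a).toNat * w a : ℕ) : ℤ) - ((∑ a, (-n a).toNat * w a : ℕ) : ℤ) = 0 := by
        push_cast
        rw [← Finset.sum_sub_distrib, ← hn]
        refine Finset.sum_congr rfl fun a _ => ?_
        rw [← sub_mul]
        congr 1
        have := Int.toNat_sub_toNat_neg (n a)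
        exact this
      omega
    have h3 := h _ _ h1
    have h4 : ∀ a, f a ^ n a = f a ^ (n a).toNat / f a ^ (-n a).toNat := by
      intro a
      have h5 : n a = ((n a).toNat : ℤ) - ((-n a).toNat : ℤ) := (Int.toNat_sub_toNat_neg (n a)).symm
      conv_lhs => rw [h5]
      rw [zpow_sub₀ (hf a), zpow_natCast, zpow_natCast]
    rw [Finset.prod_congr rfl fun a _ => h4 a, Finset.prod_div_distrib, h3, div_self]
    exact Finset.prod_ne_zero_iff.2 fun a _ => pow_ne_zero _ (hf a)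
  -- the generator
  let I : Ideal ℤ := Ideal.span (Set.range fun a => (w a : ℤ))
  obtain ⟨g, hg⟩ : ∃ g : ℤ, I = Ideal.span {g} := ⟨_, (Ideal.span_singleton_generator I).symm⟩
  have hgI : g ∈ I := by rw [hg]; exact Ideal.mem_span_singleton_self g
  obtain ⟨t, ht⟩ := (Ideal.mem_span_range_iff_exists_fun).1 hgI
  have hk : ∀ a, ∃ k : ℤ, (w a : ℤ) = g * k := by
    intro a
    have h1 : (w a : ℤ) ∈ I := Ideal.subset_span ⟨a, rfl⟩
    rw [hg] at h1
    exact Ideal.mem_span_singleton.1 h1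
  choose k hk using hk
  have hg0 : g ≠ 0 := by
    intro h0
    have h1 := hk ⟨0, hpos⟩
    rw [h0, zero_mul] at h1
    have h2 := hw ⟨0, hpos⟩
    omega
  let Φ := ∏ a, f a ^ t a
  have hΦ : Φ ≠ 0 := Finset.prod_ne_zero_iff.2 fun a _ => zpow_ne_zero _ (hf a)
  obtain ⟨μ, hμ0, hμ⟩ : ∃ μ : ℂ, μ ≠ 0 ∧ μ ^ g = Φ := by
    have hex : ∀ (n : ℕ) (z : ℂ), 0 < n → z ≠ 0 → ∃ μ : ℂ, μ ≠ 0 ∧ μ ^ n = z := by
      intro n z hn hz
      obtain ⟨μ, hμ⟩ := IsAlgClosed.exists_pow_nat_eq z hn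
      refine ⟨μ, ?_, hμ⟩
      rintro rfl
      rw [zero_pow (by omega)] at hμ
      exact hz hμ.symm
    rcases lt_or_gt_of_ne hg0 with hneg | hposg
    · obtain ⟨μ, h1, h2⟩ := hex (-g).toNat Φ⁻¹ (by omega) (inv_ne_zero hΦ)
      refine ⟨μ, h1, ?_⟩
      have h3 : g = -(((-g).toNat : ℕ) : ℤ) := by omega
      rw [h3, _root_.zpow_neg, zpow_natCast, h2, inv_inv]
    · obtain ⟨μ, h1, h2⟩ := hex g.toNat Φ (by omega) hΦ
      refine ⟨μ, h1, ?_⟩
      have h3 : g = ((g.toNat : ℕ) : ℤ) := by omega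
      rw [h3, zpow_natCast, h2]
  refine ⟨μ, hμ0, fun b => ?_⟩
  have h1 : μ ^ w b = Φ ^ k b := by
    rw [← hμ, ← _root_.zpow_mul, ← hk b, zpow_natCast]
  rw [h1]
  have h2 := hz (fun a => t a * k b - (if a = b then 1 else 0)) (by
    simp only [sub_mul, Finset.sum_sub_distrib, ite_mul, one_mul, zero_mul, Finset.sum_ite_eq', Finset.mem_univ, if_true]
    have h3 : ∑ a, t a * k b * (w a : ℤ) = (∑ a, t a * (w a : ℤ)) * k b := by
      rw [Finset.sum_mul]
      exact Finset.sum_congr rfl fun a _ => by ring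
    rw [h3, ht, hk b, sub_self])
  have h4 : ∀ a, f a ^ (t a * k b - (if a = b then 1 else 0)) = (f a ^ t a) ^ k b / (if a = b then f a else 1) := by
    intro a
    rw [zpow_sub₀ (hf a), _root_.zpow_mul]
    split_ifs
    · rw [zpow_one]
    · rw [zpow_zero]
  rw [Finset.prod_congr rfl fun a _ => h4 a, Finset.prod_div_distrib, Finset.prod_ite_eq' Finset.univ b f,
    if_pos (Finset.mem_univ b), Finset.prod_zpow, div_eq_one_iff_eq (hf b)] at h2
  exact h2.symm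

end bez

theorem bd_inv {X : Bk m} (h : ∀ a, IsUnit (X a).det) : (bd X)⁻¹ = bd fun a => (X a)⁻¹ := by
  refine Matrix.inv_eq_right_inv ?_
  rw [← bd_mul]
  have h1 : (fun a => X a * (X a)⁻¹) = (1 : Bk m) := funext fun a => Matrix.mul_nonsing_inv _ (h a)
  rw [h1]
  exact Matrix.blockDiagonal'_one

theorem bd_unit {X : Bk m} (h : ∀ a, IsUnit (X a).det) : IsUnit (bd X) := by
  refine IsUnit.of_mul_eq_one (bd fun a => (X a)⁻¹) ?_
  rw [← bd_mul]
  have h1 : (fun a => X a * (X a)⁻¹) = (1 : Bk m) := funext fun a => Matrix.mul_nonsing_inv _ (h a)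
  rw [h1]
  exact Matrix.blockDiagonal'_one

theorem unit_bd {X : Bk m} (h : IsUnit (bd X)) (a : Fin s) : IsUnit (X a).det := by
  have h1 : bd X * (bd X)⁻¹ = 1 := Matrix.mul_nonsing_inv _ ((Matrix.isUnit_iff_isUnit_det _).1 h)
  set Y := (bd X)⁻¹
  have h2 : X a * (Matrix.of fun k j => Y ⟨a, k⟩ ⟨a, j⟩) = 1 := by
    ext i j
    have h3 := congrFun (congrFun h1 ⟨a, i⟩) ⟨a, j⟩
    rw [Matrix.mul_apply, Fintype.sum_sigma, Finset.sum_eq_single a] at h3
    · rw [Matrix.mul_apply]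
      have h4 : (1 : Matrix (BI m) (BI m) ℂ) ⟨a, i⟩ ⟨a, j⟩ = (1 : Matrix (Fin (2 * m a)) (Fin (2 * m a)) ℂ) i j := by
        rw [Matrix.one_apply, Matrix.one_apply]
        by_cases hij : i = j
        · rw [if_pos hij, if_pos (by rw [hij])]
        · rw [if_neg hij, if_neg (fun h => hij (by simpa using h))]
      rw [← h4, ← h3]
      refine Finset.sum_congr rfl fun k _ => ?_
      have h5 : bd X ⟨a, i⟩ ⟨a, k⟩ = X a i k := bd_eq X a i k
      rw [h5]
      rfl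
    · intro b _ hb
      refine Finset.sum_eq_zero fun k _ => ?_
      rw [bd_ne X (Ne.symm hb), zero_mul]
    · intro h
      exact absurd (Finset.mem_univ a) h
  have h3 := congrArg Matrix.det h2
  rw [Matrix.det_mul, Matrix.det_one] at h3
  exact IsUnit.of_mul_eq_one _ h3

section sub
variable {A : ∀ b, Matrix (Fin (2 * m b)) (Fin (2 * m b)) ℚ} {w : Fin s → ℕ}

theorem sim_unit {k : ℕ} {X B : Matrix (Fin (2 * k)) (Fin (2 * k)) ℂ} {μ : ℂ} (hμ : μ ≠ 0)
    (h : X * B * Xᵀ = μ • SS ℂ (2 * k)) : IsUnit X.det := by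
  rw [isUnit_iff_ne_zero]
  intro h0
  have h1 := congrArg Matrix.det h
  rw [Matrix.det_mul, Matrix.det_mul, h0, zero_mul, zero_mul, Matrix.det_smul] at h1
  rcases mul_eq_zero.1 h1.symm with h2 | h2
  · exact pow_ne_zero _ hμ h2
  · exact SS_det (F := ℂ) k h2

theorem EE_torsor : ∀ x ∈ EE m A w, ∀ y ∈ EE m A w, ∀ z ∈ EE m A w, x * y⁻¹ * z ∈ EE m A w := by
  rintro _ ⟨μ, X, hμ, rfl, hX⟩ _ ⟨ν, Y, hν, rfl, hY⟩ _ ⟨ρ, Z, hρ, rfl, hZ⟩
  have hYu : ∀ a, IsUnit (Y a).det := fun a => sim_unit (pow_ne_zero _ hν) (hY a)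
  refine ⟨μ * ν⁻¹ * ρ, fun a => X a * (Y a)⁻¹ * Z a, mul_ne_zero (mul_ne_zero hμ (inv_ne_zero hν)) hρ, ?_, fun a => ?_⟩
  · rw [bd_inv hYu, ← bd_mul, ← bd_mul]
  · have h1 : (Y a)⁻¹ * SS ℂ (2 * m a) * ((Y a)⁻¹)ᵀ = (ν ^ w a)⁻¹ • cq (A a) := by
      have h2 : SS ℂ (2 * m a) = (ν ^ w a)⁻¹ • (Y a * cq (A a) * (Y a)ᵀ) := by
        rw [hY a, smul_smul, inv_mul_cancel₀ (pow_ne_zero _ hν), one_smul]
      have h3 : (Y a)⁻¹ * Y a = 1 := Matrix.nonsing_inv_mul _ (hYu a)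
      rw [h2, Matrix.mul_smul, Matrix.smul_mul]
      congr 1
      calc (Y a)⁻¹ * (Y a * cq (A a) * (Y a)ᵀ) * ((Y a)⁻¹)ᵀ = ((Y a)⁻¹ * Y a) * cq (A a) * ((Y a)⁻¹ * Y a)ᵀ := by
            rw [Matrix.transpose_mul]
            simp only [Matrix.mul_assoc]
        _ = cq (A a) := by rw [h3, Matrix.transpose_one, Matrix.one_mul, Matrix.mul_one]
    calc X a * (Y a)⁻¹ * Z a * cq (A a) * (X a * (Y a)⁻¹ * Z a)ᵀ =
          X a * ((Y a)⁻¹ * (Z a * cq (A a) * (Z a)ᵀ) * ((Y a)⁻¹)ᵀ) * (X a)ᵀ := by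
          rw [Matrix.transpose_mul, Matrix.transpose_mul]
          simp only [Matrix.mul_assoc]
      _ = (μ * ν⁻¹ * ρ) ^ w a • SS ℂ (2 * m a) := by
          rw [hZ a, Matrix.mul_smul, Matrix.smul_mul, h1, Matrix.mul_smul, Matrix.smul_mul, Matrix.mul_smul,
            Matrix.smul_mul, hX a, smul_smul, smul_smul]
          congr 1
          rw [mul_pow, mul_pow, inv_pow]
          ring

/-- the blocks of a matrix -/
def bl (x : Matrix (BI m) (BI m) ℂ) (a : Fin s) : Matrix (Fin (2 * m a)) (Fin (2 * m a)) ℂ := Matrix.of fun i j => x ⟨a, i⟩ ⟨a, j⟩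

theorem bl_bd (X : Bk m) (a : Fin s) : bl (bd X) a = X a := by
  ext i j
  exact bd_eq X a i j

/-- the generic block -/
def QX (a : Fin s) : Matrix (Fin (2 * m a)) (Fin (2 * m a)) (MvPolynomial (BI m × BI m) ℚ) :=
  Matrix.of fun i j => MvPolynomial.X (⟨a, i⟩, ⟨a, j⟩)

/-- the form of the generic block -/
def QA (A : ∀ b, Matrix (Fin (2 * m b)) (Fin (2 * m b)) ℚ) (a : Fin s) :
    Matrix (Fin (2 * m a)) (Fin (2 * m a)) (MvPolynomial (BI m × BI m) ℚ) :=
  QX a * (A a).map MvPolynomial.C * (QX a)ᵀ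

theorem ev_QA (x : Matrix (BI m) (BI m) ℂ) (a : Fin s) (i j : Fin (2 * m a)) :
    MvPolynomial.aeval (fl x) (QA A a i j) = (bl x a * cq (A a) * (bl x a)ᵀ) i j := by
  have h1 : (QX a).map (MvPolynomial.aeval (fl x) : MvPolynomial (BI m × BI m) ℚ →ₐ[ℚ] ℂ) = bl x a := by
    ext i j
    change MvPolynomial.aeval (fl x) (MvPolynomial.X (⟨a, i⟩, ⟨a, j⟩) : MvPolynomial (BI m × BI m) ℚ) = _
    rw [MvPolynomial.aeval_X]
    rfl
  have h2 : ((A a).map (MvPolynomial.C : ℚ → MvPolynomial (BI m × BI m) ℚ)).map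
      (MvPolynomial.aeval (fl x) : MvPolynomial (BI m × BI m) ℚ →ₐ[ℚ] ℂ) = cq (A a) := by
    ext i j
    change MvPolynomial.aeval (fl x) (MvPolynomial.C (A a i j) : MvPolynomial (BI m × BI m) ℚ) = _
    rw [MvPolynomial.aeval_C]
    rfl
  have h3 : (QA A a).map (MvPolynomial.aeval (fl x) : MvPolynomial (BI m × BI m) ℚ →ₐ[ℚ] ℂ) =
      bl x a * cq (A a) * (bl x a)ᵀ := by
    unfold QA
    rw [Matrix.map_mul, Matrix.map_mul, h1, h2, Matrix.transpose_map, h1]
  exact congrFun (congrFun h3 i) j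

theorem SS_0 {k : ℕ} (hk : 0 < 2 * k) : SS ℂ (2 * k) ⟨0, hk⟩ (Fin.rev ⟨0, hk⟩) = 1 := by
  rw [SS_rev]
  simp

/-- **The torsor of the similitudes is a subtorsor.** -/
theorem EE_sub (K : Subfield ℂ) (hm : ∀ a, 1 ≤ m a) (hw : ∀ a, 1 ≤ w a) (hA : ∀ a, A a ≠ 0) : IsSubtorsor K (EE m A w) := by
  classical
  have hm0 : ∀ a, 0 < 2 * m a := fun a => by have := hm a; omega
  let F : Fin s → MvPolynomial (BI m × BI m) ℚ := fun a => QA A a ⟨0, hm0 a⟩ (Fin.rev ⟨0, hm0 a⟩)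
  have hF : ∀ (X : Bk m) (μ : ℂ), (∀ a, X a * cq (A a) * (X a)ᵀ = μ ^ w a • SS ℂ (2 * m a)) → ∀ a,
      MvPolynomial.aeval (fl (bd X)) (F a) = μ ^ w a := by
    intro X μ hX a
    simp only [F]
    rw [ev_QA, bl_bd, hX a, Matrix.smul_apply, SS_0, smul_eq_mul, mul_one]
  let 𝒬 : Set (MvPolynomial (BI m × BI m) ℚ) := {Q | ∀ x ∈ EE m A w, MvPolynomial.aeval (fl x) Q = 0}
  have hev : ∀ (x : Matrix (BI m) (BI m) ℂ) (Q : MvPolynomial (BI m × BI m) ℚ),
      MvPolynomial.eval (fun b : BI m × BI m => x b.1 b.2) (MvPolynomial.map (algebraMap ℚ ℂ) Q) =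
        MvPolynomial.aeval (fl x) Q := by
    intro x Q
    rw [MvPolynomial.eval_map, MvPolynomial.aeval_def]
    rfl
  refine ⟨?_, EE_torsor, (MvPolynomial.map (algebraMap ℚ ℂ)) '' 𝒬, ?_, fun x => ⟨fun hx => ⟨?_, ?_⟩, ?_⟩⟩
  · rintro _ ⟨μ, X, hμ, rfl, hX⟩
    exact bd_unit fun a => sim_unit (pow_ne_zero _ hμ) (hX a)
  · rintro _ ⟨Q, -, rfl⟩ n
    rw [MvPolynomial.coeff_map]
    exact SubfieldClass.ratCast_mem K _
  · obtain ⟨μ, X, hμ, rfl, hX⟩ := hx
    exact bd_unit fun a => sim_unit (pow_ne_zero _ hμ) (hX a)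
  · rintro _ ⟨Q, hQ, rfl⟩
    rw [hev]
    exact hQ x hx
  · rintro ⟨hxu, hx⟩
    have hx' : ∀ Q ∈ 𝒬, MvPolynomial.aeval (fl x) Q = 0 := fun Q hQ => by
      rw [← hev]
      exact hx _ ⟨Q, hQ, rfl⟩
    -- the matrix is block diagonal
    have h1 : x = bd (bl x) := by
      ext ⟨a, i⟩ ⟨b, j⟩
      by_cases hab : a = b
      · subst hab
        rw [bd_eq]
        rfl
      · rw [bd_ne _ hab]
        have h2 := hx' (MvPolynomial.X (⟨a, i⟩, ⟨b, j⟩)) (by
          rintro _ ⟨μ, X, hμ, rfl, hX⟩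
          rw [MvPolynomial.aeval_X]
          exact bd_ne X hab i j)
        rw [MvPolynomial.aeval_X] at h2
        exact h2
    -- similitudes
    let f : Fin s → ℂ := fun a => MvPolynomial.aeval (fl x) (F a)
    have h2 : ∀ a, bl x a * cq (A a) * (bl x a)ᵀ = f a • SS ℂ (2 * m a) := by
      intro a
      ext i j
      have h3 := hx' (QA A a i j - MvPolynomial.C (SS ℚ (2 * m a) i j) * F a) (by
        rintro _ ⟨μ, X, hμ, rfl, hX⟩
        rw [map_sub, map_mul, MvPolynomial.aeval_C, hF X μ hX, ev_QA, bl_bd, hX a, Matrix.smul_apply, smul_eq_mul]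
        have h4 : (algebraMap ℚ ℂ) (SS ℚ (2 * m a) i j) = SS ℂ (2 * m a) i j := by
          rw [← W2helper4.CY.cq_SS]
          rfl
        rw [h4]
        ring)
      have h4 : (algebraMap ℚ ℂ) (SS ℚ (2 * m a) i j) = SS ℂ (2 * m a) i j := by
        rw [← W2helper4.CY.cq_SS]
        rfl
      rw [map_sub, map_mul, MvPolynomial.aeval_C, ev_QA, h4, sub_eq_zero] at h3
      rw [h3, Matrix.smul_apply, smul_eq_mul, mul_comm]
    have hxu' : ∀ a, IsUnit (bl x a).det := fun a => by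
      rw [h1] at hxu
      have h3 := unit_bd hxu a
      exact h3
    have hf0 : ∀ a, f a ≠ 0 := by
      intro a h0
      have h3 := h2 a
      rw [h0, zero_smul] at h3
      apply hA a
      have h4 : (bl x a)⁻¹ * bl x a = 1 := Matrix.nonsing_inv_mul _ (hxu' a)
      have h5 : cq (A a) = 0 := by
        calc cq (A a) = ((bl x a)⁻¹ * bl x a) * cq (A a) * ((bl x a)⁻¹ * bl x a)ᵀ := by
              rw [h4, Matrix.transpose_one, Matrix.one_mul, Matrix.mul_one]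
          _ = (bl x a)⁻¹ * (bl x a * cq (A a) * (bl x a)ᵀ) * ((bl x a)⁻¹)ᵀ := by
              rw [Matrix.transpose_mul]
              simp only [Matrix.mul_assoc]
          _ = 0 := by rw [h3, Matrix.mul_zero, Matrix.zero_mul]
      ext i j
      have h6 : ((A a i j : ℚ) : ℂ) = 0 := congrFun (congrFun h5 i) j
      exact_mod_cast h6
    obtain ⟨μ, hμ, hμf⟩ := exists_root hw hf0 (fun n n' hn => by
      have h3 := hx' (∏ a, F a ^ n a - ∏ a, F a ^ n' a) (by
        rintro _ ⟨μ, X, hμ, rfl, hX⟩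
        rw [map_sub, map_prod, map_prod]
        simp only [map_pow, hF X μ hX, ← pow_mul]
        rw [Finset.prod_pow_eq_pow_sum, Finset.prod_pow_eq_pow_sum]
        have h4 : ∑ a, w a * n a = ∑ a, w a * n' a := by
          simp only [mul_comm (w _)]
          exact hn
        rw [h4, sub_self])
      rw [map_sub, map_prod, map_prod, sub_eq_zero] at h3
      simp only [map_pow] at h3
      exact h3)
    exact ⟨μ, bl x, hμ, h1, fun a => by rw [h2 a, hμf a]⟩

end sub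

section omega
variable {A : ∀ b, Matrix (Fin (2 * m b)) (Fin (2 * m b)) ℚ} {w : Fin s → ℕ} {K : Subfield ℂ} {c : Bk m} {κ : ℂ}

theorem bd_sp {X : Bk m} (hX : ∀ a, X a * SS ℂ (2 * m a) + SS ℂ (2 * m a) * (X a)ᵀ = 0) : bd X ∈ gS m := by
  classical
  have h1 : ∀ (a : Fin s) (Y : Matrix (Fin (2 * m a)) (Fin (2 * m a)) ℂ), Y ∈ spS ℂ (m a) → bd (Pi.single a Y : Bk m) ∈ gS m := by
    intro a Y hY
    have h2 := sp_span hY
    clear hY
    induction h2 using Submodule.span_induction with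
    | mem Y hY =>
      obtain ⟨v, rfl⟩ := hY
      exact X_mem a v
    | zero =>
      rw [Pi.single_zero]
      have h3 : bd (0 : Bk m) = 0 := Matrix.blockDiagonal'_zero
      rw [h3]
      exact Submodule.zero_mem _
    | add Y Z _ _ hY hZ =>
      have h3 : bd (Pi.single a (Y + Z) : Bk m) = bd (Pi.single a Y : Bk m) + bd (Pi.single a Z) := by
        rw [← bd_add]
        congr 1
        funext b
        rcases eq_or_ne b a with rfl | hb
        · simp only [Pi.single_eq_same]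
        · simp only [Pi.single_eq_of_ne hb, add_zero]
      rw [h3]
      exact Submodule.add_mem _ hY hZ
    | smul t Y _ hY =>
      rw [bd_single_smul]
      exact Submodule.smul_mem _ t hY
  have h2 : bd X = ∑ a, bd (Pi.single a (X a) : Bk m) := by
    ext ⟨a, i⟩ ⟨b, j⟩
    rw [Matrix.sum_apply]
    by_cases hab : a = b
    · subst hab
      rw [bd_eq, Finset.sum_eq_single a]
      · rw [bd_eq, Pi.single_eq_same]
      · intro b _ hb
        rw [bd_eq, Pi.single_eq_of_ne (Ne.symm hb)]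
        rfl
      · intro h
        exact absurd (Finset.mem_univ a) h
    · rw [bd_ne _ hab, Finset.sum_eq_zero]
      intro l _
      rw [bd_ne _ hab]
  rw [h2]
  exact Submodule.sum_mem _ fun a _ => h1 a _ (hX a)

/-- **The smallest subtorsor.** -/
theorem omega_EE (hm : ∀ a, 1 ≤ m a) (hw : ∀ a, 1 ≤ w a) (hK : ∀ x ∈ K, IsAlgebraic ℚ x) (hκ : Transcendental ℚ κ)
    (hc : ∀ a, c a * cq (A a) * (c a)ᵀ = κ ^ w a • SS ℂ (2 * m a))
    (hall : ∀ T : Set (Matrix (BI m) (BI m) ℂ), IsSubtorsor K T → bd c ∈ T → gS m ≤ LM T)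
    {T : Set (Matrix (BI m) (BI m) ℂ)} (hT : IsSubtorsor K T) (hcT : bd c ∈ T) : EE m A w ⊆ T := by
  classical
  have hκ0 : κ ≠ 0 := by
    rintro rfl
    exact hκ isAlgebraic_zero
  have hcE : bd c ∈ EE m A w := ⟨κ, c, hκ0, rfl, hc⟩
  have hcu : ∀ a, IsUnit (c a).det := fun a => sim_unit (pow_ne_zero _ hκ0) (hc a)
  have hA : ∀ a, A a ≠ 0 := by
    intro a h0
    have h1 := hc a
    have h2 : cq (A a) = 0 := by
      rw [h0]
      ext i j
      simp [cq]
    rw [h2, Matrix.mul_zero, Matrix.zero_mul] at h1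
    have h3 := congrFun (congrFun h1.symm ⟨0, by have := hm a; omega⟩) (Fin.rev ⟨0, by have := hm a; omega⟩)
    rw [Matrix.smul_apply, SS_0, smul_eq_mul, mul_one] at h3
    exact pow_ne_zero _ hκ0 h3
  have hT' : IsSubtorsor K (T ∩ EE m A w) := inter_sub hT (EE_sub K hm hw hA)
  have hc' : bd c ∈ T ∩ EE m A w := ⟨hcT, hcE⟩
  have hL := hall _ hT' hc'
  obtain ⟨D, hD⟩ := exists_der_ne hK hκ
  have hlog : (bd c).map D * (bd c)⁻¹ ∈ LM (T ∩ EE m A w) := logder_mem hT' D hc'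
  let D' : Derivation ℤ ℂ ℂ := D.restrictScalars ℤ
  -- the blocks of the logarithmic derivative
  let W : Bk m := fun a => (c a).map D * (c a)⁻¹
  have hW : (bd c).map D * (bd c)⁻¹ = bd W := by
    rw [bd_inv hcu]
    have h1 : (bd c).map D = bd fun a => (c a).map D := Matrix.blockDiagonal'_map c D (map_zero D)
    rw [h1, ← bd_mul]
  have hWS : ∀ a, W a * SS ℂ (2 * m a) + SS ℂ (2 * m a) * (W a)ᵀ = ((w a : ℂ) * (D κ / κ)) • SS ℂ (2 * m a) := by
    intro a
    have hci : (c a)⁻¹ * c a = 1 := Matrix.nonsing_inv_mul _ (hcu a)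
    have hWc : (c a).map D' = W a * c a := by
      change (c a).map D = (c a).map D * (c a)⁻¹ * c a
      rw [Matrix.mul_assoc, hci, Matrix.mul_one]
    have h1 : (c a * cq (A a) * (c a)ᵀ).map D' = (κ ^ w a • SS ℂ (2 * m a)).map D' := by rw [hc a]
    have hSS : (SS ℂ (2 * m a)).map D' = 0 := by
      refine dmap_zero D' fun i j => ?_
      rw [SS_apply]
      split_ifs
      · have h1 : ((-1 : ℂ)) ^ (i : ℕ) = (((-1 : ℤ) ^ (i : ℕ) : ℤ) : ℂ) := by push_cast; rfl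
        rw [h1]
        exact D'.map_intCast _
      · exact map_zero D'
    have hAd : (cq (A a)).map D' = 0 := dmap_zero D' fun i j => by
      change D (((A a i j : ℚ)) : ℂ) = 0
      have h2 : (((A a i j : ℚ)) : ℂ) = algebraMap K ℂ ((A a i j : ℚ) : K) := by
        rw [map_ratCast]
      rw [h2]
      exact D.map_algebraMap _
    rw [dmap_mul, dmap_mul, hAd, Matrix.mul_zero, add_zero, dmap_smul, hSS, smul_zero, add_zero, dmap_tr, hWc,
      Matrix.transpose_mul] at h1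
    have h2 : W a * c a * cq (A a) * (c a)ᵀ = κ ^ w a • (W a * SS ℂ (2 * m a)) := by
      have h3 : W a * c a * cq (A a) * (c a)ᵀ = W a * (c a * cq (A a) * (c a)ᵀ) := by
        simp only [Matrix.mul_assoc]
      rw [h3, hc a, Matrix.mul_smul]
    have h4 : c a * cq (A a) * ((c a)ᵀ * (W a)ᵀ) = κ ^ w a • (SS ℂ (2 * m a) * (W a)ᵀ) := by
      rw [← Matrix.mul_assoc, hc a, Matrix.smul_mul]
    rw [h2, h4, ← smul_add] at h1
    have h5 : D' (κ ^ w a) = κ ^ w a * ((w a : ℂ) * (D κ / κ)) := by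
      rw [Derivation.leibniz_pow, smul_eq_mul, nsmul_eq_mul]
      change (w a : ℂ) * (κ ^ (w a - 1) * D κ) = _
      obtain ⟨n, hn⟩ : ∃ n, w a = n + 1 := ⟨w a - 1, by have := hw a; omega⟩
      rw [hn, Nat.add_sub_cancel, pow_succ]
      field_simp
    rw [h5, mul_smul] at h1
    exact smul_right_injective _ (pow_ne_zero (w a) hκ0) h1
  -- the multiples of the identity
  have hδ : D κ / κ ≠ 0 := div_ne_zero hD hκ0
  have hdir : bd (fun a => (w a : ℂ) • (1 : Matrix (Fin (2 * m a)) (Fin (2 * m a)) ℂ)) ∈ LM (T ∩ EE m A w) := by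
    have h1 : bd (fun a => W a - ((w a : ℂ) * (D κ / κ) / 2) • (1 : Matrix (Fin (2 * m a)) (Fin (2 * m a)) ℂ)) ∈ gS m := by
      refine bd_sp fun a => ?_
      have h2 : (W a - ((w a : ℂ) * (D κ / κ) / 2) • (1 : Matrix (Fin (2 * m a)) (Fin (2 * m a)) ℂ)) * SS ℂ (2 * m a) +
          SS ℂ (2 * m a) * (W a - ((w a : ℂ) * (D κ / κ) / 2) • (1 : Matrix (Fin (2 * m a)) (Fin (2 * m a)) ℂ))ᵀ =
          (W a * SS ℂ (2 * m a) + SS ℂ (2 * m a) * (W a)ᵀ) -
          ((w a : ℂ) * (D κ / κ) / 2 + (w a : ℂ) * (D κ / κ) / 2) • SS ℂ (2 * m a) := by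
        rw [Matrix.sub_mul, Matrix.transpose_sub, Matrix.mul_sub, Matrix.transpose_smul, Matrix.transpose_one,
          Matrix.smul_mul, Matrix.mul_smul, Matrix.one_mul, Matrix.mul_one, add_smul]
        abel
      rw [h2, hWS a, add_halves, sub_self]
    rw [bd_sub] at h1
    rw [hW] at hlog
    have h2 := Submodule.sub_mem _ hlog (hL h1)
    rw [sub_sub_cancel] at h2
    have h3 := Submodule.smul_mem _ (2 / (D κ / κ)) h2
    rw [← bd_smul] at h3
    have h4 : (fun a => (2 / (D κ / κ)) • ((w a : ℂ) * (D κ / κ) / 2) • (1 : Matrix (Fin (2 * m a)) (Fin (2 * m a)) ℂ)) =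
        fun a => (w a : ℂ) • (1 : Matrix (Fin (2 * m a)) (Fin (2 * m a)) ℂ) := by
      funext a
      rw [smul_smul]
      congr 1
      field_simp
    rw [h4] at h3
    exact h3
  rintro x ⟨μ, X, hμ, rfl, hX⟩
  -- the multiplier
  obtain ⟨ν, hν⟩ := IsAlgClosed.exists_pow_nat_eq (μ / κ) (n := 2) (by norm_num)
  have hν0 : ν ≠ 0 := by
    rintro rfl
    rw [zero_pow (by norm_num)] at hν
    exact div_ne_zero hμ hκ0 hν.symm
  have h1 : bd (fun a => (ν ^ w a) • c a) ∈ T ∩ EE m A w := by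
    have h2 := exp_act hT' (Submodule.smul_mem _ (Complex.log ν) hdir) hc'
    rw [← bd_smul, exp_bd', ← bd_mul] at h2
    have h3 : (fun a => NormedSpace.exp (Complex.log ν • (w a : ℂ) • (1 : Matrix (Fin (2 * m a)) (Fin (2 * m a)) ℂ)) * c a) =
        fun a => (ν ^ w a) • c a := by
      funext a
      have h4 : (Complex.log ν • (w a : ℂ) • (1 : Matrix (Fin (2 * m a)) (Fin (2 * m a)) ℂ)) =
          Matrix.diagonal fun _ => Complex.log ν * w a := by
        rw [smul_smul, Matrix.smul_one_eq_diagonal]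
      rw [h4, Matrix.exp_diagonal]
      have h5 : (NormedSpace.exp fun _ : Fin (2 * m a) => Complex.log ν * (w a : ℂ)) = fun _ => ν ^ w a := by
        funext i
        rw [Pi.coe_exp]
        rw [← Complex.exp_eq_exp_ℂ, mul_comm, Complex.exp_nat_mul, Complex.exp_log hν0]
      rw [h5, ← Matrix.smul_one_eq_diagonal, Matrix.smul_mul, Matrix.one_mul]
    rw [h3] at h2
    exact h2
  let g : Bk m := fun a => X a * ((ν ^ w a) • c a)⁻¹
  have hcu' : ∀ a, IsUnit ((ν ^ w a) • c a).det := fun a => by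
    rw [Matrix.det_smul]
    exact (isUnit_iff_ne_zero.2 (pow_ne_zero _ (pow_ne_zero _ hν0))).mul (hcu a)
  have hg : ∀ a, g a * SS ℂ (2 * m a) * (g a)ᵀ = SS ℂ (2 * m a) := by
    intro a
    set y := (ν ^ w a) • c a with hy
    have hyi : y⁻¹ * y = 1 := Matrix.nonsing_inv_mul _ (hcu' a)
    have h2 : y * cq (A a) * yᵀ = μ ^ w a • SS ℂ (2 * m a) := by
      rw [hy, Matrix.transpose_smul, Matrix.smul_mul, Matrix.smul_mul, Matrix.mul_smul, hc a, smul_smul, smul_smul]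
      congr 1
      have h3 : ν ^ w a * ν ^ w a = (μ / κ) ^ w a := by
        rw [← hν, ← pow_mul, ← pow_add]
        congr 1
        ring
      rw [h3, div_pow, div_mul_cancel₀ _ (pow_ne_zero _ hκ0)]
    have h3 : y⁻¹ * SS ℂ (2 * m a) * (y⁻¹)ᵀ = (μ ^ w a)⁻¹ • cq (A a) := by
      have h4 : SS ℂ (2 * m a) = (μ ^ w a)⁻¹ • (y * cq (A a) * yᵀ) := by
        rw [h2, smul_smul, inv_mul_cancel₀ (pow_ne_zero _ hμ), one_smul]
      rw [h4, Matrix.mul_smul, Matrix.smul_mul]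
      congr 1
      calc y⁻¹ * (y * cq (A a) * yᵀ) * (y⁻¹)ᵀ = (y⁻¹ * y) * cq (A a) * (y⁻¹ * y)ᵀ := by
            rw [Matrix.transpose_mul]
            simp only [Matrix.mul_assoc]
        _ = cq (A a) := by rw [hyi, Matrix.transpose_one, Matrix.one_mul, Matrix.mul_one]
    calc g a * SS ℂ (2 * m a) * (g a)ᵀ = X a * (y⁻¹ * SS ℂ (2 * m a) * (y⁻¹)ᵀ) * (X a)ᵀ := by
          change X a * y⁻¹ * SS ℂ (2 * m a) * (X a * y⁻¹)ᵀ = _
          rw [Matrix.transpose_mul]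
          simp only [Matrix.mul_assoc]
      _ = SS ℂ (2 * m a) := by
          rw [h3, Matrix.mul_smul, Matrix.smul_mul, hX a, smul_smul, inv_mul_cancel₀ (pow_ne_zero _ hμ), one_smul]
  have h2 := Gp_act hT' hL (bd_Gp hm fun a => W2helper4.CY.form_flip (SS_sq (m a)) (hg a)) _ h1
  rw [← bd_mul] at h2
  have h3 : (fun a => g a * (ν ^ w a) • c a) = X := by
    funext a
    change X a * ((ν ^ w a) • c a)⁻¹ * ((ν ^ w a) • c a) = X a
    rw [Matrix.mul_assoc, Matrix.nonsing_inv_mul _ (hcu' a), Matrix.mul_one]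
  rw [h3] at h2
  exact h2.1

end omega

end Pool.Agent.W2helper4.TS

end
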