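import Pool.Agent.W2helper4.TS.Lie4
import Pool.Agent.W2helper4.TS.Nrm

/-!
# Normalisers, the radical and automorphisms of the complex numbers
-/

set_option autoImplicit false
set_option linter.unusedSectionVars false
set_option maxHeartbeats 1000000

open Matrix Module

namespace Pool.Agent.W2helper4.TS

variable {n : ℕ}

/-- the normaliser of a space of matrices in the Lie algebra of a form -/
def nn (J : Matrix (Fin n) (Fin n) ℂ) (L : Submodule ℂ (Matrix (Fin n) (Fin n) ℂ)) :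
    Submodule ℂ (Matrix (Fin n) (Fin n) ℂ) where
  carrier := {X | X * J + J * Xᵀ = 0 ∧ ∀ Z ∈ L, X * Z - Z * X ∈ L}
  zero_mem' := ⟨by rw [Matrix.zero_mul, transpose_zero, Matrix.mul_zero, add_zero], fun Z _ => by
    rw [Matrix.zero_mul, Matrix.mul_zero, sub_zero]
    exact L.zero_mem⟩
  add_mem' := by
    rintro X Y ⟨h1, h2⟩ ⟨h3, h4⟩
    refine ⟨?_, fun Z hZ => ?_⟩
    · have h5 : (X + Y) * J + J * (X + Y)ᵀ = (X * J + J * Xᵀ) + (Y * J + J * Yᵀ) := by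
        rw [Matrix.add_mul, transpose_add, Matrix.mul_add]
        abel
      rw [h5, h1, h3, add_zero]
    · have h5 : (X + Y) * Z - Z * (X + Y) = (X * Z - Z * X) + (Y * Z - Z * Y) := by
        rw [Matrix.add_mul, Matrix.mul_add]
        abel
      rw [h5]
      exact L.add_mem (h2 Z hZ) (h4 Z hZ)
  smul_mem' := by
    rintro t X ⟨h1, h2⟩
    refine ⟨?_, fun Z hZ => ?_⟩
    · rw [Matrix.smul_mul, transpose_smul, Matrix.mul_smul, ← smul_add, h1, smul_zero]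
    · rw [Matrix.smul_mul, Matrix.mul_smul, ← smul_sub]
      exact L.smul_mem t (h2 Z hZ)

theorem nn_br {J : Matrix (Fin n) (Fin n) ℂ} {L : Submodule ℂ (Matrix (Fin n) (Fin n) ℂ)} :
    ∀ x ∈ nn J L, ∀ y ∈ nn J L, x * y - y * x ∈ nn J L := by
  rintro X ⟨h1, h2⟩ Y ⟨h3, h4⟩
  refine ⟨?_, fun Z hZ => ?_⟩
  · have e1 : X * J = -(J * Xᵀ) := eq_neg_of_add_eq_zero_left h1
    have e2 : Y * J = -(J * Yᵀ) := eq_neg_of_add_eq_zero_left h3
    have e3 : X * Y * J = J * (Xᵀ * Yᵀ) := by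
      rw [Matrix.mul_assoc, e2, Matrix.mul_neg, ← Matrix.mul_assoc, e1, Matrix.neg_mul, neg_neg, Matrix.mul_assoc]
    have e4 : Y * X * J = J * (Yᵀ * Xᵀ) := by
      rw [Matrix.mul_assoc, e1, Matrix.mul_neg, ← Matrix.mul_assoc, e2, Matrix.neg_mul, neg_neg, Matrix.mul_assoc]
    rw [Matrix.sub_mul, e3, e4, transpose_sub, transpose_mul, transpose_mul, Matrix.mul_sub]
    abel
  · have h5 := L.sub_mem (h2 _ (h4 Z hZ)) (h4 _ (h2 Z hZ))
    have h6 : X * (Y * Z - Z * Y) - (Y * Z - Z * Y) * X - (Y * (X * Z - Z * X) - (X * Z - Z * X) * Y) =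
        (X * Y - Y * X) * Z - Z * (X * Y - Y * X) := by
      simp only [Matrix.mul_sub, Matrix.sub_mul, Matrix.mul_assoc]
      abel
    rwa [h6] at h5

/-- the common kernel of the forms -/
def rad (J : Matrix (Fin n) (Fin n) ℂ) (𝔨 : Submodule ℂ (Matrix (Fin n) (Fin n) ℂ)) : Submodule ℂ (Fin n → ℂ) where
  carrier := {u | ∀ β ∈ PP J 𝔨, β *ᵥ u = 0}
  zero_mem' := fun β _ => mulVec_zero β
  add_mem' := fun {u v} hu hv β hβ => by rw [mulVec_add, hu β hβ, hv β hβ, add_zero]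
  smul_mem' := fun t u hu β hβ => by rw [mulVec_smul, hu β hβ, smul_zero]

section aut
variable {σ : ℂ ≃+* ℂ} {J : Matrix (Fin n) (Fin n) ℂ} {L : Submodule ℂ (Matrix (Fin n) (Fin n) ℂ)}

theorem mmul (σ : ℂ ≃+* ℂ) (x y : Matrix (Fin n) (Fin n) ℂ) : (x * y).map σ = x.map σ * y.map σ :=
  Matrix.map_mul (f := (σ : ℂ →+* ℂ)) (L := x) (M := y)

theorem msub (σ : ℂ ≃+* ℂ) (x y : Matrix (Fin n) (Fin n) ℂ) : (x - y).map σ = x.map σ - y.map σ :=
  Matrix.map_sub σ (fun a b => map_sub σ a b) _ _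

theorem madd (σ : ℂ ≃+* ℂ) (x y : Matrix (Fin n) (Fin n) ℂ) : (x + y).map σ = x.map σ + y.map σ :=
  Matrix.map_add σ (fun a b => map_add σ a b) _ _

theorem msymm (σ : ℂ ≃+* ℂ) (w : Matrix (Fin n) (Fin n) ℂ) : (w.map σ.symm).map σ = w := by
  ext i j
  simp

theorem nn_aut (hJ : J.map σ = J) (hL : ∀ Z ∈ L, Z.map σ ∈ L) (hL' : ∀ Z ∈ L, Z.map σ.symm ∈ L)
    {X : Matrix (Fin n) (Fin n) ℂ} (hX : X ∈ nn J L) : X.map σ ∈ nn J L := by
  refine ⟨?_, fun Z hZ => ?_⟩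
  · have h1 := congrArg (fun y : Matrix (Fin n) (Fin n) ℂ => y.map σ) hX.1
    change (X * J + J * Xᵀ).map σ = (0 : Matrix (Fin n) (Fin n) ℂ).map σ at h1
    rw [madd, mmul, mmul, hJ, transpose_map, Matrix.map_zero σ (map_zero σ)] at h1
    exact h1
  · have h1 := hL _ (hX.2 _ (hL' Z hZ))
    rwa [msub, mmul, mmul, msymm] at h1

/-- The radical is stable under automorphisms. -/
theorem rad_aut (hJ : J.map σ = J) (hL : ∀ Z ∈ L, Z.map σ ∈ L) (hL' : ∀ Z ∈ L, Z.map σ.symm ∈ L)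
    {u : Fin n → ℂ} (hu : u ∈ rad J (nn J L)) : (fun i => σ (u i)) ∈ rad J (nn J L) := by
  intro β hβ
  have h1 : β.map σ.symm ∈ PP J (nn J L) := by
    refine ⟨by rw [← transpose_map, hβ.1], fun k hk => ?_⟩
    have h2 := hβ.2 _ (nn_aut hJ hL hL' hk)
    have h3 : σ ((β.map σ.symm * (k * J)).trace) = 0 := by
      rw [← h2]
      have h4 : (β.map σ.symm * (k * J)).map σ = β * (k.map σ * J) := by
        rw [mmul, msymm, mmul, hJ]
      rw [← h4]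
      unfold Matrix.trace
      rw [map_sum]
      rfl
    exact (map_eq_zero_iff σ σ.injective).1 h3
  have h2 := hu _ h1
  funext i
  have h3 := congrArg σ (congrFun h2 i)
  rw [Pi.zero_apply, map_zero] at h3
  rw [Pi.zero_apply, ← h3]
  unfold mulVec dotProduct
  rw [map_sum]
  refine Finset.sum_congr rfl fun j _ => ?_
  rw [map_mul]
  simp

end aut

section conj
variable {c J A : Matrix (Fin n) (Fin n) ℂ} {κ : ℂ} {L LB : Submodule ℂ (Matrix (Fin n) (Fin n) ℂ)}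

theorem nn_conj (hc : IsUnit c.det) (hκ : κ ≠ 0) (hcA : c * A * cᵀ = κ • J) (h : ∀ Z, Z ∈ LB ↔ c * Z * c⁻¹ ∈ L)
    (X : Matrix (Fin n) (Fin n) ℂ) : X ∈ nn A LB ↔ c * X * c⁻¹ ∈ nn J L := by
  have e1 : c⁻¹ * c = 1 := nonsing_inv_mul _ hc
  have e2 : c * c⁻¹ = 1 := mul_nonsing_inv _ hc
  have key : κ • (c * X * c⁻¹ * J + J * (c * X * c⁻¹)ᵀ) = c * (X * A + A * Xᵀ) * cᵀ := by
    rw [smul_add, ← Matrix.mul_smul, ← Matrix.smul_mul, ← hcA]
    have h1 : c * X * c⁻¹ * (c * A * cᵀ) = c * X * (c⁻¹ * c) * A * cᵀ := by simp only [Matrix.mul_assoc]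
    have h2 : c * A * cᵀ * (c * X * c⁻¹)ᵀ = c * A * (c⁻¹ * c)ᵀ * Xᵀ * cᵀ := by
      rw [transpose_mul, transpose_mul, transpose_mul]
      simp only [Matrix.mul_assoc]
    rw [h1, h2, e1, transpose_one, Matrix.mul_one, Matrix.mul_one, Matrix.mul_add, Matrix.add_mul]
    simp only [Matrix.mul_assoc]
  have hform : X * A + A * Xᵀ = 0 ↔ c * X * c⁻¹ * J + J * (c * X * c⁻¹)ᵀ = 0 := by
    constructor
    · intro h0
      rw [h0, Matrix.mul_zero, Matrix.zero_mul] at key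
      exact (smul_eq_zero.1 key).resolve_left hκ
    · intro h0
      rw [h0, smul_zero] at key
      have h1 : c⁻¹ * (c * (X * A + A * Xᵀ) * cᵀ) * (c⁻¹)ᵀ = X * A + A * Xᵀ := by
        have h2 : c⁻¹ * (c * (X * A + A * Xᵀ) * cᵀ) * (c⁻¹)ᵀ = (c⁻¹ * c) * (X * A + A * Xᵀ) * (c⁻¹ * c)ᵀ := by
          rw [transpose_mul c⁻¹ c]
          simp only [Matrix.mul_assoc]
        rw [h2, e1, transpose_one, Matrix.mul_one, Matrix.one_mul]
      rw [← h1, ← key, Matrix.mul_zero, Matrix.zero_mul]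
  have hbr : ∀ Z, c * (X * Z - Z * X) * c⁻¹ = c * X * c⁻¹ * (c * Z * c⁻¹) - c * Z * c⁻¹ * (c * X * c⁻¹) := by
    intro Z
    have h1 : ∀ P Q : Matrix (Fin n) (Fin n) ℂ, c * P * c⁻¹ * (c * Q * c⁻¹) = c * (P * Q) * c⁻¹ := by
      intro P Q
      have h2 : c * P * c⁻¹ * (c * Q * c⁻¹) = c * P * (c⁻¹ * c) * Q * c⁻¹ := by simp only [Matrix.mul_assoc]
      rw [h2, e1, Matrix.mul_one]
      simp only [Matrix.mul_assoc]
    rw [h1, h1, ← Matrix.sub_mul, ← Matrix.mul_sub]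
  constructor
  · rintro ⟨h1, h2⟩
    refine ⟨hform.1 h1, fun Z hZ => ?_⟩
    have h3 : c * (c⁻¹ * Z * c) * c⁻¹ = Z := by
      have h4 : c * (c⁻¹ * Z * c) * c⁻¹ = (c * c⁻¹) * Z * (c * c⁻¹) := by simp only [Matrix.mul_assoc]
      rw [h4, e2, Matrix.one_mul, Matrix.mul_one]
    have h4 : c⁻¹ * Z * c ∈ LB := (h _).2 (by rw [h3]; exact hZ)
    have h5 := (h _).1 (h2 _ h4)
    rwa [hbr, h3] at h5
  · rintro ⟨h1, h2⟩
    refine ⟨hform.2 h1, fun Z hZ => (h _).2 ?_⟩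
    rw [hbr]
    exact h2 _ ((h _).1 hZ)

theorem rad_conj (hc : IsUnit c.det) (hκ : κ ≠ 0) (hcA : c * A * cᵀ = κ • J) (h : ∀ Z, Z ∈ LB ↔ c * Z * c⁻¹ ∈ L)
    (u : Fin n → ℂ) : u ∈ rad A (nn A LB) ↔ c *ᵥ u ∈ rad J (nn J L) := by
  have e1 : c⁻¹ * c = 1 := nonsing_inv_mul _ hc
  have e2 : c * c⁻¹ = 1 := mul_nonsing_inv _ hc
  have key : ∀ (β X : Matrix (Fin n) (Fin n) ℂ), (cᵀ * β * c * (X * A)).trace = κ * (β * (c * X * c⁻¹ * J)).trace := by
    intro β X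
    have h1 : c * X * c⁻¹ * (κ • J) = c * X * A * cᵀ := by
      rw [← hcA]
      have h2 : c * X * c⁻¹ * (c * A * cᵀ) = c * X * (c⁻¹ * c) * A * cᵀ := by simp only [Matrix.mul_assoc]
      rw [h2, e1, Matrix.mul_one]
    have h2 : κ * (β * (c * X * c⁻¹ * J)).trace = (β * (c * X * A * cᵀ)).trace := by
      rw [← h1, Matrix.mul_smul, Matrix.mul_smul, trace_smul, smul_eq_mul]
    rw [h2]
    have h3 : cᵀ * β * c * (X * A) = cᵀ * (β * (c * X * A)) := by simp only [Matrix.mul_assoc]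
    have h4 : β * (c * X * A * cᵀ) = β * (c * X * A) * cᵀ := by simp only [Matrix.mul_assoc]
    rw [h3, h4, Matrix.trace_mul_comm]
  constructor
  · intro hu β hβ
    have h1 : cᵀ * β * c ∈ PP A (nn A LB) := by
      refine ⟨by rw [transpose_mul, transpose_mul, transpose_transpose, hβ.1, Matrix.mul_assoc], fun k hk => ?_⟩
      rw [key, hβ.2 _ ((nn_conj hc hκ hcA h k).1 hk), mul_zero]
    have h2 := hu _ h1
    rw [Matrix.mul_assoc, ← mulVec_mulVec, ← mulVec_mulVec] at h2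
    have h3 := congrArg (fun v => (c⁻¹)ᵀ *ᵥ v) h2
    simp only [mulVec_mulVec, mulVec_zero] at h3
    rw [← Matrix.mul_assoc, ← transpose_mul, e2, transpose_one, Matrix.one_mul] at h3
    rw [mulVec_mulVec]
    exact h3
  · intro hu β hβ
    have h1 : (c⁻¹)ᵀ * β * c⁻¹ ∈ PP J (nn J L) := by
      refine ⟨by rw [transpose_mul, transpose_mul, transpose_transpose, hβ.1, Matrix.mul_assoc], fun k hk => ?_⟩
      have h3 : c * (c⁻¹ * k * c) * c⁻¹ = k := by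
        have h4 : c * (c⁻¹ * k * c) * c⁻¹ = (c * c⁻¹) * k * (c * c⁻¹) := by simp only [Matrix.mul_assoc]
        rw [h4, e2, Matrix.one_mul, Matrix.mul_one]
      have h4 : c⁻¹ * k * c ∈ nn A LB := (nn_conj hc hκ hcA h _).2 (by rw [h3]; exact hk)
      have h5 := hβ.2 _ h4
      have h6 : cᵀ * ((c⁻¹)ᵀ * β * c⁻¹) * c = β := by
        have h7 : cᵀ * ((c⁻¹)ᵀ * β * c⁻¹) * c = (c⁻¹ * c)ᵀ * β * (c⁻¹ * c) := by
          rw [transpose_mul]
          simp only [Matrix.mul_assoc]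
        rw [h7, e1, transpose_one, Matrix.one_mul, Matrix.mul_one]
      have h7 := key ((c⁻¹)ᵀ * β * c⁻¹) (c⁻¹ * k * c)
      rw [h6, h3, h5] at h7
      exact (mul_eq_zero.1 h7.symm).resolve_left hκ
    have h2 := hu _ h1
    rw [mulVec_mulVec, Matrix.mul_assoc, e1, Matrix.mul_one, ← mulVec_mulVec] at h2
    have h3 := congrArg (fun v => cᵀ *ᵥ v) h2
    simp only [mulVec_mulVec, mulVec_zero] at h3
    rw [← Matrix.mul_assoc, ← transpose_mul, e1, transpose_one, Matrix.one_mul] at h3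
    exact h3

end conj

section br
variable {J : Matrix (Fin n) (Fin n) ℂ}

theorem RR_comm (v w : Fin n → ℂ) : RR J v w = RR J w v := by
  unfold RR
  rw [add_comm]

/-- brackets of elements of rank two, in general -/
theorem RR_br4 (hJt : Jᵀ = -J) (a b c d : Fin n → ℂ) : RR J a b * RR J c d - RR J c d * RR J a b =
    (b ⬝ᵥ (J *ᵥ c)) • RR J a d + (b ⬝ᵥ (J *ᵥ d)) • RR J a c + (a ⬝ᵥ (J *ᵥ c)) • RR J b d + (a ⬝ᵥ (J *ᵥ d)) • RR J b c := by
  have h1 : ∀ a b : Fin n → ℂ, a ⬝ᵥ (J *ᵥ b) = -(b ⬝ᵥ (J *ᵥ a)) := by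
    intro a b
    rw [dotProduct_mulVec, ← mulVec_transpose, hJt, neg_mulVec, neg_dotProduct, dotProduct_comm]
  have h3 : ∀ a b c d : Fin n → ℂ, vecMulVec a b * (J * vecMulVec c d) = (b ⬝ᵥ (J *ᵥ c)) • vecMulVec a d := by
    intro a b c d
    rw [Matrix.mul_vecMulVec, Matrix.vecMulVec_mul_vecMulVec, Matrix.vecMulVec_smul]
  have h4 : ∀ a b c d : Fin n → ℂ, RR J a b * RR J c d = ((b ⬝ᵥ (J *ᵥ c)) • vecMulVec a d +
      (b ⬝ᵥ (J *ᵥ d)) • vecMulVec a c + (a ⬝ᵥ (J *ᵥ c)) • vecMulVec b d + (a ⬝ᵥ (J *ᵥ d)) • vecMulVec b c) * J := by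
    intro a b c d
    unfold RR
    rw [← Matrix.mul_assoc, Matrix.mul_assoc (vecMulVec a b + vecMulVec b a)]
    congr 1
    rw [Matrix.mul_add, Matrix.add_mul, Matrix.mul_add, Matrix.mul_add, h3, h3, h3, h3]
    abel
  rw [h4, h4]
  unfold RR
  rw [h1 c a, h1 c b, h1 d a, h1 d b]
  simp only [← Matrix.smul_mul, ← Matrix.add_mul, ← Matrix.sub_mul]
  congr 1
  simp only [smul_add, neg_smul]
  abel

variable {L M : Submodule ℂ (Matrix (Fin n) (Fin n) ℂ)}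

/-- polarisation -/
theorem RR_pol (h : ∀ w, RR J w w ∈ M) (v w : Fin n → ℂ) : RR J v w ∈ M := by
  have h1 : RR J v w = (2⁻¹ : ℂ) • (RR J (v + w) (v + w) - RR J v v - RR J w w) := by
    have h2 : RR J (v + w) (v + w) - RR J v v - RR J w w = (2 : ℂ) • RR J v w := by
      unfold RR
      rw [← Matrix.sub_mul, ← Matrix.sub_mul, ← Matrix.smul_mul]
      congr 1
      rw [Matrix.vecMulVec_add, Matrix.add_vecMulVec, Matrix.add_vecMulVec, two_smul]
      abel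
    rw [h2, smul_smul, inv_mul_cancel₀ two_ne_zero, one_smul]
  rw [h1]
  exact M.smul_mem _ (M.sub_mem (M.sub_mem (h _) (h _)) (h _))

theorem exists_pair (hJ : J * J = -1) {v : Fin n → ℂ} (hv : v ≠ 0) : ∃ y, y ⬝ᵥ (J *ᵥ v) ≠ 0 := by
  by_contra hcon
  push Not at hcon
  have h1 : J *ᵥ v = 0 := by
    funext i
    have h2 := hcon (Pi.single i 1)
    rwa [single_one_dotProduct] at h2
  apply hv
  refine J_inj hJ ?_
  rw [h1, mulVec_zero]

/-- **Simplicity of the symplectic Lie algebra.** -/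
theorem simple (hJ : J * J = -1) (hJt : Jᵀ = -J) (hn : ∀ w, ∀ Z ∈ L, RR J w w * Z - Z * RR J w w ∈ L)
    {v : Fin n → ℂ} (hv : v ≠ 0) (hvL : RR J v v ∈ L) (x : Fin n → ℂ) : RR J x x ∈ L := by
  have hn' : ∀ a b, ∀ Z ∈ L, RR J a b * Z - Z * RR J a b ∈ L := by
    intro a b Z hZ
    let M : Submodule ℂ (Matrix (Fin n) (Fin n) ℂ) :=
      { carrier := {X | X * Z - Z * X ∈ L}
        zero_mem' := by
          change 0 * Z - Z * 0 ∈ L
          rw [Matrix.zero_mul, Matrix.mul_zero, sub_zero]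
          exact L.zero_mem
        add_mem' := by
          intro X Y hX hY
          change (X + Y) * Z - Z * (X + Y) ∈ L
          have h5 : (X + Y) * Z - Z * (X + Y) = (X * Z - Z * X) + (Y * Z - Z * Y) := by
            rw [Matrix.add_mul, Matrix.mul_add]
            abel
          rw [h5]
          exact L.add_mem hX hY
        smul_mem' := by
          intro t X hX
          change (t • X) * Z - Z * (t • X) ∈ L
          rw [Matrix.smul_mul, Matrix.mul_smul, ← smul_sub]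
          exact L.smul_mem t hX }
    exact RR_pol (M := M) (fun w => hn w Z hZ) a b
  have hself : ∀ a : Fin n → ℂ, a ⬝ᵥ (J *ᵥ a) = 0 := fun a => by
    rw [dotProduct_comm]
    exact J_self hJt a
  obtain ⟨y, hy⟩ := exists_pair hJ hv
  -- the elements `RR x v`
  have h2 : ∀ x, RR J x v ∈ L := by
    intro x
    by_cases hx : x ⬝ᵥ (J *ᵥ v) = 0
    · have h3 := hn' x y _ hvL
      rw [RR_br4 hJt] at h3
      simp only [hx, zero_smul, add_zero] at h3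
      rw [← two_smul ℂ, smul_smul] at h3
      have h4 := L.smul_mem (2 * (y ⬝ᵥ (J *ᵥ v)))⁻¹ h3
      rwa [smul_smul, inv_mul_cancel₀ (mul_ne_zero two_ne_zero hy), one_smul] at h4
    · have h3 := hn x _ hvL
      rw [RR_br4 hJt] at h3
      have h4 : (x ⬝ᵥ (J *ᵥ v)) • RR J x v + (x ⬝ᵥ (J *ᵥ v)) • RR J x v + (x ⬝ᵥ (J *ᵥ v)) • RR J x v +
          (x ⬝ᵥ (J *ᵥ v)) • RR J x v = (4 * (x ⬝ᵥ (J *ᵥ v))) • RR J x v := by
        module
      rw [h4] at h3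
      have h5 := L.smul_mem (4 * (x ⬝ᵥ (J *ᵥ v)))⁻¹ h3
      rwa [smul_smul, inv_mul_cancel₀ (mul_ne_zero (by norm_num) hx), one_smul] at h5
  by_cases hx : x ⬝ᵥ (J *ᵥ v) = 0
  · have h3 := hn' x y _ (h2 x)
    rw [RR_br4 hJt] at h3
    simp only [hx, hself, zero_smul, add_zero] at h3
    have h4 := L.sub_mem h3 (L.smul_mem (y ⬝ᵥ (J *ᵥ x)) (h2 x))
    rw [add_sub_cancel_left] at h4
    have h5 := L.smul_mem (y ⬝ᵥ (J *ᵥ v))⁻¹ h4
    rwa [smul_smul, inv_mul_cancel₀ hy, one_smul] at h5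
  · have h3 := hn x _ (h2 x)
    rw [RR_br4 hJt] at h3
    simp only [hself, zero_smul, zero_add, add_zero] at h3
    have h4 : (x ⬝ᵥ (J *ᵥ v)) • RR J x x + (x ⬝ᵥ (J *ᵥ v)) • RR J x x = (2 * (x ⬝ᵥ (J *ᵥ v))) • RR J x x := by
      module
    rw [h4] at h3
    have h5 := L.smul_mem (2 * (x ⬝ᵥ (J *ᵥ v)))⁻¹ h3
    rwa [smul_smul, inv_mul_cancel₀ (mul_ne_zero two_ne_zero hx), one_smul] at h5

/-- vectors with given products -/
theorem exists_uuy (hJ : J * J = -1) (hJt : Jᵀ = -J) (hn : 3 ≤ n) {v : Fin n → ℂ} (hv : v ≠ 0) :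
    ∃ u u' y : Fin n → ℂ, u ⬝ᵥ (J *ᵥ v) = 0 ∧ u' ⬝ᵥ (J *ᵥ v) = 0 ∧ v ⬝ᵥ (J *ᵥ y) = 1 ∧ u ⬝ᵥ (J *ᵥ u') ≠ 0 := by
  have hskew : ∀ a b : Fin n → ℂ, a ⬝ᵥ (J *ᵥ b) = -(b ⬝ᵥ (J *ᵥ a)) := by
    intro a b
    rw [dotProduct_mulVec, ← mulVec_transpose, hJt, neg_mulVec, neg_dotProduct, dotProduct_comm]
  obtain ⟨y0, hy0⟩ := exists_pair hJ hv
  obtain ⟨u, hu0, hu⟩ : ∃ u, u ⬝ᵥ (J *ᵥ v) = 0 ∧ u ∉ Submodule.span ℂ {v} := by
    by_contra hcon
    push Not at hcon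
    let f : (Fin n → ℂ) →ₗ[ℂ] ℂ := (BB n) (J *ᵥ v)
    have h1 : LinearMap.ker f ≤ Submodule.span ℂ {v} := by
      intro u hu
      refine hcon u ?_
      have h2 : BB n (J *ᵥ v) u = 0 := hu
      rw [BB_apply] at h2
      rw [dotProduct_comm]
      exact h2
    have h2 := Submodule.finrank_mono h1
    have h3 := LinearMap.finrank_range_add_finrank_ker f
    have h4 : finrank ℂ (LinearMap.range f) ≤ 1 := by
      have h5 := Submodule.finrank_le (LinearMap.range f)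
      rwa [Module.finrank_self] at h5
    have h5 := finrank_span_singleton (K := ℂ) hv
    rw [Module.finrank_fin_fun] at h3
    omega
  have hli : LinearIndependent ℂ ![u, v] := by
    rw [LinearIndependent.pair_symm_iff]
    rw [LinearIndependent.pair_iff' hv]
    intro t ht
    exact hu (Submodule.mem_span_singleton.2 ⟨t, ht⟩)
  have hJli : LinearIndependent ℂ (fun i => J *ᵥ (![u, v] : Fin 2 → (Fin n → ℂ)) i) := by
    refine hli.map' (Matrix.mulVecLin J) ?_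
    rw [LinearMap.ker_eq_bot]
    exact fun a b hab => J_inj hJ hab
  obtain ⟨φ, hφ⟩ := exists_dual hJli
  have h1 : (J *ᵥ u) ⬝ᵥ φ 0 = 1 := hφ 0 0
  have h2 : (J *ᵥ v) ⬝ᵥ φ 0 = 0 := by
    have h3 := hφ 1 0
    rwa [if_neg (by decide)] at h3
  refine ⟨u, φ 0, (-(y0 ⬝ᵥ (J *ᵥ v))⁻¹) • y0, hu0, by rw [dotProduct_comm]; exact h2, ?_, ?_⟩
  · rw [mulVec_smul, dotProduct_smul, hskew v y0, smul_eq_mul, neg_mul_neg, inv_mul_cancel₀ hy0]
  · rw [hskew, dotProduct_comm, h1]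
    norm_num

/-- double brackets -/
theorem dbl (hJt : Jᵀ = -J) {v u u' y : Fin n → ℂ} (h1 : u ⬝ᵥ (J *ᵥ v) = 0) (h2 : u' ⬝ᵥ (J *ᵥ v) = 0)
    (h3 : v ⬝ᵥ (J *ᵥ y) = 1) :
    (RR J u v * RR J y v - RR J y v * RR J u v) * (RR J u' v * RR J y v - RR J y v * RR J u' v) -
      (RR J u' v * RR J y v - RR J y v * RR J u' v) * (RR J u v * RR J y v - RR J y v * RR J u v) =
      (u ⬝ᵥ (J *ᵥ u')) • RR J v v := by
  have hskew : ∀ a b : Fin n → ℂ, a ⬝ᵥ (J *ᵥ b) = -(b ⬝ᵥ (J *ᵥ a)) := by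
    intro a b
    rw [dotProduct_mulVec, ← mulVec_transpose, hJt, neg_mulVec, neg_dotProduct, dotProduct_comm]
  have hself : v ⬝ᵥ (J *ᵥ v) = 0 := by
    rw [dotProduct_comm]
    exact J_self hJt v
  have e1 : RR J u v * RR J y v - RR J y v * RR J u v = RR J u v + (u ⬝ᵥ (J *ᵥ y)) • RR J v v := by
    rw [RR_br hJt, h1, h3, one_smul, zero_smul, add_zero]
  have e2 : RR J u' v * RR J y v - RR J y v * RR J u' v = RR J u' v + (u' ⬝ᵥ (J *ᵥ y)) • RR J v v := by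
    rw [RR_br hJt, h2, h3, one_smul, zero_smul, add_zero]
  have e3 : RR J u v * RR J u' v - RR J u' v * RR J u v = (u ⬝ᵥ (J *ᵥ u')) • RR J v v := by
    rw [RR_br hJt, h1, hskew v u', h2, neg_zero, zero_smul, zero_smul, zero_add, zero_add]
  have e4 : RR J u v * RR J v v = RR J v v * RR J u v := by
    rw [← sub_eq_zero, RR_br hJt, h1, hself]
    simp only [zero_smul, add_zero]
  have e5 : RR J u' v * RR J v v = RR J v v * RR J u' v := by
    rw [← sub_eq_zero, RR_br hJt, h2, hself]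
    simp only [zero_smul, add_zero]
  rw [e1, e2, ← e3]
  simp only [Matrix.add_mul, Matrix.mul_add, Matrix.smul_mul, Matrix.mul_smul, smul_add]
  rw [e4, e5, smul_comm (u' ⬝ᵥ (J *ᵥ y)) (u ⬝ᵥ (J *ᵥ y))]
  abel

end br

end Pool.Agent.W2helper4.TS
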