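import Pool.Agent.W2helper4.TS.Grp2
import Pool.Agent.W2helper4.TS.Rad
import Pool.Agent.W2helper4.TS.Om

/-!
# Blocks of rank four: either the symplectic group acts, or the block is reducible
-/

set_option autoImplicit false
set_option linter.unusedSectionVars false
set_option maxHeartbeats 1000000

open Matrix Module

noncomputable section

namespace Pool.Agent.W2helper4.TS

open Pool.Agent.TH127.PT Pool.Agent.Y123.ST Pool.Agent.W2helper33.OQ Pool.Agent.W2helper33.BD Pool.Agent.Y113.MT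
open Pool.Agent.TH119.DR (DefOver)
open Pool.Agent.TH119.MX (defOver_of_aut)

variable {s : ℕ} {m : Fin s → ℕ}

theorem bd_single_add (a : Fin s) (X Y : Matrix (Fin (2 * m a)) (Fin (2 * m a)) ℂ) :
    bd (Pi.single a (X + Y)) = bd (Pi.single a X : Bk m) + bd (Pi.single a Y) := by
  rw [← bd_add]
  congr 1
  funext b
  rcases eq_or_ne b a with rfl | hb
  · simp only [Pi.single_eq_same]
  · simp only [Pi.single_eq_of_ne hb, add_zero]

theorem bd_single_zero (a : Fin s) : bd (Pi.single a 0 : Bk m) = 0 := by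
  rw [Pi.single_zero]
  exact Matrix.blockDiagonal'_zero

/-- the part of a space of matrices in the block `a` -/
def tt (L : Submodule ℂ (Matrix (BI m) (BI m) ℂ)) (a : Fin s) : Submodule ℂ (Matrix (Fin (2 * m a)) (Fin (2 * m a)) ℂ) where
  carrier := {Z | bd (Pi.single a Z : Bk m) ∈ L}
  zero_mem' := by
    change bd (Pi.single a 0 : Bk m) ∈ L
    rw [bd_single_zero]
    exact L.zero_mem
  add_mem' := by
    intro X Y hX hY
    change bd (Pi.single a (X + Y) : Bk m) ∈ L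
    rw [bd_single_add]
    exact L.add_mem hX hY
  smul_mem' := by
    intro t X hX
    change bd (Pi.single a (t • X) : Bk m) ∈ L
    rw [bd_single_smul]
    exact L.smul_mem t hX

theorem bd_map (X : Bk m) (σ : ℂ ≃+* ℂ) : (bd X).map σ = bd fun b => (X b).map σ :=
  Matrix.blockDiagonal'_map X σ (map_zero σ)

theorem tt_aut {L : Submodule ℂ (Matrix (BI m) (BI m) ℂ)} {σ : ℂ ≃+* ℂ} (hL : ∀ Z ∈ L, Z.map σ ∈ L) (a : Fin s) :
    ∀ Z ∈ tt L a, Z.map σ ∈ tt L a := by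
  intro Z hZ
  have h1 := hL _ hZ
  rw [bd_map] at h1
  change bd (Pi.single a (Z.map σ) : Bk m) ∈ L
  convert h1 using 2
  funext b
  rcases eq_or_ne b a with rfl | hb
  · simp only [Pi.single_eq_same]
  · simp only [Pi.single_eq_of_ne hb, Matrix.map_zero σ (map_zero σ)]

theorem SS_map (σ : ℂ ≃+* ℂ) (n : ℕ) : (SS ℂ n).map σ = SS ℂ n := by
  ext i j
  rw [Matrix.map_apply, SS_apply]
  split_ifs
  · rw [map_pow, map_neg, map_one]
  · exact map_zero σ

theorem cq_map (σ : ℂ ≃+* ℂ) {n : ℕ} (A : Matrix (Fin n) (Fin n) ℚ) : (cq A).map σ = cq A := by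
  ext i j
  change σ ((A i j : ℚ) : ℂ) = _
  rw [map_ratCast]
  rfl

section block
variable {K : Subfield ℂ} {d : ℕ} {T : Set (Matrix (BI m) (BI m) ℂ)} {c p : Bk m}

theorem H1_le_Nr (hT : IsSubtorsor K T) (hd1 : 1 + D0 (BI m) ≤ d) {c : Matrix (BI m) (BI m) ℂ} (hc : c ∈ T) :
    H1 K d c T ≤ Nr (LM T) := by
  refine sup_le (fun v hv => tan_nr hT hd1 hc hv) fun z hz => hz.1

theorem Kk_le_nn (hT : IsSubtorsor K T) (hd1 : 1 + D0 (BI m) ≤ d) {c : Matrix (BI m) (BI m) ℂ} (hc : c ∈ T) (a : Fin s) :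
    Kk K d c T p a ≤ nn (SS ℂ (2 * m a)) (tt (LM T) a) := by
  rintro X ⟨h1, t, V, h2, -, h4⟩
  refine ⟨h1, fun Z hZ => ?_⟩
  have h5 := H1_le_Nr hT hd1 hc h4 _ hZ
  change bd (Pi.single a (X * Z - Z * X) : Bk m) ∈ LM T
  rw [← bd_br] at h5
  convert h5 using 2
  funext b
  rcases eq_or_ne b a with rfl | hb
  · simp only [Pi.single_eq_same, h2, Matrix.add_mul, Matrix.mul_add, Matrix.smul_mul, Matrix.mul_smul, Matrix.one_mul,
      Matrix.mul_one, add_sub_add_right_eq_sub]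
  · simp only [Pi.single_eq_of_ne hb, Matrix.mul_zero, Matrix.zero_mul, sub_zero]

theorem RR_two {n : ℕ} (J : Matrix (Fin n) (Fin n) ℂ) (w : Fin n → ℂ) : RR J w w = (2 : ℂ) • (vecMulVec w w * J) := by
  unfold RR
  rw [← two_smul ℂ, Matrix.smul_mul]

/-- conjugation by a block diagonal matrix -/
theorem conj_single (hc : ∀ b, IsUnit (c b).det) (a : Fin s) (Z : Matrix (Fin (2 * m a)) (Fin (2 * m a)) ℂ) :
    bd c * bd (Pi.single a Z : Bk m) * (bd c)⁻¹ = bd (Pi.single a (c a * Z * (c a)⁻¹) : Bk m) := by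
  rw [bd_inv hc, ← bd_mul, ← bd_mul]
  congr 1
  funext b
  rcases eq_or_ne b a with rfl | hb
  · simp only [Pi.single_eq_same]
  · simp only [Pi.single_eq_of_ne hb, Matrix.mul_zero, Matrix.zero_mul]

theorem conj_single' (hc : ∀ b, IsUnit (c b).det) (a : Fin s) (Z : Matrix (Fin (2 * m a)) (Fin (2 * m a)) ℂ) :
    (bd c)⁻¹ * bd (Pi.single a Z : Bk m) * bd c = bd (Pi.single a ((c a)⁻¹ * Z * c a) : Bk m) := by
  rw [bd_inv hc, ← bd_mul, ← bd_mul]
  congr 1
  funext b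
  rcases eq_or_ne b a with rfl | hb
  · simp only [Pi.single_eq_same]
  · simp only [Pi.single_eq_of_ne hb, Matrix.mul_zero, Matrix.zero_mul]

theorem tt_conj (hT : IsSubtorsor K T) (hcT : bd c ∈ T) (hc : ∀ b, IsUnit (c b).det) (a : Fin s)
    (Z : Matrix (Fin (2 * m a)) (Fin (2 * m a)) ℂ) : Z ∈ tt (RM T) a ↔ c a * Z * (c a)⁻¹ ∈ tt (LM T) a := by
  have e1 : (c a)⁻¹ * c a = 1 := nonsing_inv_mul _ (hc a)
  constructor
  · intro hZ
    have h1 := conj_RM hT hcT hZ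
    rw [conj_single hc] at h1
    exact h1
  · intro hZ
    have h1 := conj_LM hT hcT hZ
    rw [conj_single' hc] at h1
    have h2 : (c a)⁻¹ * (c a * Z * (c a)⁻¹) * c a = Z := by
      have h3 : (c a)⁻¹ * (c a * Z * (c a)⁻¹) * c a = ((c a)⁻¹ * c a) * Z * ((c a)⁻¹ * c a) := by
        simp only [Matrix.mul_assoc]
      rw [h3, e1, Matrix.one_mul, Matrix.mul_one]
    rw [h2] at h1
    exact h1

/-- **The dichotomy.** The Lie algebra of the subtorsor contains the symplectic Lie algebra of the block `a`, or the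
block has rank four and is reducible over `K`. -/
theorem block_dich (hm : ∀ a, 2 ≤ m a) (hK : ∀ x ∈ K, IsAlgebraic ℚ x) (hT : IsSubtorsor K T)
    (hd : JJ (Fintype.card (BI m) * Fintype.card (BI m)) * (1 + D0 (BI m)) ≤ d) (hcT : bd c ∈ T)
    (hc : ∀ b, IsUnit (c b).det) (hps : ∀ b, p b * SS ℂ (2 * m b) * (p b)ᵀ = SS ℂ (2 * m b)) (hHT : HT m K d (bd c) p)
    (a : Fin s) {A : Matrix (Fin (2 * m a)) (Fin (2 * m a)) ℚ} {κ : ℂ} (hκ : κ ≠ 0)
    (hA : c a * cq A * (c a)ᵀ = κ • SS ℂ (2 * m a)) :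
    (∀ w, bd (Pi.single a (vecMulVec w w * SS ℂ (2 * m a)) : Bk m) ∈ LM T) ∨
    (m a = 2 ∧ ∃ V W : Submodule ℂ (Fin (2 * m a) → ℂ), DefOver K V ∧ DefOver K W ∧ (∀ v, v ∈ V ↔ c a *ᵥ v ∈ W) ∧
      V ≠ ⊥ ∧ V ≠ ⊤) := by
  classical
  have hd1 : 1 + D0 (BI m) ≤ d := le_trans (by nlinarith [JJ_pos (Fintype.card (BI m) * Fintype.card (BI m))]) hd
  have hp : ∀ b, (p b)⁻¹ * p b = 1 := by
    intro b
    refine Matrix.nonsing_inv_mul _ ?_
    have h1 := congrArg Matrix.det (hps b)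
    rw [Matrix.det_mul, Matrix.det_mul] at h1
    rw [isUnit_iff_ne_zero]
    intro h0
    rw [h0, zero_mul, zero_mul] at h1
    exact SS_det (F := ℂ) (m b) h1.symm
  set S := SS ℂ (2 * m a) with hS
  have hSS : S * S = -1 := SS_sq (m a)
  have hSt : Sᵀ = -S := SS_tr (m a)
  have hma := hm a
  let 𝔨 := Kk K d (bd c) T p a
  have hk : ∀ x ∈ 𝔨, x * S + S * xᵀ = 0 := fun x hx => hx.1
  have hbr : ∀ x ∈ 𝔨, ∀ y ∈ 𝔨, x * y - y * x ∈ 𝔨 := Kk_br hK hT hd hcT hp a
  have hsum := Kk_sum (T := T) hHT hp hps a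
  have hfE := (Submodule.finrank_map_le ((LinearMap.mulLeft ℂ (p a)).comp (LinearMap.mulRight ℂ (p a)⁻¹))
    (E0 ℂ (m a))).trans (finrank_E0 (by omega))
  have hPk : finrank ℂ (PP S 𝔨) ≤ m a + 1 := (finrank_PP hSS hsum).trans hfE
  -- a vector
  obtain ⟨v, hv, hvk⟩ : ∃ v : Fin (2 * m a) → ℂ, v ≠ 0 ∧ ∀ u, RR S u v ∈ 𝔨 := by
    by_cases h : ∀ w, RR S w w ∈ 𝔨
    · refine ⟨Pi.single ⟨0, by omega⟩ 1, ?_, fun u => RR_pol h u _⟩
      intro h0
      have h1 := congrFun h0 ⟨0, by omega⟩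
      rw [Pi.single_eq_same] at h1
      exact one_ne_zero h1
    · push Not at h
      obtain ⟨w, hw⟩ := h
      obtain ⟨v, hv, hv'⟩ := exists_rad hSS hSt hk hbr hw (by omega)
      refine ⟨v, hv, fun u => RR_mem hSS hk hSt fun β hβ => ?_⟩
      rw [hv' β hβ, dotProduct_zero]
  obtain ⟨u, u', y, hu, hu', hy, huu⟩ := exists_uuy hSS hSt (by omega) hv
  have hvv : RR S v v ∈ tt (LM T) a := by
    have h1 := Kk_br2 hK hT hd hcT hp a (hvk u) (hvk y) (hvk u') (hvk y)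
    rw [dbl hSt hu hu' hy, bd_single_smul] at h1
    have h2 := Submodule.smul_mem _ (u ⬝ᵥ (S *ᵥ u'))⁻¹ h1
    rwa [smul_smul, inv_mul_cancel₀ huu, one_smul] at h2
  by_cases hall : ∀ w, RR S w w ∈ nn S (tt (LM T) a)
  · left
    intro w
    have h1 := simple hSS hSt (fun w => (hall w).2) hv hvv w
    rw [RR_two] at h1
    have h2 := Submodule.smul_mem _ (2⁻¹ : ℂ) h1
    rw [smul_smul, inv_mul_cancel₀ two_ne_zero, one_smul] at h2
    exact h2
  · right
    push Not at hall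
    obtain ⟨w, hw⟩ := hall
    have hle : 𝔨 ≤ nn S (tt (LM T) a) := Kk_le_nn hT hd1 hcT a
    have hsum' : ∀ v, ∃ k ∈ nn S (tt (LM T) a),
        ∃ e ∈ (E0 ℂ (m a)).map ((LinearMap.mulLeft ℂ (p a)).comp (LinearMap.mulRight ℂ (p a)⁻¹)),
        vecMulVec v v * S = k + e := by
      intro v
      obtain ⟨k, hk', e, he, h⟩ := hsum v
      exact ⟨k, hle hk', e, he, h⟩
    have hkn : ∀ x ∈ nn S (tt (LM T) a), x * S + S * xᵀ = 0 := fun x hx => hx.1
    have h2 : m a = 2 := by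
      by_contra hne
      have h3 := lie_lemma3 (by omega) hSS hSt hkn nn_br hfE hsum' w
      apply hw
      rw [RR_two]
      exact Submodule.smul_mem _ _ h3
    have hPn : finrank ℂ (PP S (nn S (tt (LM T) a))) < 2 * m a :=
      lt_of_le_of_lt ((finrank_PP hSS hsum').trans hfE) (by omega)
    obtain ⟨v', hv'0, hv'⟩ := exists_rad hSS hSt hkn nn_br hw hPn
    have hcn := rad_conj (hc a) hκ hA (tt_conj hT hcT hc a)
    refine ⟨h2, rad (cq A) (nn (cq A) (tt (RM T) a)), rad S (nn S (tt (LM T) a)), ?_, ?_, hcn, ?_, ?_⟩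
    · refine defOver_of_aut _ fun σ hσ v hv => ?_
      exact rad_aut (cq_map σ A) (tt_aut (fun Z hZ => RM_aut hT hσ hZ) a)
        (tt_aut (fun Z hZ => RM_aut hT (symm_fix hσ) hZ) a) hv
    · refine defOver_of_aut _ fun σ hσ v hv => ?_
      exact rad_aut (SS_map σ _) (tt_aut (fun Z hZ => LM_aut hT hσ hZ) a)
        (tt_aut (fun Z hZ => LM_aut hT (symm_fix hσ) hZ) a) hv
    · intro h0
      have h3 : (c a)⁻¹ *ᵥ v' ∈ rad (cq A) (nn (cq A) (tt (RM T) a)) := by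
        rw [hcn, mulVec_mulVec, mul_nonsing_inv _ (hc a), one_mulVec]
        exact hv'
      rw [h0, Submodule.mem_bot] at h3
      apply hv'0
      have h4 := congrArg (fun x => c a *ᵥ x) h3
      simp only [mulVec_mulVec, mul_nonsing_inv _ (hc a), one_mulVec, mulVec_zero] at h4
      exact h4
    · intro h0
      apply hw
      refine RR_mem hSS hkn hSt fun β hβ => ?_
      have h3 : (c a)⁻¹ *ᵥ w ∈ rad (cq A) (nn (cq A) (tt (RM T) a)) := by
        rw [h0]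
        exact Submodule.mem_top
      rw [hcn, mulVec_mulVec, mul_nonsing_inv _ (hc a), one_mulVec] at h3
      rw [h3 β hβ, dotProduct_zero]

end block

end Pool.Agent.W2helper4.TS

end
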