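import Mathlib

/-!
# Subalgebras of small codimension of the symplectic Lie algebra
-/

set_option autoImplicit false
set_option linter.unusedSectionVars false

open Matrix Module

namespace Pool.Agent.W2helper4.TS

variable {n : ℕ} {J : Matrix (Fin n) (Fin n) ℂ}

theorem trace_vmv (β : Matrix (Fin n) (Fin n) ℂ) (v w : Fin n → ℂ) : (β * vecMulVec v w).trace = w ⬝ᵥ (β *ᵥ v) := by
  rw [Matrix.mul_vecMulVec, Matrix.trace_vecMulVec, dotProduct_comm]

/-- a symmetric matrix with zero quadratic form -/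
theorem sym_zero {β : Matrix (Fin n) (Fin n) ℂ} (hβ : βᵀ = β) (h : ∀ v, v ⬝ᵥ (β *ᵥ v) = 0) : β = 0 := by
  have hb : ∀ v w, v ⬝ᵥ (β *ᵥ w) = w ⬝ᵥ (β *ᵥ v) := by
    intro v w
    rw [dotProduct_mulVec, ← mulVec_transpose, hβ, dotProduct_comm]
  have h2 : ∀ v w, v ⬝ᵥ (β *ᵥ w) = 0 := by
    intro v w
    have h3 := h (v + w)
    rw [mulVec_add, add_dotProduct, dotProduct_add, dotProduct_add, h v, h w, hb w v] at h3
    linear_combination h3 / 2
  ext i j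
  have h3 := h2 (Pi.single i 1) (Pi.single j 1)
  rw [single_one_dotProduct, mulVec_single_one] at h3
  exact h3

/-- the orthogonal complement of the subalgebra in the symmetric matrices -/
def PP (J : Matrix (Fin n) (Fin n) ℂ) (𝔨 : Submodule ℂ (Matrix (Fin n) (Fin n) ℂ)) :
    Submodule ℂ (Matrix (Fin n) (Fin n) ℂ) where
  carrier := {β | βᵀ = β ∧ ∀ k ∈ 𝔨, (β * (k * J)).trace = 0}
  zero_mem' := ⟨transpose_zero, fun k _ => by rw [Matrix.zero_mul, trace_zero]⟩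
  add_mem' := by
    rintro a b ⟨h1, h2⟩ ⟨h3, h4⟩
    exact ⟨by rw [transpose_add, h1, h3], fun k hk => by rw [Matrix.add_mul, trace_add, h2 k hk, h4 k hk, add_zero]⟩
  smul_mem' := by
    rintro t a ⟨h1, h2⟩
    exact ⟨by rw [transpose_smul, h1], fun k hk => by rw [Matrix.smul_mul, trace_smul, h2 k hk, smul_zero]⟩

/-- the elements of rank two -/
def RR (J : Matrix (Fin n) (Fin n) ℂ) (v w : Fin n → ℂ) : Matrix (Fin n) (Fin n) ℂ :=
  (vecMulVec v w + vecMulVec w v) * J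

variable {𝔨 : Submodule ℂ (Matrix (Fin n) (Fin n) ℂ)}

theorem finrank_PP (hJ : J * J = -1) {E : Submodule ℂ (Matrix (Fin n) (Fin n) ℂ)}
    (hsum : ∀ v, ∃ k ∈ 𝔨, ∃ e ∈ E, vecMulVec v v * J = k + e) : finrank ℂ (PP J 𝔨) ≤ finrank ℂ E := by
  let f : PP J 𝔨 →ₗ[ℂ] (Module.Dual ℂ E) :=
    LinearMap.mk₂ ℂ (fun (β : PP J 𝔨) (e : E) => ((β : Matrix (Fin n) (Fin n) ℂ) * ((e : Matrix (Fin n) (Fin n) ℂ) * J)).trace)
      (fun a b e => by
        change (((a : Matrix (Fin n) (Fin n) ℂ) + (b : Matrix (Fin n) (Fin n) ℂ)) * _).trace = _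
        rw [Matrix.add_mul, trace_add])
      (fun t a e => by
        change ((t • (a : Matrix (Fin n) (Fin n) ℂ)) * _).trace = _
        rw [Matrix.smul_mul, trace_smul])
      (fun a e e' => by
        change ((a : Matrix (Fin n) (Fin n) ℂ) * (((e : Matrix (Fin n) (Fin n) ℂ) + (e' : Matrix (Fin n) (Fin n) ℂ)) * J)).trace = _
        rw [Matrix.add_mul, Matrix.mul_add, trace_add])
      (fun t a e => by
        change ((a : Matrix (Fin n) (Fin n) ℂ) * ((t • (e : Matrix (Fin n) (Fin n) ℂ)) * J)).trace = _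
        rw [Matrix.smul_mul, Matrix.mul_smul, trace_smul])
  have hf : Function.Injective f := by
    rw [injective_iff_map_eq_zero]
    rintro ⟨β, hβ1, hβ2⟩ h
    have h1 : β = 0 := by
      refine sym_zero hβ1 fun v => ?_
      obtain ⟨k, hk, e, he, h2⟩ := hsum v
      have h3 : (β * (e * J)).trace = 0 := LinearMap.congr_fun h ⟨e, he⟩
      have h4 : (β * ((vecMulVec v v * J) * J)).trace = 0 := by
        rw [h2, Matrix.add_mul, Matrix.mul_add, trace_add, hβ2 k hk, h3, add_zero]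
      rw [Matrix.mul_assoc, hJ, Matrix.mul_neg, Matrix.mul_neg, trace_neg, Matrix.mul_one, trace_vmv, neg_eq_zero] at h4
      exact h4
    exact Subtype.ext h1
  exact (LinearMap.finrank_le_finrank_of_injective hf).trans (by rw [Subspace.dual_finrank_eq])

/-- every functional is a trace -/
theorem exists_trace (f : Matrix (Fin n) (Fin n) ℂ →ₗ[ℂ] ℂ) : ∃ γ : Matrix (Fin n) (Fin n) ℂ, ∀ X, f X = (γ * X).trace := by
  refine ⟨Matrix.of fun i j => f (Matrix.single j i 1), fun X => ?_⟩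
  conv_lhs => rw [Matrix.matrix_eq_sum_single X]
  rw [map_sum, Matrix.trace]
  simp only [Matrix.diag_apply, Matrix.mul_apply]
  rw [Finset.sum_comm]
  refine Finset.sum_congr rfl fun i _ => ?_
  rw [map_sum]
  refine Finset.sum_congr rfl fun j _ => ?_
  have h1 : Matrix.single i j (X i j) = X i j • Matrix.single i j (1 : ℂ) := by
    rw [Matrix.smul_single, smul_eq_mul, mul_one]
  rw [h1, map_smul, smul_eq_mul, mul_comm]
  rfl

theorem RR_mem (hJ : J * J = -1) (hk : ∀ x ∈ 𝔨, x * J + J * xᵀ = 0) (hJt : Jᵀ = -J) {v w : Fin n → ℂ}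
    (h : ∀ β ∈ PP J 𝔨, v ⬝ᵥ (β *ᵥ w) = 0) : RR J v w ∈ 𝔨 := by
  by_contra hcon
  obtain ⟨f, hf1, hf2⟩ := Submodule.exists_le_ker_of_notMem hcon
  obtain ⟨γ, hγ⟩ := exists_trace f
  have hsy : ∀ k ∈ 𝔨, (k * J)ᵀ = k * J := by
    intro k hk'
    have h1 := hk k hk'
    rw [transpose_mul, hJt, Matrix.neg_mul]
    exact (eq_neg_of_add_eq_zero_left h1).symm
  have hg : ∀ X, f X = ((-(J * γ)) * (X * J)).trace := by
    intro X
    rw [hγ, Matrix.neg_mul, trace_neg, Matrix.mul_assoc, Matrix.trace_mul_comm J]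
    rw [Matrix.mul_assoc, Matrix.mul_assoc X, hJ, Matrix.mul_neg, Matrix.mul_one, Matrix.mul_neg, trace_neg, neg_neg]
  set δ := -(J * γ) with hδ
  have hsk : ∀ b : Matrix (Fin n) (Fin n) ℂ, bᵀ = b → (δᵀ * b).trace = (δ * b).trace := by
    intro b hb
    rw [← Matrix.trace_transpose (δ * b), transpose_mul, hb, Matrix.trace_mul_comm]
  have hmem : δ + δᵀ ∈ PP J 𝔨 := by
    refine ⟨by rw [transpose_add, transpose_transpose, add_comm], fun k hk' => ?_⟩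
    rw [Matrix.add_mul, trace_add, hsk _ (hsy k hk'), ← hg]
    have h1 : f k = 0 := hf2 hk'
    rw [h1, add_zero]
  have h1 := h _ hmem
  apply hf1
  have h2 : (RR J v w) * J = -(vecMulVec v w + vecMulVec w v) := by
    unfold RR
    rw [Matrix.mul_assoc, hJ, Matrix.mul_neg, Matrix.mul_one]
  have hb : (vecMulVec v w + vecMulVec w v)ᵀ = vecMulVec v w + vecMulVec w v := by
    rw [transpose_add, transpose_vecMulVec, transpose_vecMulVec, add_comm]
  have h3 : ((δ + δᵀ) * (vecMulVec v w + vecMulVec w v)).trace = 0 := by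
    have h4 : w ⬝ᵥ ((δ + δᵀ) *ᵥ v) = v ⬝ᵥ ((δ + δᵀ) *ᵥ w) := by
      rw [dotProduct_mulVec, ← mulVec_transpose, hmem.1, dotProduct_comm]
    rw [Matrix.mul_add, trace_add, trace_vmv, trace_vmv, h4, h1, add_zero]
  rw [Matrix.add_mul, trace_add, hsk _ hb] at h3
  rw [hg, h2, Matrix.mul_neg, trace_neg, neg_eq_zero]
  linear_combination h3 / 2

theorem RR_orth {v w : Fin n → ℂ} (hJ : J * J = -1) (h : RR J v w ∈ 𝔨) {β : Matrix (Fin n) (Fin n) ℂ} (hβ : β ∈ PP J 𝔨) :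
    v ⬝ᵥ (β *ᵥ w) = 0 := by
  have h1 := hβ.2 _ h
  have h2 : (RR J v w) * J = -(vecMulVec v w + vecMulVec w v) := by
    unfold RR
    rw [Matrix.mul_assoc, hJ, Matrix.mul_neg, Matrix.mul_one]
  have h4 : w ⬝ᵥ (β *ᵥ v) = v ⬝ᵥ (β *ᵥ w) := by
    rw [dotProduct_mulVec, ← mulVec_transpose, hβ.1, dotProduct_comm]
  rw [h2, Matrix.mul_neg, trace_neg, neg_eq_zero, Matrix.mul_add, trace_add, trace_vmv, trace_vmv, h4] at h1
  linear_combination h1 / 2

/-- the orthogonal complement is stable -/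
theorem PP_act (hk : ∀ x ∈ 𝔨, x * J + J * xᵀ = 0) (hbr : ∀ x ∈ 𝔨, ∀ y ∈ 𝔨, x * y - y * x ∈ 𝔨)
    {x β : Matrix (Fin n) (Fin n) ℂ} (hx : x ∈ 𝔨) (hβ : β ∈ PP J 𝔨) : β * x + xᵀ * β ∈ PP J 𝔨 := by
  refine ⟨by rw [transpose_add, transpose_mul, transpose_mul, transpose_transpose, hβ.1, add_comm], fun k hk' => ?_⟩
  have h1 := hβ.2 _ (hbr x hx k hk')
  have h2 : J * xᵀ = -(x * J) := eq_neg_of_add_eq_zero_right (hk x hx)
  have h3 : (xᵀ * β * (k * J)).trace = -(β * (k * x * J)).trace := by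
    rw [Matrix.mul_assoc, Matrix.trace_mul_comm, Matrix.mul_assoc, Matrix.mul_assoc, h2, Matrix.mul_neg,
      Matrix.mul_neg, trace_neg]
    simp only [Matrix.mul_assoc]
  rw [Matrix.add_mul, trace_add, h3]
  rw [Matrix.sub_mul, Matrix.mul_sub, trace_sub] at h1
  have h4 : β * x * (k * J) = β * (x * k * J) := by simp only [Matrix.mul_assoc]
  rw [h4]
  linear_combination h1

/-- brackets of elements of rank two -/
theorem RR_br (hJt : Jᵀ = -J) (v v' w : Fin n → ℂ) : RR J v w * RR J v' w - RR J v' w * RR J v w =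
    (w ⬝ᵥ (J *ᵥ v')) • RR J v w + (v ⬝ᵥ (J *ᵥ w)) • RR J v' w + (v ⬝ᵥ (J *ᵥ v')) • RR J w w := by
  have h1 : ∀ a b : Fin n → ℂ, a ⬝ᵥ (J *ᵥ b) = -(b ⬝ᵥ (J *ᵥ a)) := by
    intro a b
    rw [dotProduct_mulVec, ← mulVec_transpose, hJt, neg_mulVec, neg_dotProduct, dotProduct_comm]
  have h2 : ∀ a : Fin n → ℂ, a ⬝ᵥ (J *ᵥ a) = 0 := by
    intro a
    have h3 := h1 a a
    linear_combination h3 / 2
  have h3 : ∀ a b c d : Fin n → ℂ, vecMulVec a b * (J * vecMulVec c d) = (b ⬝ᵥ (J *ᵥ c)) • vecMulVec a d := by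
    intro a b c d
    rw [Matrix.mul_vecMulVec, Matrix.vecMulVec_mul_vecMulVec, Matrix.vecMulVec_smul]
  have h4 : ∀ a b c d : Fin n → ℂ, RR J a b * RR J c d = ((b ⬝ᵥ (J *ᵥ c)) • vecMulVec a d +
      (b ⬝ᵥ (J *ᵥ d)) • vecMulVec a c + (a ⬝ᵥ (J *ᵥ c)) • vecMulVec b d + (a ⬝ᵥ (J *ᵥ d)) • vecMulVec b c) * J := by
    intro a b c d
    unfold RR
    rw [← Matrix.mul_assoc, Matrix.mul_assoc (vecMulVec a b + vecMulVec b a)]
    congr 1
    rw [Matrix.mul_add, Matrix.add_mul, Matrix.mul_add, Matrix.mul_add, h3, h3, h3, h3]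
    abel
  rw [h4, h4]
  unfold RR
  rw [h1 w v, h2 w, h1 v' v, h1 v' w]
  simp only [← Matrix.smul_mul, ← Matrix.add_mul, ← Matrix.sub_mul]
  congr 1
  simp only [zero_smul, smul_add, neg_smul, add_zero]
  abel

/-- the action on the orthogonal complement -/
def actL (hk : ∀ x ∈ 𝔨, x * J + J * xᵀ = 0) (hbr : ∀ x ∈ 𝔨, ∀ y ∈ 𝔨, x * y - y * x ∈ 𝔨)
    {x : Matrix (Fin n) (Fin n) ℂ} (hx : x ∈ 𝔨) : PP J 𝔨 →ₗ[ℂ] PP J 𝔨 where
  toFun β := ⟨(β : Matrix (Fin n) (Fin n) ℂ) * x + xᵀ * (β : Matrix (Fin n) (Fin n) ℂ), PP_act hk hbr hx β.2⟩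
  map_add' a b := Subtype.ext (by
    change ((a : Matrix (Fin n) (Fin n) ℂ) + (b : Matrix (Fin n) (Fin n) ℂ)) * x + xᵀ * ((a : Matrix (Fin n) (Fin n) ℂ) + (b : Matrix (Fin n) (Fin n) ℂ)) =
      ((a : Matrix (Fin n) (Fin n) ℂ) * x + xᵀ * (a : Matrix (Fin n) (Fin n) ℂ)) + ((b : Matrix (Fin n) (Fin n) ℂ) * x + xᵀ * (b : Matrix (Fin n) (Fin n) ℂ))
    rw [Matrix.add_mul, Matrix.mul_add]
    abel)
  map_smul' t a := Subtype.ext (by
    change (t • (a : Matrix (Fin n) (Fin n) ℂ)) * x + xᵀ * (t • (a : Matrix (Fin n) (Fin n) ℂ)) =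
      t • ((a : Matrix (Fin n) (Fin n) ℂ) * x + xᵀ * (a : Matrix (Fin n) (Fin n) ℂ))
    rw [Matrix.smul_mul, Matrix.mul_smul, smul_add])

theorem act_RR (hJt : Jᵀ = -J) {β : Matrix (Fin n) (Fin n) ℂ} (hβ : βᵀ = β) (v w φ : Fin n → ℂ) :
    (β * RR J v w + (RR J v w)ᵀ * β) *ᵥ φ = -(((J *ᵥ w) ⬝ᵥ φ) • (β *ᵥ v) + ((β *ᵥ v) ⬝ᵥ φ) • (J *ᵥ w) +
      ((J *ᵥ v) ⬝ᵥ φ) • (β *ᵥ w) + ((β *ᵥ w) ⬝ᵥ φ) • (J *ᵥ v)) := by
  have h1 : ∀ a : Fin n → ℂ, a ᵥ* J = -(J *ᵥ a) := by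
    intro a
    rw [← mulVec_transpose, hJt, neg_mulVec]
  have h2 : β * RR J v w = -(vecMulVec (β *ᵥ v) (J *ᵥ w) + vecMulVec (β *ᵥ w) (J *ᵥ v)) := by
    unfold RR
    rw [Matrix.add_mul, Matrix.vecMulVec_mul, Matrix.vecMulVec_mul, Matrix.mul_add, Matrix.mul_vecMulVec,
      Matrix.mul_vecMulVec, h1, h1]
    simp only [Matrix.vecMulVec_neg]
    abel
  have h3 : (RR J v w)ᵀ * β = -(vecMulVec (J *ᵥ w) (β *ᵥ v) + vecMulVec (J *ᵥ v) (β *ᵥ w)) := by
    have h4 : (RR J v w)ᵀ * β = (β * RR J v w)ᵀ := by rw [transpose_mul, hβ]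
    rw [h4, h2, transpose_neg, transpose_add, transpose_vecMulVec, transpose_vecMulVec]
  rw [h2, h3, add_mulVec, neg_mulVec, neg_mulVec, add_mulVec, add_mulVec]
  have h5 : ∀ a b : Fin n → ℂ, vecMulVec a b *ᵥ φ = (b ⬝ᵥ φ) • a := by
    intro a b
    rw [Matrix.vecMulVec_mulVec, op_smul_eq_smul]
  rw [h5, h5, h5, h5]
  abel

theorem J_inj (hJ : J * J = -1) {a b : Fin n → ℂ} (h : J *ᵥ a = J *ᵥ b) : a = b := by
  have h1 := congrArg (fun v => J *ᵥ v) h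
  simp only [mulVec_mulVec, hJ, neg_mulVec, one_mulVec, neg_inj] at h1
  exact h1

/-- dual vectors -/
theorem exists_dual {k : ℕ} {u : Fin k → (Fin n → ℂ)} (hu : LinearIndependent ℂ u) :
    ∃ φ : Fin k → (Fin n → ℂ), ∀ i j, (u i) ⬝ᵥ (φ j) = if i = j then 1 else 0 := by
  have h1 : LinearMap.ker (Fintype.linearCombination ℂ u) = ⊥ := by
    rw [LinearMap.ker_eq_bot]
    exact (linearIndependent_iff_injective_fintypeLinearCombination).1 hu
  obtain ⟨g, hg⟩ := LinearMap.exists_leftInverse_of_injective _ h1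
  refine ⟨fun j i => g (Pi.single i 1) j, fun i j => ?_⟩
  have h2 := LinearMap.congr_fun hg (Pi.single i 1)
  rw [LinearMap.comp_apply, Fintype.linearCombination_apply_single, one_smul, LinearMap.id_apply] at h2
  have h3 : g (u i) j = ∑ l, u i l * g (Pi.single l 1) j := by
    conv_lhs => rw [LinearMap.pi_apply_eq_sum_univ g (u i)]
    rw [Finset.sum_apply]
    refine Finset.sum_congr rfl fun l _ => ?_
    rw [Pi.smul_apply, smul_eq_mul]
    have h4 : (fun j => if l = j then (1 : ℂ) else 0) = Pi.single l 1 := by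
      funext x
      rw [Pi.single_apply]
      simp only [eq_comm]
    rw [h4]
  change ∑ l, u i l * g (Pi.single l 1) j = _
  rw [← h3, h2, Pi.single_apply]
  simp only [eq_comm]

/-- the standard bilinear form -/
noncomputable def BB (n : ℕ) : LinearMap.BilinForm ℂ (Fin n → ℂ) := Matrix.toBilin' (1 : Matrix (Fin n) (Fin n) ℂ)

theorem BB_apply (v w : Fin n → ℂ) : BB n v w = v ⬝ᵥ w := by
  unfold BB
  rw [Matrix.toBilin'_apply', one_mulVec]

theorem finrank_perp (W : Submodule ℂ (Fin n → ℂ)) : finrank ℂ ((BB n).orthogonal W) = n - finrank ℂ W := by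
  have h1 : (BB n).Nondegenerate := LinearMap.BilinForm.nondegenerate_toBilin'_of_det_ne_zero' _ (by
    rw [det_one]
    exact one_ne_zero)
  rw [LinearMap.BilinForm.finrank_orthogonal h1, Module.finrank_fin_fun]

/-- **Subalgebras of the symplectic Lie algebra of codimension at most `m + 1`.** -/
theorem lie_lemma {m : ℕ} (hm : 4 ≤ m) {J : Matrix (Fin (2 * m)) (Fin (2 * m)) ℂ} (hJ : J * J = -1) (hJt : Jᵀ = -J)
    {𝔨 : Submodule ℂ (Matrix (Fin (2 * m)) (Fin (2 * m)) ℂ)}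
    (hk : ∀ x ∈ 𝔨, x * J + J * xᵀ = 0) (hbr : ∀ x ∈ 𝔨, ∀ y ∈ 𝔨, x * y - y * x ∈ 𝔨)
    {E : Submodule ℂ (Matrix (Fin (2 * m)) (Fin (2 * m)) ℂ)} (hE : finrank ℂ E ≤ m + 1)
    (hsum : ∀ v, ∃ k ∈ 𝔨, ∃ e ∈ E, vecMulVec v v * J = k + e) (w : Fin (2 * m) → ℂ) : vecMulVec w w * J ∈ 𝔨 := by
  classical
  by_contra hcon
  have hww : RR J w w ∉ 𝔨 := by
    intro h
    apply hcon
    have h1 : vecMulVec w w * J = (2⁻¹ : ℂ) • RR J w w := by
      unfold RR
      rw [← two_smul ℂ (vecMulVec w w), Matrix.smul_mul, smul_smul, inv_mul_cancel₀ two_ne_zero, one_smul]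
    rw [h1]
    exact 𝔨.smul_mem _ h
  let ev : PP J 𝔨 →ₗ[ℂ] (Fin (2 * m) → ℂ) :=
    { toFun := fun β => (β : Matrix (Fin (2 * m)) (Fin (2 * m)) ℂ) *ᵥ w
      map_add' := fun a b => by
        change ((a : Matrix (Fin (2 * m)) (Fin (2 * m)) ℂ) + (b : Matrix (Fin (2 * m)) (Fin (2 * m)) ℂ)) *ᵥ w = _
        rw [add_mulVec]
      map_smul' := fun t a => by
        change (t • (a : Matrix (Fin (2 * m)) (Fin (2 * m)) ℂ)) *ᵥ w = _
        rw [smul_mulVec]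
        rfl }
  let C := LinearMap.range ev
  let I := (BB (2 * m)).orthogonal C
  have hmemI : ∀ v, v ∈ I ↔ RR J v w ∈ 𝔨 := by
    intro v
    constructor
    · intro hv
      refine RR_mem hJ hk hJt fun β hβ => ?_
      have h1 := hv (ev ⟨β, hβ⟩) ⟨_, rfl⟩
      rw [BB_apply] at h1
      rw [dotProduct_comm]
      exact h1
    · rintro h _ ⟨β, rfl⟩
      rw [BB_apply, dotProduct_comm]
      exact RR_orth hJ h β.2
  have hiso : ∀ v ∈ I, ∀ v' ∈ I, v ⬝ᵥ (J *ᵥ v') = 0 := by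
    intro v hv v' hv'
    by_contra hne
    apply hww
    have h1 := (hmemI v).1 hv
    have h2 := (hmemI v').1 hv'
    have h3 := hbr _ h1 _ h2
    rw [RR_br hJt] at h3
    have h4 : (v ⬝ᵥ (J *ᵥ v')) • RR J w w ∈ 𝔨 := by
      have h5 := 𝔨.sub_mem h3 (𝔨.add_mem (𝔨.smul_mem (w ⬝ᵥ (J *ᵥ v')) h1) (𝔨.smul_mem (v ⬝ᵥ (J *ᵥ w)) h2))
      rwa [add_sub_cancel_left] at h5
    have h5 := 𝔨.smul_mem (v ⬝ᵥ (J *ᵥ v'))⁻¹ h4
    rwa [smul_smul, inv_mul_cancel₀ hne, one_smul] at h5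
  have hfI : finrank ℂ I = 2 * m - finrank ℂ C := finrank_perp C
  have hI2 : finrank ℂ I ≤ 2 * m - finrank ℂ I := by
    rw [← finrank_perp I]
    let f : I →ₗ[ℂ] (BB (2 * m)).orthogonal I := LinearMap.codRestrict _ ((Matrix.mulVecLin J).comp I.subtype) (by
      rintro ⟨v', hv'⟩ v hv
      change BB (2 * m) v (J *ᵥ v') = 0
      rw [BB_apply]
      exact hiso v hv v' hv')
    refine LinearMap.finrank_le_finrank_of_injective (f := f) fun a b hab => ?_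
    have h1 : J *ᵥ (a : Fin (2 * m) → ℂ) = J *ᵥ (b : Fin (2 * m) → ℂ) := congrArg Subtype.val hab
    exact Subtype.ext (J_inj hJ h1)
  have hC1 : finrank ℂ C ≤ m + 1 :=
    (LinearMap.finrank_range_le ev).trans ((finrank_PP hJ hsum).trans hE)
  have hI3 : 3 ≤ finrank ℂ I := by omega
  have hCm : m ≤ finrank ℂ C := by omega
  -- three independent vectors
  have hw : w ∉ I := fun h => hww ((hmemI w).1 h)
  obtain ⟨v, hv1, hv2⟩ : ∃ v : Fin 3 → (Fin (2 * m) → ℂ), (∀ i, v i ∈ I) ∧ LinearIndependent ℂ v := by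
    let b := Module.finBasis ℂ I
    refine ⟨fun i => (b (Fin.castLE hI3 i) : Fin (2 * m) → ℂ), fun i => (b _).2, ?_⟩
    have h1 : LinearIndependent ℂ (fun i : Fin 3 => b (Fin.castLE hI3 i)) :=
      b.linearIndependent.comp _ (Fin.castLE_injective hI3)
    exact h1.map' I.subtype (Submodule.ker_subtype I)
  have hu : LinearIndependent ℂ (Fin.cons w v : Fin 4 → (Fin (2 * m) → ℂ)) := by
    rw [linearIndependent_finCons]
    refine ⟨hv2, fun h => hw ?_⟩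
    exact (Submodule.span_le.2 (by rintro _ ⟨i, rfl⟩; exact hv1 i)) h
  have hJu : LinearIndependent ℂ (fun i => J *ᵥ (Fin.cons w v : Fin 4 → (Fin (2 * m) → ℂ)) i) := by
    refine hu.map' (Matrix.mulVecLin J) ?_
    rw [LinearMap.ker_eq_bot]
    exact fun a b hab => J_inj hJ hab
  obtain ⟨φ, hφ⟩ := exists_dual hJu
  have hw0 : (J *ᵥ w) ⬝ᵥ φ 0 = 1 := hφ 0 0
  have hw1 : ∀ k : Fin 3, (J *ᵥ w) ⬝ᵥ φ k.succ = 0 := fun k => by
    have h1 := hφ 0 k.succ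
    rwa [if_neg (Fin.succ_ne_zero k).symm] at h1
  have hv0 : ∀ k : Fin 3, (J *ᵥ v k) ⬝ᵥ φ 0 = 0 := fun k => by
    have h1 := hφ k.succ 0
    rwa [if_neg (Fin.succ_ne_zero k)] at h1
  have hvv : ∀ k l : Fin 3, (J *ᵥ v k) ⬝ᵥ φ l.succ = if k = l then 1 else 0 := fun k l => by
    have h1 := hφ k.succ l.succ
    simp only [Fin.succ_inj] at h1
    exact h1
  obtain ⟨s, hs⟩ := LinearMap.exists_rightInverse_of_surjective ev.rangeRestrict (LinearMap.range_rangeRestrict ev)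
  have hsw : ∀ y : C, ((s y : PP J 𝔨) : Matrix (Fin (2 * m)) (Fin (2 * m)) ℂ) *ᵥ w = y := fun y =>
    congrArg Subtype.val (LinearMap.congr_fun hs y)
  let Ψ : (Fin 3 → C) →ₗ[ℂ] PP J 𝔨 := ∑ i, ((actL hk hbr ((hmemI (v i)).1 (hv1 i))).comp s).comp (LinearMap.proj i)
  let dl : (Fin (2 * m) → ℂ) → (C →ₗ[ℂ] ℂ) := fun φ => ((BB (2 * m)) φ).comp C.subtype
  have hdl : ∀ φ (y : C), dl φ y = (y : Fin (2 * m) → ℂ) ⬝ᵥ φ := fun φ y => by
    change BB (2 * m) φ y = _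
    rw [BB_apply, dotProduct_comm]
  let Θ : (Fin 3 → C) →ₗ[ℂ] (PP J 𝔨 × (Fin 6 → ℂ)) := Ψ.prod (LinearMap.pi ![
    (dl (φ 1)).comp (LinearMap.proj 1), (dl (φ 1)).comp (LinearMap.proj 2), (dl (φ 2)).comp (LinearMap.proj 2),
    (dl (φ 0)).comp (LinearMap.proj 0), (dl (φ 0)).comp (LinearMap.proj 1), (dl (φ 0)).comp (LinearMap.proj 2)])
  have hΘ : Function.Injective Θ := by
    rw [injective_iff_map_eq_zero]
    intro y hy
    have hΨ : Ψ y = 0 := congrArg Prod.fst hy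
    have hsix : ∀ i : Fin 6, (Θ y).2 i = 0 := fun i => by
      rw [hy]
      rfl
    have s0 : (y 1 : Fin (2 * m) → ℂ) ⬝ᵥ φ 1 = 0 := (hdl _ _).symm.trans (hsix 0)
    have s1 : (y 2 : Fin (2 * m) → ℂ) ⬝ᵥ φ 1 = 0 := (hdl _ _).symm.trans (hsix 1)
    have s2 : (y 2 : Fin (2 * m) → ℂ) ⬝ᵥ φ 2 = 0 := (hdl _ _).symm.trans (hsix 2)
    have s3 : (y 0 : Fin (2 * m) → ℂ) ⬝ᵥ φ 0 = 0 := (hdl _ _).symm.trans (hsix 3)
    have s4 : (y 1 : Fin (2 * m) → ℂ) ⬝ᵥ φ 0 = 0 := (hdl _ _).symm.trans (hsix 4)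
    have s5 : (y 2 : Fin (2 * m) → ℂ) ⬝ᵥ φ 0 = 0 := (hdl _ _).symm.trans (hsix 5)
    let β : Fin 3 → Matrix (Fin (2 * m)) (Fin (2 * m)) ℂ := fun i => (s (y i) : PP J 𝔨)
    have hΨ' : ∑ i, (β i * RR J (v i) w + (RR J (v i) w)ᵀ * β i) = 0 := by
      have h1 := congrArg Subtype.val hΨ
      simp only [Ψ, LinearMap.sum_apply, LinearMap.comp_apply, LinearMap.proj_apply] at h1
      have h2 : ∀ g : Fin 3 → PP J 𝔨, ((∑ i, g i : PP J 𝔨) : Matrix (Fin (2 * m)) (Fin (2 * m)) ℂ) =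
        ∑ i, (g i : Matrix (Fin (2 * m)) (Fin (2 * m)) ℂ) := fun g => map_sum (PP J 𝔨).subtype g Finset.univ
      rw [h2] at h1
      exact h1
    let a : Fin (2 * m) → ℂ := ∑ i, (β i) *ᵥ (v i)
    have hrel : ∀ k : Fin 3, (y k : Fin (2 * m) → ℂ) = -((a ⬝ᵥ φ k.succ) • (J *ᵥ w) +
        ∑ i, ((y i : Fin (2 * m) → ℂ) ⬝ᵥ φ k.succ) • (J *ᵥ v i)) := by
      intro k
      have h1 : (∑ i, (β i * RR J (v i) w + (RR J (v i) w)ᵀ * β i)) *ᵥ φ k.succ = 0 *ᵥ φ k.succ := by rw [hΨ']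
      have h2 : ∀ (g : Fin 3 → Matrix (Fin (2 * m)) (Fin (2 * m)) ℂ), (∑ i, g i) *ᵥ φ k.succ = ∑ i, (g i *ᵥ φ k.succ) :=
        fun g => Matrix.sum_mulVec _ _ _
      rw [h2, zero_mulVec] at h1
      have h3 : ∀ i, (β i * RR J (v i) w + (RR J (v i) w)ᵀ * β i) *ᵥ φ k.succ =
          -(((β i *ᵥ v i) ⬝ᵥ φ k.succ) • (J *ᵥ w) + (if i = k then (1 : ℂ) else 0) • (y i : Fin (2 * m) → ℂ) +
            ((y i : Fin (2 * m) → ℂ) ⬝ᵥ φ k.succ) • (J *ᵥ v i)) := by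
        intro i
        have h4 : β i *ᵥ w = (y i : Fin (2 * m) → ℂ) := hsw (y i)
        rw [act_RR hJt (s (y i)).2.1, hw1 k, zero_smul, zero_add, hvv i k, h4]
      rw [Finset.sum_congr rfl fun i _ => h3 i, Finset.sum_neg_distrib, neg_eq_zero, Finset.sum_add_distrib,
        Finset.sum_add_distrib, ← Finset.sum_smul, ← sum_dotProduct] at h1
      have h5 : ∑ i, (if i = k then (1 : ℂ) else 0) • (y i : Fin (2 * m) → ℂ) = y k := by
        rw [Finset.sum_eq_single k]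
        · rw [if_pos rfl, one_smul]
        · intro i _ hi
          rw [if_neg hi, zero_smul]
        · intro h
          exact absurd (Finset.mem_univ k) h
      rw [h5] at h1
      have h6 : (y k : Fin (2 * m) → ℂ) = -((a ⬝ᵥ φ k.succ) • (J *ᵥ w) +
        ∑ i, ((y i : Fin (2 * m) → ℂ) ⬝ᵥ φ k.succ) • (J *ᵥ v i)) := by
        rw [eq_neg_iff_add_eq_zero, ← h1]
        abel
      exact h6
    have hanti : ∀ k l : Fin 3, (y k : Fin (2 * m) → ℂ) ⬝ᵥ φ l.succ = -((y l : Fin (2 * m) → ℂ) ⬝ᵥ φ k.succ) := by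
      intro k l
      have h1 := congrArg (fun z => z ⬝ᵥ φ l.succ) (hrel k)
      change (y k : Fin (2 * m) → ℂ) ⬝ᵥ φ l.succ = _ ⬝ᵥ φ l.succ at h1
      rw [neg_dotProduct, add_dotProduct, smul_dotProduct, hw1 l, smul_zero, zero_add, sum_dotProduct] at h1
      rw [h1]
      congr 1
      rw [Finset.sum_eq_single l]
      · rw [smul_dotProduct, hvv, if_pos rfl, smul_eq_mul, mul_one]
      · intro i _ hi
        rw [smul_dotProduct, hvv, if_neg hi, smul_zero]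
      · intro h
        exact absurd (Finset.mem_univ l) h
    have hdiag : ∀ k : Fin 3, (y k : Fin (2 * m) → ℂ) ⬝ᵥ φ k.succ = 0 := by
      intro k
      have h1 := hanti k k
      linear_combination h1 / 2
    have hall : ∀ k l : Fin 3, (y k : Fin (2 * m) → ℂ) ⬝ᵥ φ l.succ = 0 := by
      intro k l
      fin_cases k <;> fin_cases l
      · exact hdiag 0
      · rw [hanti]; exact neg_eq_zero.2 s0
      · rw [hanti]; exact neg_eq_zero.2 s1
      · exact s0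
      · exact hdiag 1
      · rw [hanti]; exact neg_eq_zero.2 s2
      · exact s1
      · exact s2
      · exact hdiag 2
    have h0 : ∀ k : Fin 3, (y k : Fin (2 * m) → ℂ) ⬝ᵥ φ 0 = 0 := by
      intro k
      fin_cases k
      · exact s3
      · exact s4
      · exact s5
    have hrel' : ∀ k : Fin 3, (y k : Fin (2 * m) → ℂ) = -((a ⬝ᵥ φ k.succ) • (J *ᵥ w)) := by
      intro k
      rw [hrel k]
      simp only [hall, zero_smul, Finset.sum_const_zero, add_zero]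
    have ha : ∀ k : Fin 3, a ⬝ᵥ φ k.succ = 0 := by
      intro k
      have h1 := h0 k
      rw [hrel' k, neg_dotProduct, smul_dotProduct, hw0, smul_eq_mul, mul_one, neg_eq_zero] at h1
      exact h1
    funext k
    refine Subtype.ext ?_
    rw [hrel' k, ha k, zero_smul, neg_zero]
    rfl
  have h1 := LinearMap.finrank_le_finrank_of_injective hΘ
  rw [Module.finrank_pi_fintype, Module.finrank_prod, Module.finrank_fin_fun, Finset.sum_const, Finset.card_univ,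
    Fintype.card_fin, smul_eq_mul] at h1
  have h2 : finrank ℂ (PP J 𝔨) ≤ m + 1 := (finrank_PP hJ hsum).trans hE
  omega

end Pool.Agent.W2helper4.TS
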