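import Pool.Agent.W2helper4.TS.Lie3

/-!
# Subalgebras of small codimension which are not symplectic
-/

set_option autoImplicit false
set_option linter.unusedSectionVars false
set_option maxHeartbeats 1000000

open Matrix Module

namespace Pool.Agent.W2helper4.TS

variable {n : ℕ} {J : Matrix (Fin n) (Fin n) ℂ} {𝔨 : Submodule ℂ (Matrix (Fin n) (Fin n) ℂ)}

/-- elements of the kernel of the evaluation -/
theorem delta_exists (hJ : J * J = -1) (hJt : Jᵀ = -J) (hk : ∀ x ∈ 𝔨, x * J + J * xᵀ = 0)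
    (hbr : ∀ x ∈ 𝔨, ∀ y ∈ 𝔨, x * y - y * x ∈ 𝔨) {w : Fin n → ℂ} (hww : RR J w w ∉ 𝔨) :
    ∃ (k : ℕ) (δ : Fin k → Matrix (Fin n) (Fin n) ℂ) (φ : Fin k → (Fin n → ℂ)) (c : ℂ), finrank ℂ (I0 J 𝔨 w) = k ∧ c ≠ 0 ∧
      (∀ i, δ i ∈ PP J 𝔨) ∧ (∀ i, δ i *ᵥ w = 0) ∧ (∀ j, (J *ᵥ w) ⬝ᵥ φ j = 0) ∧
      ∀ i j, (δ i *ᵥ φ j) ⬝ᵥ φ j = if i = j then c else 0 := by
  classical
  obtain ⟨β, hβ, hb⟩ : ∃ β ∈ PP J 𝔨, (β *ᵥ w) ⬝ᵥ w ≠ 0 := by
    by_contra hcon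
    push Not at hcon
    exact hww (RR_mem hJ hk hJt fun β hβ => by
      rw [dotProduct_comm]
      exact hcon β hβ)
  set b := (β *ᵥ w) ⬝ᵥ w with hbdef
  obtain ⟨k, hk0, v, hvI, hv0, hli⟩ : ∃ k, finrank ℂ (I0 J 𝔨 w) = k ∧ ∃ v : Fin k → (Fin n → ℂ),
      (∀ i, v i ∈ Iw J 𝔨 w) ∧ (∀ i, (J *ᵥ v i) ⬝ᵥ w = 0) ∧ LinearIndependent ℂ v := by
    let bs := Module.finBasis ℂ (I0 J 𝔨 w)
    refine ⟨_, rfl, fun i => (bs i : Fin n → ℂ), fun i => (bs i).2.1, fun i => ?_,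
      bs.linearIndependent.map' (I0 J 𝔨 w).subtype (Submodule.ker_subtype _)⟩
    have h1 : psi J w (bs i : Fin n → ℂ) = 0 := (bs i).2.2
    rwa [psi_apply] at h1
  have hw : w ∉ Iw J 𝔨 w := fun h => hww ((mem_Iw hJ hk hJt).1 h)
  have hu : LinearIndependent ℂ (Fin.cons w v : Fin (k + 1) → (Fin n → ℂ)) := by
    rw [linearIndependent_finCons]
    exact ⟨hli, fun h => hw ((Submodule.span_le.2 (by rintro _ ⟨i, rfl⟩; exact hvI i)) h)⟩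
  have hJu : LinearIndependent ℂ (fun i => J *ᵥ (Fin.cons w v : Fin (k + 1) → (Fin n → ℂ)) i) := by
    refine hu.map' (Matrix.mulVecLin J) ?_
    rw [LinearMap.ker_eq_bot]
    exact fun a b hab => J_inj hJ hab
  obtain ⟨φ, hφ⟩ := exists_dual hJu
  have hw1 : ∀ j : Fin k, (J *ᵥ w) ⬝ᵥ φ j.succ = 0 := fun j => by
    have h1 := hφ 0 j.succ
    rwa [if_neg (Fin.succ_ne_zero j).symm] at h1
  have hvv : ∀ i j : Fin k, (J *ᵥ v i) ⬝ᵥ φ j.succ = if i = j then 1 else 0 := fun i j => by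
    have h1 := hφ i.succ j.succ
    simp only [Fin.succ_inj] at h1
    exact h1
  have hR : ∀ i, RR J (v i) w ∈ 𝔨 := fun i => (mem_Iw hJ hk hJt).1 (hvI i)
  let γ : Fin k → Matrix (Fin n) (Fin n) ℂ := fun i => β * RR J (v i) w + (RR J (v i) w)ᵀ * β
  have hγ : ∀ i, γ i ∈ PP J 𝔨 := fun i => PP_act hk hbr (hR i) hβ
  let δ : Fin k → Matrix (Fin n) (Fin n) ℂ := fun i => γ i * RR J (v i) w + (RR J (v i) w)ᵀ * γ i
  have hδ : ∀ i, δ i ∈ PP J 𝔨 := fun i => PP_act hk hbr (hR i) (hγ i)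
  have hγw : ∀ i, γ i *ᵥ w = -(b • (J *ᵥ v i)) := by
    intro i
    have h1 : (β *ᵥ v i) ⬝ᵥ w = 0 := by
      rw [sym_dot hβ.1]
      exact Iw_dot (hvI i) hβ
    rw [act_RR hJt hβ.1, J_self hJt, h1, hv0 i]
    simp only [zero_smul, zero_add]
    rw [← hbdef]
  have hγv : ∀ i, γ i *ᵥ v i = -(((β *ᵥ v i) ⬝ᵥ v i) • (J *ᵥ w)) := by
    intro i
    have h1 : (J *ᵥ w) ⬝ᵥ v i = 0 := by
      rw [J_dot hJt, hv0 i, neg_zero]
    rw [act_RR hJt hβ.1, h1, J_self hJt, Iw_dot (hvI i) hβ]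
    simp only [zero_smul, zero_add, add_zero]
  have hδu : ∀ i (u : Fin n → ℂ), δ i *ᵥ u = (2 * ((β *ᵥ v i) ⬝ᵥ v i) * ((J *ᵥ w) ⬝ᵥ u)) • (J *ᵥ w) +
      (2 * b * ((J *ᵥ v i) ⬝ᵥ u)) • (J *ᵥ v i) := by
    intro i u
    rw [act_RR hJt (hγ i).1, hγw, hγv, neg_dotProduct, neg_dotProduct, smul_dotProduct, smul_dotProduct, smul_eq_mul,
      smul_eq_mul]
    module
  have hδw : ∀ i, δ i *ᵥ w = 0 := by
    intro i
    rw [hδu, J_self hJt, hv0 i, mul_zero, mul_zero, zero_smul, zero_smul, add_zero]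
  refine ⟨k, δ, fun j => φ j.succ, 2 * b, hk0, mul_ne_zero two_ne_zero hb, hδ, hδw, hw1, fun i j => ?_⟩
  rw [hδu, add_dotProduct, smul_dotProduct, smul_dotProduct, hw1 j, hvv i j, smul_zero, zero_add, smul_eq_mul]
  by_cases hij : i = j
  · rw [if_pos hij, if_pos hij, mul_one, mul_one]
  · rw [if_neg hij, if_neg hij, mul_zero]

/-- the kernel of the evaluation -/
theorem I0_le_ker (hJ : J * J = -1) (hJt : Jᵀ = -J) (hk : ∀ x ∈ 𝔨, x * J + J * xᵀ = 0)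
    (hbr : ∀ x ∈ 𝔨, ∀ y ∈ 𝔨, x * y - y * x ∈ 𝔨) {w : Fin n → ℂ} (hww : RR J w w ∉ 𝔨) :
    finrank ℂ (I0 J 𝔨 w) ≤ finrank ℂ (LinearMap.ker (evw J 𝔨 w)) ∧
    ∀ ε ∈ PP J 𝔨, ε *ᵥ w = 0 → ε ≠ 0 → (∀ φ, (J *ᵥ w) ⬝ᵥ φ = 0 → (ε *ᵥ φ) ⬝ᵥ φ = 0) →
      finrank ℂ (I0 J 𝔨 w) + 1 ≤ finrank ℂ (LinearMap.ker (evw J 𝔨 w)) := by
  classical
  obtain ⟨k, δ, φ, c, hk0, hc, hδ, hδw, hφ, hδφ⟩ := delta_exists hJ hJt hk hbr hww
  rw [hk0]
  have main : ∀ ε ∈ PP J 𝔨, ε *ᵥ w = 0 → (∀ φ, (J *ᵥ w) ⬝ᵥ φ = 0 → (ε *ᵥ φ) ⬝ᵥ φ = 0) → ∀ (g : Fin k → ℂ) (t : ℂ),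
      ∑ i, g i • δ i + t • ε = 0 → g = 0 := by
    intro ε hε hεw hε1 g t h0
    funext j
    have h1 : ((∑ i, g i • δ i + t • ε) *ᵥ φ j) ⬝ᵥ φ j = 0 := by rw [h0, zero_mulVec, zero_dotProduct]
    rw [add_mulVec, Matrix.sum_mulVec, add_dotProduct, sum_dotProduct, smul_mulVec, smul_dotProduct, hε1 _ (hφ j),
      smul_zero, add_zero] at h1
    have h2 : ∀ i, ((g i • δ i) *ᵥ φ j) ⬝ᵥ φ j = if i = j then g j * c else 0 := by
      intro i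
      rw [smul_mulVec, smul_dotProduct, hδφ, smul_eq_mul]
      by_cases hij : i = j
      · rw [if_pos hij, if_pos hij, hij]
      · rw [if_neg hij, if_neg hij, mul_zero]
    rw [Finset.sum_congr rfl fun i _ => h2 i, Finset.sum_ite_eq' Finset.univ j, if_pos (Finset.mem_univ j)] at h1
    exact (mul_eq_zero.1 h1).resolve_right hc
  let Δ : Fin k → LinearMap.ker (evw J 𝔨 w) := fun i => ⟨⟨δ i, hδ i⟩, hδw i⟩
  have hsum : ∀ f : Fin k → LinearMap.ker (evw J 𝔨 w), (((∑ i, f i : LinearMap.ker (evw J 𝔨 w)) : PP J 𝔨) :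
      Matrix (Fin n) (Fin n) ℂ) = ∑ i, ((f i : PP J 𝔨) : Matrix (Fin n) (Fin n) ℂ) := fun f =>
    map_sum ((PP J 𝔨).subtype.comp (LinearMap.ker (evw J 𝔨 w)).subtype) f Finset.univ
  refine ⟨?_, fun ε hε hεw hε0 hε1 => ?_⟩
  · have hΔ : Function.Injective (Fintype.linearCombination ℂ Δ) := by
      rw [injective_iff_map_eq_zero]
      intro g hg
      rw [Fintype.linearCombination_apply] at hg
      refine main 0 (Submodule.zero_mem _) (zero_mulVec _) (fun φ _ => by rw [zero_mulVec, zero_dotProduct]) g 0 ?_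
      have h2 := congrArg (fun x : LinearMap.ker (evw J 𝔨 w) => ((x : PP J 𝔨) : Matrix (Fin n) (Fin n) ℂ)) hg
      simp only [hsum] at h2
      rw [smul_zero, add_zero]
      exact h2
    have h2 := LinearMap.finrank_le_finrank_of_injective hΔ
    rwa [Module.finrank_fin_fun] at h2
  · let ε' : LinearMap.ker (evw J 𝔨 w) := ⟨⟨ε, hε⟩, hεw⟩
    let f : ((Fin k → ℂ) × ℂ) →ₗ[ℂ] LinearMap.ker (evw J 𝔨 w) :=
      (Fintype.linearCombination ℂ Δ).coprod (LinearMap.toSpanSingleton ℂ _ ε')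
    have hf : Function.Injective f := by
      rw [injective_iff_map_eq_zero]
      rintro ⟨g, t⟩ hgt
      have h1 : ∑ i, g i • Δ i + t • ε' = 0 := by
        have h2 : f (g, t) = ∑ i, g i • Δ i + t • ε' := by
          simp only [f, LinearMap.coprod_apply, Fintype.linearCombination_apply, LinearMap.toSpanSingleton_apply]
        rw [← h2, hgt]
      have h2 : ∑ i, g i • δ i + t • ε = 0 := by
        have h3 := congrArg (fun x : LinearMap.ker (evw J 𝔨 w) => ((x : PP J 𝔨) : Matrix (Fin n) (Fin n) ℂ)) h1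
        have h4 : (((∑ i, g i • Δ i + t • ε' : LinearMap.ker (evw J 𝔨 w)) : PP J 𝔨) : Matrix (Fin n) (Fin n) ℂ) =
            (((∑ i, g i • Δ i : LinearMap.ker (evw J 𝔨 w)) : PP J 𝔨) : Matrix (Fin n) (Fin n) ℂ) + t • ε := rfl
        simp only [h4, hsum] at h3
        exact h3
      have h3 := main ε hε hεw hε1 g t h2
      subst h3
      have h4 : t = 0 := by
        simp only [Pi.zero_apply, zero_smul, Finset.sum_const_zero, zero_add] at h2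
        exact (smul_eq_zero.1 h2).resolve_right hε0
      rw [h4]
      rfl
    have h2 := LinearMap.finrank_le_finrank_of_injective hf
    rwa [Module.finrank_prod, Module.finrank_fin_fun, Module.finrank_self] at h2

/-- **The radical.** If the codimension is smaller than `n` then there is a vector which is killed by all forms in the
orthogonal complement. -/
theorem exists_rad (hJ : J * J = -1) (hJt : Jᵀ = -J) (hk : ∀ x ∈ 𝔨, x * J + J * xᵀ = 0)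
    (hbr : ∀ x ∈ 𝔨, ∀ y ∈ 𝔨, x * y - y * x ∈ 𝔨) {w : Fin n → ℂ} (hww : RR J w w ∉ 𝔨)
    (hp : finrank ℂ (PP J 𝔨) < n) : ∃ v : Fin n → ℂ, v ≠ 0 ∧ ∀ β ∈ PP J 𝔨, β *ᵥ v = 0 := by
  classical
  obtain ⟨hle, hle'⟩ := I0_le_ker hJ hJt hk hbr hww
  have hrk := LinearMap.finrank_range_add_finrank_ker (evw J 𝔨 w)
  have hI := finrank_Iw (J := J) (𝔨 := 𝔨) w
  have hge := I0_ge (J := J) (𝔨 := 𝔨) w
  obtain ⟨v, hvI, hvw⟩ : ∃ v ∈ Iw J 𝔨 w, (J *ᵥ v) ⬝ᵥ w = 1 := by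
    by_contra hcon
    push Not at hcon
    have h1 : ∀ v ∈ Iw J 𝔨 w, (J *ᵥ v) ⬝ᵥ w = 0 := by
      intro v hv
      by_contra h0
      apply hcon (((J *ᵥ v) ⬝ᵥ w)⁻¹ • v) (Submodule.smul_mem _ _ hv)
      rw [mulVec_smul, smul_dotProduct, smul_eq_mul, inv_mul_cancel₀ h0]
    have h2 : I0 J 𝔨 w = Iw J 𝔨 w := by
      refine inf_eq_left.2 fun v hv => ?_
      rw [LinearMap.mem_ker, psi_apply]
      exact h1 v hv
    rw [h2] at hle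
    omega
  have hwv : (J *ᵥ w) ⬝ᵥ v = -1 := by rw [J_dot hJt, hvw]
  have hR : RR J v w ∈ 𝔨 := (mem_Iw hJ hk hJt).1 hvI
  let th : Matrix (Fin n) (Fin n) ℂ → Matrix (Fin n) (Fin n) ℂ := fun β => -(β * RR J v w + (RR J v w)ᵀ * β)
  have hth : ∀ β ∈ PP J 𝔨, th β ∈ PP J 𝔨 := fun β hβ => Submodule.neg_mem _ (PP_act hk hbr hR hβ)
  have hthφ : ∀ β ∈ PP J 𝔨, ∀ φ, th β *ᵥ φ = ((J *ᵥ w) ⬝ᵥ φ) • (β *ᵥ v) + ((β *ᵥ v) ⬝ᵥ φ) • (J *ᵥ w) +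
      ((J *ᵥ v) ⬝ᵥ φ) • (β *ᵥ w) + ((β *ᵥ w) ⬝ᵥ φ) • (J *ᵥ v) := by
    intro β hβ φ
    change (-(β * RR J v w + (RR J v w)ᵀ * β)) *ᵥ φ = _
    rw [neg_mulVec, act_RR hJt hβ.1, neg_neg]
  have hthw : ∀ β ∈ PP J 𝔨, th β *ᵥ w = β *ᵥ w + ((β *ᵥ w) ⬝ᵥ w) • (J *ᵥ v) := by
    intro β hβ
    have h1 : (β *ᵥ v) ⬝ᵥ w = 0 := by
      rw [sym_dot hβ.1]
      exact Iw_dot hvI hβ
    rw [hthφ β hβ, J_self hJt, h1, hvw, zero_smul, zero_smul, zero_add, zero_add, one_smul]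
  have hthv : ∀ β ∈ PP J 𝔨, th β *ᵥ v = -(β *ᵥ v) + ((β *ᵥ v) ⬝ᵥ v) • (J *ᵥ w) := by
    intro β hβ
    rw [hthφ β hβ, J_self hJt, Iw_dot hvI hβ, hwv, zero_smul, zero_smul, add_zero, add_zero, neg_smul, one_smul]
  refine ⟨v, ?_, fun β hβ => ?_⟩
  · rintro rfl
    rw [mulVec_zero, zero_dotProduct] at hvw
    exact zero_ne_one hvw
  -- the two steps
  let β1 := th β - β
  have hβ1 : β1 ∈ PP J 𝔨 := Submodule.sub_mem _ (hth β hβ) hβ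
  let β2 := th β1 - (2 : ℂ) • β1
  have hβ2 : β2 ∈ PP J 𝔨 := Submodule.sub_mem _ (hth β1 hβ1) (Submodule.smul_mem _ _ hβ1)
  set q := (β *ᵥ v) ⬝ᵥ v with hq
  have e1w : β1 *ᵥ w = ((β *ᵥ w) ⬝ᵥ w) • (J *ᵥ v) := by
    change (th β - β) *ᵥ w = _
    rw [sub_mulVec, hthw β hβ]
    abel
  have e1v : β1 *ᵥ v = -(2 : ℂ) • (β *ᵥ v) + q • (J *ᵥ w) := by
    change (th β - β) *ᵥ v = _
    rw [sub_mulVec, hthv β hβ, ← hq]
    module
  have e2w : β2 *ᵥ w = 0 := by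
    change (th β1 - (2 : ℂ) • β1) *ᵥ w = _
    rw [sub_mulVec, smul_mulVec, hthw β1 hβ1, e1w, smul_dotProduct, hvw, smul_eq_mul, mul_one]
    module
  have e1vv : (β1 *ᵥ v) ⬝ᵥ v = -3 * q := by
    rw [e1v, add_dotProduct, smul_dotProduct, smul_dotProduct, hwv, ← hq, smul_eq_mul, smul_eq_mul]
    ring
  have e2v : β2 *ᵥ v = (6 : ℂ) • (β *ᵥ v) - (6 * q) • (J *ᵥ w) := by
    change (th β1 - (2 : ℂ) • β1) *ᵥ v = _
    rw [sub_mulVec, smul_mulVec, hthv β1 hβ1, e1vv, e1v]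
    module
  have e2vv : (β2 *ᵥ v) ⬝ᵥ v = 12 * q := by
    rw [e2v, sub_dotProduct, smul_dotProduct, smul_dotProduct, hwv, ← hq, smul_eq_mul, smul_eq_mul]
    ring
  -- the element `(β₂ v) ∘ (J w)`
  set x := β2 *ᵥ v with hx
  let ε := th β2
  have hε : ε ∈ PP J 𝔨 := hth β2 hβ2
  have hεφ : ∀ φ, ε *ᵥ φ = ((J *ᵥ w) ⬝ᵥ φ) • x + (x ⬝ᵥ φ) • (J *ᵥ w) := by
    intro φ
    change th β2 *ᵥ φ = _
    rw [hthφ β2 hβ2, e2w, zero_dotProduct, smul_zero, zero_smul, add_zero, add_zero]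
  have hxw : x ⬝ᵥ w = 0 := by
    rw [hx, sym_dot hβ2.1, e2w, zero_dotProduct]
  have hεw : ε *ᵥ w = 0 := by rw [hεφ, J_self hJt, hxw, zero_smul, zero_smul, add_zero]
  have hε0 : ε = 0 := by
    by_contra hne
    have h1 := hle' ε hε hεw hne fun φ hφ => by
      rw [hεφ, hφ, zero_smul, zero_add, smul_dotProduct, hφ, smul_zero]
    omega
  have h1 := hεφ v
  rw [hε0, zero_mulVec, hwv] at h1
  have h2 := congrArg (fun y => y ⬝ᵥ v) h1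
  change (0 : Fin n → ℂ) ⬝ᵥ v = (_ : Fin n → ℂ) ⬝ᵥ v at h2
  rw [zero_dotProduct, add_dotProduct, smul_dotProduct, smul_dotProduct, hwv, smul_eq_mul, smul_eq_mul] at h2
  have h3 : x ⬝ᵥ v = 0 := by linear_combination h2 / 2
  have h4 : q = 0 := by
    rw [h3] at e2vv
    linear_combination -e2vv / 12
  rw [h3, zero_smul, add_zero, neg_smul, one_smul] at h1
  have h5 : x = 0 := neg_eq_zero.1 h1.symm
  rw [h5, h4, mul_zero, zero_smul, sub_zero] at e2v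
  exact (smul_eq_zero.1 e2v.symm).resolve_left (by norm_num)

end Pool.Agent.W2helper4.TS
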