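import Pool.Agent.W2helper4.TS.Ult
import Pool.Agent.W2helper4.TS.Grp2
import Pool.Agent.W2helper4.CY.Main

/-!
# Subtorsors through the period matrices of generic fibres
-/

set_option autoImplicit false
set_option linter.unusedSectionVars false
set_option maxHeartbeats 1000000

open Matrix Module

noncomputable section

namespace Pool.Agent.W2helper4.TS

open Pool.Agent.TH127.PT Pool.Agent.Y123.ST Pool.Agent.W2helper33.OQ Pool.Agent.W2helper33.BD Pool.Agent.Y113.MT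
open Pool.Agent.Y916.Al (Ht evc Cvc)
open Pool.Agent.W2helper4.MJ (Vs)
open Pool.Agent.W2helper4.CY (FV Max Mv GenQ fam_gen)

/-- all elements of `K` have degree at most `D` -/
def Bdd (D : ℕ) (K : Subfield ℂ) : Prop :=
  ∀ x ∈ K, ∃ f : Polynomial ℚ, f ≠ 0 ∧ f.natDegree ≤ D ∧ Polynomial.aeval x f = 0

theorem Bdd.alg {D : ℕ} {K : Subfield ℂ} (h : Bdd D K) : ∀ x ∈ K, IsAlgebraic ℚ x := fun x hx => by
  obtain ⟨f, h1, -, h2⟩ := h x hx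
  exact ⟨f, h1, h2⟩

theorem bdd_of_finrank {D : ℕ} (K : Subfield ℂ) [FiniteDimensional ℚ K] (hD : finrank ℚ K ≤ D) : Bdd D K := by
  intro x hx
  let y : K := ⟨x, hx⟩
  have hy : IsIntegral ℚ y := Algebra.IsIntegral.isIntegral y
  refine ⟨minpoly ℚ y, minpoly.ne_zero hy, (minpoly.natDegree_le y).trans hD, ?_⟩
  have h1 := minpoly.aeval ℚ y
  have h2 := congrArg (algebraMap K ℂ) h1
  rw [map_zero, ← Polynomial.aeval_algebraMap_apply] at h2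
  exact h2

section gen
variable {s : ℕ}

/-- **Tangent vectors at generic points.** -/
theorem tan_gen (m : Fin s → ℕ) (d D : ℕ) : ∃ N : ℕ, ∀ (p C : Bk m) (M A : ∀ b, Matrix (Fin (2 * m b)) (Fin (2 * m b)) ℚ)
    (q κ : Fin s → ℂ) (K : Subfield ℂ), (∀ b, (p b)ᵀ * SS ℂ (2 * m b) * p b = SS ℂ (2 * m b)) → GenJ m N p →
    (∀ b, (C b).det ≠ 0) → (∀ b, q b ≠ 0) → (∀ b, C b * cq (M b) = q b • (NN ℂ (2 * m b) * C b)) → (∀ b, κ b ≠ 0) →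
    (∀ b, C b * cq (A b) * (C b)ᵀ = κ b • SS ℂ (2 * m b)) → Bdd D K → HT m K d (bd fun b => p b * C b) p := by
  have key : ∀ a : Fin s, ∃ N : ℕ, ∀ (p C : Bk m) (M A : ∀ b, Matrix (Fin (2 * m b)) (Fin (2 * m b)) ℚ)
    (q κ : Fin s → ℂ) (K : Subfield ℂ) (v : Fin (2 * m a) → ℂ),
    (∀ b, (p b)ᵀ * SS ℂ (2 * m b) * p b = SS ℂ (2 * m b)) → GenJ m N p →
    (∀ b, (C b).det ≠ 0) → (∀ b, q b ≠ 0) → (∀ b, C b * cq (M b) = q b • (NN ℂ (2 * m b) * C b)) → (∀ b, κ b ≠ 0) →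
    (∀ b, C b * cq (A b) * (C b)ᵀ = κ b • SS ℂ (2 * m b)) → Bdd D K → ∃ Y : Bk m, (∀ b, Y b ∈ Ep ℂ (m b)) ∧
      bd (fun b => p b * Y b * (p b)⁻¹ + (Pi.single a (vecMulVec v v * SS ℂ (2 * m a)) : Bk m) b) ∈
        Tan K d (bd fun b => p b * C b) := by
    intro a
    by_contra hcon
    push Not at hcon
    choose p C M A q κ K v h1 h2 h3 h4 h5 h6 h7 h8 h9 using hcon
    obtain ⟨k, Y, hY1, hY2⟩ := ut a (d := d) h1 h2 h3 h4 h5 h6 h7 h8 (v := v)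
    exact h9 k Y hY1 hY2
  choose N hN using key
  refine ⟨Finset.univ.sup N, fun p C M A q κ K h1 h2 h3 h4 h5 h6 h7 h8 a v => ?_⟩
  exact hN a p C M A q κ K v h1 (h2.mono (Finset.le_sup (f := N) (Finset.mem_univ a))) h3 h4 h5 h6 h7 h8

/-- **Subtorsors through generic points.** -/
theorem sub_gen (m : Fin s → ℕ) (hm : ∀ a, 3 ≤ m a) (D : ℕ) : ∃ N : ℕ, ∀ (p C : Bk m)
    (M A : ∀ b, Matrix (Fin (2 * m b)) (Fin (2 * m b)) ℚ) (q κ : Fin s → ℂ) (K : Subfield ℂ),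
    (∀ b, (p b)ᵀ * SS ℂ (2 * m b) * p b = SS ℂ (2 * m b)) → GenJ m N p →
    (∀ b, (C b).det ≠ 0) → (∀ b, q b ≠ 0) → (∀ b, C b * cq (M b) = q b • (NN ℂ (2 * m b) * C b)) → (∀ b, κ b ≠ 0) →
    (∀ b, C b * cq (A b) * (C b)ᵀ = κ b • SS ℂ (2 * m b)) → Bdd D K →
    ∀ T : Set (Matrix (BI m) (BI m) ℂ), IsSubtorsor K T → (bd fun b => p b * C b) ∈ T → gS m ≤ LM T := by
  obtain ⟨N, hN⟩ := tan_gen m (JJ (Fintype.card (BI m) * Fintype.card (BI m)) * (1 + D0 (BI m))) D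
  refine ⟨N, fun p C M A q κ K h1 h2 h3 h4 h5 h6 h7 h8 T hT hc => ?_⟩
  refine gS_le hm h8.alg hT le_rfl hc (fun b => ?_) (hN p C M A q κ K h1 h2 h3 h4 h5 h6 h7 h8)
  exact W2helper4.CY.form_flip' (SS_sq (m b)) (h1 b)

end gen

section fam
variable {r : ℕ} {m : Fin r → ℕ} {P : ∀ i, Matrix (Fin (2 * m i)) (Fin (2 * m i)) (PowerSeries ℚ)}

/-- joint genericity of pairwise different blocks -/
theorem genJ_of {N k : ℕ} {z : Fin k → ℂ} (h : GenQ P N z) {s : ℕ} (c : Fin s → Fin r) (e : Fin s → Fin k)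
    (hinj : Function.Injective fun a => (e a, c a)) :
    GenJ (fun a => m (c a)) N (fun a => Mv (P (c a)) (z (e a))) := by
  classical
  intro Q hQ h0 γ hγ
  have key : ∀ (j : Fin k) (i : Fin r), ∃ g : Matrix (Fin (2 * m i)) (Fin (2 * m i)) ℂ,
      gᵀ * SS ℂ (2 * m i) * g = SS ℂ (2 * m i) ∧ ∀ a (_ : e a = j) (h2 : c a = i),
        g = h2 ▸ (γ a : Matrix (Fin (2 * m (c a))) (Fin (2 * m (c a))) ℂ) := by
    intro j i
    by_cases hex : ∃ a, e a = j ∧ c a = i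
    · obtain ⟨a, rfl, rfl⟩ := hex
      refine ⟨γ a, hγ a, fun a' h1 h2 => ?_⟩
      have h3 : a' = a := hinj (Prod.ext h1 h2)
      subst h3
      rfl
    · refine ⟨1, by rw [Matrix.transpose_one, Matrix.one_mul, Matrix.mul_one], fun a h1 h2 => absurd ⟨a, h1, h2⟩ hex⟩
  choose γ' hγ1 hγ2 using key
  have h1 := h.ren (fun x : Σ a, Fin (2 * m (c a)) × Fin (2 * m (c a)) =>
    (e x.1, (⟨c x.1, x.2⟩ : Σ i, Fin (2 * m i) × Fin (2 * m i)))) Q hQ h0 γ' hγ1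
  rw [← h1]
  refine congrArg (fun z => MvPolynomial.aeval z Q) (funext fun x => ?_)
  change γ x.1 x.2.1 x.2.2 = γ' (e x.1) (c x.1) x.2.1 x.2.2
  rw [hγ2 (e x.1) (c x.1) x.1 rfl rfl]

/-- **Subtorsors through the period matrices of sums of fibres.** -/
theorem sub_fam (hm : ∀ i, 3 ≤ m i) {e : Fin r → ℕ} (h : ∀ i, FV (e i) (P i)) (hmax : Max P) :
    ∃ G0 : ℕ, 1 ≤ G0 ∧ ∃ b₀ : ℕ, (∀ α : ℂ, (b₀ : ℝ) < ‖α‖ → ∀ i a c, Cvc (1 / α) (P i a c)) ∧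
    (∀ α : ℂ, (b₀ : ℝ) < ‖α‖ → ∀ i, (Mv (P i) (1 / α))ᵀ * SS ℂ (2 * m i) * Mv (P i) (1 / α) = SS ℂ (2 * m i)) ∧
    ∀ g : ℕ, G0 ≤ g → ∀ g₀ A₀ D s : ℕ, ∃ Ex : ℕ, ∀ (b : ℕ) (ξ : ℂ), ((b : ℝ) + 2) ^ Ex ≤ ‖ξ‖ → Ht g₀ A₀ ξ →
    (g * b : ℝ) + b₀ < ‖ξ‖ ∧
    ∀ (c : Fin s → Fin r) (u : Fin s → ℕ), (∀ a, 1 ≤ u a ∧ u a ≤ b) → (∀ a a', a ≠ a' → c a = c a' → u a ≠ u a') →
    ∀ (C : ∀ a, Matrix (Fin (2 * m (c a))) (Fin (2 * m (c a))) ℂ)
      (M A : ∀ a, Matrix (Fin (2 * m (c a))) (Fin (2 * m (c a))) ℚ) (q κ : Fin s → ℂ), (∀ a, (C a).det ≠ 0) →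
    (∀ a, q a ≠ 0) → (∀ a, C a * cq (M a) = q a • (NN ℂ (2 * m (c a)) * C a)) → (∀ a, κ a ≠ 0) →
    (∀ a, C a * cq (A a) * (C a)ᵀ = κ a • SS ℂ (2 * m (c a))) →
    ∀ K : Subfield ℂ, Bdd D K → ∀ T : Set (Matrix (BI fun a => m (c a)) (BI fun a => m (c a)) ℂ), IsSubtorsor K T →
    (bd fun a => Mv (P (c a)) (1 / (ξ - ((g * u a : ℕ) : ℂ))) * C a) ∈ T → gS (fun a => m (c a)) ≤ LM T := by
  classical
  obtain ⟨G0, hG0, b₀, hb₀, hfam⟩ := fam_gen h hmax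
  refine ⟨G0, hG0, b₀, fun α hα => (hb₀ α hα).1, fun α hα => (hb₀ α hα).2, fun g hg g₀ A₀ D s => ?_⟩
  choose N hN using fun c : Fin s → Fin r => sub_gen (fun a => m (c a)) (fun a => hm (c a)) D
  set N' := Finset.univ.sup N with hN'
  choose Ex hE using fun k : ℕ => hfam g hg k g₀ A₀ N'
  refine ⟨∑ k ∈ Finset.range (s + 1), Ex k + Ex 0, fun b ξ hξ hHt => ?_⟩
  have hB1 : (1 : ℝ) ≤ (b : ℝ) + 2 := by linarith [(Nat.cast_nonneg b : (0 : ℝ) ≤ b)]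
  have hle : ∀ k, k ≤ s → ((b : ℝ) + 2) ^ Ex k ≤ ‖ξ‖ := fun k hk =>
    (pow_le_pow_right₀ hB1 ((Finset.single_le_sum (f := Ex) (fun _ _ => Nat.zero_le _)
      (Finset.mem_range.2 (Nat.lt_succ_of_le hk))).trans (Nat.le_add_right _ _))).trans hξ
  have hgb := (hE 0 b ξ (hle 0 (Nat.zero_le s)) hHt).1
  refine ⟨hgb, fun c u hub huc C M A q κ hC hq hM hκ hA K hK T hT hcT => ?_⟩
  have hz : ∀ a, (b₀ : ℝ) < ‖ξ - ((g * u a : ℕ) : ℂ)‖ := by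
    intro a
    have h1 := norm_sub_norm_le ξ ((g * u a : ℕ) : ℂ)
    rw [Complex.norm_natCast] at h1
    have h2 : ((g * u a : ℕ) : ℝ) ≤ g * b := by
      push_cast
      exact mul_le_mul_of_nonneg_left (by exact_mod_cast (hub a).2) (Nat.cast_nonneg g)
    linarith
  -- the different points
  let U : Finset ℕ := Finset.univ.image u
  have hU : U.card ≤ s := (Finset.card_image_le).trans (by rw [Finset.card_univ, Fintype.card_fin])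
  let eq : U ≃ Fin U.card := U.equivFin
  have hmem : ∀ a, u a ∈ U := fun a => Finset.mem_image_of_mem _ (Finset.mem_univ a)
  let u' : Fin U.card → ℕ := fun j => (eq.symm j : ℕ)
  have hu' : Function.Injective u' := fun i j hij => eq.symm.injective (Subtype.ext hij)
  let ee : Fin s → Fin U.card := fun a => eq ⟨u a, hmem a⟩
  have hee : ∀ a, u' (ee a) = u a := fun a => by
    change ((eq.symm (eq ⟨u a, hmem a⟩) : U) : ℕ) = u a
    rw [Equiv.symm_apply_apply]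
  have hrange : ∀ j, 1 ≤ u' j ∧ u' j ≤ b := by
    intro j
    obtain ⟨a, -, ha⟩ := Finset.mem_image.1 (eq.symm j).2
    change 1 ≤ ((eq.symm j : U) : ℕ) ∧ ((eq.symm j : U) : ℕ) ≤ b
    rw [← ha]
    exact hub a
  have hGQ : GenQ P N' (fun j => 1 / (ξ - ((g * u' j : ℕ) : ℂ))) := fun Q hQ h0 γ hγ =>
    (hE U.card b ξ (hle _ hU) hHt).2 u' hu' hrange Q hQ h0 γ hγ
  have hinj : Function.Injective fun a => (ee a, c a) := by
    intro a a' haa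
    by_contra hne
    have h1 : ee a = ee a' := congrArg Prod.fst haa
    have h2 : u a = u a' := by rw [← hee a, ← hee a', h1]
    exact huc a a' hne (congrArg Prod.snd haa) h2
  have hJ := genJ_of hGQ c ee hinj
  simp only [hee] at hJ
  exact hN c (fun a => Mv (P (c a)) (1 / (ξ - ((g * u a : ℕ) : ℂ)))) C M A q κ K (fun a => (hb₀ _ (hz a)).2 (c a))
    (hJ.mono (Finset.le_sup (f := N) (Finset.mem_univ c))) hC hq hM hκ hA hK T hT hcT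

end fam

end Pool.Agent.W2helper4.TS

end
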