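import Pool.Agent.W2helper4.TS.Irr
import Pool.Agent.W2helper4.TS.Main

/-!
# The action of the symplectic groups of some of the blocks
-/

set_option autoImplicit false
set_option linter.unusedSectionVars false
set_option maxHeartbeats 1000000

open Matrix Module

noncomputable section

namespace Pool.Agent.W2helper4.TS

open Pool.Agent.TH127.PT Pool.Agent.Y123.ST Pool.Agent.W2helper33.OQ Pool.Agent.W2helper33.BD Pool.Agent.Y113.MT
open Pool.Agent.Y916.Al (Ht evc Cvc)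
open Pool.Agent.W2helper4.MJ (Vs)
open Pool.Agent.W2helper4.CY (FV Max Mv GenQ fam_gen)
open Pool.Agent.TH119.DR (DefOver)

section act
variable {s : ℕ} {m : Fin s → ℕ} {L : Submodule ℂ (Matrix (BI m) (BI m) ℂ)}

/-- **Block diagonal symplectic matrices.** -/
theorem blocks_Gp (hm : ∀ a, 1 ≤ m a) {I : Fin s → Prop}
    (h : ∀ a, I a → ∀ w, bd (Pi.single a (vecMulVec w w * SS ℂ (2 * m a)) : Bk m) ∈ L)
    {g : Bk m} (hg : ∀ b, (g b)ᵀ * SS ℂ (2 * m b) * g b = SS ℂ (2 * m b)) (hI : ∀ b, I b ∨ g b = 1) :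
    bd g ∈ Gp L := by
  classical
  have h1 : ∀ (a : Fin s) (x : Matrix (Fin (2 * m a)) (Fin (2 * m a)) ℂ), xᵀ * SS ℂ (2 * m a) * x = SS ℂ (2 * m a) →
      (I a ∨ x = 1) → bd (Pi.mulSingle a x : Bk m) ∈ Gp L := by
    intro a x hx hIx
    have hone : bd (Pi.mulSingle a 1 : Bk m) ∈ Gp L := by
      rw [Pi.mulSingle_one]
      have h2 : bd (1 : Bk m) = 1 := Matrix.blockDiagonal'_one
      rw [h2]
      exact Submonoid.one_mem _
    rcases hIx with hIa | rfl
    · let S : Submonoid (Matrix (Fin (2 * m a)) (Fin (2 * m a)) ℂ) :=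
        { carrier := {x | bd (Pi.mulSingle a x : Bk m) ∈ Gp L}
          one_mem' := hone
          mul_mem' := by
            intro x y hx hy
            change bd (Pi.mulSingle a (x * y) : Bk m) ∈ Gp L
            have h2 : (Pi.mulSingle a (x * y) : Bk m) = fun b => (Pi.mulSingle a x : Bk m) b * (Pi.mulSingle a y : Bk m) b := by
              rw [Pi.mulSingle_mul]
              rfl
            rw [h2, bd_mul]
            exact Submonoid.mul_mem _ hx hy }
      refine tv_gen (SS_tr (m a)) (SS_det (m a)) S (fun w t => ?_) x hx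
      refine Submonoid.subset_closure ⟨t • bd (Pi.single a (vecMulVec w w * SS ℂ (2 * m a))),
        Submodule.smul_mem _ t (h a hIa w), ?_⟩
      rw [← bd_single_smul, exp_bd']
      congr 1
      funext b
      rcases eq_or_ne b a with rfl | hb
      · rw [Pi.single_eq_same, Pi.mulSingle_eq_same, exp_tv (by have := hm b; omega) (SS_tr (m b))]
      · rw [Pi.single_eq_of_ne hb, Pi.mulSingle_eq_of_ne hb, NormedSpace.exp_zero]
    · exact hone
  have key : ∀ (J : Finset (Fin s)) (g : Bk m), (∀ b, (g b)ᵀ * SS ℂ (2 * m b) * g b = SS ℂ (2 * m b)) →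
      (∀ b, I b ∨ g b = 1) → (∀ l, l ∉ J → g l = 1) → bd g ∈ Gp L := by
    intro J
    induction J using Finset.induction_on with
    | empty =>
      intro g _ _ hg
      have h2 : g = 1 := funext fun l => hg l (Finset.notMem_empty l)
      have h3 : bd (1 : Bk m) = 1 := Matrix.blockDiagonal'_one
      rw [h2, h3]
      exact Submonoid.one_mem _
    | insert a J ha ih =>
      intro g hg1 hgI hg2
      have h2 : g = fun l => (Pi.mulSingle a (g a) : Bk m) l * Function.update g a 1 l := by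
        funext l
        rcases eq_or_ne l a with rfl | hl
        · rw [Pi.mulSingle_eq_same, Function.update_self, mul_one]
        · rw [Pi.mulSingle_eq_of_ne hl, Function.update_of_ne hl, one_mul]
      have h3 := ih (Function.update g a 1) (fun l => by
        rcases eq_or_ne l a with rfl | hl
        · rw [Function.update_self, Matrix.transpose_one, Matrix.one_mul, Matrix.mul_one]
        · rw [Function.update_of_ne hl]; exact hg1 l) (fun l => by
        rcases eq_or_ne l a with rfl | hl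
        · right
          rw [Function.update_self]
        · rw [Function.update_of_ne hl]
          exact hgI l) (fun l hl => by
        rcases eq_or_ne l a with rfl | hl'
        · rw [Function.update_self]
        · rw [Function.update_of_ne hl']
          exact hg2 l fun h => (Finset.mem_insert.1 h).elim hl' hl)
      rw [h2, bd_mul]
      exact Submonoid.mul_mem _ (h1 a _ (hg1 a) (hgI a)) h3
  exact key Finset.univ g hg hI fun l hl => absurd (Finset.mem_univ l) hl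

/-- the conclusion for one block -/
def Dich (m : Fin s → ℕ) (K : Subfield ℂ) (T : Set (Matrix (BI m) (BI m) ℂ)) (c : Bk m) : Prop :=
  ∀ a, (∀ w, bd (Pi.single a (vecMulVec w w * SS ℂ (2 * m a)) : Bk m) ∈ LM T) ∨
    (m a = 2 ∧ ∃ V W : Submodule ℂ (Fin (2 * m a) → ℂ), DefOver K V ∧ DefOver K W ∧ (∀ v, v ∈ V ↔ c a *ᵥ v ∈ W) ∧
      V ≠ ⊥ ∧ V ≠ ⊤)

theorem Dich.gS_le {K : Subfield ℂ} {T : Set (Matrix (BI m) (BI m) ℂ)} {c : Bk m} (h : Dich m K T c)
    (hI : ∀ a, m a = 2 → ∀ V W : Submodule ℂ (Fin (2 * m a) → ℂ), DefOver K V → DefOver K W →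
      (∀ v, v ∈ V ↔ c a *ᵥ v ∈ W) → V = ⊥ ∨ V = ⊤) : gS m ≤ LM T := by
  refine Submodule.span_le.2 ?_
  rintro _ ⟨a, w, rfl⟩
  rcases h a with h1 | ⟨h1, V, W, h2, h3, h4, h5, h6⟩
  · exact h1 w
  · rcases hI a h1 V W h2 h3 h4 with h7 | h7
    · exact absurd h7 h5
    · exact absurd h7 h6

end act

section gen
variable {s : ℕ}

/-- **Subtorsors through generic points.** -/
theorem sub_gen2 (m : Fin s → ℕ) (hm : ∀ a, 2 ≤ m a) (D : ℕ) : ∃ N : ℕ, ∀ (p C : Bk m)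
    (M A : ∀ b, Matrix (Fin (2 * m b)) (Fin (2 * m b)) ℚ) (q κ : Fin s → ℂ) (K : Subfield ℂ),
    (∀ b, (p b)ᵀ * SS ℂ (2 * m b) * p b = SS ℂ (2 * m b)) → GenJ m N p →
    (∀ b, (C b).det ≠ 0) → (∀ b, q b ≠ 0) → (∀ b, C b * cq (M b) = q b • (NN ℂ (2 * m b) * C b)) → (∀ b, κ b ≠ 0) →
    (∀ b, C b * cq (A b) * (C b)ᵀ = κ b • SS ℂ (2 * m b)) → Bdd D K →
    ∀ T : Set (Matrix (BI m) (BI m) ℂ), IsSubtorsor K T → (bd fun b => p b * C b) ∈ T →
    Dich m K T (fun b => p b * C b) := by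
  obtain ⟨N, hN⟩ := tan_gen m (JJ (Fintype.card (BI m) * Fintype.card (BI m)) * (1 + D0 (BI m))) D
  refine ⟨N, fun p C M A q κ K h1 h2 h3 h4 h5 h6 h7 h8 T hT hc => ?_⟩
  have hps : ∀ b, p b * SS ℂ (2 * m b) * (p b)ᵀ = SS ℂ (2 * m b) := fun b =>
    W2helper4.CY.form_flip' (SS_sq (m b)) (h1 b)
  have hpu : ∀ b, (p b).det ≠ 0 := by
    intro b h0
    have h9 := congrArg Matrix.det (hps b)
    rw [Matrix.det_mul, Matrix.det_mul, h0, zero_mul, zero_mul] at h9
    exact SS_det (F := ℂ) (m b) h9.symm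
  intro a
  refine block_dich hm h8.alg hT le_rfl hc (fun b => ?_) hps (hN p C M A q κ K h1 h2 h3 h4 h5 h6 h7 h8) a (h6 a)
    (A := A a) ?_
  · rw [Matrix.det_mul]
    exact isUnit_iff_ne_zero.2 (mul_ne_zero (hpu b) (h3 b))
  · calc p a * C a * cq (A a) * (p a * C a)ᵀ = p a * (C a * cq (A a) * (C a)ᵀ) * (p a)ᵀ := by
          rw [Matrix.transpose_mul]
          simp only [Matrix.mul_assoc]
      _ = κ a • SS ℂ (2 * m a) := by rw [h7 a, Matrix.mul_smul, Matrix.smul_mul, hps a]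

end gen

section fam
variable {r : ℕ} {m : Fin r → ℕ} {P : ∀ i, Matrix (Fin (2 * m i)) (Fin (2 * m i)) (PowerSeries ℚ)}

/-- **Subtorsors through the period matrices of sums of fibres.** -/
theorem sub_fam2 (hm : ∀ i, 2 ≤ m i) {e : Fin r → ℕ} (h : ∀ i, FV (e i) (P i)) (hmax : Max P) :
    ∃ G0 : ℕ, 1 ≤ G0 ∧ ∃ b₀ : ℕ, (∀ α : ℂ, (b₀ : ℝ) < ‖α‖ → ∀ i a c, Cvc (1 / α) (P i a c)) ∧
    (∀ α : ℂ, (b₀ : ℝ) < ‖α‖ → ∀ i, (Mv (P i) (1 / α))ᵀ * SS ℂ (2 * m i) * Mv (P i) (1 / α) = SS ℂ (2 * m i)) ∧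
    ∀ g : ℕ, G0 ≤ g → ∀ g₀ A₀ D s : ℕ, ∃ Ex : ℕ, ∀ (b : ℕ) (ξ : ℂ), ((b : ℝ) + 2) ^ Ex ≤ ‖ξ‖ → Ht g₀ A₀ ξ →
    (g * b : ℝ) + b₀ < ‖ξ‖ ∧
    ∀ (c : Fin s → Fin r) (u : Fin s → ℕ), (∀ a, 1 ≤ u a ∧ u a ≤ b) → (∀ a a', a ≠ a' → c a = c a' → u a ≠ u a') →
    ∀ (C : ∀ a, Matrix (Fin (2 * m (c a))) (Fin (2 * m (c a))) ℂ)
      (M A : ∀ a, Matrix (Fin (2 * m (c a))) (Fin (2 * m (c a))) ℚ) (q κ : Fin s → ℂ), (∀ a, (C a).det ≠ 0) →
    (∀ a, q a ≠ 0) → (∀ a, C a * cq (M a) = q a • (NN ℂ (2 * m (c a)) * C a)) → (∀ a, κ a ≠ 0) →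
    (∀ a, C a * cq (A a) * (C a)ᵀ = κ a • SS ℂ (2 * m (c a))) →
    ∀ K : Subfield ℂ, Bdd D K → ∀ T : Set (Matrix (BI fun a => m (c a)) (BI fun a => m (c a)) ℂ), IsSubtorsor K T →
    (bd fun a => Mv (P (c a)) (1 / (ξ - ((g * u a : ℕ) : ℂ))) * C a) ∈ T →
    Dich (fun a => m (c a)) K T (fun a => Mv (P (c a)) (1 / (ξ - ((g * u a : ℕ) : ℂ))) * C a) := by
  classical
  obtain ⟨G0, hG0, b₀, hb₀, hfam⟩ := fam_gen h hmax
  refine ⟨G0, hG0, b₀, fun α hα => (hb₀ α hα).1, fun α hα => (hb₀ α hα).2, fun g hg g₀ A₀ D s => ?_⟩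
  choose N hN using fun c : Fin s → Fin r => sub_gen2 (fun a => m (c a)) (fun a => hm (c a)) D
  set N' := Finset.univ.sup N with hN'
  choose Ex hE using fun k : ℕ => hfam g hg k g₀ A₀ N'
  refine ⟨∑ k ∈ Finset.range (s + 1), Ex k + Ex 0, fun b ξ hξ hHt => ?_⟩
  have hB1 : (1 : ℝ) ≤ (b : ℝ) + 2 := by linarith [(Nat.cast_nonneg b : (0 : ℝ) ≤ b)]
  have hle : ∀ k, k ≤ s → ((b : ℝ) + 2) ^ Ex k ≤ ‖ξ‖ := fun k hk =>
    (pow_le_pow_right₀ hB1 ((Finset.single_le_sum (f := Ex) (fun _ _ => Nat.zero_le _)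
      (Finset.mem_range.2 (Nat.lt_succ_of_le hk))).trans (Nat.le_add_right _ _))).trans hξ
  have hgb := (hE 0 b ξ (hle 0 (Nat.zero_le s)) hHt).1
  refine ⟨hgb, fun c u hub huc C M A q κ hC hq hM hκ hA K hK T hT hcT => ?_⟩
  have hz : ∀ a, (b₀ : ℝ) < ‖ξ - ((g * u a : ℕ) : ℂ)‖ := by
    intro a
    have h1 := norm_sub_norm_le ξ ((g * u a : ℕ) : ℂ)
    rw [Complex.norm_natCast] at h1
    have h2 : ((g * u a : ℕ) : ℝ) ≤ g * b := by
      push_cast
      exact mul_le_mul_of_nonneg_left (by exact_mod_cast (hub a).2) (Nat.cast_nonneg g)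
    linarith
  -- the different points
  let U : Finset ℕ := Finset.univ.image u
  have hU : U.card ≤ s := (Finset.card_image_le).trans (by rw [Finset.card_univ, Fintype.card_fin])
  let eq : U ≃ Fin U.card := U.equivFin
  have hmem : ∀ a, u a ∈ U := fun a => Finset.mem_image_of_mem _ (Finset.mem_univ a)
  let u' : Fin U.card → ℕ := fun j => (eq.symm j : ℕ)
  have hu' : Function.Injective u' := fun i j hij => eq.symm.injective (Subtype.ext hij)
  let ee : Fin s → Fin U.card := fun a => eq ⟨u a, hmem a⟩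
  have hee : ∀ a, u' (ee a) = u a := fun a => by
    change ((eq.symm (eq ⟨u a, hmem a⟩) : U) : ℕ) = u a
    rw [Equiv.symm_apply_apply]
  have hrange : ∀ j, 1 ≤ u' j ∧ u' j ≤ b := by
    intro j
    obtain ⟨a, -, ha⟩ := Finset.mem_image.1 (eq.symm j).2
    change 1 ≤ ((eq.symm j : U) : ℕ) ∧ ((eq.symm j : U) : ℕ) ≤ b
    rw [← ha]
    exact hub a
  have hGQ : GenQ P N' (fun j => 1 / (ξ - ((g * u' j : ℕ) : ℂ))) := fun Q hQ h0 γ hγ =>
    (hE U.card b ξ (hle _ hU) hHt).2 u' hu' hrange Q hQ h0 γ hγ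
  have hinj : Function.Injective fun a => (ee a, c a) := by
    intro a a' haa
    by_contra hne
    have h1 : ee a = ee a' := congrArg Prod.fst haa
    have h2 : u a = u a' := by rw [← hee a, ← hee a', h1]
    exact huc a a' hne (congrArg Prod.snd haa) h2
  have hJ := genJ_of hGQ c ee hinj
  simp only [hee] at hJ
  exact hN c (fun a => Mv (P (c a)) (1 / (ξ - ((g * u a : ℕ) : ℂ)))) C M A q κ K (fun a => (hb₀ _ (hz a)).2 (c a))
    (hJ.mono (Finset.le_sup (f := N) (Finset.mem_univ c))) hC hq hM hκ hA hK T hT hcT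

end fam

end Pool.Agent.W2helper4.TS

end
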