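import Pool.Agent.W2helper4.TS.Flag
import Pool.Agent.W2helper4.TS.Main2
import Pool.Agent.W2helper4.TS.Om
import Pool.Agent.W2helper4.CY.Nat

/-!
# All conclusions at generic fibres
-/

set_option autoImplicit false
set_option linter.unusedSectionVars false
set_option maxHeartbeats 1000000

open Matrix Module

noncomputable section

namespace Pool.Agent.W2helper4.TS

open Pool.Agent.TH127.PT Pool.Agent.Y123.ST Pool.Agent.W2helper33.OQ Pool.Agent.W2helper33.BD Pool.Agent.Y113.MT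
open Pool.Agent.Y916.Al (Ht evc Cvc)
open Pool.Agent.W2helper4.MJ (Vs)
open Pool.Agent.W2helper4.CY (FV Max Mv GenQ fam_gen)
open Pool.Agent.TH119.DR (DefOver)

/-- all conclusions -/
def Concl {s : ℕ} (m : Fin s → ℕ) (K : Subfield ℂ) (c : Bk m) : Prop :=
  (∀ T, IsSubtorsor K T → bd c ∈ T → ∀ a, Irr K (c a) → Good T a) ∧
    (∀ a b, a ≠ b → Irr K (c a) ∨ Irr K (c b)) ∧ ∀ a, 3 ≤ m a → Irr K (c a)

section gen
variable {s : ℕ}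

/-- **Tangent vectors at generic points**, with a common constant. -/
theorem tan_gen2 (m : Fin s → ℕ) (d D : ℕ) : ∃ N : ℕ, ∀ (p C : Bk m) (M A : ∀ b, Matrix (Fin (2 * m b)) (Fin (2 * m b)) ℚ)
    (q : ℂ) (κ : Fin s → ℂ) (K : Subfield ℂ), (∀ b, (p b)ᵀ * SS ℂ (2 * m b) * p b = SS ℂ (2 * m b)) → GenJ m N p →
    (∀ b, (C b).det ≠ 0) → q ≠ 0 → (∀ b, C b * cq (M b) = q • (NN ℂ (2 * m b) * C b)) → (∀ b, κ b ≠ 0) →
    (∀ b, C b * cq (A b) * (C b)ᵀ = κ b • SS ℂ (2 * m b)) → Bdd D K → HT2 m K d (bd fun b => p b * C b) p := by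
  have key : ∀ a : Fin s, ∃ N : ℕ, ∀ (p C : Bk m) (M A : ∀ b, Matrix (Fin (2 * m b)) (Fin (2 * m b)) ℚ)
    (q : ℂ) (κ : Fin s → ℂ) (K : Subfield ℂ) (v : Fin (2 * m a) → ℂ),
    (∀ b, (p b)ᵀ * SS ℂ (2 * m b) * p b = SS ℂ (2 * m b)) → GenJ m N p →
    (∀ b, (C b).det ≠ 0) → q ≠ 0 → (∀ b, C b * cq (M b) = q • (NN ℂ (2 * m b) * C b)) → (∀ b, κ b ≠ 0) →
    (∀ b, C b * cq (A b) * (C b)ᵀ = κ b • SS ℂ (2 * m b)) → Bdd D K → ∃ (Y : Bk m) (α : ℂ), (∀ b, EA α (Y b)) ∧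
      bd (fun b => p b * Y b * (p b)⁻¹ + (Pi.single a (vecMulVec v v * SS ℂ (2 * m a)) : Bk m) b) ∈
        Tan K d (bd fun b => p b * C b) := by
    intro a
    by_contra hcon
    push Not at hcon
    choose p C M A q κ K v h1 h2 h3 h4 h5 h6 h7 h8 h9 using hcon
    obtain ⟨k, Y, α, hY1, hY2⟩ := ut2 a (d := d) h1 h2 h3 h4 h5 h6 h7 h8 (v := v)
    exact h9 k Y α hY1 hY2
  choose N hN using key
  refine ⟨Finset.univ.sup N, fun p C M A q κ K h1 h2 h3 h4 h5 h6 h7 h8 a v => ?_⟩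
  exact hN a p C M A q κ K v h1 (h2.mono (Finset.le_sup (f := N) (Finset.mem_univ a))) h3 h4 h5 h6 h7 h8

/-- **Subtorsors through generic points.** -/
theorem sub_gen3 (m : Fin s → ℕ) (hm : ∀ a, 2 ≤ m a) (D : ℕ) : ∃ N : ℕ, ∀ (p C : Bk m)
    (M A : ∀ b, Matrix (Fin (2 * m b)) (Fin (2 * m b)) ℚ) (q : ℂ) (κ : Fin s → ℂ) (K : Subfield ℂ),
    (∀ b, (p b)ᵀ * SS ℂ (2 * m b) * p b = SS ℂ (2 * m b)) → GenJ m N p →
    (∀ b, (C b).det ≠ 0) → q ≠ 0 → (∀ b, C b * cq (M b) = q • (NN ℂ (2 * m b) * C b)) → (∀ b, κ b ≠ 0) →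
    (∀ b, C b * cq (A b) * (C b)ᵀ = κ b • SS ℂ (2 * m b)) → Bdd D K →
    Concl m K (fun b => p b * C b) := by
  obtain ⟨N, hN⟩ := tan_gen2 m (JJ (Fintype.card (BI m) * Fintype.card (BI m)) * (1 + D0 (BI m))) D
  refine ⟨N, fun p C M A q κ K h1 h2 h3 h4 h5 h6 h7 h8 => ?_⟩
  have hps : ∀ b, p b * SS ℂ (2 * m b) * (p b)ᵀ = SS ℂ (2 * m b) := fun b =>
    W2helper4.CY.form_flip' (SS_sq (m b)) (h1 b)
  have hpu : ∀ b, (p b).det ≠ 0 := by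
    intro b h0
    have h9 := congrArg Matrix.det (hps b)
    rw [Matrix.det_mul, Matrix.det_mul, h0, zero_mul, zero_mul] at h9
    exact SS_det (F := ℂ) (m b) h9.symm
  refine concl hm h8.alg le_rfl (fun b => ?_) hps (hN p C M A q κ K h1 h2 h3 h4 h5 h6 h7 h8) h6 (A := A) fun a => ?_
  · rw [Matrix.det_mul]
    exact isUnit_iff_ne_zero.2 (mul_ne_zero (hpu b) (h3 b))
  · calc p a * C a * cq (A a) * (p a * C a)ᵀ = p a * (C a * cq (A a) * (C a)ᵀ) * (p a)ᵀ := by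
          rw [Matrix.transpose_mul]
          simp only [Matrix.mul_assoc]
      _ = κ a • SS ℂ (2 * m a) := by rw [h7 a, Matrix.mul_smul, Matrix.smul_mul, hps a]

end gen

section fam
variable {r : ℕ} {m : Fin r → ℕ} {P : ∀ i, Matrix (Fin (2 * m i)) (Fin (2 * m i)) (PowerSeries ℚ)}

/-- **Subtorsors through the period matrices of sums of fibres.** -/
theorem sub_fam4 (hm : ∀ i, 2 ≤ m i) {e : Fin r → ℕ} (h : ∀ i, FV (e i) (P i)) (hmax : Max P) :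
    ∃ G0 : ℕ, 1 ≤ G0 ∧ ∃ b₀ : ℕ, (∀ α : ℂ, (b₀ : ℝ) < ‖α‖ → ∀ i a c, Cvc (1 / α) (P i a c)) ∧
    (∀ α : ℂ, (b₀ : ℝ) < ‖α‖ → ∀ i, (Mv (P i) (1 / α))ᵀ * SS ℂ (2 * m i) * Mv (P i) (1 / α) = SS ℂ (2 * m i)) ∧
    ∀ g : ℕ, G0 ≤ g → ∀ g₀ A₀ D s : ℕ, ∃ Ex : ℕ, ∀ (b : ℕ) (ξ : ℂ), ((b : ℝ) + 2) ^ Ex ≤ ‖ξ‖ → Ht g₀ A₀ ξ →
    (g * b : ℝ) + b₀ < ‖ξ‖ ∧
    ∀ (c : Fin s → Fin r) (u : Fin s → ℕ), (∀ a, 1 ≤ u a ∧ u a ≤ b) → (∀ a a', a ≠ a' → c a = c a' → u a ≠ u a') →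
    ∀ (C : ∀ a, Matrix (Fin (2 * m (c a))) (Fin (2 * m (c a))) ℂ)
      (M A : ∀ a, Matrix (Fin (2 * m (c a))) (Fin (2 * m (c a))) ℚ) (q : ℂ) (κ : Fin s → ℂ), (∀ a, (C a).det ≠ 0) →
    q ≠ 0 → (∀ a, C a * cq (M a) = q • (NN ℂ (2 * m (c a)) * C a)) → (∀ a, κ a ≠ 0) →
    (∀ a, C a * cq (A a) * (C a)ᵀ = κ a • SS ℂ (2 * m (c a))) →
    ∀ K : Subfield ℂ, Bdd D K →
    Concl (fun a => m (c a)) K (fun a => Mv (P (c a)) (1 / (ξ - ((g * u a : ℕ) : ℂ))) * C a) := by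
  classical
  obtain ⟨G0, hG0, b₀, hb₀, hfam⟩ := fam_gen h hmax
  refine ⟨G0, hG0, b₀, fun α hα => (hb₀ α hα).1, fun α hα => (hb₀ α hα).2, fun g hg g₀ A₀ D s => ?_⟩
  choose N hN using fun c : Fin s → Fin r => sub_gen3 (fun a => m (c a)) (fun a => hm (c a)) D
  set N' := Finset.univ.sup N with hN'
  choose Ex hE using fun k : ℕ => hfam g hg k g₀ A₀ N'
  refine ⟨∑ k ∈ Finset.range (s + 1), Ex k + Ex 0, fun b ξ hξ hHt => ?_⟩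
  have hB1 : (1 : ℝ) ≤ (b : ℝ) + 2 := by linarith [(Nat.cast_nonneg b : (0 : ℝ) ≤ b)]
  have hle : ∀ k, k ≤ s → ((b : ℝ) + 2) ^ Ex k ≤ ‖ξ‖ := fun k hk =>
    (pow_le_pow_right₀ hB1 ((Finset.single_le_sum (f := Ex) (fun _ _ => Nat.zero_le _)
      (Finset.mem_range.2 (Nat.lt_succ_of_le hk))).trans (Nat.le_add_right _ _))).trans hξ
  have hgb := (hE 0 b ξ (hle 0 (Nat.zero_le s)) hHt).1
  refine ⟨hgb, fun c u hub huc C M A q κ hC hq hM hκ hA K hK => ?_⟩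
  have hz : ∀ a, (b₀ : ℝ) < ‖ξ - ((g * u a : ℕ) : ℂ)‖ := by
    intro a
    have h1 := norm_sub_norm_le ξ ((g * u a : ℕ) : ℂ)
    rw [Complex.norm_natCast] at h1
    have h2 : ((g * u a : ℕ) : ℝ) ≤ g * b := by
      push_cast
      exact mul_le_mul_of_nonneg_left (by exact_mod_cast (hub a).2) (Nat.cast_nonneg g)
    linarith
  -- the different points
  let U : Finset ℕ := Finset.univ.image u
  have hU : U.card ≤ s := (Finset.card_image_le).trans (by rw [Finset.card_univ, Fintype.card_fin])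
  let eq : U ≃ Fin U.card := U.equivFin
  have hmem : ∀ a, u a ∈ U := fun a => Finset.mem_image_of_mem _ (Finset.mem_univ a)
  let u' : Fin U.card → ℕ := fun j => (eq.symm j : ℕ)
  have hu' : Function.Injective u' := fun i j hij => eq.symm.injective (Subtype.ext hij)
  let ee : Fin s → Fin U.card := fun a => eq ⟨u a, hmem a⟩
  have hee : ∀ a, u' (ee a) = u a := fun a => by
    change ((eq.symm (eq ⟨u a, hmem a⟩) : U) : ℕ) = u a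
    rw [Equiv.symm_apply_apply]
  have hrange : ∀ j, 1 ≤ u' j ∧ u' j ≤ b := by
    intro j
    obtain ⟨a, -, ha⟩ := Finset.mem_image.1 (eq.symm j).2
    change 1 ≤ ((eq.symm j : U) : ℕ) ∧ ((eq.symm j : U) : ℕ) ≤ b
    rw [← ha]
    exact hub a
  have hGQ : GenQ P N' (fun j => 1 / (ξ - ((g * u' j : ℕ) : ℂ))) := fun Q hQ h0 γ hγ =>
    (hE U.card b ξ (hle _ hU) hHt).2 u' hu' hrange Q hQ h0 γ hγ
  have hinj : Function.Injective fun a => (ee a, c a) := by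
    intro a a' haa
    by_contra hne
    have h1 : ee a = ee a' := congrArg Prod.fst haa
    have h2 : u a = u a' := by rw [← hee a, ← hee a', h1]
    exact huc a a' hne (congrArg Prod.snd haa) h2
  have hJ := genJ_of hGQ c ee hinj
  simp only [hee] at hJ
  exact hN c (fun a => Mv (P (c a)) (1 / (ξ - ((g * u a : ℕ) : ℂ)))) C M A q κ K (fun a => (hb₀ _ (hz a)).2 (c a))
    (hJ.mono (Finset.le_sup (f := N) (Finset.mem_univ c))) hC hq hM hκ hA hK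

end fam

variable {r : ℕ} {m : Fin r → ℕ} {P : ∀ i, Matrix (Fin (2 * m i)) (Fin (2 * m i)) (PowerSeries ℚ)}

/-- **Subtorsors through the period matrices of sums of fibres**, with the index zero. -/
theorem sub_fam5 (hm : ∀ i, 2 ≤ m i) {e : Fin r → ℕ} (h : ∀ i, FV (e i) (P i)) (hmax : Max P) :
    ∃ G0 : ℕ, 1 ≤ G0 ∧ ∃ b₀ : ℕ, (∀ α : ℂ, (b₀ : ℝ) < ‖α‖ → ∀ i a c, Cvc (1 / α) (P i a c)) ∧
    (∀ α : ℂ, (b₀ : ℝ) < ‖α‖ → ∀ i, (Mv (P i) (1 / α))ᵀ * SS ℂ (2 * m i) * Mv (P i) (1 / α) = SS ℂ (2 * m i)) ∧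
    ∀ g : ℕ, G0 ≤ g → ∀ g₀ A₀ D s : ℕ, ∃ Ex : ℕ, ∀ (b : ℕ) (ξ : ℂ), ((b : ℝ) + 2) ^ Ex ≤ ‖ξ‖ → Ht g₀ A₀ ξ →
    (g * b : ℝ) + b₀ + 1 < ‖ξ‖ ∧
    ∀ (c : Fin s → Fin r) (u : Fin s → ℕ), (∀ a, u a ≤ b) → (∀ a a', a ≠ a' → c a = c a' → u a ≠ u a') →
    ∀ (C : ∀ a, Matrix (Fin (2 * m (c a))) (Fin (2 * m (c a))) ℂ)
      (M A : ∀ a, Matrix (Fin (2 * m (c a))) (Fin (2 * m (c a))) ℚ) (q : ℂ) (κ : Fin s → ℂ), (∀ a, (C a).det ≠ 0) →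
    q ≠ 0 → (∀ a, C a * cq (M a) = q • (NN ℂ (2 * m (c a)) * C a)) → (∀ a, κ a ≠ 0) →
    (∀ a, C a * cq (A a) * (C a)ᵀ = κ a • SS ℂ (2 * m (c a))) →
    ∀ K : Subfield ℂ, Bdd D K →
    Concl (fun a => m (c a)) K (fun a => Mv (P (c a)) (1 / (ξ - ((g * u a : ℕ) : ℂ))) * C a) := by
  obtain ⟨G0, hG0, b₀, hb₀, hb₁, hmain⟩ := sub_fam4 hm h hmax
  refine ⟨G0, hG0, b₀, hb₀, hb₁, fun g hg g₀ A₀ D s => ?_⟩
  obtain ⟨Ex, hE⟩ := hmain g hg g₀ (A₀ + 1) D s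
  obtain ⟨B, hB⟩ := Pool.Agent.Y119.HA.ht_add g₀ A₀ g
  obtain ⟨N₁, hN₁⟩ := exists_nat_ge B
  refine ⟨2 * Ex + N₁ + g + b₀ + 2, fun b ξ hξ hHt => ?_⟩
  have hb0 : (0 : ℝ) ≤ b := Nat.cast_nonneg b
  have hB1 : (1 : ℝ) ≤ (b : ℝ) + 2 := by linarith
  have hB2 : (2 : ℝ) ≤ (b : ℝ) + 2 := by linarith
  have hg0 : (0 : ℝ) ≤ g := Nat.cast_nonneg g
  have hbb : (0 : ℝ) ≤ b₀ := Nat.cast_nonneg b₀
  have hNN : (0 : ℝ) ≤ N₁ := Nat.cast_nonneg N₁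
  -- powers
  have hp1 : (N₁ : ℝ) + g + b₀ + 1 ≤ ((b : ℝ) + 2) ^ (N₁ + g + b₀ + 1) := by
    refine le_trans ?_ (pow_le_pow_left₀ (by norm_num) hB2 _)
    exact_mod_cast (Nat.lt_two_pow_self (n := N₁ + g + b₀ + 1)).le
  have hp2 : (1 : ℝ) ≤ ((b : ℝ) + 2) ^ (2 * Ex) := one_le_pow₀ hB1
  have hsplit : ((b : ℝ) + 2) ^ (2 * Ex + N₁ + g + b₀ + 2) =
      ((b : ℝ) + 2) ^ (2 * Ex) * (((b : ℝ) + 2) ^ (N₁ + g + b₀ + 1) * ((b : ℝ) + 2)) := by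
    rw [← pow_succ, ← pow_add]
    congr 1
    omega
  have hX : ((N₁ : ℝ) + g + b₀ + 1) * ((b : ℝ) + 2) ≤ ((b : ℝ) + 2) ^ (N₁ + g + b₀ + 1) * ((b : ℝ) + 2) :=
    mul_le_mul_of_nonneg_right hp1 (by linarith)
  set Y := ((b : ℝ) + 2) ^ (N₁ + g + b₀ + 1) * ((b : ℝ) + 2) with hY
  set Z := ((b : ℝ) + 2) ^ (2 * Ex) with hZ
  have hY0 : (0 : ℝ) ≤ Y := by positivity
  have hZY : Z * Y ≤ ‖ξ‖ := by rw [← hsplit]; exact hξ
  have hYZ : Y ≤ Z * Y := by nlinarith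
  have hYξ : Y ≤ ‖ξ‖ := hYZ.trans hZY
  have hYbig : (N₁ : ℝ) + g * b + 2 * g + b₀ + 2 ≤ Y := by nlinarith [mul_nonneg hNN hb0, mul_nonneg hbb hb0]
  have hY2 : (2 : ℝ) ≤ Y := by nlinarith [mul_nonneg hg0 hb0]
  have hZg : Z + g ≤ Z * Y := by
    have h1 : (0 : ℝ) ≤ (Z - 1) * (Y - 1) := mul_nonneg (by linarith) (by linarith)
    nlinarith [mul_nonneg hg0 hb0]
  have hHt' := hB ξ (by
    have : (N₁ : ℝ) ≤ ‖ξ‖ := by nlinarith [mul_nonneg hg0 hb0]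
    linarith) hHt
  have hnorm : ‖ξ‖ - g ≤ ‖ξ + (g : ℂ)‖ := by
    have h1 := norm_sub_norm_le ξ (-(g : ℂ))
    rw [norm_neg, Complex.norm_natCast, sub_neg_eq_add] at h1
    exact h1
  have hbig : (((b + 1 : ℕ) : ℝ) + 2) ^ Ex ≤ ‖ξ + (g : ℂ)‖ := by
    have h1 : (((b + 1 : ℕ) : ℝ) + 2) ^ Ex ≤ Z := by
      rw [hZ, pow_mul]
      refine pow_le_pow_left₀ (by positivity) ?_ _
      push_cast
      nlinarith
    linarith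
  obtain ⟨-, hmm⟩ := hE (b + 1) (ξ + g) hbig hHt'
  refine ⟨by nlinarith, fun c u hub huc => ?_⟩
  have h1 := hmm c (fun a => u a + 1) (fun a => ⟨by omega, by have := hub a; omega⟩)
    (fun a a' haa hc hu => huc a a' haa hc (by omega))
  have h2 : ∀ a, (ξ + (g : ℂ)) - ((g * (u a + 1) : ℕ) : ℂ) = ξ - ((g * u a : ℕ) : ℂ) := by
    intro a
    push_cast
    ring
  simp only [h2] at h1
  exact h1

end Pool.Agent.W2helper4.TS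

end
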