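import Pool.Agent.W2helper33.BD.Omega

/-!
# Tangent vectors of the relations of bounded degree, and the Lie algebra of a subtorsor
-/

set_option autoImplicit false
set_option linter.unusedSectionVars false

open Matrix MvPolynomial Module

noncomputable section

namespace Pool.Agent.W2helper4.TS

open Pool.Agent.TH127.PT Pool.Agent.TH119.MX Pool.Agent.TH119.DR Pool.Agent.Y123.ST Pool.Agent.W2helper33.OQ
  Pool.Agent.W2helper33.BD

variable {N : Type} [Fintype N] [DecidableEq N] {K : Subfield ℂ} {T : Set (Matrix N N ℂ)}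

/-- The matrices `V` such that `V c` is tangent at `c` to all relations of degree at most `d` over `K`. -/
def Tan (K : Subfield ℂ) (d : ℕ) (c : Matrix N N ℂ) : Submodule ℂ (Matrix N N ℂ) where
  carrier := {V | ∀ p : MvPolynomial (N × N) ℂ, (∀ m, p.coeff m ∈ K) → p.totalDegree ≤ d → eval (fl c) p = 0 →
    dd p (fl c) (fl (V * c)) = 0}
  zero_mem' := by
    intro p _ _ _
    rw [Matrix.zero_mul, fl_zero, dd_zero_right]
  add_mem' := by
    intro a b ha hb p h1 h2 h3
    rw [Matrix.add_mul, fl_add, dd_add_right, ha p h1 h2 h3, hb p h1 h2 h3, add_zero]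
  smul_mem' := by
    intro t a ha p h1 h2 h3
    rw [Matrix.smul_mul, fl_smul, dd_smul_right, ha p h1 h2 h3, mul_zero]

/-- **Descent of first order.** -/
theorem tan_desc (hT : IsSubtorsor K T) {d : ℕ} {c V : Matrix N N ℂ} (hc : c ∈ T) (hV : V ∈ Tan K d c)
    {P : MvPolynomial (N × N) ℂ} (hP : Van T P) (hd : P.totalDegree ≤ d) : dd P (fl c) (fl (V * c)) = 0 := by
  classical
  let S := P.support
  let F : (S → ℂ) → MvPolynomial (N × N) ℂ := fun v => ∑ m : S, monomial (m : (N × N) →₀ ℕ) (v m)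
  have Fadd : ∀ v w, F (v + w) = F v + F w := by
    intro v w
    simp only [F, Pi.add_apply, map_add, Finset.sum_add_distrib]
  have Fsmul : ∀ (a : ℂ) v, F (a • v) = a • F v := by
    intro a v
    simp only [F, Pi.smul_apply, Finset.smul_sum, smul_monomial]
  let W : Submodule ℂ (S → ℂ) :=
    { carrier := {v | Van T (F v)}
      zero_mem' := by
        intro x _
        have : F 0 = 0 := by simp [F]
        rw [this, map_zero]
      add_mem' := by
        intro v w hv hw x hx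
        rw [Fadd, map_add, hv x hx, hw x hx, add_zero]
      smul_mem' := by
        intro a v hv x hx
        rw [Fsmul, smul_eval, hv x hx, mul_zero] }
  have hW : DefOver K W := by
    refine defOver_of_aut W fun σ hσ v hv => ?_
    have h1 := van_aut hT hσ hv
    have h2 : (F v).map (σ : ℂ →+* ℂ) = F (fun i => σ (v i)) := by
      simp only [F, map_sum, map_monomial]
      rfl
    rw [h2] at h1
    exact h1
  have hPF : F (fun m => P.coeff m) = P := by
    simp only [F]
    rw [Finset.sum_coe_sort S (fun m => monomial m (P.coeff m))]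
    exact P.support_sum_monomial_coeff
  have hmem : (fun m : S => P.coeff m) ∈ W := by
    show Van T (F _)
    rw [hPF]
    exact hP
  have hdeg : ∀ v, (F v).totalDegree ≤ d := by
    intro v
    refine (totalDegree_finsetSum _ _).trans (Finset.sup_le fun m _ => ?_)
    refine (totalDegree_monomial_le _ _).trans ?_
    exact (le_totalDegree m.2).trans hd
  have key : ∀ v ∈ Submodule.span ℂ {w : S → ℂ | w ∈ W ∧ ∀ a, w a ∈ K}, dd (F v) (fl c) (fl (V * c)) = 0 := by
    intro v hv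
    induction hv using Submodule.span_induction with
    | mem w hw =>
      obtain ⟨hw1, hw2⟩ := hw
      have hcoef : ∀ m, (F w).coeff m ∈ K := by
        intro m
        simp only [F, coeff_sum, coeff_monomial]
        refine sum_mem fun i _ => ?_
        split_ifs
        · exact hw2 i
        · exact K.zero_mem
      exact hV _ hcoef (hdeg w) (hw1 c hc)
    | zero =>
      have : F 0 = 0 := by simp [F]
      have h2 := dd_C (0 : ℂ) (fl c) (fl (V * c))
      rwa [C_0, ← this] at h2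
    | add v w _ _ hv hw => rw [Fadd, dd_add, hv, hw, add_zero]
    | smul a v _ hv => rw [Fsmul, dd_smul, hv, mul_zero]
  have h1 := key _ (hW hmem)
  rw [hPF] at h1
  exact h1

/-- the derivative of the conjugates -/
theorem dd_cj (ψ : N × N → ℂ) (V Z : Matrix N N ℂ) {c : Matrix N N ℂ} (hc : IsUnit c) :
    dd (cj ψ (c⁻¹ * Z * c)) (fl c) (fl (V * c)) = c.det * (pr ψ (V * Z - Z * V) + V.trace * pr ψ Z) := by
  have hmi : c * c⁻¹ = 1 := Matrix.mul_nonsing_inv c ((Matrix.isUnit_iff_isUnit_det c).1 hc)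
  have h1 := hasDerivAt_eval (y := fun s : ℂ => fl (NormedSpace.exp (s • V) * c)) (fun b => hasDerivAt_left V c b 0)
    (cj ψ (c⁻¹ * Z * c))
  have h2 : (fun s : ℂ => eval (fl (NormedSpace.exp (s • V) * c)) (cj ψ (c⁻¹ * Z * c))) = fun s : ℂ =>
      (Complex.exp (s * V.trace) * c.det) * pr ψ (NormedSpace.exp (s • V) * Z * NormedSpace.exp (-(s • V))) := by
    funext s
    rw [eval_cj _ _ _ ((isUnit_exp' _).mul hc), Matrix.det_mul, det_exp, Matrix.trace_smul, smul_eq_mul]
    congr 2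
    rw [Matrix.mul_inv_rev, exp_inv]
    have h3 : NormedSpace.exp (s • V) * c * (c⁻¹ * Z * c) * (c⁻¹ * NormedSpace.exp (-(s • V))) =
      NormedSpace.exp (s • V) * (c * c⁻¹) * Z * (c * c⁻¹) * NormedSpace.exp (-(s • V)) := by
      simp only [Matrix.mul_assoc]
    rw [h3, hmi, Matrix.mul_one, Matrix.mul_one]
  rw [h2, zero_smul, NormedSpace.exp_zero, Matrix.one_mul] at h1
  have h4 : HasDerivAt (fun s : ℂ => Complex.exp (s * V.trace) * c.det) (V.trace * c.det) 0 := by
    have h5 : HasDerivAt (fun s : ℂ => s * V.trace) V.trace 0 := by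
      have h6 := (hasDerivAt_id (0 : ℂ)).mul_const V.trace
      rw [one_mul] at h6
      exact h6
    have h6 := (h5.cexp).mul_const c.det
    rw [zero_mul, Complex.exp_zero, one_mul] at h6
    exact h6
  have h5 := h4.mul (hasDerivAt_conj ψ V Z)
  have h6 := h1.unique h5
  rw [h6, zero_mul, Complex.exp_zero, one_mul, zero_smul, neg_zero, NormedSpace.exp_zero, Matrix.one_mul,
    Matrix.mul_one]
  ring

/-- Tangent vectors normalise the Lie algebra. -/
theorem tan_nr (hT : IsSubtorsor K T) {d : ℕ} (hd : 1 + D0 N ≤ d) {c V : Matrix N N ℂ} (hc : c ∈ T)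
    (hV : V ∈ Tan K d c) : V ∈ Nr (LM T) := by
  intro w hw
  refine mem_of_perp fun ψ hψ => ?_
  have hcu := hT.isUnit c hc
  have h1 : Van T (cj ψ (c⁻¹ * w * c)) := by
    intro x hx
    rw [eval_cj _ _ _ (hT.isUnit x hx), hψ _ (conj_RM hT hx (conj_LM hT hc hw)), mul_zero]
  have h2 := tan_desc hT hc hV h1 ((deg_cj _ _).trans hd)
  rw [dd_cj _ _ _ hcu, hψ w hw, mul_zero, add_zero] at h2
  exact (mul_eq_zero.1 h2).resolve_left ((Matrix.isUnit_iff_isUnit_det _).1 hcu).ne_zero

section dm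

variable {q : ℕ} (c V : Matrix N N ℂ)

/-- the derivative of a matrix of polynomials -/
def dM (A : Matrix (Fin q) (Fin q) (MvPolynomial (N × N) ℂ)) : Matrix (Fin q) (Fin q) ℂ :=
  A.map fun P => dd P (fl c) (fl (V * c))

theorem dM_mul (A B : Matrix (Fin q) (Fin q) (MvPolynomial (N × N) ℂ)) :
    dM c V (A * B) = dM c V A * B.map (eval (fl c)) + A.map (eval (fl c)) * dM c V B := by
  ext i j
  change dd ((A * B) i j) _ _ = (dM c V A * B.map (eval (fl c))) i j + (A.map (eval (fl c)) * dM c V B) i j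
  rw [Matrix.mul_apply, Matrix.mul_apply, Matrix.mul_apply, dd_sum, ← Finset.sum_add_distrib]
  refine Finset.sum_congr rfl fun k _ => ?_
  rw [dd_mul]
  rfl

theorem dM_C (B : Matrix (Fin q) (Fin q) ℂ) : dM c V (B.map (C : ℂ → MvPolynomial (N × N) ℂ)) = 0 := by
  ext i j
  exact dd_C _ _ _

theorem dM_sub (A B : Matrix (Fin q) (Fin q) (MvPolynomial (N × N) ℂ)) : dM c V (A - B) = dM c V A - dM c V B := by
  ext i j
  have h1 : ∀ P : MvPolynomial (N × N) ℂ, dd (-P) (fl c) (fl (V * c)) = -dd P (fl c) (fl (V * c)) := by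
    intro P
    have h2 := dd_smul (-1 : ℂ) P (fl c) (fl (V * c))
    rwa [neg_one_smul, neg_one_mul] at h2
  change dd (A i j - B i j) _ _ = dd (A i j) _ _ - dd (B i j) _ _
  rw [sub_eq_add_neg, dd_add, h1, ← sub_eq_add_neg]

theorem dM_pow {A : Matrix (Fin q) (Fin q) (MvPolynomial (N × N) ℂ)} {a : ℂ} (hA : A.map (eval (fl c)) = a • 1)
    (k : ℕ) : dM c V (A ^ (k + 1)) = ((k + 1 : ℕ) : ℂ) • (a ^ k • dM c V A) := by
  induction k with
  | zero => rw [zero_add, pow_one, pow_zero, one_smul, Nat.cast_one, one_smul]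
  | succ k ih =>
    have h1 : (A ^ (k + 1)).map (eval (fl c)) = a ^ (k + 1) • (1 : Matrix (Fin q) (Fin q) ℂ) := by
      have h3 := map_pow ((eval (fl c)).mapMatrix (m := Fin q)) A (k + 1)
      rw [RingHom.mapMatrix_apply, RingHom.mapMatrix_apply, hA, smul_pow, one_pow] at h3
      exact h3
    rw [pow_succ, dM_mul, ih, hA, h1]
    rw [Matrix.mul_smul, Matrix.mul_one, Matrix.smul_mul, Matrix.one_mul, smul_smul, smul_smul, smul_smul,
      ← add_smul]
    congr 1
    push_cast
    ring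

end dm

variable {q : ℕ} {Z : Fin q → Matrix N N ℂ} {φ : Fin q → (N × N → ℂ)}

/-- the matrix of the action of the Lie algebra -/
def Rm (Z : Fin q → Matrix N N ℂ) (φ : Fin q → (N × N → ℂ)) (V : Matrix N N ℂ) : Matrix (Fin q) (Fin q) ℂ :=
  Matrix.of fun i j => pr (φ i) (V * Z j - Z j * V)

/-- The derivative of the polynomials which express the commutation. -/
theorem comm_tan (hT : IsSubtorsor K T) {d m : ℕ} (hm : 0 < m) (hd : m * (1 + D0 N) ≤ d) {c V : Matrix N N ℂ}
    (hc : c ∈ T) (hV : V ∈ Tan K d c) (hQ : QB (LM T) (Nr (LM T)) Z φ) (B : Matrix (Fin q) (Fin q) ℂ)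
    (hB : ∀ x ∈ T, Commute (rho Z φ (x * c⁻¹) ^ m) B) : Commute (Rm Z φ V) B := by
  classical
  have hcu := hT.isUnit c hc
  have hdet : c.det ≠ 0 := ((Matrix.isUnit_iff_isUnit_det c).1 hcu).ne_zero
  have hmi : c * c⁻¹ = 1 := Matrix.mul_nonsing_inv c ((Matrix.isUnit_iff_isUnit_det c).1 hcu)
  let PP : Matrix (Fin q) (Fin q) (MvPolynomial (N × N) ℂ) := Matrix.of fun i j => cj (φ i) (c⁻¹ * Z j * c)
  have hPP : ∀ x, IsUnit x → PP.map (eval (fl x)) = x.det • rho Z φ (x * c⁻¹) := by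
    intro x hx
    ext i j
    change eval (fl x) (cj (φ i) (c⁻¹ * Z j * c)) = x.det * pr (φ i) (x * c⁻¹ * Z j * (x * c⁻¹)⁻¹)
    rw [eval_cj _ _ _ hx]
    congr 2
    rw [Matrix.mul_inv_rev, Matrix.nonsing_inv_nonsing_inv c ((Matrix.isUnit_iff_isUnit_det c).1 (hT.isUnit c hc))]
    simp only [Matrix.mul_assoc]
  let EE : Matrix (Fin q) (Fin q) (MvPolynomial (N × N) ℂ) := PP ^ m * B.map C - B.map C * PP ^ m
  have hBC : ∀ x : Matrix N N ℂ, (B.map (C : ℂ → MvPolynomial (N × N) ℂ)).map (eval (fl x)) = B := by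
    intro x
    ext i j
    simp
  have hEE : ∀ x, IsUnit x → EE.map (eval (fl x)) =
      x.det ^ m • (rho Z φ (x * c⁻¹) ^ m * B - B * rho Z φ (x * c⁻¹) ^ m) := by
    intro x hx
    have h2 : (PP ^ m).map (eval (fl x)) = x.det ^ m • rho Z φ (x * c⁻¹) ^ m := by
      have h3 := map_pow ((eval (fl x)).mapMatrix (m := Fin q)) PP m
      rw [RingHom.mapMatrix_apply, RingHom.mapMatrix_apply, hPP x hx, smul_pow] at h3
      exact h3
    have h3 : EE.map (eval (fl x)) = (PP ^ m * B.map C).map (eval (fl x)) - (B.map C * PP ^ m).map (eval (fl x)) :=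
      Matrix.map_sub _ (fun a b => map_sub _ a b) _ _
    rw [h3, Matrix.map_mul, Matrix.map_mul, hBC, h2, Matrix.smul_mul, Matrix.mul_smul, smul_sub]
  have hdeg : ∀ i j, (EE i j).totalDegree ≤ d := by
    intro i j
    have h0 : ∀ i j, (PP i j).totalDegree ≤ 1 + D0 N := fun i j => deg_cj _ _
    have h1 := fun i j => deg_pow h0 m i j
    have h2 : ∀ i j, ((B.map (C : ℂ → MvPolynomial (N × N) ℂ)) i j).totalDegree ≤ 0 := fun i j => by
      rw [Matrix.map_apply, totalDegree_C]
    change ((PP ^ m * B.map (C : ℂ → MvPolynomial (N × N) ℂ)) i j -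
      (B.map (C : ℂ → MvPolynomial (N × N) ℂ) * PP ^ m) i j).totalDegree ≤ d
    refine (totalDegree_sub _ _).trans (max_le ?_ ?_)
    · exact (deg_mul h1 h2 i j).trans (by omega)
    · exact (deg_mul h2 h1 i j).trans (by omega)
  have hvan : ∀ i j, Van T (EE i j) := by
    intro i j x hx
    have h1 := congrFun (congrFun (hEE x (hT.isUnit x hx)) i) j
    have h2 : rho Z φ (x * c⁻¹) ^ m * B - B * rho Z φ (x * c⁻¹) ^ m = 0 := sub_eq_zero.2 (hB x hx)
    rw [h2, smul_zero] at h1
    exact h1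
  have hd0 : dM c V EE = 0 := by
    ext i j
    exact tan_desc hT hc hV (hvan i j) (hdeg i j)
  have hA : PP.map (eval (fl c)) = c.det • (1 : Matrix (Fin q) (Fin q) ℂ) := by
    rw [hPP c hcu, hmi, rho_one hQ]
  have hL : dM c V PP = c.det • (Rm Z φ V + V.trace • 1) := by
    ext i j
    change dd (cj (φ i) (c⁻¹ * Z j * c)) (fl c) (fl (V * c)) = c.det * (pr (φ i) (V * Z j - Z j * V) +
      V.trace * (1 : Matrix (Fin q) (Fin q) ℂ) i j)
    rw [dd_cj _ _ _ hcu, hQ.dual, Matrix.one_apply]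
  obtain ⟨k, rfl⟩ : ∃ k, m = k + 1 := ⟨m - 1, by omega⟩
  have hsub : dM c V EE = dM c V (PP ^ (k + 1) * B.map C) - dM c V (B.map C * PP ^ (k + 1)) := dM_sub c V _ _
  rw [hsub, dM_mul, dM_mul, dM_C, Matrix.mul_zero, Matrix.zero_mul, add_zero, zero_add, hBC, dM_pow c V hA, hL] at hd0
  simp only [Matrix.smul_mul, Matrix.mul_smul, ← smul_sub, Matrix.add_mul, Matrix.mul_add, Matrix.one_mul,
    Matrix.mul_one, add_sub_add_right_eq_sub] at hd0
  have h1 : ((k + 1 : ℕ) : ℂ) ≠ 0 := Nat.cast_ne_zero.2 (by omega)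
  have h2 := (smul_eq_zero.1 hd0).resolve_left h1
  have h3 := (smul_eq_zero.1 h2).resolve_left (pow_ne_zero _ hdet)
  have h4 := (smul_eq_zero.1 h3).resolve_left hdet
  exact sub_eq_zero.1 h4

/-- **The brackets of tangent vectors act trivially on the normaliser modulo the Lie algebra.** -/
theorem tan_br (hK : ∀ x ∈ K, IsAlgebraic ℚ x) (hT : IsSubtorsor K T) {d : ℕ}
    (hd : JJ (Fintype.card N * Fintype.card N) * (1 + D0 N) ≤ d) {c V V' : Matrix N N ℂ} (hc : c ∈ T)
    (hV : V ∈ Tan K d c) (hV' : V' ∈ Tan K d c) {W : Matrix N N ℂ} (hW : W ∈ Nr (LM T)) :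
    (V * V' - V' * V) * W - W * (V * V' - V' * V) ∈ LM T := by
  classical
  set m := JJ (Fintype.card N * Fintype.card N) with hm
  have hm0 : 0 < m := JJ_pos _
  have hd1 : 1 + D0 N ≤ d := le_trans (by nlinarith) hd
  obtain ⟨q, hq, Z, φ, hQ⟩ := exists_QB (LM_le_Nr (T := T))
  have h1 : ∀ V ∈ Tan K d c, ∀ x ∈ T, Commute (Rm Z φ V) (rho Z φ (x * c⁻¹) ^ m) := by
    intro V hV x hx
    exact comm_tan hT hm0 hd hc hV hQ _ fun y hy => comm_T hK hT hc hQ hq hy hx
  have h2 : Commute (Rm Z φ V) (Rm Z φ V') :=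
    comm_tan hT hm0 hd hc hV hQ _ fun y hy => (h1 V' hV' y hy).symm
  have nV := tan_nr hT hd1 hc hV
  have nV' := tan_nr hT hd1 hc hV'
  have hnr : ∀ {A B : Matrix N N ℂ}, A ∈ Nr (LM T) → B ∈ Nr (LM T) → A * B - B * A ∈ Nr (LM T) := by
    intro A B hA hB w hw
    have h3 := Submodule.sub_mem _ (hA _ (hB w hw)) (hB _ (hA w hw))
    have h4 : A * (B * w - w * B) - (B * w - w * B) * A - (B * (A * w - w * A) - (A * w - w * A) * B) =
        (A * B - B * A) * w - w * (A * B - B * A) := by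
      simp only [Matrix.mul_sub, Matrix.sub_mul, Matrix.mul_assoc]
      abel
    rwa [h4] at h3
  have h3 : ∀ V V' : Matrix N N ℂ, V ∈ Nr (LM T) → V' ∈ Nr (LM T) → ∀ i j,
      pr (φ i) (V * (V' * Z j - Z j * V') - (V' * Z j - Z j * V') * V) = (Rm Z φ V * Rm Z φ V') i j := by
    intro V V' nV nV' i j
    rw [Matrix.mul_apply]
    have h4 := hQ.dec _ (hnr nV' (hQ.mem j))
    have h5 := hQ.pp i _ (nV _ h4)
    set U := V' * Z j - Z j * V' with hU
    have h6 : V * (U - ∑ l, pr (φ l) U • Z l) - (U - ∑ l, pr (φ l) U • Z l) * V =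
        (V * U - U * V) - ∑ l, pr (φ l) U • (V * Z l - Z l * V) := by
      rw [Matrix.mul_sub, Matrix.sub_mul, Finset.mul_sum, Finset.sum_mul]
      simp only [smul_sub, Finset.sum_sub_distrib, Matrix.mul_smul, Matrix.smul_mul]
      abel
    rw [h6, map_sub, sub_eq_zero, map_sum] at h5
    rw [h5]
    refine Finset.sum_congr rfl fun l _ => ?_
    rw [map_smul, smul_eq_mul, mul_comm]
    rfl
  have hjac : ∀ W : Matrix N N ℂ, (V * V' - V' * V) * W - W * (V * V' - V' * V) =
      V * (V' * W - W * V') - (V' * W - W * V') * V - (V' * (V * W - W * V) - (V * W - W * V) * V') := by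
    intro W
    simp only [Matrix.mul_sub, Matrix.sub_mul, Matrix.mul_assoc]
    abel
  have hZj : ∀ j, (V * V' - V' * V) * Z j - Z j * (V * V' - V' * V) ∈ LM T := by
    intro j
    have h4 := hQ.dec _ (hnr (hnr nV nV') (hQ.mem j))
    have h5 : ∀ i, pr (φ i) ((V * V' - V' * V) * Z j - Z j * (V * V' - V' * V)) = 0 := by
      intro i
      rw [hjac, map_sub, h3 V V' nV nV', h3 V' V nV' nV, h2.eq, sub_self]
    simpa only [h5, zero_smul, Finset.sum_const_zero, sub_zero] using h4
  have h4 : W = (W - ∑ j, pr (φ j) W • Z j) + ∑ j, pr (φ j) W • Z j := by abel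
  have h5 := (hnr nV nV') _ (hQ.dec _ hW)
  have h6 : (V * V' - V' * V) * W - W * (V * V' - V' * V) = ((V * V' - V' * V) * (W - ∑ j, pr (φ j) W • Z j) -
      (W - ∑ j, pr (φ j) W • Z j) * (V * V' - V' * V)) + ∑ j, pr (φ j) W • ((V * V' - V' * V) * Z j -
      Z j * (V * V' - V' * V)) := by
    conv_lhs => rw [h4]
    rw [Matrix.mul_add, Matrix.add_mul, Finset.mul_sum, Finset.sum_mul]
    simp only [smul_sub, Finset.sum_sub_distrib, Matrix.mul_smul, Matrix.smul_mul]
    abel
  rw [h6]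
  exact Submodule.add_mem _ h5 (Submodule.sum_mem _ fun j _ => Submodule.smul_mem _ _ (hZj j))

end Pool.Agent.W2helper4.TS

end
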