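import Pool.Agent.W2helper4.TS.Ult2

/-!
# At most one block is exceptional
-/

set_option autoImplicit false
set_option linter.unusedSectionVars false
set_option maxHeartbeats 1000000

open Matrix Module

noncomputable section

namespace Pool.Agent.W2helper4.TS

open Pool.Agent.TH127.PT Pool.Agent.Y123.ST Pool.Agent.W2helper33.OQ Pool.Agent.W2helper33.BD Pool.Agent.Y113.MT
open Pool.Agent.TH119.DR (DefOver)

section lin
variable {n : ℕ} {J : Matrix (Fin n) (Fin n) ℂ} {𝔨 : Submodule ℂ (Matrix (Fin n) (Fin n) ℂ)}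

theorem nn_form {L : Submodule ℂ (Matrix (Fin n) (Fin n) ℂ)} : ∀ x ∈ nn J L, x * J + J * xᵀ = 0 := fun _ hx => hx.1

/-- **The codimension of a proper subalgebra is at least `n - 1`.** -/
theorem codim_ge (hJ : J * J = -1) (hJt : Jᵀ = -J) (hk : ∀ x ∈ 𝔨, x * J + J * xᵀ = 0)
    (hbr : ∀ x ∈ 𝔨, ∀ y ∈ 𝔨, x * y - y * x ∈ 𝔨) {w : Fin n → ℂ} (hww : RR J w w ∉ 𝔨) : n ≤ finrank ℂ (PP J 𝔨) + 1 := by
  have h1 := ker_large hJ hJt hk hbr hww
  have h2 := LinearMap.finrank_range_add_finrank_ker (evw J 𝔨 w)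
  have h3 := finrank_Iw (J := J) (𝔨 := 𝔨) w
  omega

theorem finrank_PP_lt (hJ : J * J = -1) {E : Submodule ℂ (Matrix (Fin n) (Fin n) ℂ)}
    (hsum : ∀ v, ∃ k ∈ 𝔨, ∃ e ∈ E, vecMulVec v v * J = k + e) {e : Matrix (Fin n) (Fin n) ℂ} (he : e ∈ E) (hek : e ∈ 𝔨)
    (he0 : e ≠ 0) : finrank ℂ (PP J 𝔨) + 1 ≤ finrank ℂ E := by
  let e' : E := ⟨e, he⟩
  have he' : e' ≠ 0 := fun h => he0 (congrArg Subtype.val h)
  obtain ⟨Q, hQ⟩ := Submodule.exists_isCompl (Submodule.span ℂ {e'})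
  have h1 := Submodule.finrank_add_eq_of_isCompl hQ
  rw [finrank_span_singleton he'] at h1
  have h2 : finrank ℂ (PP J 𝔨) ≤ finrank ℂ (Q.map E.subtype) := by
    refine finrank_PP hJ fun v => ?_
    obtain ⟨k, hk, f, hf, h⟩ := hsum v
    have h3 : (⟨f, hf⟩ : E) ∈ Submodule.span ℂ {e'} ⊔ Q := by
      rw [hQ.sup_eq_top]
      exact Submodule.mem_top
    obtain ⟨x, hx, y, hy, hxy⟩ := Submodule.mem_sup.1 h3
    obtain ⟨t, rfl⟩ := Submodule.mem_span_singleton.1 hx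
    have h4 : t • e + (y : Matrix (Fin n) (Fin n) ℂ) = f := congrArg Subtype.val hxy
    refine ⟨k + t • e, 𝔨.add_mem hk (𝔨.smul_mem t hek), (y : Matrix (Fin n) (Fin n) ℂ), ⟨y, hy, rfl⟩, ?_⟩
    rw [h, ← h4, add_assoc]
  have h3 : finrank ℂ (Q.map E.subtype) = finrank ℂ Q :=
    LinearEquiv.finrank_eq (Submodule.equivMapOfInjective E.subtype (Submodule.injective_subtype E) Q).symm
  omega

end lin

section E00
variable {k : ℕ}

/-- the centraliser of `N` in the symplectic Lie algebra -/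
def E00 (k : ℕ) : Submodule ℂ (Matrix (Fin (2 * k)) (Fin (2 * k)) ℂ) where
  carrier := {Y | Y * NN ℂ (2 * k) - NN ℂ (2 * k) * Y = 0 ∧ Y * SS ℂ (2 * k) + SS ℂ (2 * k) * Yᵀ = 0}
  zero_mem' := ⟨by rw [Matrix.zero_mul, Matrix.mul_zero, sub_zero], by
    rw [Matrix.zero_mul, transpose_zero, Matrix.mul_zero, add_zero]⟩
  add_mem' := by
    rintro X Y ⟨h1, h2⟩ ⟨h3, h4⟩
    refine ⟨?_, ?_⟩
    · have h5 : (X + Y) * NN ℂ (2 * k) - NN ℂ (2 * k) * (X + Y) = (X * NN ℂ (2 * k) - NN ℂ (2 * k) * X) +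
        (Y * NN ℂ (2 * k) - NN ℂ (2 * k) * Y) := by
        rw [Matrix.add_mul, Matrix.mul_add]
        abel
      rw [h5, h1, h3, add_zero]
    · have h5 : (X + Y) * SS ℂ (2 * k) + SS ℂ (2 * k) * (X + Y)ᵀ = (X * SS ℂ (2 * k) + SS ℂ (2 * k) * Xᵀ) +
        (Y * SS ℂ (2 * k) + SS ℂ (2 * k) * Yᵀ) := by
        rw [Matrix.add_mul, transpose_add, Matrix.mul_add]
        abel
      rw [h5, h2, h4, add_zero]
  smul_mem' := by
    rintro t X ⟨h1, h2⟩
    refine ⟨?_, ?_⟩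
    · rw [Matrix.smul_mul, Matrix.mul_smul, ← smul_sub, h1, smul_zero]
    · rw [Matrix.smul_mul, transpose_smul, Matrix.mul_smul, ← smul_add, h2, smul_zero]

/-- the grading element -/
def hh (k : ℕ) : Matrix (Fin (2 * k)) (Fin (2 * k)) ℂ := Matrix.diagonal fun i => ((2 * k - 1 : ℂ) / 2 - (i : ℕ))

theorem hh_N (k : ℕ) : hh k * NN ℂ (2 * k) - NN ℂ (2 * k) * hh k = (1 : ℂ) • NN ℂ (2 * k) := by
  ext i j
  unfold hh
  rw [Matrix.sub_apply, Matrix.diagonal_mul, Matrix.mul_diagonal, one_smul]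
  unfold NN
  rw [Matrix.of_apply]
  split_ifs with h
  · rw [h]
    push_cast
    ring
  · ring

theorem hh_S (k : ℕ) : hh k * SS ℂ (2 * k) + SS ℂ (2 * k) * (hh k)ᵀ = 0 := by
  ext i j
  unfold hh
  rw [Matrix.diagonal_transpose, Matrix.add_apply, Matrix.diagonal_mul, Matrix.mul_diagonal, Matrix.zero_apply, SS_apply]
  split_ifs with h
  · have h1 : ((i : ℕ) : ℂ) + (j : ℕ) + 1 = 2 * k := by exact_mod_cast h
    linear_combination (-(-1 : ℂ) ^ (i : ℕ)) * h1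
  · ring

theorem NN_ne (hk : 1 ≤ k) : NN ℂ (2 * k) ≠ 0 := by
  intro h
  have h1 := congrFun (congrFun h ⟨0, by omega⟩) ⟨1, by omega⟩
  unfold NN at h1
  rw [Matrix.of_apply] at h1
  simp at h1

theorem finrank_E00 (hk : 1 ≤ k) : finrank ℂ (E00 k) ≤ k := by
  have h1 : E00 k < E0 ℂ k := by
    refine lt_of_le_of_ne (fun Y hY => ⟨⟨0, by rw [hY.1, zero_smul]⟩, hY.2⟩) fun h => ?_
    have h2 : hh k ∈ E00 k := by
      rw [h]
      exact ⟨⟨1, hh_N k⟩, hh_S k⟩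
    have h3 := h2.1
    rw [hh_N, one_smul] at h3
    exact NN_ne hk h3
  have h2 := Submodule.finrank_lt_finrank_of_lt h1
  have h3 := finrank_E0 hk
  omega

/-- conjugates of similitudes -/
theorem conj_sim {p Y : Matrix (Fin (2 * k)) (Fin (2 * k)) ℂ} {β : ℂ} (hp : p⁻¹ * p = 1)
    (hps : p * SS ℂ (2 * k) * pᵀ = SS ℂ (2 * k)) (hY : Y * SS ℂ (2 * k) + SS ℂ (2 * k) * Yᵀ = β • SS ℂ (2 * k)) :
    p * Y * p⁻¹ * SS ℂ (2 * k) + SS ℂ (2 * k) * (p * Y * p⁻¹)ᵀ = β • SS ℂ (2 * k) := by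
  have h1 : p * Y * p⁻¹ * SS ℂ (2 * k) = p * (Y * SS ℂ (2 * k)) * pᵀ := by
    conv_lhs => rw [← hps]
    have h2 : p * Y * p⁻¹ * (p * SS ℂ (2 * k) * pᵀ) = p * Y * (p⁻¹ * p) * SS ℂ (2 * k) * pᵀ := by
      simp only [Matrix.mul_assoc]
    rw [h2, hp, Matrix.mul_one]
    simp only [Matrix.mul_assoc]
  have h3 : SS ℂ (2 * k) * (p * Y * p⁻¹)ᵀ = p * (SS ℂ (2 * k) * Yᵀ) * pᵀ := by
    conv_lhs => rw [← hps]
    have h2 : p * SS ℂ (2 * k) * pᵀ * (p * Y * p⁻¹)ᵀ = p * SS ℂ (2 * k) * (p⁻¹ * p)ᵀ * Yᵀ * pᵀ := by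
      rw [transpose_mul, transpose_mul, transpose_mul]
      simp only [Matrix.mul_assoc]
    rw [h2, hp, transpose_one, Matrix.mul_one]
    simp only [Matrix.mul_assoc]
  rw [h1, h3, ← Matrix.add_mul, ← Matrix.mul_add, hY, Matrix.mul_smul, Matrix.smul_mul, hps]

end E00

variable {s : ℕ} {m : Fin s → ℕ}

section block
variable {K : Subfield ℂ} {d : ℕ} {T : Set (Matrix (BI m) (BI m) ℂ)} {c : Matrix (BI m) (BI m) ℂ} {p : Bk m}

/-- the blocks of an element of the normaliser -/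
theorem nr_block {V : Bk m} (hV : bd V ∈ Nr (LM T)) (b : Fin s) : ∀ Z ∈ tt (LM T) b, V b * Z - Z * V b ∈ tt (LM T) b := by
  intro Z hZ
  have h5 := hV _ hZ
  change bd (Pi.single b (V b * Z - Z * V b) : Bk m) ∈ LM T
  rw [← bd_br] at h5
  convert h5 using 2
  funext b'
  rcases eq_or_ne b' b with rfl | hb
  · simp only [Pi.single_eq_same]
  · simp only [Pi.single_eq_of_ne hb, Matrix.mul_zero, Matrix.zero_mul, sub_zero]

theorem sim_nn {V : Bk m} (hV : bd V ∈ Nr (LM T)) (b : Fin s) {β : ℂ}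
    (h : V b * SS ℂ (2 * m b) + SS ℂ (2 * m b) * (V b)ᵀ = β • SS ℂ (2 * m b)) :
    V b - (β / 2) • 1 ∈ nn (SS ℂ (2 * m b)) (tt (LM T) b) := by
  refine ⟨?_, fun Z hZ => ?_⟩
  · have h1 : (V b - (β / 2) • (1 : Matrix (Fin (2 * m b)) (Fin (2 * m b)) ℂ)) * SS ℂ (2 * m b) +
        SS ℂ (2 * m b) * (V b - (β / 2) • 1)ᵀ =
        (V b * SS ℂ (2 * m b) + SS ℂ (2 * m b) * (V b)ᵀ) - (β / 2 + β / 2) • SS ℂ (2 * m b) := by
      simp only [Matrix.sub_mul, Matrix.mul_sub, Matrix.transpose_sub, Matrix.transpose_smul, Matrix.transpose_one,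
        Matrix.smul_mul, Matrix.mul_smul, Matrix.one_mul, Matrix.mul_one, add_smul]
      abel
    rw [h1, h, add_halves, sub_self]
  · have h1 : (V b - (β / 2) • (1 : Matrix (Fin (2 * m b)) (Fin (2 * m b)) ℂ)) * Z - Z * (V b - (β / 2) • 1) =
        V b * Z - Z * V b := by
      simp only [Matrix.sub_mul, Matrix.mul_sub, Matrix.smul_mul, Matrix.mul_smul, Matrix.one_mul, Matrix.mul_one,
        sub_sub_sub_cancel_right]
    rw [h1]
    exact nr_block hV b Z hZ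

/-- a nonzero element of the Lie algebra -/
theorem exists_vv (hm : ∀ a, 2 ≤ m a) (hK : ∀ x ∈ K, IsAlgebraic ℚ x) (hT : IsSubtorsor K T)
    (hd : JJ (Fintype.card (BI m) * Fintype.card (BI m)) * (1 + D0 (BI m)) ≤ d) (hcT : c ∈ T)
    (hp : ∀ b, (p b)⁻¹ * p b = 1)
    (hps : ∀ b, p b * SS ℂ (2 * m b) * (p b)ᵀ = SS ℂ (2 * m b)) (hHT : HT m K d c p)
    (a : Fin s) : ∃ v : Fin (2 * m a) → ℂ, v ≠ 0 ∧ RR (SS ℂ (2 * m a)) v v ∈ tt (LM T) a := by
  classical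
  set S := SS ℂ (2 * m a) with hS
  have hSS : S * S = -1 := SS_sq (m a)
  have hSt : Sᵀ = -S := SS_tr (m a)
  have hma := hm a
  let 𝔨 := Kk K d c T p a
  have hk : ∀ x ∈ 𝔨, x * S + S * xᵀ = 0 := fun x hx => hx.1
  have hbr : ∀ x ∈ 𝔨, ∀ y ∈ 𝔨, x * y - y * x ∈ 𝔨 := Kk_br hK hT hd hcT hp a
  have hsum := Kk_sum (T := T) hHT hp hps a
  have hfE := (Submodule.finrank_map_le ((LinearMap.mulLeft ℂ (p a)).comp (LinearMap.mulRight ℂ (p a)⁻¹))
    (E0 ℂ (m a))).trans (finrank_E0 (by omega))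
  have hPk : finrank ℂ (PP S 𝔨) ≤ m a + 1 := (finrank_PP hSS hsum).trans hfE
  obtain ⟨v, hv, hvk⟩ : ∃ v : Fin (2 * m a) → ℂ, v ≠ 0 ∧ ∀ u, RR S u v ∈ 𝔨 := by
    by_cases h : ∀ w, RR S w w ∈ 𝔨
    · refine ⟨Pi.single ⟨0, by omega⟩ 1, ?_, fun u => RR_pol h u _⟩
      intro h0
      have h1 := congrFun h0 ⟨0, by omega⟩
      rw [Pi.single_eq_same] at h1
      exact one_ne_zero h1
    · push Not at h
      obtain ⟨w, hw⟩ := h
      obtain ⟨v, hv, hv'⟩ := exists_rad hSS hSt hk hbr hw (by omega)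
      refine ⟨v, hv, fun u => RR_mem hSS hk hSt fun β hβ => ?_⟩
      rw [hv' β hβ, dotProduct_zero]
  obtain ⟨u, u', y, hu, hu', hy, huu⟩ := exists_uuy hSS hSt (by omega) hv
  refine ⟨v, hv, ?_⟩
  have h1 := Kk_br2 hK hT hd hcT hp a (hvk u) (hvk y) (hvk u') (hvk y)
  rw [dbl hSt hu hu' hy, bd_single_smul] at h1
  have h2 := Submodule.smul_mem _ (u ⬝ᵥ (S *ᵥ u'))⁻¹ h1
  rwa [smul_smul, inv_mul_cancel₀ huu, one_smul] at h2

/-- **At most one block is exceptional.** -/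
theorem block_two (hm : ∀ a, 2 ≤ m a) (hK : ∀ x ∈ K, IsAlgebraic ℚ x) (hT : IsSubtorsor K T)
    (hd : JJ (Fintype.card (BI m) * Fintype.card (BI m)) * (1 + D0 (BI m)) ≤ d) (hcT : c ∈ T)
    (hps : ∀ b, p b * SS ℂ (2 * m b) * (p b)ᵀ = SS ℂ (2 * m b)) (hHT : HT2 m K d c p) {a b : Fin s} (hab : b ≠ a)
    {w : Fin (2 * m b) → ℂ} (hw : RR (SS ℂ (2 * m b)) w w ∉ nn (SS ℂ (2 * m b)) (tt (LM T) b)) :
    ∀ w, bd (Pi.single a (vecMulVec w w * SS ℂ (2 * m a)) : Bk m) ∈ LM T := by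
  classical
  have hd1 : 1 + D0 (BI m) ≤ d := le_trans (by nlinarith [JJ_pos (Fintype.card (BI m) * Fintype.card (BI m))]) hd
  have hp : ∀ b, (p b)⁻¹ * p b = 1 := by
    intro b
    refine Matrix.nonsing_inv_mul _ ?_
    have h1 := congrArg Matrix.det (hps b)
    rw [Matrix.det_mul, Matrix.det_mul] at h1
    rw [isUnit_iff_ne_zero]
    intro h0
    rw [h0, zero_mul, zero_mul] at h1
    exact SS_det (F := ℂ) (m b) h1.symm
  have hp' : ∀ b, p b * (p b)⁻¹ = 1 := fun b => mul_eq_one_comm.1 (hp b)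
  have hma := hm a
  have hmb := hm b
  have hnr : ∀ V, bd V ∈ Tan K d c → bd V ∈ Nr (LM T) := fun V hV => tan_nr hT hd1 hcT hV
  -- the intersection for the block `b`
  have hb0 : ∀ e ∈ (E0 ℂ (m b)).map ((LinearMap.mulLeft ℂ (p b)).comp (LinearMap.mulRight ℂ (p b)⁻¹)),
      e ∈ nn (SS ℂ (2 * m b)) (tt (LM T) b) → e = 0 := by
    intro e he hen
    by_contra he0
    have hsum : ∀ v, ∃ k ∈ nn (SS ℂ (2 * m b)) (tt (LM T) b),
        ∃ e ∈ (E0 ℂ (m b)).map ((LinearMap.mulLeft ℂ (p b)).comp (LinearMap.mulRight ℂ (p b)⁻¹)),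
        vecMulVec v v * SS ℂ (2 * m b) = k + e := by
      intro v
      obtain ⟨k, hk', e, he, h⟩ := Kk_sum (T := T) hHT.ht hp hps b v
      exact ⟨k, Kk_le_nn hT hd1 hcT b hk', e, he, h⟩
    have h1 := finrank_PP_lt (SS_sq (m b)) hsum he hen he0
    have h2 := (Submodule.finrank_map_le ((LinearMap.mulLeft ℂ (p b)).comp (LinearMap.mulRight ℂ (p b)⁻¹))
      (E0 ℂ (m b))).trans (finrank_E0 (by omega))
    have h3 := codim_ge (SS_sq (m b)) (SS_tr (m b)) nn_form nn_br hw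
    omega
  -- the block `a`
  have hall : ∀ w, RR (SS ℂ (2 * m a)) w w ∈ nn (SS ℂ (2 * m a)) (tt (LM T) a) := by
    by_contra hcon
    push Not at hcon
    obtain ⟨w', hw'⟩ := hcon
    have hsum : ∀ v, ∃ k ∈ nn (SS ℂ (2 * m a)) (tt (LM T) a),
        ∃ e ∈ (E00 (m a)).map ((LinearMap.mulLeft ℂ (p a)).comp (LinearMap.mulRight ℂ (p a)⁻¹)),
        vecMulVec v v * SS ℂ (2 * m a) = k + e := by
      intro v
      obtain ⟨Y, α, hY, hV⟩ := hHT a v
      have hV' := hnr _ hV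
      -- the eigenvalue is zero
      obtain ⟨β, hβ⟩ := (hY b).2
      have h1 := conj_sim (hp b) (hps b) hβ
      have h2 := sim_nn hV' b (β := β) (by rw [Pi.single_eq_of_ne hab, add_zero]; exact h1)
      rw [Pi.single_eq_of_ne hab, add_zero] at h2
      have h3 : p b * (Y b - (β / 2) • 1) * (p b)⁻¹ = p b * Y b * (p b)⁻¹ - (β / 2) • 1 := by
        rw [Matrix.mul_sub, Matrix.sub_mul, Matrix.mul_smul, Matrix.mul_one, Matrix.smul_mul, hp']
      have h4 : (Y b - (β / 2) • 1) ∈ E0 ℂ (m b) := by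
        refine ⟨⟨α, ?_⟩, ?_⟩
        · rw [← (hY b).1]
          simp only [Matrix.sub_mul, Matrix.mul_sub, Matrix.smul_mul, Matrix.mul_smul, Matrix.one_mul, Matrix.mul_one]
          abel
        · have h5 : (Y b - (β / 2) • (1 : Matrix (Fin (2 * m b)) (Fin (2 * m b)) ℂ)) * SS ℂ (2 * m b) +
              SS ℂ (2 * m b) * (Y b - (β / 2) • 1)ᵀ =
              (Y b * SS ℂ (2 * m b) + SS ℂ (2 * m b) * (Y b)ᵀ) - (β / 2 + β / 2) • SS ℂ (2 * m b) := by
            simp only [Matrix.sub_mul, Matrix.mul_sub, Matrix.transpose_sub, Matrix.transpose_smul, Matrix.transpose_one,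
              Matrix.smul_mul, Matrix.mul_smul, Matrix.one_mul, Matrix.mul_one, add_smul]
            abel
          rw [h5, hβ, add_halves, sub_self]
      have h5 := hb0 (p b * (Y b - (β / 2) • 1) * (p b)⁻¹) ⟨_, h4, by
        change p b * ((Y b - (β / 2) • 1) * (p b)⁻¹) = _
        rw [Matrix.mul_assoc]⟩ (by rw [h3]; exact h2)
      have h6 : Y b - (β / 2) • 1 = 0 := by
        have h7 : (p b)⁻¹ * (p b * (Y b - (β / 2) • 1) * (p b)⁻¹) * p b = Y b - (β / 2) • 1 := by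
          have h8 : (p b)⁻¹ * (p b * (Y b - (β / 2) • 1) * (p b)⁻¹) * p b =
              ((p b)⁻¹ * p b) * (Y b - (β / 2) • 1) * ((p b)⁻¹ * p b) := by simp only [Matrix.mul_assoc]
          rw [h8, hp, Matrix.one_mul, Matrix.mul_one]
        rw [← h7, h5, Matrix.mul_zero, Matrix.zero_mul]
      have hα : α = 0 := by
        have h7 := (hY b).1
        rw [sub_eq_zero.1 h6, Matrix.smul_mul, Matrix.mul_smul, Matrix.one_mul, Matrix.mul_one, sub_self] at h7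
        exact (smul_eq_zero.1 h7.symm).resolve_right (NN_ne (by omega))
      -- the block `a`
      obtain ⟨γ, hγ⟩ := (hY a).2
      have hYa := (hY a).1
      rw [hα, zero_smul] at hYa
      have h7 := conj_sim (hp a) (hps a) hγ
      have hvv : vecMulVec v v * SS ℂ (2 * m a) * SS ℂ (2 * m a) + SS ℂ (2 * m a) * (vecMulVec v v * SS ℂ (2 * m a))ᵀ = 0 := by
        rw [Matrix.transpose_mul, Matrix.transpose_vecMulVec, SS_tr, Matrix.mul_assoc, SS_sq, ← Matrix.mul_assoc,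
          Matrix.mul_neg, Matrix.mul_neg, SS_sq, Matrix.mul_one, neg_neg, Matrix.one_mul, neg_add_cancel]
      have h8 := sim_nn hV' a (β := γ) (by
        rw [Pi.single_eq_same, Matrix.add_mul, Matrix.transpose_add, Matrix.mul_add]
        have h9 : p a * Y a * (p a)⁻¹ * SS ℂ (2 * m a) + vecMulVec v v * SS ℂ (2 * m a) * SS ℂ (2 * m a) +
          (SS ℂ (2 * m a) * (p a * Y a * (p a)⁻¹)ᵀ + SS ℂ (2 * m a) * (vecMulVec v v * SS ℂ (2 * m a))ᵀ) =
          (p a * Y a * (p a)⁻¹ * SS ℂ (2 * m a) + SS ℂ (2 * m a) * (p a * Y a * (p a)⁻¹)ᵀ) +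
          (vecMulVec v v * SS ℂ (2 * m a) * SS ℂ (2 * m a) + SS ℂ (2 * m a) * (vecMulVec v v * SS ℂ (2 * m a))ᵀ) := by abel
        rw [h9, h7, hvv, add_zero])
      rw [Pi.single_eq_same] at h8
      have h9 : (Y a - (γ / 2) • 1) ∈ E00 (m a) := by
        refine ⟨?_, ?_⟩
        · rw [← hYa]
          simp only [Matrix.sub_mul, Matrix.mul_sub, Matrix.smul_mul, Matrix.mul_smul, Matrix.one_mul, Matrix.mul_one]
          abel
        · have h5 : (Y a - (γ / 2) • (1 : Matrix (Fin (2 * m a)) (Fin (2 * m a)) ℂ)) * SS ℂ (2 * m a) +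
              SS ℂ (2 * m a) * (Y a - (γ / 2) • 1)ᵀ =
              (Y a * SS ℂ (2 * m a) + SS ℂ (2 * m a) * (Y a)ᵀ) - (γ / 2 + γ / 2) • SS ℂ (2 * m a) := by
            simp only [Matrix.sub_mul, Matrix.mul_sub, Matrix.transpose_sub, Matrix.transpose_smul, Matrix.transpose_one,
              Matrix.smul_mul, Matrix.mul_smul, Matrix.one_mul, Matrix.mul_one, add_smul]
            abel
          rw [h5, hγ, add_halves, sub_self]
      refine ⟨_, h8, -(p a * (Y a - (γ / 2) • 1) * (p a)⁻¹), Submodule.neg_mem _ ⟨_, h9, ?_⟩, ?_⟩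
      · change p a * ((Y a - (γ / 2) • 1) * (p a)⁻¹) = _
        rw [Matrix.mul_assoc]
      · have h10 : p a * (Y a - (γ / 2) • 1) * (p a)⁻¹ = p a * Y a * (p a)⁻¹ - (γ / 2) • 1 := by
          rw [Matrix.mul_sub, Matrix.sub_mul, Matrix.mul_smul, Matrix.mul_one, Matrix.smul_mul, hp']
        rw [h10]
        abel
    have h1 := finrank_PP (SS_sq (m a)) hsum
    have h2 := (Submodule.finrank_map_le ((LinearMap.mulLeft ℂ (p a)).comp (LinearMap.mulRight ℂ (p a)⁻¹))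
      (E00 (m a))).trans (finrank_E00 (by omega))
    have h3 := codim_ge (SS_sq (m a)) (SS_tr (m a)) nn_form nn_br hw'
    omega
  obtain ⟨v, hv, hvv⟩ := exists_vv hm hK hT hd hcT hp hps hHT.ht a
  intro w
  have h1 := simple (SS_sq (m a)) (SS_tr (m a)) (fun w => (hall w).2) hv hvv w
  rw [RR_two] at h1
  have h2 := Submodule.smul_mem _ (2⁻¹ : ℂ) h1
  rw [smul_smul, inv_mul_cancel₀ two_ne_zero, one_smul] at h2
  exact h2

end block

end Pool.Agent.W2helper4.TS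

end
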