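import Pool.Agent.W2helper4.TS.Ult
import Pool.Agent.W2helper4.TS.Main2

/-!
# Tangent vectors for rational structures with the same constant
-/

set_option autoImplicit false
set_option linter.unusedSectionVars false
set_option maxHeartbeats 1000000

open Matrix Filter Module

noncomputable section

namespace Pool.Agent.W2helper4.TS

open Pool.Agent.Y113.MT Pool.Agent.Y123.ST

variable {s : ℕ} {m : Fin s → ℕ}

/-- similitudes which normalise the line of `N`, with a given eigenvalue -/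
def EA {F : Type} [Field F] {k : ℕ} (α : F) (Y : Matrix (Fin (2 * k)) (Fin (2 * k)) F) : Prop :=
  Y * NN F (2 * k) - NN F (2 * k) * Y = α • NN F (2 * k) ∧ ∃ b : F, Y * SS F (2 * k) + SS F (2 * k) * Yᵀ = b • SS F (2 * k)

theorem EA.mem {k : ℕ} {α : ℂ} {Y : Matrix (Fin (2 * k)) (Fin (2 * k)) ℂ} (h : EA α Y) : Y ∈ Ep ℂ k := ⟨⟨α, h.1⟩, h.2⟩

/-- **The hypothesis on the tangent vectors**, with the same eigenvalue for all blocks. -/
def HT2 (m : Fin s → ℕ) (K : Subfield ℂ) (d : ℕ) (c : Matrix (BI m) (BI m) ℂ) (p : Bk m) : Prop :=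
  ∀ (a : Fin s) (v : Fin (2 * m a) → ℂ), ∃ (Y : Bk m) (α : ℂ), (∀ b, EA α (Y b)) ∧
    bd (fun b => p b * Y b * (p b)⁻¹ + (Pi.single a (vecMulVec v v * SS ℂ (2 * m a)) : Bk m) b) ∈ Tan K d c

theorem HT2.ht {K : Subfield ℂ} {d : ℕ} {c : Matrix (BI m) (BI m) ℂ} {p : Bk m} (h : HT2 m K d c p) : HT m K d c p := by
  intro a v
  obtain ⟨Y, α, h1, h2⟩ := h a v
  exact ⟨Y, fun b => (h1 b).mem, h2⟩

section uf
variable {k : ℕ}

/-- the logarithmic derivative of the rational structure -/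
theorem logder_C2 (Dr : Derivation ℤ UF UF) (hD : ∀ c ∈ UK, Dr c = 0) {C : ℕ → Matrix (Fin (2 * k)) (Fin (2 * k)) ℂ}
    {M A : ℕ → Matrix (Fin (2 * k)) (Fin (2 * k)) ℚ} {q κ : ℕ → ℂ} (hC : ∀ i, (C i).det ≠ 0) (hq : ∀ i, q i ≠ 0)
    (hM : ∀ i, C i * cq (M i) = q i • (NN ℂ (2 * k) * C i)) (hκ : ∀ i, κ i ≠ 0)
    (hA : ∀ i, C i * cq (A i) * (C i)ᵀ = κ i • SS ℂ (2 * k)) :
    ∃ Y : Matrix (Fin (2 * k)) (Fin (2 * k)) UF, (gm C).map Dr = Y * gm C ∧ EA (Dr (rh q) / rh q) Y := by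
  have hu : IsUnit (gm C).det := by
    rw [gm_det, isUnit_iff_ne_zero]
    exact rh_ne hC
  set G := gm C with hG
  have hGi : G⁻¹ * G = 1 := Matrix.nonsing_inv_mul _ hu
  have hGi' : G * G⁻¹ = 1 := Matrix.mul_nonsing_inv _ hu
  have hGt : Gᵀ * (G⁻¹)ᵀ = 1 := by rw [← Matrix.transpose_mul, hGi, Matrix.transpose_one]
  have hq' : rh q ≠ 0 := rh_ne hq
  have hκ' : rh κ ≠ 0 := rh_ne hκ
  obtain ⟨Y, hYG⟩ : ∃ Y : Matrix (Fin (2 * k)) (Fin (2 * k)) UF, G.map Dr = Y * G :=
    ⟨G.map Dr * G⁻¹, by rw [Matrix.mul_assoc, hGi, Matrix.mul_one]⟩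
  have hNN : (NN UF (2 * k)).map Dr = 0 := dmap_zero Dr (NN_d Dr)
  have hSS : (SS UF (2 * k)).map Dr = 0 := by
    refine dmap_zero Dr fun i j => ?_
    rw [SS_apply]
    split_ifs
    · have h1 : ((-1 : UF)) ^ (i : ℕ) = (((-1 : ℤ) ^ (i : ℕ) : ℤ) : UF) := by push_cast; rfl
      rw [h1]
      exact Dr.map_intCast _
    · exact map_zero Dr
  have hMu : G * gm (fun i => cq (M i)) = rh q • (NN UF (2 * k) * G) := by
    rw [hG, ← gm_mul, ← gm_NN, ← gm_mul, ← gm_smul]
    congr 1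
    funext i
    exact hM i
  have hAu : G * gm (fun i => cq (A i)) * Gᵀ = rh κ • SS UF (2 * k) := by
    rw [hG, ← gm_mul, ← gm_tr, ← gm_mul, ← gm_SS, ← gm_smul]
    congr 1
    funext i
    exact hA i
  have hMd : (gm fun i => cq (M i)).map Dr = 0 := dmap_zero Dr fun i j => hD _ (gm_cq M i j)
  have hAd : (gm fun i => cq (A i)).map Dr = 0 := dmap_zero Dr fun i j => hD _ (gm_cq A i j)
  refine ⟨Y, hYG, ?_, Dr (rh κ) / rh κ, ?_⟩
  · have h1 : (G * gm (fun i => cq (M i))).map Dr = (rh q • (NN UF (2 * k) * G)).map Dr := by rw [hMu]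
    rw [dmap_mul, hMd, Matrix.mul_zero, add_zero, dmap_smul, dmap_mul, hNN, Matrix.zero_mul, zero_add, hYG] at h1
    rw [Matrix.mul_assoc, hMu] at h1
    have h2 := congrArg (fun X => X * G⁻¹) h1
    simp only [Matrix.add_mul, Matrix.smul_mul, Matrix.mul_smul] at h2
    have h3 : Y * (NN UF (2 * k) * G) * G⁻¹ = Y * NN UF (2 * k) := by
      rw [← Matrix.mul_assoc Y, Matrix.mul_assoc (Y * NN UF (2 * k)), hGi', Matrix.mul_one]
    have h4 : NN UF (2 * k) * G * G⁻¹ = NN UF (2 * k) := by rw [Matrix.mul_assoc, hGi', Matrix.mul_one]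
    have h5 : NN UF (2 * k) * (Y * G) * G⁻¹ = NN UF (2 * k) * Y := by
      rw [← Matrix.mul_assoc (NN UF (2 * k)), Matrix.mul_assoc (NN UF (2 * k) * Y), hGi', Matrix.mul_one]
    rw [h3, h4, h5] at h2
    have h6 : rh q • (Y * NN UF (2 * k) - NN UF (2 * k) * Y) = Dr (rh q) • NN UF (2 * k) := by
      rw [smul_sub, h2, add_sub_cancel_right]
    rw [div_eq_inv_mul, mul_smul, ← h6, smul_smul, inv_mul_cancel₀ hq', one_smul]
  · have h1 : (G * gm (fun i => cq (A i)) * Gᵀ).map Dr = (rh κ • SS UF (2 * k)).map Dr := by rw [hAu]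
    rw [dmap_mul, dmap_mul, hAd, Matrix.mul_zero, add_zero, dmap_smul, hSS, smul_zero, add_zero, dmap_tr, hYG,
      Matrix.transpose_mul] at h1
    have h2 : Y * G * gm (fun i => cq (A i)) * Gᵀ = rh κ • (Y * SS UF (2 * k)) := by
      have h3 : Y * G * gm (fun i => cq (A i)) * Gᵀ = Y * (G * gm (fun i => cq (A i)) * Gᵀ) := by
        simp only [Matrix.mul_assoc]
      rw [h3, hAu, Matrix.mul_smul]
    have h4 : G * gm (fun i => cq (A i)) * (Gᵀ * Yᵀ) = rh κ • (SS UF (2 * k) * Yᵀ) := by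
      rw [← Matrix.mul_assoc, hAu, Matrix.smul_mul]
    rw [h2, h4, ← smul_add] at h1
    rw [div_eq_inv_mul, mul_smul, ← h1, smul_smul, inv_mul_cancel₀ hκ', one_smul]

end uf

/-- **The tangent vectors of sequences.** -/
theorem ut2 (a : Fin s) {d D : ℕ} {p C : ℕ → Bk m} {M A : ℕ → ∀ b, Matrix (Fin (2 * m b)) (Fin (2 * m b)) ℚ}
    {q : ℕ → ℂ} {κ : ℕ → Fin s → ℂ} {K : ℕ → Subfield ℂ} {v : ℕ → (Fin (2 * m a) → ℂ)}
    (hp : ∀ k b, (p k b)ᵀ * SS ℂ (2 * m b) * p k b = SS ℂ (2 * m b)) (hgen : ∀ k, GenJ m k (p k))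
    (hC : ∀ k b, (C k b).det ≠ 0) (hq : ∀ k, q k ≠ 0)
    (hM : ∀ k b, C k b * cq (M k b) = q k • (NN ℂ (2 * m b) * C k b)) (hκ : ∀ k b, κ k b ≠ 0)
    (hA : ∀ k b, C k b * cq (A k b) * (C k b)ᵀ = κ k b • SS ℂ (2 * m b))
    (hK : ∀ k, ∀ x ∈ K k, ∃ f : Polynomial ℚ, f ≠ 0 ∧ f.natDegree ≤ D ∧ Polynomial.aeval x f = 0) :
    ∃ k, ∃ (Y : Bk m) (α : ℂ), (∀ b, EA α (Y b)) ∧
      bd (fun b => p k b * Y b * (p k b)⁻¹ + (Pi.single a (vecMulVec (v k) (v k) * SS ℂ (2 * m a)) : Bk m) b) ∈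
        Tan (K k) d (bd fun b => p k b * C k b) := by
  classical
  by_contra hcon
  push Not at hcon
  have hpd : ∀ k b, IsUnit (p k b).det := by
    intro k b
    have h1 := congrArg Matrix.det (hp k b)
    rw [Matrix.det_mul, Matrix.det_mul] at h1
    rw [isUnit_iff_ne_zero]
    intro h0
    rw [h0, mul_zero] at h1
    exact SS_det (F := ℂ) (m b) h1.symm
  have hpi : ∀ k b, (p k b)⁻¹ * p k b = 1 := fun k b => Matrix.nonsing_inv_mul _ (hpd k b)
  have hpi' : ∀ k b, p k b * (p k b)⁻¹ = 1 := fun k b => Matrix.mul_nonsing_inv _ (hpd k b)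
  -- the derivation
  let u : ℕ → (Fin (2 * m a) → ℂ) := fun k => (p k a)⁻¹ *ᵥ v k
  let uu : Fin (2 * m a) → UF := fun i => rh fun k => u k i
  obtain ⟨Dr, hD, hDx⟩ := gen_all UK
    (Sum.elim (fun x : {x : Σ b, Fin (2 * m b) × Fin (2 * m b) // x.1 ≠ a} => rh fun k => p k x.1.1 x.1.2.1 x.1.2.2)
      fun z : Fin (2 * m a) × Fin (2 * m a) => gm (fun k => p k a) z.1 z.2)
    (Sum.elim (fun _ => 0) fun z : Fin (2 * m a) × Fin (2 * m a) =>
      (gm (fun k => p k a) * (vecMulVec uu uu * gm fun _ => SS ℂ (2 * m a))) z.1 z.2)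
    (fun P hP => generic2 (SS_tr (m a)) (fun k => hp k a)
      (fun k => fun x : {x : Σ b, Fin (2 * m b) × Fin (2 * m b) // x.1 ≠ a} => p k x.1.1 x.1.2.1 x.1.2.2)
      (fun k P hP h0 h hh => (hgen k).one (hp k) a P hP h0 h hh) P hP uu)
  have hD1 : (gm fun k => p k a).map Dr = gm fun k => vecMulVec (v k) (v k) * SS ℂ (2 * m a) * p k a := by
    have h1 : (gm fun k => p k a).map Dr = gm (fun k => p k a) * (vecMulVec uu uu * gm fun _ => SS ℂ (2 * m a)) := by
      ext i j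
      exact hDx (Sum.inr (i, j))
    have h2 : (vecMulVec uu uu : Matrix (Fin (2 * m a)) (Fin (2 * m a)) UF) = gm fun k => vecMulVec (u k) (u k) := by
      ext i j
      rw [gm_apply, vecMulVec_apply]
      simp only [uu]
      rw [← map_mul]
      rfl
    rw [h1, h2, ← gm_mul, ← gm_mul]
    congr 1
    funext k
    have h3 : p k a *ᵥ u k = v k := by
      simp only [u]
      rw [mulVec_mulVec, hpi', one_mulVec]
    have h4 : u k ᵥ* SS ℂ (2 * m a) = (v k ᵥ* SS ℂ (2 * m a)) ᵥ* p k a := by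
      rw [← h3, vecMul_vecMul, ← vecMul_transpose, vecMul_vecMul, ← Matrix.mul_assoc, hp]
    rw [Matrix.vecMulVec_mul, Matrix.mul_vecMulVec, h3, h4, Matrix.vecMulVec_mul, Matrix.vecMulVec_mul]
  have hD0 : ∀ b, b ≠ a → (gm fun k => p k b).map Dr = 0 := by
    intro b hb
    refine dmap_zero Dr fun i j => ?_
    exact hDx (Sum.inl ⟨⟨b, (i, j)⟩, hb⟩)
  -- the rational structures
  choose Yu hYu hYE using fun b => logder_C2 Dr hD (C := fun k => C k b) (M := fun k => M k b) (A := fun k => A k b)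
    (q := q) (κ := fun k => κ k b) (fun k => hC k b) hq (fun k => hM k b) (fun k => hκ k b)
    (fun k => hA k b)
  choose Y hY using fun b => gm_surj (Yu b)
  obtain ⟨α, hα0⟩ := rh_surj (Dr (rh q) / rh q)
  have hgood : ∀ᶠ k in ((hyperfilter ℕ : Ultrafilter ℕ) : Filter ℕ), ∀ b, EA (α k) (Y b k) := by
    rw [eventually_all]
    intro b
    obtain ⟨hα, β, hβ⟩ := hYE b
    obtain ⟨β, rfl⟩ := rh_surj β
    rw [← hα0] at hα
    rw [hY b, ← gm_NN, ← gm_mul, ← gm_mul, ← gm_sub, ← gm_smul, gm_eq] at hα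
    rw [hY b, ← gm_SS, ← gm_tr, ← gm_mul, ← gm_mul, ← gm_add, ← gm_smul, gm_eq] at hβ
    filter_upwards [hα, hβ] with k h1 h2
    exact ⟨h1, β k, h2⟩
  -- the polynomials
  let V : ℕ → Bk m := fun k b => p k b * Y b k * (p k b)⁻¹ +
    (Pi.single a (vecMulVec (v k) (v k) * SS ℂ (2 * m a)) : Bk m) b
  have hex : ∀ k, ∃ P : MvPolynomial (BI m × BI m) ℂ, (∀ μ, P.coeff μ ∈ K k) ∧ P.totalDegree ≤ d ∧
      MvPolynomial.eval (fl (bd fun b => p k b * C k b)) P = 0 ∧ ((∀ b, EA (α k) (Y b k)) →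
      dd P (fl (bd fun b => p k b * C k b)) (fl (bd (V k) * bd fun b => p k b * C k b)) ≠ 0) := by
    intro k
    by_cases hk : ∀ b, EA (α k) (Y b k)
    · have h1 := hcon k (fun b => Y b k) (α k) hk
      by_contra h2
      push Not at h2
      refine h1 fun P hP1 hP2 hP3 => ?_
      exact (h2 P hP1 hP2 hP3).2
    · refine ⟨0, fun μ => ?_, ?_, ?_, fun h => absurd h hk⟩
      · rw [MvPolynomial.coeff_zero]
        exact (K k).zero_mem
      · rw [MvPolynomial.totalDegree_zero]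
        exact Nat.zero_le _
      · rw [map_zero]
  choose P hP1 hP2 hP3 hP4 using hex
  have htr := der_transfer hK Dr hD (fun k => fl (bd fun b => p k b * C k b))
    (fun k => fl (bd (V k) * bd fun b => p k b * C k b)) (by
      rintro ⟨⟨b, i⟩, ⟨b', j⟩⟩
      have hmul : ∀ k, bd (V k) * bd (fun b => p k b * C k b) = bd fun b => V k b * (p k b * C k b) := fun k =>
        (bd_mul _ _).symm
      simp only [hmul]
      rcases eq_or_ne b b' with rfl | hbb
      · have h1 : (fun k => fl (bd fun b => p k b * C k b) (⟨b, i⟩, ⟨b, j⟩)) = fun k => (p k b * C k b) i j := by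
          funext k
          exact bd_eq _ b i j
        have h2 : (fun k => fl (bd fun b => V k b * (p k b * C k b)) (⟨b, i⟩, ⟨b, j⟩)) =
            fun k => (V k b * (p k b * C k b)) i j := by
          funext k
          exact bd_eq _ b i j
        rw [h1, h2]
        have h3 : (gm fun k => p k b * C k b).map Dr = gm fun k => V k b * (p k b * C k b) := by
          have h5 : (gm fun k => C k b).map Dr = gm fun k => Y b k * C k b := by
            rw [hYu b, hY b, ← gm_mul]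
          rw [gm_mul, dmap_mul, h5, ← gm_mul]
          rcases eq_or_ne b a with rfl | hb
          · rw [hD1, ← gm_mul, ← gm_add]
            congr 1
            funext k
            simp only [V]
            rw [Pi.single_eq_same, Matrix.add_mul]
            have h6 : p k b * Y b k * (p k b)⁻¹ * (p k b * C k b) = p k b * (Y b k * C k b) := by
              have h7 : p k b * Y b k * (p k b)⁻¹ * (p k b * C k b) = p k b * Y b k * ((p k b)⁻¹ * p k b) * C k b := by
                simp only [Matrix.mul_assoc]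
              rw [h7, hpi, Matrix.mul_one, Matrix.mul_assoc]
            rw [h6, ← Matrix.mul_assoc (vecMulVec (v k) (v k) * SS ℂ (2 * m b)), add_comm]
          · rw [hD0 b hb, Matrix.zero_mul, zero_add]
            congr 1
            funext k
            simp only [V]
            rw [Pi.single_eq_of_ne hb, add_zero]
            have h7 : p k b * Y b k * (p k b)⁻¹ * (p k b * C k b) = p k b * Y b k * ((p k b)⁻¹ * p k b) * C k b := by
              simp only [Matrix.mul_assoc]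
            rw [h7, hpi, Matrix.mul_one, Matrix.mul_assoc]
        exact congrFun (congrFun h3 i) j
      · have h1 : (fun k => fl (bd fun b => p k b * C k b) (⟨b, i⟩, ⟨b', j⟩)) = fun _ => 0 := by
          funext k
          exact bd_ne _ hbb i j
        have h2 : (fun k => fl (bd fun b => V k b * (p k b * C k b)) (⟨b, i⟩, ⟨b', j⟩)) = fun _ => 0 := by
          funext k
          exact bd_ne _ hbb i j
        rw [h1, h2, rh_c0, map_zero])
    P hP1 hP2 hP3
  obtain ⟨k, hk1, hk2⟩ := (hgood.and htr).exists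
  exact hP4 k hk1 hk2

end Pool.Agent.W2helper4.TS

end
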