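import Pool.Agent.W2helper4.TS.Om
import Pool.Agent.W2helper4.CY.Nat

/-!
# Windows which start at the point itself
-/

set_option autoImplicit false
set_option linter.unusedSectionVars false
set_option maxHeartbeats 1000000

open Matrix Module

noncomputable section

namespace Pool.Agent.W2helper4.TS

open Pool.Agent.TH127.PT Pool.Agent.Y123.ST Pool.Agent.W2helper33.OQ Pool.Agent.W2helper33.BD Pool.Agent.Y113.MT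
open Pool.Agent.Y916.Al (Ht evc Cvc)
open Pool.Agent.W2helper4.CY (FV Max Mv)

variable {r : ℕ} {m : Fin r → ℕ} {P : ∀ i, Matrix (Fin (2 * m i)) (Fin (2 * m i)) (PowerSeries ℚ)}

/-- **Subtorsors through the period matrices of sums of fibres**, with the index zero. -/
theorem sub_fam0 (hm : ∀ i, 3 ≤ m i) {e : Fin r → ℕ} (h : ∀ i, FV (e i) (P i)) (hmax : Max P) :
    ∃ G0 : ℕ, 1 ≤ G0 ∧ ∃ b₀ : ℕ, (∀ α : ℂ, (b₀ : ℝ) < ‖α‖ → ∀ i a c, Cvc (1 / α) (P i a c)) ∧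
    (∀ α : ℂ, (b₀ : ℝ) < ‖α‖ → ∀ i, (Mv (P i) (1 / α))ᵀ * SS ℂ (2 * m i) * Mv (P i) (1 / α) = SS ℂ (2 * m i)) ∧
    ∀ g : ℕ, G0 ≤ g → ∀ g₀ A₀ D s : ℕ, ∃ Ex : ℕ, ∀ (b : ℕ) (ξ : ℂ), ((b : ℝ) + 2) ^ Ex ≤ ‖ξ‖ → Ht g₀ A₀ ξ →
    (g * b : ℝ) + b₀ + 1 < ‖ξ‖ ∧
    ∀ (c : Fin s → Fin r) (u : Fin s → ℕ), (∀ a, u a ≤ b) → (∀ a a', a ≠ a' → c a = c a' → u a ≠ u a') →
    ∀ (C : ∀ a, Matrix (Fin (2 * m (c a))) (Fin (2 * m (c a))) ℂ)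
      (M A : ∀ a, Matrix (Fin (2 * m (c a))) (Fin (2 * m (c a))) ℚ) (q κ : Fin s → ℂ), (∀ a, (C a).det ≠ 0) →
    (∀ a, q a ≠ 0) → (∀ a, C a * cq (M a) = q a • (NN ℂ (2 * m (c a)) * C a)) → (∀ a, κ a ≠ 0) →
    (∀ a, C a * cq (A a) * (C a)ᵀ = κ a • SS ℂ (2 * m (c a))) →
    ∀ K : Subfield ℂ, Bdd D K → ∀ T : Set (Matrix (BI fun a => m (c a)) (BI fun a => m (c a)) ℂ), IsSubtorsor K T →
    (bd fun a => Mv (P (c a)) (1 / (ξ - ((g * u a : ℕ) : ℂ))) * C a) ∈ T → gS (fun a => m (c a)) ≤ LM T := by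
  obtain ⟨G0, hG0, b₀, hb₀, hb₁, hmain⟩ := sub_fam hm h hmax
  refine ⟨G0, hG0, b₀, hb₀, hb₁, fun g hg g₀ A₀ D s => ?_⟩
  obtain ⟨Ex, hE⟩ := hmain g hg g₀ (A₀ + 1) D s
  obtain ⟨B, hB⟩ := Pool.Agent.Y119.HA.ht_add g₀ A₀ g
  obtain ⟨N₁, hN₁⟩ := exists_nat_ge B
  refine ⟨2 * Ex + N₁ + g + b₀ + 2, fun b ξ hξ hHt => ?_⟩
  have hb0 : (0 : ℝ) ≤ b := Nat.cast_nonneg b
  have hB1 : (1 : ℝ) ≤ (b : ℝ) + 2 := by linarith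
  have hB2 : (2 : ℝ) ≤ (b : ℝ) + 2 := by linarith
  have hg0 : (0 : ℝ) ≤ g := Nat.cast_nonneg g
  have hbb : (0 : ℝ) ≤ b₀ := Nat.cast_nonneg b₀
  have hNN : (0 : ℝ) ≤ N₁ := Nat.cast_nonneg N₁
  -- powers
  have hp1 : (N₁ : ℝ) + g + b₀ + 1 ≤ ((b : ℝ) + 2) ^ (N₁ + g + b₀ + 1) := by
    refine le_trans ?_ (pow_le_pow_left₀ (by norm_num) hB2 _)
    exact_mod_cast (Nat.lt_two_pow_self (n := N₁ + g + b₀ + 1)).le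
  have hp2 : (1 : ℝ) ≤ ((b : ℝ) + 2) ^ (2 * Ex) := one_le_pow₀ hB1
  have hsplit : ((b : ℝ) + 2) ^ (2 * Ex + N₁ + g + b₀ + 2) =
      ((b : ℝ) + 2) ^ (2 * Ex) * (((b : ℝ) + 2) ^ (N₁ + g + b₀ + 1) * ((b : ℝ) + 2)) := by
    rw [← pow_succ, ← pow_add]
    congr 1
    omega
  have hX : ((N₁ : ℝ) + g + b₀ + 1) * ((b : ℝ) + 2) ≤ ((b : ℝ) + 2) ^ (N₁ + g + b₀ + 1) * ((b : ℝ) + 2) :=
    mul_le_mul_of_nonneg_right hp1 (by linarith)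
  set Y := ((b : ℝ) + 2) ^ (N₁ + g + b₀ + 1) * ((b : ℝ) + 2) with hY
  set Z := ((b : ℝ) + 2) ^ (2 * Ex) with hZ
  have hY0 : (0 : ℝ) ≤ Y := by positivity
  have hZY : Z * Y ≤ ‖ξ‖ := by rw [← hsplit]; exact hξ
  have hYZ : Y ≤ Z * Y := by nlinarith
  have hYξ : Y ≤ ‖ξ‖ := hYZ.trans hZY
  have hYbig : (N₁ : ℝ) + g * b + 2 * g + b₀ + 2 ≤ Y := by nlinarith [mul_nonneg hNN hb0, mul_nonneg hbb hb0]
  have hY2 : (2 : ℝ) ≤ Y := by nlinarith [mul_nonneg hg0 hb0]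
  have hZg : Z + g ≤ Z * Y := by
    have h1 : (0 : ℝ) ≤ (Z - 1) * (Y - 1) := mul_nonneg (by linarith) (by linarith)
    nlinarith [mul_nonneg hg0 hb0]
  have hHt' := hB ξ (by
    have : (N₁ : ℝ) ≤ ‖ξ‖ := by nlinarith [mul_nonneg hg0 hb0]
    linarith) hHt
  have hnorm : ‖ξ‖ - g ≤ ‖ξ + (g : ℂ)‖ := by
    have h1 := norm_sub_norm_le ξ (-(g : ℂ))
    rw [norm_neg, Complex.norm_natCast, sub_neg_eq_add] at h1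
    exact h1
  have hbig : (((b + 1 : ℕ) : ℝ) + 2) ^ Ex ≤ ‖ξ + (g : ℂ)‖ := by
    have h1 : (((b + 1 : ℕ) : ℝ) + 2) ^ Ex ≤ Z := by
      rw [hZ, pow_mul]
      refine pow_le_pow_left₀ (by positivity) ?_ _
      push_cast
      nlinarith
    linarith
  obtain ⟨-, hmm⟩ := hE (b + 1) (ξ + g) hbig hHt'
  refine ⟨by nlinarith, fun c u hub huc => ?_⟩
  have h1 := hmm c (fun a => u a + 1) (fun a => ⟨by omega, by have := hub a; omega⟩)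
    (fun a a' haa hc hu => huc a a' haa hc (by omega))
  have h2 : ∀ a, (ξ + (g : ℂ)) - ((g * (u a + 1) : ℕ) : ℂ) = ξ - ((g * u a : ℕ) : ℂ) := by
    intro a
    push_cast
    ring
  simp only [h2] at h1
  exact h1

end Pool.Agent.W2helper4.TS

end
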